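import Pool.Agent.Helper30K1.Sc
import Pool.Agent.Y458.NS.AL2

/-!
One velocity component (helper30): the paths of the moving frames stay in the slabs.
-/

set_option autoImplicit false

open MeasureTheory Set Metric Filter Topology
open scoped ContDiff ENNReal

namespace Pool.Agent.Helper30K1

open H459R3.NS W221.NS Pool.Agent.Y8

theorem rr_add (n a : ℕ) : rr n = 2 ^ a * rr (n + a) := by
  unfold rr
  rw [pow_add, mul_left_comm, ← mul_pow]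
  norm_num

/-- The bound of the energy in the slabs. -/
def SlA (G : Set ℝ) (u : ℝ → V → V) (j : Fin 3) (c t₀ : ℝ) (k₀ : ℕ) (M : ℝ) : Prop :=
  ∀ n ≥ k₀, ∀ t ∈ Ioo (t₀ - rr n ^ 2) t₀ ∩ G, Ab (u t) j c (rr n) ≤ ENNReal.ofReal (M * rr n)

/-- The bound of the dissipation in the slabs. -/
def SlB (G : Set ℝ) (u : ℝ → V → V) (j : Fin 3) (c t₀ : ℝ) (k₀ : ℕ) (M : ℝ) : Prop :=
  ∀ n ≥ k₀, ∫⁻ t in Ioo (t₀ - rr n ^ 2) t₀ ∩ G, Bb (u t) j c (rr n) ≤ ENNReal.ofReal (M * rr n)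

/-- The dissipation away from the tip is small at some scales. -/
def SlS (G : Set ℝ) (u : ℝ → V → V) (j : Fin 3) (c t₀ : ℝ) : Prop :=
  ∀ (L N : ℕ) (ε : ℝ), 0 < ε → ∃ m ≥ N, ∫⁻ t in Ioo (t₀ - rr m ^ 2) (t₀ - rr (m + L) ^ 2) ∩ G,
    Bb (u t) j c (rr m) ≤ ENNReal.ofReal (ε * rr m)

/-- The bound of the mean in the slab. -/
theorem mo_slab {K : ℝ} (hK : 0 < K) (hmo : ∀ (w : V → V), ContDiff ℝ ∞ w → ∀ (r : ℝ) (y : V),
    0 < r → ‖mo r w y‖ ^ 2 ≤ K * (r ^ 3)⁻¹ * A2 y r w) {v : V → V} (hv : SPV v) {j : Fin 3}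
    {c M : ℝ} (hM : 0 ≤ M) {n a : ℕ} (ha : 5 ≤ a)
    (hA : Ab v j c (rr n) ≤ ENNReal.ofReal (M * rr n)) {x : V}
    (hx : |x j - c| + rr (n + a) ≤ rr n) :
    ‖mo (rr (n + a)) v x‖ ≤ √(K * M * 2 ^ a) / rr (n + a) := by
  have hr := rr_pos (n + a)
  have hn := rr_pos n
  have hR := rr_add n a
  have hr2 : rr (n + a) ≤ 1 / 2 := by
    have h1 := rr_le_one n
    have h2 : (2 : ℝ) ^ 5 ≤ 2 ^ a := pow_le_pow_right₀ (by norm_num) ha
    nlinarith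
  have h1 := hmo v hv.1 (rr (n + a)) x hr
  have h2 := (A2_slab hv hx hr2).trans hA
  have h3 : A2 x (rr (n + a)) v ≤ M * rr n := (ENNReal.ofReal_le_ofReal_iff (by positivity)).1 h2
  have h4 : ‖mo (rr (n + a)) v x‖ ^ 2 ≤ K * M * 2 ^ a / rr (n + a) ^ 2 := by
    calc ‖mo (rr (n + a)) v x‖ ^ 2 ≤ K * (rr (n + a) ^ 3)⁻¹ * (M * rr n) := by
          refine h1.trans ?_
          gcongr
      _ = _ := by
          rw [hR]
          field_simp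
  calc ‖mo (rr (n + a)) v x‖ = √(‖mo (rr (n + a)) v x‖ ^ 2) := (Real.sqrt_sq (norm_nonneg _)).symm
    _ ≤ √(K * M * 2 ^ a / rr (n + a) ^ 2) := Real.sqrt_le_sqrt h4
    _ = _ := by rw [Real.sqrt_div' _ (by positivity), Real.sqrt_sq hr.le]

/-- The path stays in the slab. -/
theorem conf {K : ℝ} (hK : 0 < K) (hmo : ∀ (w : V → V), ContDiff ℝ ∞ w → ∀ (r : ℝ) (y : V),
    0 < r → ‖mo r w y‖ ^ 2 ≤ K * (r ^ 3)⁻¹ * A2 y r w) {T E D : ℝ} {G : Set ℝ} {u : ℝ → V → V}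
    {p : ℝ → V → ℝ} (h : Turb 1 T E D G u p) {j : Fin 3} {c t₀ M : ℝ} (hM : 0 ≤ M)
    (ht₀ : t₀ ∈ Ioo 0 T) {a : ℕ} (ha : 5 ≤ a)
    (haM : 4 * (K * M) < 2 ^ a) {n : ℕ} (hA : ∀ t ∈ Ioo (t₀ - rr n ^ 2) t₀ ∩ G,
      Ab (u t) j c (rr n) ≤ ENNReal.ofReal (M * rr n)) {X Y : ℝ → V} {B C : ℝ}
    (hX : FPath T (rr (n + a)) B C G u p X Y) {x₀ : V} (hx₀ : x₀ j = c) (hX0 : X t₀ = x₀)
    {L : ℝ} (hL0 : 0 < L) (hL : L ≤ rr (n + a) ^ 2) (hLt : L < t₀) :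
    ∀ t ∈ Ioo (t₀ - L) t₀, ‖X t - x₀‖ ≤ 2 ^ a / 2 * L / rr (n + a) := by
  intro t ht
  by_contra hcon
  rw [not_le] at hcon
  have hr := rr_pos (n + a)
  have hR := rr_add n a
  have hrn := rr_pos n
  have h32 : (2 : ℝ) ^ 5 ≤ 2 ^ a := pow_le_pow_right₀ (by norm_num) ha
  set ρ : ℝ := 2 ^ a / 2 * L / rr (n + a) with hρ
  have hρ0 : 0 < ρ := by positivity
  have hρR : ρ ≤ rr n / 2 := by
    rw [hρ, div_le_iff₀ hr, hR]
    calc 2 ^ a / 2 * L ≤ 2 ^ a / 2 * rr (n + a) ^ 2 := by gcongr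
      _ = _ := by ring
  have hsub : uIcc t₀ t ⊆ Ioo 0 T := by
    rw [uIcc_of_ge ht.2.le]
    intro x hx
    exact ⟨by linarith [hx.1, ht.1], hx.2.trans_lt ht₀.2⟩
  have hsubo : uIoc t₀ t ⊆ Ioo 0 T := uIoc_subset_uIcc.trans hsub
  have hae : ∀ᵐ τ ∂(volume.restrict (uIoc t₀ t)), τ ∈ G \ {t₀} := by
    have h1 : ∀ᵐ τ ∂(volume.restrict (uIoc t₀ t)), τ ∈ G := by
      rw [ae_restrict_iff' measurableSet_uIoc]
      exact Pool.Agent.Y458.NS.sub_ae h hsubo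
    have h2 : ∀ᵐ τ ∂(volume.restrict (uIoc t₀ t)), τ ≠ t₀ := by
      refine ae_restrict_of_ae ?_
      exact (measure_eq_zero_iff_ae_notMem.1 (measure_singleton t₀)).mono fun τ hτ => by
        simpa using hτ
    filter_upwards [h1, h2] with τ h3 h4
    exact ⟨h3, h4⟩
  have hft := Pool.Agent.Y458.NS.first_time (X := X) (Y := Y) (N := fun _ => (0 : ℝ))
    (G := G \ {t₀}) (t₀ := t₀) (t := t) (r := ρ) (L := L) (a := √(K * M * 2 ^ a) / rr (n + a))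
    (b := 0) hρ0 (by positivity) le_rfl (fun x hx => hX.hd x (hsub hx))
    (intervalIntegrable_iff.2 ((Pool.Agent.Y458.NS.FPath_Y_int h hX).mono_set hsubo))
    (by
      rw [abs_le]
      constructor
      · linarith [ht.1]
      · linarith [ht.2])
    (by rw [hX0]; exact hcon) hae (integrableOn_const (by simp)) (fun _ => le_rfl) (by
      intro τ hτ hτI hle
      rw [hX0] at hle
      rw [hX.ev τ hτ.1, mul_zero, add_zero]
      rw [uIoc_of_ge ht.2.le] at hτI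
      have hτt : τ < t₀ := lt_of_le_of_ne hτI.2 hτ.2
      have hτ2 : τ ∈ Ioo (t₀ - rr n ^ 2) t₀ ∩ G := by
        refine ⟨⟨?_, hτt⟩, hτ.1⟩
        have h5 : rr (n + a) ^ 2 ≤ rr n ^ 2 :=
          pow_le_pow_left₀ hr.le (rr_anti (Nat.le_add_right n a)) 2
        linarith [ht.1, hτI.1]
      have hτG := hA τ hτ2
      refine mo_slab hK hmo (h.spv hτ.1) hM ha hτG ?_
      have h6 : |X τ j - c| ≤ ρ := by
        have h7 := (norm_le_pi_norm (X τ - x₀) j).trans hle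
        rw [Pi.sub_apply, hx₀, Real.norm_eq_abs] at h7
        exact h7
      have h8 : rr (n + a) ≤ rr n / 2 := by
        rw [hR]
        nlinarith
      linarith)
  rw [zero_mul, add_zero] at hft
  have h9 : √(K * M * 2 ^ a) < 2 ^ a / 2 := by
    rw [Real.sqrt_lt' (by positivity)]
    have : (0 : ℝ) < 2 ^ a := by positivity
    nlinarith
  have h10 : √(K * M * 2 ^ a) / rr (n + a) * L < ρ := by
    rw [hρ, div_mul_eq_mul_div]
    gcongr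
  linarith

end Pool.Agent.Helper30K1
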