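import Pool.Agent.Helper30K1.Gro

/-!
One velocity component (helper30): the number of the separated singular points in a box.
-/

set_option autoImplicit false

open MeasureTheory Set Metric Filter Topology
open scoped ContDiff ENNReal

namespace Pool.Agent.Helper30K1

open H459R3.NS W221.NS Pool.Agent.Y8

/-- A ball of radius one around the centre of the cube and the cube. -/
theorem ball27 {f : V → ℝ≥0∞} (hf : Per f) (j : Fin 3) (c R : ℝ) :
    ∫⁻ x in ball hc 1 ∩ Sb j c R, f x ≤ 27 * ∫⁻ x in cube ∩ Sb j c R, f x := by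
  classical
  set y : (Fin 3 → Fin 3) → V := fun e i => 1 / 2 + ((e i : ℕ) - 1) / 2 with hy
  have hsub : ball hc 1 ∩ Sb j c R ⊆ ⋃ e ∈ (Finset.univ : Finset (Fin 3 → Fin 3)),
      (ball (y e) (1 / 2) ∩ Sb j c R) := by
    intro x hx
    have hx1 : ∀ i, |x i - 1 / 2| < 1 := by
      intro i
      have h1 := mem_ball.1 hx.1
      have h2 : dist (x i) (hc i) ≤ dist x hc := dist_le_pi_dist x hc i
      rw [Real.dist_eq] at h2
      exact h2.trans_lt h1
    have hex : ∀ i, ∃ e : Fin 3, |x i - (1 / 2 + ((e : ℕ) - 1) / 2)| < 1 / 2 := by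
      intro i
      have h1 := abs_lt.1 (hx1 i)
      by_cases h2 : x i < 1 / 4
      · refine ⟨0, abs_lt.2 ?_⟩
        simp only [Fin.val_zero, Nat.cast_zero]
        constructor <;> linarith [h1.1]
      · by_cases h3 : x i < 3 / 4
        · refine ⟨1, abs_lt.2 ?_⟩
          simp only [Fin.val_one, Nat.cast_one]
          constructor <;> linarith
        · refine ⟨2, abs_lt.2 ?_⟩
          simp only [Fin.val_two, Nat.cast_ofNat]
          constructor <;> linarith [h1.2]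
    choose e he using hex
    simp only [Finset.mem_univ, iUnion_true, mem_iUnion]
    refine ⟨e, ?_, hx.2⟩
    rw [mem_ball, dist_pi_lt_iff (by norm_num)]
    intro i
    rw [Real.dist_eq]
    exact he i
  calc ∫⁻ x in ball hc 1 ∩ Sb j c R, f x
      ≤ ∫⁻ x in ⋃ e ∈ (Finset.univ : Finset (Fin 3 → Fin 3)),
        (ball (y e) (1 / 2) ∩ Sb j c R), f x := lintegral_mono_set hsub
    _ ≤ ∑ e ∈ (Finset.univ : Finset (Fin 3 → Fin 3)),
        ∫⁻ x in ball (y e) (1 / 2) ∩ Sb j c R, f x := by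
        generalize (Finset.univ : Finset (Fin 3 → Fin 3)) = F
        induction F using Finset.induction_on with
        | empty => simp
        | insert a s ha ih =>
          rw [Finset.set_biUnion_insert, Finset.sum_insert ha]
          exact (lintegral_union_le _ _ _).trans (add_le_add le_rfl ih)
    _ = _ := by
        simp only [ball_ind hf j c R]
        rw [Finset.sum_const]
        simp

/-- Sums of lower integrals. -/
theorem sum_lint_le {α ι : Type*} [MeasurableSpace α] (μ : Measure α) (F : Finset ι)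
    (f : ι → α → ℝ≥0∞) : ∑ i ∈ F, ∫⁻ a, f i a ∂μ ≤ ∫⁻ a, ∑ i ∈ F, f i a ∂μ := by
  classical
  induction F using Finset.induction_on with
  | empty => simp
  | insert a s ha ih =>
    simp only [Finset.sum_insert ha]
    exact (add_le_add le_rfl ih).trans (le_lintegral_add _ _)

/-- Disjoint balls with centres in the cube near the plane. -/
theorem sum_B2 {v : V → V} (hv : SPV v) {j : Fin 3} {c ρ : ℝ} (hρ0 : 0 < ρ) (hρ : ρ ≤ 1 / 2)
    (F : Finset V) (hF : ∀ x ∈ F, x ∈ cube ∧ |x j - c| ≤ ρ)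
    (hsep : ∀ x ∈ F, ∀ y ∈ F, x ≠ y → 2 * ρ ≤ ‖x - y‖) :
    ∑ x ∈ F, ENNReal.ofReal (B2 x ρ v) ≤ 27 * Bb v j c (2 * ρ) := by
  classical
  have hp : Per fun x => ENNReal.ofReal (gsq v x) := by
    intro i y
    simp only [gsq_per hv.2 i y]
  have hdis : (F : Set V).PairwiseDisjoint fun x => ball x ρ := by
    intro x hx y hy hxy
    refine ball_disjoint_ball ?_
    rw [dist_eq_norm]
    have := hsep x hx y hy hxy
    linarith
  calc ∑ x ∈ F, ENNReal.ofReal (B2 x ρ v)
      = ∑ x ∈ F, ∫⁻ y in ball x ρ, ENNReal.ofReal (gsq v y) := by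
        refine Finset.sum_congr rfl fun x _ => ?_
        unfold B2
        rw [ofReal_integral_eq_lintegral_ofReal (ballint (gsq_ct hv.1) _ _)
          (Filter.Eventually.of_forall fun z => gsq_nn v z)]
    _ = ∫⁻ y in ⋃ x ∈ F, ball x ρ, ENNReal.ofReal (gsq v y) :=
        (lintegral_biUnion_finset hdis (fun _ _ => measurableSet_ball) _).symm
    _ ≤ ∫⁻ y in ball hc 1 ∩ Sb j c (2 * ρ), ENNReal.ofReal (gsq v y) := by
        refine lintegral_mono_set ?_
        refine iUnion₂_subset fun x hx => subset_inter ?_ ?_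
        · refine ball_subset_ball' ?_
          have hxc := (hF x hx).1
          have h1 : dist x hc ≤ 1 / 2 := by
            rw [dist_pi_le_iff (by norm_num)]
            intro i
            have h2 : x i ∈ Icc (0 : ℝ) 1 := ⟨hxc.1 i, hxc.2 i⟩
            rw [Real.dist_eq, abs_le]
            unfold hc
            constructor <;> linarith [h2.1, h2.2]
          linarith
        · refine ball_Sb ?_
          have := (hF x hx).2
          linarith
    _ ≤ 27 * Bb v j c (2 * ρ) := ball27 hp j c (2 * ρ)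

/-- A maximal separated set. -/
theorem max_sep {S : Set V} {ρ N : ℝ}
    (hN : ∀ F : Finset V, (∀ x ∈ F, x ∈ S) → (∀ x ∈ F, ∀ y ∈ F, x ≠ y → ρ ≤ ‖x - y‖) →
      (F.card : ℝ) ≤ N) :
    ∃ F : Finset V, (∀ x ∈ F, x ∈ S) ∧ (F.card : ℝ) ≤ N ∧ (0 < ρ → ∀ x ∈ S, ∃ y ∈ F,
      ‖x - y‖ < ρ) := by
  classical
  set P : Finset V → Prop := fun F => (∀ x ∈ F, x ∈ S) ∧ ∀ x ∈ F, ∀ y ∈ F, x ≠ y → ρ ≤ ‖x - y‖
    with hP
  have hb : BddAbove {k : ℕ | ∃ F, P F ∧ F.card = k} := by
    refine ⟨⌊N⌋₊, ?_⟩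
    rintro k ⟨F, hF, rfl⟩
    exact Nat.le_floor (hN F hF.1 hF.2)
  have hne : {k : ℕ | ∃ F, P F ∧ F.card = k}.Nonempty := ⟨0, ∅, ⟨by simp, by simp⟩, rfl⟩
  obtain ⟨F, hF, hFc⟩ := Nat.sSup_mem hne hb
  refine ⟨F, hF.1, hN F hF.1 hF.2, fun hρ x hx => ?_⟩
  by_contra hcon
  push Not at hcon
  have hxF : x ∉ F := by
    intro h
    have := hcon x h
    rw [sub_self, norm_zero] at this
    linarith
  have h1 : P (insert x F) := by
    refine ⟨fun y hy => ?_, fun y hy z hz hyz => ?_⟩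
    · rcases Finset.mem_insert.1 hy with rfl | h2
      · exact hx
      · exact hF.1 y h2
    · rcases Finset.mem_insert.1 hy with rfl | h2 <;> rcases Finset.mem_insert.1 hz with rfl | h3
      · exact absurd rfl hyz
      · exact hcon z h3
      · rw [norm_sub_rev]
        exact hcon y h2
      · exact hF.2 y h2 z h3 hyz
  have h2 := le_csSup hb ⟨insert x F, h1, rfl⟩
  rw [Finset.card_insert_of_notMem hxF, ← hFc] at h2
  omega

/-- The singular points in a box. -/
def Sbox (G : Set ℝ) (u : ℝ → V → V) (j : Fin 3) (c τ : ℝ) (n : ℕ) : Set V :=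
  {x | x ∈ cube ∧ |x j - c| ≤ rr n ∧ ∃ t ∈ Ioc (τ - rr n ^ 2) τ, SingPt G u t x}

/-- The bounds of the slab energies at all scales from `n₀` on, uniform in the plane and in the
time after `τ₁`. -/
def SlU (T : ℝ) (G : Set ℝ) (u : ℝ → V → V) (j : Fin 3) (τ₁ Z B : ℝ) (n₀ : ℕ) : Prop :=
  ∀ t₀ ∈ Icc τ₁ T, ∀ c : ℝ, ∀ n ≥ n₀,
    (∀ t ∈ Ioo (t₀ - rr n ^ 2) t₀ ∩ G, Ab (u t) j c (rr n) ≤ ENNReal.ofReal (Z * B ^ n * rr n)) ∧
    ∫⁻ t in Ioo (t₀ - rr n ^ 2) t₀ ∩ G, Bb (u t) j c (rr n) ≤ ENNReal.ofReal (Z * B ^ n * rr n)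

/-- The number of the singular points in a box. -/
theorem count_box {T E D : ℝ} {G : Set ℝ} {u : ℝ → V → V} {p : ℝ → V → ℝ}
    (h : Turb 1 T E D G u p) {j : Fin 3} {τ₁ Z B : ℝ} (hτ₁ : 0 < τ₁) (hZ : 0 < Z) (hB : 1 < B)
    {n₀ : ℕ} (hU : SlU T G u j τ₁ Z B n₀) : ∃ (C : ℝ) (n₁ : ℕ), 0 < C ∧ ∀ n ≥ n₁, ∀ c τ : ℝ,
      τ₁ + rr n ^ 2 ≤ τ → τ < T → ∃ F : Finset V, (∀ x ∈ F, x ∈ Sbox G u j c τ n) ∧
        (F.card : ℝ) ≤ C * B ^ (2 * n) ∧ ∀ x ∈ Sbox G u j c τ n, ∃ y ∈ F, ‖x - y‖ < 2 * rr n := by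
  obtain ⟨ε₀, K, hε₀, hK, hlow⟩ := low_pt
  obtain ⟨N₁, hN₁⟩ : ∃ N₁ : ℕ, rr N₁ < τ₁ := by
    unfold rr
    exact exists_pow_lt_of_lt_one hτ₁ (by norm_num)
  refine ⟨54 * 32 * (4 * K * Z + 1) * Z / ε₀, max (n₀ + 1) (max N₁ 2), by positivity, ?_⟩
  intro n hn c τ hτ1 hτT
  have hn0 : n₀ + 1 ≤ n := (le_max_left _ _).trans hn
  have hnN : N₁ ≤ n := ((le_max_left _ _).trans (le_max_right _ _)).trans hn
  have hn2 : 2 ≤ n := ((le_max_right _ _).trans (le_max_right _ _)).trans hn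
  have hn := rr_pos n
  have hrτ : rr n ^ 2 < τ₁ := by
    have h1 := rr_anti hnN
    have h2 := rr_le_one n
    nlinarith
  have hr4 : rr n ≤ 1 / 4 := by
    have h1 := rr_anti hn2
    have h2 : rr 2 = 1 / 4 := by unfold rr; norm_num
    linarith
  have hBn : 1 ≤ B ^ n := one_le_pow₀ hB.le
  set x : ℝ := 4 * (K * (Z * B ^ n)) with hx
  have hx0 : 0 < x := by positivity
  obtain ⟨a, ha5, hxa, ha2⟩ : ∃ a : ℕ, 5 ≤ a ∧ x < 2 ^ a ∧ (2 : ℝ) ^ a ≤ 32 * (x + 1) := by
    obtain ⟨l, hl1, hl2⟩ := exists_nat_pow_near (x := x + 1) (by linarith) (one_lt_two (α := ℝ))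
    refine ⟨l + 5, by omega, ?_, ?_⟩
    · have h2 : (2 : ℝ) ^ (l + 1) ≤ 2 ^ (l + 5) := pow_le_pow_right₀ (by norm_num) (by omega)
      linarith
    · rw [pow_add]
      linarith
  obtain ⟨F, hF1, hF2, hF3⟩ := max_sep (S := Sbox G u j c τ n) (ρ := 2 * rr n)
    (N := 54 * 32 * (4 * K * Z + 1) * Z / ε₀ * B ^ (2 * n)) (by
      intro F hF hsep
      have hex : ∀ x : V, ∃ t : ℝ, x ∈ F → t ∈ Ioc (τ - rr n ^ 2) τ ∧ SingPt G u t x := by
        intro x
        by_cases hxF : x ∈ F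
        · obtain ⟨-, -, t, ht, hs⟩ := hF x hxF
          exact ⟨t, fun _ => ⟨ht, hs⟩⟩
        · exact ⟨0, fun h => absurd h hxF⟩
      choose t ht using hex
      obtain ⟨n', hn'⟩ : ∃ n', n = n' + 1 := ⟨n - 1, by omega⟩
      have hnn : rr n' = 2 * rr n := by rw [hn', rr_succ]; ring
      have hwin : ∀ x ∈ F, Ioo (t x - rr n ^ 2) (t x) ∩ G ⊆ Ioo (τ - rr n' ^ 2) τ ∩ G := by
        intro x hxF
        refine inter_subset_inter_left _ (Ioo_subset_Ioo ?_ (ht x hxF).1.2)
        rw [hnn]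
        nlinarith [(ht x hxF).1.1]
      have h1 : ∑ x ∈ F, ENNReal.ofReal (ε₀ * rr (n + a))
          ≤ 27 * ENNReal.ofReal (Z * B ^ n' * rr n') := by
        calc ∑ x ∈ F, ENNReal.ofReal (ε₀ * rr (n + a))
            ≤ ∑ x ∈ F, ∫⁻ s in Ioo (τ - rr n' ^ 2) τ ∩ G, ENNReal.ofReal (B2 x (rr n) (u s)) := by
              refine Finset.sum_le_sum fun x hxF => ?_
              obtain ⟨htx, hsx⟩ := ht x hxF
              have htx1 : τ₁ ≤ t x := by linarith [htx.1]
              have htT : t x < T := htx.2.trans_lt hτT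
              refine (hlow T E D G u p h j (t x) (Z * B ^ n) (by positivity)
                ⟨by linarith, htT⟩ a ha5 hxa n x
                (hU (t x) ⟨htx1, htT.le⟩ (x j) n (by omega)).1 (by linarith) hsx).trans ?_
              exact lintegral_mono_set (hwin x hxF)
          _ ≤ ∫⁻ s in Ioo (τ - rr n' ^ 2) τ ∩ G, ∑ x ∈ F, ENNReal.ofReal (B2 x (rr n) (u s)) :=
              sum_lint_le _ _ _
          _ ≤ ∫⁻ s in Ioo (τ - rr n' ^ 2) τ ∩ G, 27 * Bb (u s) j c (rr n') := by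
              refine setLIntegral_mono' (measurableSet_Ioo.inter h.openG.measurableSet)
                fun s hs => ?_
              rw [hnn]
              exact sum_B2 (h.spv hs.2) hn (by linarith) F
                (fun x hxF => ⟨(hF x hxF).1, (hF x hxF).2.1⟩) hsep
          _ = 27 * ∫⁻ s in Ioo (τ - rr n' ^ 2) τ ∩ G, Bb (u s) j c (rr n') :=
              lintegral_const_mul' _ _ (by norm_num)
          _ ≤ _ := by
              refine mul_le_mul' le_rfl ?_
              exact (hU τ ⟨by nlinarith, hτT.le⟩ c n' (by omega)).2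
      rw [Finset.sum_const, nsmul_eq_mul, show (27 : ℝ≥0∞) = ENNReal.ofReal 27 by norm_num,
        ← ENNReal.ofReal_mul (by norm_num), ← ENNReal.ofReal_natCast,
        ← ENNReal.ofReal_mul (by positivity), ENNReal.ofReal_le_ofReal_iff (by
          have := rr_pos n'
          positivity)] at h1
      have hra : rr n = 2 ^ a * rr (n + a) := rr_add n a
      have hrna := rr_pos (n + a)
      have hBn' : B ^ n' ≤ B ^ n := pow_le_pow_right₀ hB.le (by omega)
      have h2 : (F.card : ℝ) * ε₀ ≤ 54 * (Z * B ^ n) * 2 ^ a := by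
        have h3 : (F.card : ℝ) * ε₀ * rr (n + a) ≤ 54 * (Z * B ^ n) * 2 ^ a * rr (n + a) := by
          calc (F.card : ℝ) * ε₀ * rr (n + a) = F.card * (ε₀ * rr (n + a)) := by ring
            _ ≤ 27 * (Z * B ^ n' * rr n') := h1
            _ ≤ 27 * (Z * B ^ n * rr n') := by
                have := rr_pos n'
                gcongr
            _ = _ := by
                rw [hnn, hra]
                ring
        exact le_of_mul_le_mul_right h3 hrna
      rw [div_mul_eq_mul_div, le_div_iff₀ hε₀]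
      refine h2.trans ?_
      calc 54 * (Z * B ^ n) * 2 ^ a ≤ 54 * (Z * B ^ n) * (32 * (x + 1)) := by gcongr
        _ ≤ 54 * (Z * B ^ n) * (32 * ((4 * K * Z + 1) * B ^ n)) := by
            have h4 : x + 1 ≤ (4 * K * Z + 1) * B ^ n := by
              rw [hx]
              nlinarith
            gcongr
        _ = _ := by
            rw [two_mul, pow_add]
            ring)
  exact ⟨F, hF1, hF2, hF3 (by positivity)⟩

end Pool.Agent.Helper30K1
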