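import Pool.Agent.Helper30K1.GN

/-!
One velocity component (helper30): the number of the singular points in the boxes, critical class.
-/

set_option autoImplicit false

open MeasureTheory Set Metric Filter Topology
open scoped ContDiff ENNReal NNReal

namespace Pool.Agent.Helper30K1

open H459R3.NS W221.NS Pool.Agent.Y8

/-- The bounds of the slab energies at all scales from `n₀` on, uniform in the plane and in the
time after `τ₁`. -/
def SlW (T : ℝ) (G : Set ℝ) (u : ℝ → V → V) (j : Fin 3) (τ₁ : ℝ) (M : ℕ → ℝ) (n₀ : ℕ) : Prop :=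
  ∀ t₀ ∈ Icc τ₁ T, ∀ c : ℝ, ∀ n ≥ n₀,
    (∀ t ∈ Ioo (t₀ - rr n ^ 2) t₀ ∩ G, Ab (u t) j c (rr n) ≤ ENNReal.ofReal (M n * rr n)) ∧
    ∫⁻ t in Ioo (t₀ - rr n ^ 2) t₀ ∩ G, Bb (u t) j c (rr n) ≤ ENNReal.ofReal (M n * rr n)

/-- Uniform smallness of the integrals. -/
theorem unif_int {T E D : ℝ} {G : Set ℝ} {u : ℝ → V → V} {p : ℝ → V → ℝ}
    (h : Turb 1 T E D G u p) {q m : ℝ} (j : Fin 3)
    (hY : ∫⁻ t in G, Nq q u j t ^ (m / q) ≠ ⊤) {e : ℝ} (he : 0 < e) :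
    ∃ k₁ : ℕ, ∀ t₀ : ℝ, ∫⁻ t in Ioo (t₀ - rr k₁ ^ 2) t₀ ∩ G, Nq q u j t ^ (m / q)
      ≤ ENNReal.ofReal e := by
  have hind : ∫⁻ t, G.indicator (fun t => Nq q u j t ^ (m / q)) t ≠ ⊤ := by
    rw [lintegral_indicator h.openG.measurableSet]
    exact hY
  obtain ⟨δ, hδ, hδ2⟩ := exists_pos_setLIntegral_lt_of_measure_lt hind
    (ENNReal.ofReal_pos.2 he).ne'
  have hmin : 0 < min δ 1 := lt_min hδ one_pos
  have hmint : min δ 1 ≠ ⊤ := ne_top_of_le_ne_top ENNReal.one_ne_top (min_le_right _ _)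
  have hη := ENNReal.toReal_pos hmin.ne' hmint
  obtain ⟨k₁, hk₁⟩ : ∃ k₁ : ℕ, rr k₁ < (min δ 1).toReal := by
    unfold rr
    exact exists_pow_lt_of_lt_one (by positivity) (by norm_num)
  refine ⟨k₁, fun t₀ => ?_⟩
  have hr := rr_pos k₁
  have hr1 := rr_le_one k₁
  have hvol : volume (Ioo (t₀ - rr k₁ ^ 2) t₀) < δ := by
    rw [Real.volume_Ioo]
    refine lt_of_lt_of_le ?_ (min_le_left δ 1)
    rw [← ENNReal.ofReal_toReal hmint]
    exact (ENNReal.ofReal_lt_ofReal_iff hη).2 (by nlinarith)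
  have h2 := hδ2 _ hvol
  rw [setLIntegral_indicator h.openG.measurableSet, inter_comm G] at h2
  exact h2.le

/-- Uniform bounds of the slab energies in the critical class. -/
theorem slW {T E D : ℝ} {G : Set ℝ} {u : ℝ → V → V} {p : ℝ → V → ℝ}
    (h : Turb 1 T E D G u p) {q m : ℝ} (hq : 3 < q) (hm : 2 ≤ m)
    (hqm : 2 / m + 3 / q = 1) (j : Fin 3) (hY : ∫⁻ t in G, Nq q u j t ^ (m / q) ≠ ⊤) {τ₁ : ℝ}
    (hτ₁ : 0 < τ₁) {κ : ℝ} (hκ : 0 < κ) : ∃ (Z : ℝ) (n₀ : ℕ), 1 ≤ Z ∧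
      SlW T G u j τ₁ (fun n => Z * Real.exp (κ * ((n : ℝ) + 1) ^ (1 - 1 / m))) n₀ := by
  have hq0 : 0 < q := by linarith
  have hm0 : 0 < m := by linarith
  obtain ⟨K, hK, hgr⟩ := growth2 hq
  obtain ⟨x, hx⟩ : ∃ x : ℝ, x = (1 / 2) ^ (3 / q) := ⟨_, rfl⟩
  have hx1 : 0 < 1 - x := by
    rw [hx]
    have : ((1 / 2 : ℝ)) ^ (3 / q) < 1 := Real.rpow_lt_one (by norm_num) (by norm_num) (by positivity)
    linarith
  obtain ⟨κ', hκ'⟩ : ∃ κ' : ℝ, κ' = κ * (1 - x) / (4 * K) := ⟨_, rfl⟩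
  have hκ'0 : 0 < κ' := by rw [hκ']; positivity
  obtain ⟨k₁, hk₁⟩ := unif_int h j hY (e := κ' ^ m) (by positivity)
  obtain ⟨μ, hμ⟩ : ∃ μ, μ = min τ₁ 1 := ⟨_, rfl⟩
  have hμ0 : 0 < μ := by rw [hμ]; exact lt_min hτ₁ one_pos
  have hμ1 : μ ≤ 1 := by rw [hμ]; exact min_le_right _ _
  have hμ2 : μ ≤ τ₁ := by rw [hμ]; exact min_le_left _ _
  obtain ⟨Z, hZ, hem⟩ := hgr T E D G u p h j (μ / 2) (by positivity) (k₁ + 2) (by omega)
  obtain ⟨n₀, hn₀⟩ : ∃ n₀ : ℕ, rr n₀ < μ / 2 := by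
    unfold rr
    exact exists_pow_lt_of_lt_one (by positivity) (by norm_num)
  refine ⟨max Z 1, n₀, le_max_right _ _, ?_⟩
  intro t₀ ht₀ c n hn
  have hT : 0 < T := by linarith [ht₀.1, ht₀.2]
  -- the starting time
  obtain ⟨s₁, hs₁G, hs₁, hs₁1⟩ : ∃ s₁ ∈ G, μ / 2 ≤ t₀ - s₁ ∧ t₀ - s₁ ≤ 1 := by
    have hyT : t₀ - 3 / 4 * μ ∈ Icc 0 T := ⟨by linarith [ht₀.1], by linarith [ht₀.2]⟩
    have h2 := dense_G hT h.fullG hyT
    rw [_root_.mem_closure_iff] at h2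
    obtain ⟨s, hs, hs'⟩ := h2 (Ioo (t₀ - μ) (t₀ - μ / 2)) isOpen_Ioo
      ⟨by linarith, by linarith⟩
    exact ⟨s, hs'.2, by linarith [hs.2], by linarith [hs.1]⟩
  -- the sum
  have hsum := sum_SN h hq hm hqm j hY c t₀ k₁ n hκ'0.le (hk₁ t₀)
  set S : ℝ := 2 * (2 / (1 - x) * ((n : ℝ) + 1) ^ (1 - 1 / m) * κ') with hS
  have hS0 : 0 ≤ S := by positivity
  have hsum2 : ∑ i ∈ Finset.Icc (k₁ + 2) n, am q G u j c s₁ t₀ i ≤ ENNReal.ofReal S := by
    calc ∑ i ∈ Finset.Icc (k₁ + 2) n, am q G u j c s₁ t₀ i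
        ≤ ∑ i ∈ Finset.Icc (k₁ + 2) n, 2 * SN 1 q G u j c t₀ (rr (i - 1)) := by
          refine Finset.sum_le_sum fun i hi => ?_
          have hi1 := (Finset.mem_Icc.1 hi).1
          obtain ⟨k, rfl⟩ : ∃ k, i = k + 1 := ⟨i - 1, by omega⟩
          exact am_le hq G h.openG u j c s₁ t₀ k
      _ = 2 * ∑ i ∈ Finset.Icc (k₁ + 2) n, SN 1 q G u j c t₀ (rr (i - 1)) :=
          (Finset.mul_sum _ _ _).symm
      _ = 2 * ∑ k ∈ (Finset.Icc (k₁ + 2) n).image (fun i => i - 1), SN 1 q G u j c t₀ (rr k) := by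
          rw [Finset.sum_image]
          intro a ha b hb hab
          have h3 := (Finset.mem_Icc.1 (Finset.mem_coe.1 ha)).1
          have h4 := (Finset.mem_Icc.1 (Finset.mem_coe.1 hb)).1
          simp only at hab
          omega
      _ ≤ 2 * ∑ k ∈ Finset.Icc k₁ n, SN 1 q G u j c t₀ (rr k) := by
          refine mul_le_mul' le_rfl (Finset.sum_le_sum_of_subset ?_)
          intro k hk
          obtain ⟨i, hi, rfl⟩ := Finset.mem_image.1 hk
          have h3 := Finset.mem_Icc.1 hi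
          rw [Finset.mem_Icc]
          omega
      _ ≤ 2 * ENNReal.ofReal (2 / (1 - x) * ((n : ℝ) + 1) ^ (1 - 1 / m) * κ') := by
          rw [hx]
          exact mul_le_mul' le_rfl hsum
      _ = _ := by
          rw [hS, ENNReal.ofReal_mul (p := 2) (by norm_num), show ENNReal.ofReal 2 = 2 by norm_num]
  have hem' : em G u j c s₁ t₀ n
      ≤ ENNReal.ofReal (max Z 1 * Real.exp (κ * ((n : ℝ) + 1) ^ (1 - 1 / m))) := by
    refine (hem c s₁ t₀ hs₁G hs₁ ht₀.2 hs₁1 n S hS0 hsum2).trans (ENNReal.ofReal_le_ofReal ?_)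
    have e1 : K * S = κ * ((n : ℝ) + 1) ^ (1 - 1 / m) := by
      rw [hS, hκ']
      field_simp
      ring
    rw [e1]
    exact mul_le_mul_of_nonneg_right (le_max_left _ _) (Real.exp_pos _).le
  have hrn := rr_pos n
  have hwin : rr n ^ 2 ≤ t₀ - s₁ := by
    have h1 := rr_anti hn
    have h2 := rr_le_one n
    nlinarith
  have hIw : Iw G s₁ t₀ n = Ioo (t₀ - rr n ^ 2) t₀ ∩ G := by
    unfold Iw
    rw [max_eq_right (by linarith)]
  obtain ⟨M, hM⟩ : ∃ M : ℝ, M = max Z 1 * Real.exp (κ * ((n : ℝ) + 1) ^ (1 - 1 / m)) := ⟨_, rfl⟩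
  simp only
  rw [← hM] at hem' ⊢
  constructor
  · intro t ht
    rw [← hIw] at ht
    refine (em_A ht).trans ?_
    rw [mul_comm M, ENNReal.ofReal_mul hrn.le]
    exact mul_le_mul' le_rfl hem'
  · rw [← hIw]
    refine em_B.trans ?_
    rw [mul_comm M, ENNReal.ofReal_mul hrn.le]
    exact mul_le_mul' le_rfl hem'

/-- The number of the singular points in a box. -/
theorem count_box2 {T E D : ℝ} {G : Set ℝ} {u : ℝ → V → V} {p : ℝ → V → ℝ}
    (h : Turb 1 T E D G u p) {j : Fin 3} {τ₁ : ℝ} (hτ₁ : 0 < τ₁) {M : ℕ → ℝ}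
    (hM1 : ∀ n, 1 ≤ M n) (hMm : Monotone M)
    {n₀ : ℕ} (hU : SlW T G u j τ₁ M n₀) : ∃ (C : ℝ) (n₁ : ℕ), 0 < C ∧ ∀ n ≥ n₁, ∀ c τ : ℝ,
      τ₁ + rr n ^ 2 ≤ τ → τ < T → ∃ F : Finset V, (∀ x ∈ F, x ∈ Sbox G u j c τ n) ∧
        (F.card : ℝ) ≤ C * M n ^ 2 ∧ ∀ x ∈ Sbox G u j c τ n, ∃ y ∈ F, ‖x - y‖ < 2 * rr n := by
  obtain ⟨ε₀, K, hε₀, hK, hlow⟩ := low_pt
  obtain ⟨N₁, hN₁⟩ : ∃ N₁ : ℕ, rr N₁ < τ₁ := by
    unfold rr
    exact exists_pow_lt_of_lt_one hτ₁ (by norm_num)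
  refine ⟨54 * 32 * (4 * K + 1) / ε₀, max (n₀ + 1) (max N₁ 2), by positivity, ?_⟩
  intro n hn c τ hτ1 hτT
  have hn0 : n₀ + 1 ≤ n := (le_max_left _ _).trans hn
  have hnN : N₁ ≤ n := ((le_max_left _ _).trans (le_max_right _ _)).trans hn
  have hn2 : 2 ≤ n := ((le_max_right _ _).trans (le_max_right _ _)).trans hn
  have hn := rr_pos n
  have hrτ : rr n ^ 2 < τ₁ := by
    have h1 := rr_anti hnN
    have h2 := rr_le_one n
    nlinarith
  have hr4 : rr n ≤ 1 / 4 := by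
    have h1 := rr_anti hn2
    have h2 : rr 2 = 1 / 4 := by unfold rr; norm_num
    linarith
  have hMn : 1 ≤ M n := hM1 n
  have hMn0 : 0 < M n := by linarith
  set x : ℝ := 4 * (K * M n) with hx
  have hx0 : 0 < x := by positivity
  obtain ⟨a, ha5, hxa, ha2⟩ : ∃ a : ℕ, 5 ≤ a ∧ x < 2 ^ a ∧ (2 : ℝ) ^ a ≤ 32 * (x + 1) := by
    obtain ⟨l, hl1, hl2⟩ := exists_nat_pow_near (x := x + 1) (by linarith) (one_lt_two (α := ℝ))
    refine ⟨l + 5, by omega, ?_, ?_⟩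
    · have h2 : (2 : ℝ) ^ (l + 1) ≤ 2 ^ (l + 5) := pow_le_pow_right₀ (by norm_num) (by omega)
      linarith
    · rw [pow_add]
      linarith
  obtain ⟨F, hF1, hF2, hF3⟩ := max_sep (S := Sbox G u j c τ n) (ρ := 2 * rr n)
    (N := 54 * 32 * (4 * K + 1) / ε₀ * M n ^ 2) (by
      intro F hF hsep
      have hex : ∀ x : V, ∃ t : ℝ, x ∈ F → t ∈ Ioc (τ - rr n ^ 2) τ ∧ SingPt G u t x := by
        intro x
        by_cases hxF : x ∈ F
        · obtain ⟨-, -, t, ht, hs⟩ := hF x hxF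
          exact ⟨t, fun _ => ⟨ht, hs⟩⟩
        · exact ⟨0, fun h => absurd h hxF⟩
      choose t ht using hex
      obtain ⟨n', hn'⟩ : ∃ n', n = n' + 1 := ⟨n - 1, by omega⟩
      have hnn : rr n' = 2 * rr n := by rw [hn', rr_succ]; ring
      have hwin : ∀ x ∈ F, Ioo (t x - rr n ^ 2) (t x) ∩ G ⊆ Ioo (τ - rr n' ^ 2) τ ∩ G := by
        intro x hxF
        refine inter_subset_inter_left _ (Ioo_subset_Ioo ?_ (ht x hxF).1.2)
        rw [hnn]
        nlinarith [(ht x hxF).1.1]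
      have h1 : ∑ x ∈ F, ENNReal.ofReal (ε₀ * rr (n + a))
          ≤ 27 * ENNReal.ofReal (M n' * rr n') := by
        calc ∑ x ∈ F, ENNReal.ofReal (ε₀ * rr (n + a))
            ≤ ∑ x ∈ F, ∫⁻ s in Ioo (τ - rr n' ^ 2) τ ∩ G, ENNReal.ofReal (B2 x (rr n) (u s)) := by
              refine Finset.sum_le_sum fun x hxF => ?_
              obtain ⟨htx, hsx⟩ := ht x hxF
              have htx1 : τ₁ ≤ t x := by linarith [htx.1]
              have htT : t x < T := htx.2.trans_lt hτT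
              refine (hlow T E D G u p h j (t x) (M n) (by positivity)
                ⟨by linarith, htT⟩ a ha5 hxa n x
                (hU (t x) ⟨htx1, htT.le⟩ (x j) n (by omega)).1 (by linarith) hsx).trans ?_
              exact lintegral_mono_set (hwin x hxF)
          _ ≤ ∫⁻ s in Ioo (τ - rr n' ^ 2) τ ∩ G, ∑ x ∈ F, ENNReal.ofReal (B2 x (rr n) (u s)) :=
              sum_lint_le _ _ _
          _ ≤ ∫⁻ s in Ioo (τ - rr n' ^ 2) τ ∩ G, 27 * Bb (u s) j c (rr n') := by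
              refine setLIntegral_mono' (measurableSet_Ioo.inter h.openG.measurableSet)
                fun s hs => ?_
              rw [hnn]
              exact sum_B2 (h.spv hs.2) hn (by linarith) F
                (fun x hxF => ⟨(hF x hxF).1, (hF x hxF).2.1⟩) hsep
          _ = 27 * ∫⁻ s in Ioo (τ - rr n' ^ 2) τ ∩ G, Bb (u s) j c (rr n') :=
              lintegral_const_mul' _ _ (by norm_num)
          _ ≤ _ := by
              refine mul_le_mul' le_rfl ?_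
              exact (hU τ ⟨by nlinarith, hτT.le⟩ c n' (by omega)).2
      have hMn'0 : 0 < M n' := by linarith [hM1 n']
      rw [Finset.sum_const, nsmul_eq_mul, show (27 : ℝ≥0∞) = ENNReal.ofReal 27 by norm_num,
        ← ENNReal.ofReal_mul (by norm_num), ← ENNReal.ofReal_natCast,
        ← ENNReal.ofReal_mul (by positivity), ENNReal.ofReal_le_ofReal_iff (by
          have := rr_pos n'
          positivity)] at h1
      have hra : rr n = 2 ^ a * rr (n + a) := rr_add n a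
      have hrna := rr_pos (n + a)
      have hMn' : M n' ≤ M n := hMm (by omega)
      have h2 : (F.card : ℝ) * ε₀ ≤ 54 * M n * 2 ^ a := by
        have h3 : (F.card : ℝ) * ε₀ * rr (n + a) ≤ 54 * M n * 2 ^ a * rr (n + a) := by
          calc (F.card : ℝ) * ε₀ * rr (n + a) = F.card * (ε₀ * rr (n + a)) := by ring
            _ ≤ 27 * (M n' * rr n') := h1
            _ ≤ 27 * (M n * rr n') := by
                have := rr_pos n'
                gcongr
            _ = _ := by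
                rw [hnn, hra]
                ring
        exact le_of_mul_le_mul_right h3 hrna
      rw [div_mul_eq_mul_div, le_div_iff₀ hε₀]
      refine h2.trans ?_
      calc 54 * M n * 2 ^ a ≤ 54 * M n * (32 * (x + 1)) := by gcongr
        _ ≤ 54 * M n * (32 * ((4 * K + 1) * M n)) := by
            have h4 : x + 1 ≤ (4 * K + 1) * M n := by
              rw [hx]
              nlinarith
            gcongr
        _ = _ := by ring)
  exact ⟨F, hF1, hF2, hF3 (by positivity)⟩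

/-- Many scales at which the component is not very small. -/
theorem often2 {T E D : ℝ} {G : Set ℝ} {u : ℝ → V → V} {p : ℝ → V → ℝ}
    (h : Turb 1 T E D G u p) {q : ℝ} (hq : 3 < q) (j : Fin 3) {t₀ : ℝ}
    (ht₀ : t₀ ∈ Ioo 0 T) {x₀ : V} (hs : SingPt G u t₀ x₀) (K : ℕ) :
    ∃ n ≥ K, ENNReal.ofReal (((n : ℝ) ^ 2)⁻¹) ≤ SN 1 q G u j (x₀ j) t₀ (rr n) := by
  by_contra hcon
  push Not at hcon
  refine crit1 h hq j (x₀ j) ht₀ (K := K + 1) ?_ rfl hs
  have hsum : Summable fun k : ℕ => (((k : ℝ) ^ 2)⁻¹) := by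
    have := Real.summable_one_div_nat_pow.2 (one_lt_two)
    simpa only [one_div] using this
  have h1 : ∑' k, SN 1 q G u j (x₀ j) t₀ (rr (k + (K + 1)))
      ≤ ∑' k : ℕ, ENNReal.ofReal ((((k + (K + 1) : ℕ) : ℝ) ^ 2)⁻¹) := by
    refine ENNReal.tsum_le_tsum fun k => ?_
    exact (hcon (k + (K + 1)) (by omega)).le
  refine ne_top_of_le_ne_top ?_ h1
  rw [← ENNReal.ofReal_tsum_of_nonneg (fun k => by positivity)
    ((summable_nat_add_iff (K + 1)).2 hsum)]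
  exact ENNReal.ofReal_ne_top

end Pool.Agent.Helper30K1
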