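import Pool.Agent.Helper30K1.PN

/-!
One velocity component (helper30): the critical class, viscosity one.
-/

set_option autoImplicit false

open MeasureTheory Set Metric Filter Topology
open scoped ContDiff ENNReal NNReal

namespace Pool.Agent.Helper30K1

open H459R3.NS W221.NS Pool.Agent.Y8

section

variable {T E D : ℝ} {G : Set ℝ} {u : ℝ → V → V} {p : ℝ → V → ℝ}

/-- Translation of a singular point by a period. -/
theorem sing_shift (h : Turb 1 T E D G u p) (k : Fin 3 → ℤ) {t : ℝ} {x : V}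
    (hs : SingPt G u t x) : SingPt G u t (fun i => x i + k i) := by
  intro δ hδ B
  obtain ⟨s, hsG, hst, y, hy, hB⟩ := hs δ hδ B
  refine ⟨s, hsG, hst, fun i => y i + k i, ?_, ?_⟩
  · rw [mem_ball, dist_pi_lt_iff hδ]
    intro i
    rw [Real.dist_eq, show y i + (k i : ℝ) - (x i + k i) = y i - x i by ring, ← Real.dist_eq]
    exact (dist_le_pi_dist y x i).trans_lt (mem_ball.1 hy)
  · have e1 : (fun i => y i + (k i : ℝ)) = y + fun i => (k i : ℝ) := rfl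
    rw [e1, (h.per_u s hsG).int k y]
    exact hB

/-- Many scales at which the component is not small. -/
theorem often (h : Turb 1 T E D G u p) {q : ℝ} (hq : 3 < q) (j : Fin 3) {t₀ : ℝ}
    (ht₀ : t₀ ∈ Ioo 0 T) {x₀ : V} (hs : SingPt G u t₀ x₀) {B : ℝ} (hB : 1 < B) (K : ℕ) :
    ∃ n ≥ K, ENNReal.ofReal ((B ^ n)⁻¹) ≤ SN 1 q G u j (x₀ j) t₀ (rr n) := by
  by_contra hcon
  push Not at hcon
  refine crit1 h hq j (x₀ j) ht₀ (K := K) ?_ rfl hs
  have hB0 : 0 < B := by linarith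
  have h1 : ∑' k, SN 1 q G u j (x₀ j) t₀ (rr (k + K))
      ≤ ∑' k : ℕ, ENNReal.ofReal (1 * (B⁻¹) ^ (0 + k)) := by
    refine ENNReal.tsum_le_tsum fun k => ?_
    refine (hcon (k + K) (by omega)).le.trans (ENNReal.ofReal_le_ofReal ?_)
    rw [one_mul, zero_add, inv_pow]
    refine inv_anti₀ (by positivity) ?_
    exact pow_le_pow_right₀ hB.le (by omega)
  refine ne_top_of_le_ne_top ?_ h1
  rw [tail_le zero_le_one (by positivity) (inv_lt_one_of_one_lt₀ hB) 0]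
  exact ENNReal.ofReal_ne_top

/-- Uniform smallness in the critical class. -/
theorem unif_small (h : Turb 1 T E D G u p) {q m : ℝ} (hq : 3 < q) (hm : 2 ≤ m)
    (hqm : 2 / m + 3 / q = 1) (j : Fin 3) (hY : ∫⁻ t in G, Nq q u j t ^ (m / q) ≠ ⊤) {τ₁ : ℝ}
    (hτ₁ : 0 < τ₁) {κ : ℝ} (hκ : 0 < κ) : ∃ k₁ : ℕ, ∀ t₀ ∈ Icc τ₁ T, ∀ c : ℝ, ∀ k ≥ k₁,
      SN 1 q G u j c t₀ (rr k) ≤ ENNReal.ofReal κ := by
  have hm0 : 0 < m := by linarith
  have hind : ∫⁻ t, G.indicator (fun t => Nq q u j t ^ (m / q)) t ≠ ⊤ := by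
    rw [lintegral_indicator h.openG.measurableSet]
    exact hY
  have hκm : ENNReal.ofReal ((κ / 2) ^ m) ≠ 0 := (ENNReal.ofReal_pos.2 (by positivity)).ne'
  obtain ⟨δ, hδ, hδ2⟩ := exists_pos_setLIntegral_lt_of_measure_lt hind hκm
  have hmin : 0 < min δ 1 := lt_min hδ one_pos
  have hmint : min δ 1 ≠ ⊤ := ne_top_of_le_ne_top ENNReal.one_ne_top (min_le_right _ _)
  have hη := ENNReal.toReal_pos hmin.ne' hmint
  obtain ⟨k₁, hk₁⟩ : ∃ k₁ : ℕ, rr k₁ < (min δ 1).toReal / 2 := by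
    unfold rr
    exact exists_pow_lt_of_lt_one (by positivity) (by norm_num)
  refine ⟨k₁, fun t₀ ht₀ c k hk => ?_⟩
  have hr := rr_pos k
  have hr1 := rr_le_one k
  have hrk := rr_anti hk
  have ht0 : 0 < t₀ := by linarith [ht₀.1]
  have hρ : 0 < rr k ^ 2 := by positivity
  have hi1 : ((⌊t₀ / rr k ^ 2⌋₊ : ℕ) : ℝ) * rr k ^ 2 ≤ t₀ := by
    rw [← le_div_iff₀ hρ]
    exact Nat.floor_le (by positivity)
  have hi2 : t₀ ≤ (((⌊t₀ / rr k ^ 2⌋₊ : ℕ) : ℝ) + 1) * rr k ^ 2 := by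
    rw [← div_le_iff₀ hρ]
    exact (Nat.lt_floor_add_one _).le
  set i := ⌊t₀ / rr k ^ 2⌋₊ with hi
  refine (SN_Tg hq hi1 hi2).trans ((Tg_le h hq hm j k i).trans ?_)
  have e0 : 2 / m + 3 / q - 1 = 0 := by linarith
  rw [e0, neg_zero, Real.rpow_zero, ENNReal.ofReal_one, one_mul]
  have hvol : volume (Ioo (((i : ℝ) - 1) * rr k ^ 2) (((i : ℝ) + 1) * rr k ^ 2)) < δ := by
    rw [Real.volume_Ioo]
    refine lt_of_lt_of_le ?_ (min_le_left δ 1)
    rw [← ENNReal.ofReal_toReal hmint]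
    exact (ENNReal.ofReal_lt_ofReal_iff hη).2 (by nlinarith)
  have h2 := hδ2 _ hvol
  rw [setLIntegral_indicator h.openG.measurableSet, inter_comm G] at h2
  have h3 : ∫⁻ t in Wg G k i, Nq q u j t ^ (m / q) ≤ ENNReal.ofReal ((κ / 2) ^ m) := h2.le
  calc 2 * (∫⁻ t in Wg G k i, Nq q u j t ^ (m / q)) ^ (1 / m)
      ≤ 2 * ENNReal.ofReal ((κ / 2) ^ m) ^ (1 / m) := by
        refine mul_le_mul' le_rfl (ENNReal.rpow_le_rpow h3 (by positivity))
    _ = ENNReal.ofReal κ := by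
        rw [ENNReal.ofReal_rpow_of_nonneg (by positivity) (by positivity),
          ← Real.rpow_mul (by positivity), mul_one_div_cancel hm0.ne', Real.rpow_one,
          show (2 : ℝ≥0∞) = ENNReal.ofReal 2 by norm_num, ← ENNReal.ofReal_mul (by norm_num)]
        congr 1
        ring

/-- The box of the grid of a point. -/
theorem grid {j : Fin 3} {n : ℕ} {t₀ : ℝ} (ht₀ : 0 < t₀) {x₀ : V} (hx₀ : x₀ ∈ cube) :
    ∃ i l : ℕ, ((i : ℝ) * rr n ^ 2 < t₀ ∧ t₀ ≤ ((i : ℝ) + 1) * rr n ^ 2) ∧ l < 2 ^ n ∧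
      |x₀ j - l * rr n| ≤ rr n := by
  have hr := rr_pos n
  have hρ : 0 < rr n ^ 2 := by positivity
  have hrn : rr n * 2 ^ n = 1 := by
    unfold rr
    rw [← mul_pow]
    norm_num
  have hc : 0 < ⌈t₀ / rr n ^ 2⌉₊ := Nat.ceil_pos.2 (by positivity)
  obtain ⟨i, hi⟩ : ∃ i, ⌈t₀ / rr n ^ 2⌉₊ = i + 1 := ⟨⌈t₀ / rr n ^ 2⌉₊ - 1, by omega⟩
  have h1 : (i : ℝ) < t₀ / rr n ^ 2 := by
    have h2 : ((⌈t₀ / rr n ^ 2⌉₊ : ℕ) : ℝ) < t₀ / rr n ^ 2 + 1 := Nat.ceil_lt_add_one (by positivity)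
    rw [hi] at h2
    push_cast at h2
    linarith
  have h2 : t₀ / rr n ^ 2 ≤ (i : ℝ) + 1 := by
    have h3 : t₀ / rr n ^ 2 ≤ ((⌈t₀ / rr n ^ 2⌉₊ : ℕ) : ℝ) := Nat.le_ceil _
    rw [hi] at h3
    push_cast at h3
    exact h3
  have hx0 : 0 ≤ x₀ j := hx₀.1 j
  have hx1 : x₀ j ≤ 1 := hx₀.2 j
  have hN : 0 < 2 ^ n := by positivity
  have hNr : ((2 ^ n - 1 : ℕ) : ℝ) = 2 ^ n - 1 := by
    rw [Nat.cast_sub (Nat.one_le_two_pow)]
    push_cast
    ring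
  refine ⟨i, min ⌊x₀ j * 2 ^ n⌋₊ (2 ^ n - 1), ⟨?_, ?_⟩, ?_, ?_⟩
  · rwa [lt_div_iff₀ hρ] at h1
  · rwa [div_le_iff₀ hρ] at h2
  · exact lt_of_le_of_lt (min_le_right _ _) (by omega)
  · set y := x₀ j * 2 ^ n with hy
    have hy0 : 0 ≤ y := by positivity
    have hy1 : y ≤ 2 ^ n := by
      rw [hy]
      exact mul_le_of_le_one_left (by positivity) hx1
    have e1 : ∀ l : ℝ, x₀ j - l * rr n = (y - l) * rr n := by
      intro l
      rw [hy]
      linear_combination (-(x₀ j)) * hrn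
    rw [e1, abs_mul, abs_of_pos hr]
    have h3 : |y - ((min ⌊y⌋₊ (2 ^ n - 1) : ℕ) : ℝ)| ≤ 1 := by
      rw [Nat.cast_min, hNr]
      have h4 := Nat.floor_le hy0
      have h5 := Nat.lt_floor_add_one y
      rcases le_total ((⌊y⌋₊ : ℕ) : ℝ) (2 ^ n - 1) with h6 | h6
      · rw [min_eq_left h6, abs_le]
        constructor <;> linarith
      · rw [min_eq_right h6, abs_le]
        constructor <;> linarith
    calc |y - ((min ⌊y⌋₊ (2 ^ n - 1) : ℕ) : ℝ)| * rr n ≤ 1 * rr n := by gcongr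
      _ = rr n := one_mul _

end

end Pool.Agent.Helper30K1
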