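import Pool.Agent.Helper30K1.Crt

/-!
One velocity component (helper30): the theorems on the size of the singular set, viscosity one.
-/

set_option autoImplicit false

open MeasureTheory Set Metric Filter Topology
open scoped ContDiff ENNReal NNReal

namespace Pool.Agent.Helper30K1

open H459R3.NS W221.NS Pool.Agent.Y8

theorem two_pow_rr (n : ℕ) (σ : ℝ) : rr n ^ (-σ) = ((2 : ℝ) ^ σ) ^ n := by
  rw [rr_rpow', one_div, Real.inv_rpow (by norm_num), Real.rpow_neg (by norm_num), inv_inv]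

theorem choose_B {σ μ δ : ℝ} (hμ : 0 < μ) (h : σ * μ < δ) :
    ∃ B : ℝ, 1 < B ∧ (B * 2 ^ σ) ^ μ * B ^ 2 * (1 / 2) ^ δ < 1 := by
  set η : ℝ := (δ - σ * μ) / (2 * (μ + 2)) with hη
  have hη0 : 0 < η := by
    have : 0 < δ - σ * μ := by linarith
    positivity
  refine ⟨2 ^ η, Real.one_lt_rpow (by norm_num) hη0, ?_⟩
  have e1 : ((2 : ℝ) ^ η * 2 ^ σ) ^ μ * ((2 : ℝ) ^ η) ^ 2 * (1 / 2) ^ δ
      = 2 ^ ((η + σ) * μ + η * 2 - δ) := by
    rw [← Real.rpow_add (by norm_num), ← Real.rpow_mul (by norm_num), ← Real.rpow_natCast,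
      ← Real.rpow_mul (by norm_num), one_div, Real.inv_rpow (by norm_num),
      ← Real.rpow_neg (by norm_num), ← Real.rpow_add (by norm_num), ← Real.rpow_add (by norm_num)]
    congr 1
  rw [e1]
  apply Real.rpow_lt_one_of_one_lt_of_neg (by norm_num)
  have h2 : (η + σ) * μ + η * 2 - δ = (σ * μ - δ) / 2 := by
    rw [hη]
    field_simp
    ring
  rw [h2]
  linarith

section

variable {T E D : ℝ} {G : Set ℝ} {u : ℝ → V → V} {p : ℝ → V → ℝ}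

/-- The index of the window is bounded. -/
theorem idx_lt {n i : ℕ} {t₀ : ℝ} (h1 : (i : ℝ) * rr n ^ 2 < t₀) (h2 : t₀ < T) :
    i < ⌈T / rr n ^ 2⌉₊ := by
  have hρ : 0 < rr n ^ 2 := by have := rr_pos n; positivity
  have h3 : (i : ℝ) < T / rr n ^ 2 := by
    rw [lt_div_iff₀ hρ]
    linarith
  have h4 : ((i : ℕ) : ℝ) < ((⌈T / rr n ^ 2⌉₊ : ℕ) : ℝ) := h3.trans_le (Nat.le_ceil _)
  exact_mod_cast h4

/-- A point of the space is an integral translate of a point of the cube. -/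
theorem to_cube (x : V) : ∃ k : Fin 3 → ℤ, (fun i => x i + (k i : ℝ)) ∈ cube := by
  refine ⟨fun i => -⌊x i⌋, fun i => ?_, fun i => ?_⟩
  · show (0 : ℝ) ≤ x i + ((-⌊x i⌋ : ℤ) : ℝ)
    push_cast
    linarith [Int.floor_le (x i)]
  · show x i + ((-⌊x i⌋ : ℤ) : ℝ) ≤ 1
    push_cast
    linarith [Int.lt_floor_add_one (x i)]

/-- The planes with singular points, viscosity one. -/
theorem planes1 (h : Turb 1 T E D G u p) {q m : ℝ} (hq : 3 < q) (hm : 2 ≤ m) (j : Fin 3)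
    (hY : ∫⁻ t in G, Nq q u j t ^ (m / q) ≠ ⊤) {δ : ℝ}
    (hδ2 : (2 / m + 3 / q - 1) * max q m < δ) :
    PNull δ {w : ℝ × ℝ | w.1 ∈ Ioo 0 T ∧ ∃ x : V, x j = w.2 ∧ SingPt G u w.1 x} := by
  classical
  set σ := 2 / m + 3 / q - 1 with hσ
  set μ := max q m with hμ
  have hμ0 : 0 < μ := by
    have : q ≤ μ := le_max_left _ _
    linarith
  obtain ⟨B, hB, hBδ⟩ := choose_B hμ0 hδ2
  have hB0 : 0 < B := by linarith
  obtain ⟨C, hC, hcount⟩ := count_pl h hq hm j hY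
  -- the points of the cube
  have h0 : PNull δ {w : ℝ × ℝ | w.1 ∈ Ioo 0 T ∧ ∃ x : V, x ∈ cube ∧ x j = w.2 ∧
      SingPt G u w.1 x} := by
    refine PNull_limsup (κ := ℕ × ℕ) (A := fun n => (Finset.range ⌈T / rr (n + 1) ^ 2⌉₊ ×ˢ
        Finset.range (2 ^ (n + 1))).filter
          fun w => ENNReal.ofReal ((B ^ (n + 1))⁻¹) ≤ Ag q G u j (n + 1) w.1 w.2)
      (z := fun n w => (((w.1 : ℝ) + 1) * rr (n + 1) ^ 2, (w.2 : ℝ) * rr (n + 1))) (n₁ := 0)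
      (C := C * (B * 2 ^ σ) ^ μ) (θ := (B * 2 ^ σ) ^ μ) ?_ (by positivity) (by positivity) ?_ ?_
    · rintro ⟨t₀, c⟩ ⟨ht₀, x, hxc, hxj, hs⟩ K
      simp only at ht₀ hxj hs
      obtain ⟨n', hn', hSN⟩ := often h hq j ht₀ hs hB (K + 1)
      obtain ⟨n, rfl⟩ : ∃ n, n' = n + 1 := ⟨n' - 1, by omega⟩
      refine ⟨n, by omega, ?_⟩
      obtain ⟨i, l, ⟨hi1, hi2⟩, hl, hxl⟩ := grid (j := j) (n := n + 1) ht₀.1 hxc
      have hr := rr_pos (n + 1)
      have hrr : rr n = 2 * rr (n + 1) := by rw [rr_succ]; ring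
      refine ⟨(i, l), ?_, ?_, ?_⟩
      · refine Finset.mem_filter.2 ⟨Finset.mem_product.2 ⟨Finset.mem_range.2
          (idx_lt hi1 ht₀.2), Finset.mem_range.2 hl⟩, ?_⟩
        exact hSN.trans (SN_Ag hq hi1.le hi2 hxl)
      · show |t₀ - ((i : ℝ) + 1) * rr (n + 1) ^ 2| < rr n ^ 2
        rw [hrr, abs_lt]
        constructor <;> nlinarith [sq_nonneg (rr (n + 1))]
      · show ‖c - (l : ℝ) * rr (n + 1)‖ < rr n
        rw [← hxj, Real.norm_eq_abs, hrr]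
        linarith
    · refine lt_of_le_of_lt ?_ hBδ
      have h1 : (1 : ℝ) ≤ B ^ 2 := one_le_pow₀ hB.le
      have h2 : 0 < (B * 2 ^ σ) ^ μ := by positivity
      have h3 : (0 : ℝ) < (1 / 2) ^ δ := by positivity
      calc (B * 2 ^ σ) ^ μ * (1 / 2) ^ δ ≤ (B * 2 ^ σ) ^ μ * B ^ 2 * (1 / 2) ^ δ := by
            gcongr
            exact le_mul_of_one_le_right h2.le h1
        _ ≤ _ := le_rfl
    · intro n _
      have h1 := hcount (n + 1) ⌈T / rr (n + 1) ^ 2⌉₊ ((B ^ (n + 1))⁻¹) (by positivity)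
      refine h1.trans (le_of_eq ?_)
      rw [inv_inv, two_pow_rr, ← mul_pow, ← Real.rpow_natCast (B * 2 ^ σ), ← Real.rpow_mul
        (by positivity), mul_comm ((n + 1 : ℕ) : ℝ), Real.rpow_mul (by positivity),
        Real.rpow_natCast, pow_succ]
      ring
  -- all points
  refine PNull.mono (PNull.iUnion (κ := ℤ) fun k => h0.translate (k : ℝ)) ?_
  rintro ⟨t₀, c⟩ ⟨ht₀, x, hxj, hs⟩
  obtain ⟨k, hk⟩ := to_cube x
  refine mem_iUnion.2 ⟨-(k j), ht₀, _, hk, ?_, sing_shift h k hs⟩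
  show x j + (k j : ℝ) = c - ((-(k j) : ℤ) : ℝ)
  simp only at hxj
  rw [hxj]
  push_cast
  ring

/-- The singular times, viscosity one. -/
theorem times1 (h : Turb 1 T E D G u p) {q m : ℝ} (hq : 3 < q) (hm : 2 ≤ m) (j : Fin 3)
    (hY : ∫⁻ t in G, Nq q u j t ^ (m / q) ≠ ⊤) {δ : ℝ}
    (hδ2 : (2 / m + 3 / q - 1) * m < δ) :
    PNull δ {w : ℝ × ℝ | w.2 = 0 ∧ w.1 ∈ Ioo 0 T ∧ ∃ x : V, SingPt G u w.1 x} := by
  classical
  set σ := 2 / m + 3 / q - 1 with hσ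
  have hm0 : 0 < m := by linarith
  obtain ⟨B, hB, hBδ⟩ := choose_B hm0 hδ2
  have hB0 : 0 < B := by linarith
  obtain ⟨C, hC, hcount⟩ := count_tm h hq hm j hY
  refine PNull_limsup (κ := ℕ) (A := fun n => (Finset.range ⌈T / rr (n + 1) ^ 2⌉₊).filter
        fun i => ENNReal.ofReal ((B ^ (n + 1))⁻¹) ≤ Tg q G u j (n + 1) i)
      (z := fun n i => (((i : ℝ) + 1) * rr (n + 1) ^ 2, 0)) (n₁ := 0)
      (C := C * (B * 2 ^ σ) ^ m) (θ := (B * 2 ^ σ) ^ m) ?_ (by positivity) (by positivity) ?_ ?_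
  · rintro ⟨t₀, c⟩ ⟨hc, ht₀, x, hs⟩ K
    simp only at ht₀ hc hs
    obtain ⟨k, hk⟩ := to_cube x
    have hs' := sing_shift h k hs
    obtain ⟨n', hn', hSN⟩ := often h hq j ht₀ hs' hB (K + 1)
    obtain ⟨n, rfl⟩ : ∃ n, n' = n + 1 := ⟨n' - 1, by omega⟩
    refine ⟨n, by omega, ?_⟩
    obtain ⟨i, l, ⟨hi1, hi2⟩, hl, hxl⟩ := grid (j := j) (n := n + 1) ht₀.1 hk
    have hr := rr_pos (n + 1)
    have hrr : rr n = 2 * rr (n + 1) := by rw [rr_succ]; ring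
    refine ⟨i, ?_, ?_, ?_⟩
    · refine Finset.mem_filter.2 ⟨Finset.mem_range.2 (idx_lt hi1 ht₀.2), ?_⟩
      exact hSN.trans (SN_Tg hq hi1.le hi2)
    · show |t₀ - ((i : ℝ) + 1) * rr (n + 1) ^ 2| < rr n ^ 2
      rw [hrr, abs_lt]
      constructor <;> nlinarith [sq_nonneg (rr (n + 1))]
    · show ‖c - (0 : ℝ)‖ < rr n
      rw [hc, sub_zero, norm_zero]
      exact rr_pos n
  · refine lt_of_le_of_lt ?_ hBδ
    have h1 : (1 : ℝ) ≤ B ^ 2 := one_le_pow₀ hB.le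
    have h2 : 0 < (B * 2 ^ σ) ^ m := by positivity
    have h3 : (0 : ℝ) < (1 / 2) ^ δ := by positivity
    calc (B * 2 ^ σ) ^ m * (1 / 2) ^ δ ≤ (B * 2 ^ σ) ^ m * B ^ 2 * (1 / 2) ^ δ := by
          gcongr
          exact le_mul_of_one_le_right h2.le h1
      _ ≤ _ := le_rfl
  · intro n _
    have h1 := hcount (n + 1) ⌈T / rr (n + 1) ^ 2⌉₊ ((B ^ (n + 1))⁻¹) (by positivity)
    refine h1.trans (le_of_eq ?_)
    rw [inv_inv, two_pow_rr, ← mul_pow, ← Real.rpow_natCast (B * 2 ^ σ), ← Real.rpow_mul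
      (by positivity), mul_comm ((n + 1 : ℕ) : ℝ), Real.rpow_mul (by positivity),
      Real.rpow_natCast, pow_succ]
    ring

/-- The critical class, viscosity one, a compact set of times and the cube. -/
theorem critc (h : Turb 1 T E D G u p) {q m : ℝ} (hq : 3 < q) (hm : 2 ≤ m)
    (hqm : 2 / m + 3 / q = 1) (j : Fin 3) (hY : ∫⁻ t in G, Nq q u j t ^ (m / q) ≠ ⊤) {δ : ℝ}
    (hδ : 0 < δ) {τ₁ τ₂ : ℝ} (hτ₁ : 0 < τ₁) (hτ₂ : τ₂ < T) :
    PNull δ {w : ℝ × V | w.1 ∈ Icc τ₁ τ₂ ∧ w.2 ∈ cube ∧ SingPt G u w.1 w.2} := by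
  classical
  set μ := max q m with hμ
  have hμ0 : 0 < μ := by
    have : q ≤ μ := le_max_left _ _
    linarith
  obtain ⟨B, hB, hBδ⟩ := choose_B (σ := 0) (δ := δ) hμ0 (by linarith)
  rw [Real.rpow_zero, mul_one] at hBδ
  have hB0 : 0 < B := by linarith
  obtain ⟨C, hC, hcount⟩ := count_pl h hq hm j hY
  obtain ⟨κ, hκ, hslU⟩ := slU hq hB
  obtain ⟨k₁, hk₁⟩ := unif_small h hq hm hqm j hY (τ₁ := τ₁ / 2) (by positivity) hκ
  obtain ⟨Z, n₀, hZ, hU⟩ := hslU T E D G u p h j (τ₁ / 2) (by positivity) k₁ hk₁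
  obtain ⟨C', n₁, hC', hbox⟩ := count_box h (by positivity) hZ hB hU
  -- the scales
  obtain ⟨n₂, hn₂⟩ : ∃ n₂ : ℕ, rr n₂ < min (τ₁ / 2) (T - τ₂) := by
    unfold rr
    exact exists_pow_lt_of_lt_one (lt_min (by positivity) (by linarith)) (by norm_num)
  have hsc : ∀ n ≥ n₂, rr n ^ 2 < τ₁ / 2 ∧ rr n ^ 2 < T - τ₂ := by
    intro n hn
    have h1 := rr_anti hn
    have h2 := rr_le_one n
    have h3 := rr_pos n
    have h4 : rr n ^ 2 ≤ rr n := by nlinarith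
    exact ⟨by linarith [min_le_left (τ₁ / 2) (T - τ₂)], by linarith [min_le_right (τ₁ / 2) (T - τ₂)]⟩
  set N := max n₁ n₂ with hN
  -- the sets of the centres
  have hex : ∀ (n i l : ℕ), ∃ F : Finset V, (F.card : ℝ) ≤ C' * B ^ (2 * n) ∧
      (N ≤ n → τ₁ ≤ ((i : ℝ) + 1) * rr n ^ 2 → ((i : ℝ) + 1) * rr n ^ 2 < T →
        ∀ x ∈ Sbox G u j ((l : ℝ) * rr n) (((i : ℝ) + 1) * rr n ^ 2) n, ∃ y ∈ F,
          ‖x - y‖ < 2 * rr n) := by
    intro n i l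
    by_cases hc : N ≤ n ∧ τ₁ ≤ ((i : ℝ) + 1) * rr n ^ 2 ∧ ((i : ℝ) + 1) * rr n ^ 2 < T
    · obtain ⟨hn, h1, h2⟩ := hc
      obtain ⟨F, -, hF2, hF3⟩ := hbox n ((le_max_left _ _).trans hn) ((l : ℝ) * rr n)
        (((i : ℝ) + 1) * rr n ^ 2) (by linarith [(hsc n ((le_max_right _ _).trans hn)).1]) h2
      exact ⟨F, hF2, fun _ _ _ => hF3⟩
    · refine ⟨∅, by rw [Finset.card_empty, Nat.cast_zero]; positivity, fun h1 h2 h3 => ?_⟩
      exact absurd ⟨h1, h2, h3⟩ hc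
  choose F hF1 hF2 using hex
  set Bad : ℕ → Finset (ℕ × ℕ) := fun n => (Finset.range ⌈T / rr n ^ 2⌉₊ ×ˢ
        Finset.range (2 ^ n)).filter
          fun w => ENNReal.ofReal ((B ^ n)⁻¹) ≤ Ag q G u j n w.1 w.2 with hBad
  refine PNull_limsup (κ := ℝ × V) (A := fun n => (Bad (n + 1)).biUnion fun w =>
      (F (n + 1) w.1 w.2).image fun y => (((w.1 : ℝ) + 1) * rr (n + 1) ^ 2, y))
    (z := fun _ w => w) (n₁ := 0) (C := C * C' * (B ^ μ * B ^ 2)) (θ := B ^ μ * B ^ 2)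
    ?_ (by positivity) (by positivity) hBδ ?_
  · rintro ⟨t₀, x₀⟩ ⟨ht₀, hxc, hs⟩ K
    simp only at ht₀ hxc hs
    have ht₀T : t₀ ∈ Ioo 0 T := ⟨by linarith [ht₀.1], by linarith [ht₀.2]⟩
    obtain ⟨n', hn', hSN⟩ := often h hq j ht₀T hs hB (max K N + 1)
    obtain ⟨n, rfl⟩ : ∃ n, n' = n + 1 := ⟨n' - 1, by omega⟩
    have hnK : K ≤ n := by
      have := le_max_left K N
      omega
    have hnN : N ≤ n + 1 := by
      have := le_max_right K N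
      omega
    refine ⟨n, hnK, ?_⟩
    obtain ⟨i, l, ⟨hi1, hi2⟩, hl, hxl⟩ := grid (j := j) (n := n + 1) ht₀T.1 hxc
    have hr := rr_pos (n + 1)
    have hrr : rr n = 2 * rr (n + 1) := by rw [rr_succ]; ring
    have hsc' := hsc (n + 1) ((le_max_right _ _).trans hnN)
    have hbox' : x₀ ∈ Sbox G u j ((l : ℝ) * rr (n + 1)) (((i : ℝ) + 1) * rr (n + 1) ^ 2)
        (n + 1) := by
      refine ⟨hxc, hxl, t₀, ⟨?_, hi2⟩, hs⟩
      linarith
    obtain ⟨y, hy, hyx⟩ := hF2 (n + 1) i l hnN (by linarith [ht₀.1]) (by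
      linarith [ht₀.2]) x₀ hbox'
    refine ⟨(((i : ℝ) + 1) * rr (n + 1) ^ 2, y), ?_, ?_, ?_⟩
    · refine Finset.mem_biUnion.2 ⟨(i, l), ?_, Finset.mem_image.2 ⟨y, hy, rfl⟩⟩
      refine Finset.mem_filter.2 ⟨Finset.mem_product.2 ⟨Finset.mem_range.2
        (idx_lt hi1 ht₀T.2), Finset.mem_range.2 hl⟩, ?_⟩
      exact hSN.trans (SN_Ag hq hi1.le hi2 hxl)
    · show |t₀ - ((i : ℝ) + 1) * rr (n + 1) ^ 2| < rr n ^ 2
      rw [hrr, abs_lt]
      constructor <;> nlinarith [sq_nonneg (rr (n + 1))]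
    · show ‖x₀ - y‖ < rr n
      rw [hrr]
      exact hyx
  · intro n _
    have h1 := hcount (n + 1) ⌈T / rr (n + 1) ^ 2⌉₊ ((B ^ (n + 1))⁻¹) (by positivity)
    have e0 : 2 / m + 3 / q - 1 = 0 := by linarith
    rw [e0, neg_zero, Real.rpow_zero, mul_one, inv_inv] at h1
    have h2 : (((Bad (n + 1)).biUnion fun w => (F (n + 1) w.1 w.2).image
        fun y => ((((w.1 : ℝ) + 1) * rr (n + 1) ^ 2, y) : ℝ × V)).card : ℝ)
        ≤ ∑ w ∈ Bad (n + 1), C' * B ^ (2 * (n + 1)) := by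
      refine le_trans ?_ (Finset.sum_le_sum fun w _ => hF1 (n + 1) w.1 w.2)
      exact_mod_cast Finset.card_biUnion_le.trans
        (Finset.sum_le_sum fun w _ => Finset.card_image_le)
    refine h2.trans ?_
    rw [Finset.sum_const, nsmul_eq_mul]
    calc ((Bad (n + 1)).card : ℝ) * (C' * B ^ (2 * (n + 1)))
        ≤ (C * (B ^ (n + 1)) ^ μ) * (C' * B ^ (2 * (n + 1))) := by
          gcongr
      _ = _ := by
          rw [← Real.rpow_natCast B (n + 1), ← Real.rpow_mul hB0.le, mul_comm ((n + 1 : ℕ) : ℝ),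
            Real.rpow_mul hB0.le, Real.rpow_natCast, pow_mul]
          have e3 : (B ^ μ * B ^ 2) * (B ^ μ * B ^ 2) ^ n = (B ^ μ) ^ (n + 1) * (B ^ 2) ^ (n + 1) := by
            rw [← pow_succ', mul_pow]
          calc C * (B ^ μ) ^ (n + 1) * (C' * (B ^ 2) ^ (n + 1))
              = C * C' * ((B ^ μ) ^ (n + 1) * (B ^ 2) ^ (n + 1)) := by ring
            _ = _ := by
                rw [← e3]
                ring

/-- The critical class, viscosity one. -/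
theorem crit_class1 (h : Turb 1 T E D G u p) {q m : ℝ} (hq : 3 < q) (hm : 2 ≤ m)
    (hqm : 2 / m + 3 / q = 1) (j : Fin 3) (hY : ∫⁻ t in G, Nq q u j t ^ (m / q) ≠ ⊤) {δ : ℝ}
    (hδ : 0 < δ) : PNull δ {w : ℝ × V | w.1 ∈ Ioo 0 T ∧ SingPt G u w.1 w.2} := by
  have h0 : ∀ N : ℕ, PNull δ {w : ℝ × V | w.1 ∈ Icc (1 / ((N : ℝ) + 1)) (T - 1 / ((N : ℝ) + 1)) ∧
      w.2 ∈ cube ∧ SingPt G u w.1 w.2} := by
    intro N
    have : 0 < 1 / ((N : ℝ) + 1) := by positivity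
    exact critc h hq hm hqm j hY hδ this (by linarith)
  refine PNull.mono (PNull.iUnion (κ := ℕ × (Fin 3 → ℤ)) fun w =>
    (h0 w.1).translate (fun i => (w.2 i : ℝ))) ?_
  rintro ⟨t₀, x₀⟩ ⟨ht₀, hs⟩
  obtain ⟨k, hk⟩ := to_cube x₀
  obtain ⟨N, hN⟩ := exists_nat_one_div_lt (lt_min ht₀.1 (sub_pos.2 ht₀.2))
  have e1 : (x₀ - fun i => (((fun i => -(k i)) i : ℤ) : ℝ)) = fun i => x₀ i + (k i : ℝ) := by
    funext i
    rw [Pi.sub_apply]
    push_cast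
    ring
  refine mem_iUnion.2 ⟨(N, fun i => -(k i)), ⟨?_, ?_⟩, ?_, ?_⟩
  · exact (hN.trans_le (min_le_left _ _)).le
  · have := hN.trans_le (min_le_right _ _)
    show t₀ ≤ T - 1 / ((N : ℝ) + 1)
    linarith
  · show (x₀ - fun i => (((fun i => -(k i)) i : ℤ) : ℝ)) ∈ cube
    rw [e1]
    exact hk
  · show SingPt G u t₀ (x₀ - fun i => (((fun i => -(k i)) i : ℤ) : ℝ))
    rw [e1]
    exact sing_shift h k hs

end

end Pool.Agent.Helper30K1
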