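import Pool.Agent.Helper30K1.Cnt2

/-!
One velocity component (helper30): the singular set in the critical class is a null set for the
gauges `exp (- A (log (1 / r)) ^ (1 - 1 / m))`.
-/

set_option autoImplicit false

open MeasureTheory Set Metric Filter Topology
open scoped ContDiff ENNReal NNReal

namespace Pool.Agent.Helper30K1

open H459R3.NS W221.NS Pool.Agent.Y8

/-- The exponential beats the powers. -/
theorem ev_small {c s μ : ℝ} (hc : 0 < c) (hs : 0 < s) :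
    ∃ n₁ : ℕ, 1 ≤ n₁ ∧ ∀ n : ℕ, n₁ ≤ n →
      (((n : ℝ) + 1) ^ 2) ^ μ * Real.exp (-(c * (n : ℝ) ^ s)) * (n : ℝ) ^ 2 ≤ 1 ∨ μ < 0 := by
  by_cases hμ : μ < 0
  · exact ⟨1, le_rfl, fun n _ => Or.inr hμ⟩
  push Not at hμ
  have h1 := tendsto_rpow_mul_exp_neg_mul_atTop_nhds_zero ((2 * μ + 2) / s) c hc
  have h2 : Tendsto (fun n : ℕ => (n : ℝ) ^ s) atTop atTop :=
    (tendsto_rpow_atTop hs).comp tendsto_natCast_atTop_atTop
  have h3 := ((h1.comp h2).const_mul ((2 : ℝ) ^ (2 * μ)))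
  rw [mul_zero] at h3
  obtain ⟨n₁, hn₁⟩ := ((h3.eventually (Iio_mem_nhds one_pos)).and
    (eventually_ge_atTop 1)).exists_forall_of_atTop
  refine ⟨max n₁ 1, le_max_right _ _, fun n hn => Or.inl ?_⟩
  obtain ⟨h4, h5⟩ := hn₁ n ((le_max_left _ _).trans hn)
  have hn0 : (1 : ℝ) ≤ n := by exact_mod_cast h5
  have hn' : (0 : ℝ) < n := by linarith
  have h6 : (2 : ℝ) ^ (2 * μ) * (((n : ℝ) ^ s) ^ ((2 * μ + 2) / s) * Real.exp (-c * (n : ℝ) ^ s))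
      < 1 := h4
  have e1 : ((n : ℝ) ^ s) ^ ((2 * μ + 2) / s) = (n : ℝ) ^ (2 * μ) * (n : ℝ) ^ 2 := by
    rw [← Real.rpow_mul hn'.le, ← Real.rpow_natCast (n : ℝ) 2, ← Real.rpow_add hn']
    congr 1
    push_cast
    field_simp
  rw [e1] at h6
  have h7 : (((n : ℝ) + 1) ^ 2) ^ μ ≤ (2 : ℝ) ^ (2 * μ) * (n : ℝ) ^ (2 * μ) := by
    rw [← Real.mul_rpow (by norm_num) hn'.le, Real.rpow_mul (by positivity),
      ← Real.rpow_natCast ((n : ℝ) + 1) 2]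
    push_cast
    refine Real.rpow_le_rpow (by positivity) ?_ hμ
    refine Real.rpow_le_rpow (by positivity) ?_ (by norm_num)
    linarith
  have e2 : -c * (n : ℝ) ^ s = -(c * (n : ℝ) ^ s) := by ring
  rw [e2] at h6
  have h8 : 0 < Real.exp (-(c * (n : ℝ) ^ s)) := Real.exp_pos _
  calc (((n : ℝ) + 1) ^ 2) ^ μ * Real.exp (-(c * (n : ℝ) ^ s)) * (n : ℝ) ^ 2
      ≤ ((2 : ℝ) ^ (2 * μ) * (n : ℝ) ^ (2 * μ)) * Real.exp (-(c * (n : ℝ) ^ s)) * (n : ℝ) ^ 2 := by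
        gcongr
    _ = (2 : ℝ) ^ (2 * μ) * ((n : ℝ) ^ (2 * μ) * (n : ℝ) ^ 2 * Real.exp (-(c * (n : ℝ) ^ s))) := by
        ring
    _ ≤ 1 := h6.le

section

variable {T E D : ℝ} {G : Set ℝ} {u : ℝ → V → V} {p : ℝ → V → ℝ}

/-- The critical class, viscosity one, a compact set of times and the cube. -/
theorem critc2 (h : Turb 1 T E D G u p) {q m : ℝ} (hq : 3 < q) (hm : 2 ≤ m)
    (hqm : 2 / m + 3 / q = 1) (j : Fin 3) (hY : ∫⁻ t in G, Nq q u j t ^ (m / q) ≠ ⊤) {A : ℝ}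
    (hA : 0 < A) {τ₁ τ₂ : ℝ} (hτ₁ : 0 < τ₁) (hτ₂ : τ₂ < T) :
    GNull (gau A (1 - 1 / m))
      {w : ℝ × V | w.1 ∈ Icc τ₁ τ₂ ∧ w.2 ∈ cube ∧ SingPt G u w.1 w.2} := by
  classical
  have hm0 : 0 < m := by linarith
  obtain ⟨s, hs⟩ : ∃ s : ℝ, s = 1 - 1 / m := ⟨_, rfl⟩
  have hs0 : 0 < s := by
    rw [hs]
    have : 1 / m ≤ 1 / 2 := by apply one_div_le_one_div_of_le <;> linarith
    linarith
  have hs1 : s ≤ 1 := by
    rw [hs]
    have : 0 < 1 / m := by positivity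
    linarith
  set μ := max q m with hμ
  have hμ0 : 0 < μ := by
    have : q ≤ μ := le_max_left _ _
    linarith
  have hlog : 0 < Real.log 2 := Real.log_pos (by norm_num)
  obtain ⟨b, hb⟩ : ∃ b : ℝ, b = A * Real.log 2 ^ s := ⟨_, rfl⟩
  have hb0 : 0 < b := by rw [hb]; positivity
  obtain ⟨C, hC, hcount⟩ := count_pl h hq hm j hY
  obtain ⟨Z, n₀, hZ, hU⟩ := slW h hq hm hqm j hY (τ₁ := τ₁ / 2) (by positivity) (κ := b / 4)
    (by positivity)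
  rw [← hs] at hU
  obtain ⟨C', n₁, hC', hbox⟩ := count_box2 h (by positivity) (M := fun n : ℕ =>
      Z * Real.exp (b / 4 * ((n : ℝ) + 1) ^ s)) (by
      intro n
      have : 1 ≤ Real.exp (b / 4 * ((n : ℝ) + 1) ^ s) := Real.one_le_exp (by positivity)
      nlinarith) (by
      intro a a' haa
      have h1 : ((a : ℝ) + 1) ^ s ≤ ((a' : ℝ) + 1) ^ s := by
        refine Real.rpow_le_rpow (by positivity) ?_ hs0.le
        have : (a : ℝ) ≤ a' := by exact_mod_cast haa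
        linarith
      simp only
      gcongr) hU
  obtain ⟨n₃, hn₃1, hn₃⟩ := ev_small (c := b / 2) (s := s) (μ := μ) (by positivity) hs0
  -- the scales
  obtain ⟨n₂, hn₂⟩ : ∃ n₂ : ℕ, rr n₂ < min (τ₁ / 2) (T - τ₂) := by
    unfold rr
    exact exists_pow_lt_of_lt_one (lt_min (by positivity) (by linarith)) (by norm_num)
  have hsc : ∀ n ≥ n₂, rr n ^ 2 < τ₁ / 2 ∧ rr n ^ 2 < T - τ₂ := by
    intro n hn
    have h1 := rr_anti hn
    have h2 := rr_le_one n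
    have h3 := rr_pos n
    have h4 : rr n ^ 2 ≤ rr n := by nlinarith
    exact ⟨by linarith [min_le_left (τ₁ / 2) (T - τ₂)], by linarith [min_le_right (τ₁ / 2) (T - τ₂)]⟩
  set N := max n₁ n₂ with hN
  -- the sets of the centres
  have hex : ∀ (n i l : ℕ), ∃ F : Finset V,
      (F.card : ℝ) ≤ C' * (Z * Real.exp (b / 4 * ((n : ℝ) + 1) ^ s)) ^ 2 ∧
      (N ≤ n → τ₁ ≤ ((i : ℝ) + 1) * rr n ^ 2 → ((i : ℝ) + 1) * rr n ^ 2 < T →
        ∀ x ∈ Sbox G u j ((l : ℝ) * rr n) (((i : ℝ) + 1) * rr n ^ 2) n, ∃ y ∈ F,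
          ‖x - y‖ < 2 * rr n) := by
    intro n i l
    by_cases hc : N ≤ n ∧ τ₁ ≤ ((i : ℝ) + 1) * rr n ^ 2 ∧ ((i : ℝ) + 1) * rr n ^ 2 < T
    · obtain ⟨hn, h1, h2⟩ := hc
      obtain ⟨F, -, hF2, hF3⟩ := hbox n ((le_max_left _ _).trans hn) ((l : ℝ) * rr n)
        (((i : ℝ) + 1) * rr n ^ 2) (by linarith [(hsc n ((le_max_right _ _).trans hn)).1]) h2
      exact ⟨F, hF2, fun _ _ _ => hF3⟩
    · refine ⟨∅, by rw [Finset.card_empty, Nat.cast_zero]; positivity, fun h1 h2 h3 => ?_⟩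
      exact absurd ⟨h1, h2, h3⟩ hc
  choose F hF1 hF2 using hex
  set Bad : ℕ → Finset (ℕ × ℕ) := fun n => (Finset.range ⌈T / rr n ^ 2⌉₊ ×ˢ
        Finset.range (2 ^ n)).filter
          fun w => ENNReal.ofReal (((n : ℝ) ^ 2)⁻¹) ≤ Ag q G u j n w.1 w.2 with hBad
  rw [← hs]
  have hf : Summable fun n : ℕ => C * C' * Z ^ 2 * Real.exp b * (1 / (n : ℝ) ^ 2) :=
    (Real.summable_one_div_nat_pow.2 one_lt_two).mul_left _
  refine GNull_limsup (κ := ℝ × V) (A := fun n => (Bad (n + 1)).biUnion fun w =>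
      (F (n + 1) w.1 w.2).image fun y => (((w.1 : ℝ) + 1) * rr (n + 1) ^ 2, y))
    (z := fun _ w => w) (n₁ := n₃) ?_ hf (fun n => by positivity) ?_
  · rintro ⟨t₀, x₀⟩ ⟨ht₀, hxc, hsg⟩ K
    simp only at ht₀ hxc hsg
    have ht₀T : t₀ ∈ Ioo 0 T := ⟨by linarith [ht₀.1], by linarith [ht₀.2]⟩
    obtain ⟨n', hn', hSN⟩ := often2 h hq j ht₀T hsg (max K N + 1)
    obtain ⟨n, rfl⟩ : ∃ n, n' = n + 1 := ⟨n' - 1, by omega⟩
    have hnK : K ≤ n := by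
      have := le_max_left K N
      omega
    have hnN : N ≤ n + 1 := by
      have := le_max_right K N
      omega
    refine ⟨n, hnK, ?_⟩
    obtain ⟨i, l, ⟨hi1, hi2⟩, hl, hxl⟩ := grid (j := j) (n := n + 1) ht₀T.1 hxc
    have hr := rr_pos (n + 1)
    have hrr : rr n = 2 * rr (n + 1) := by rw [rr_succ]; ring
    have hsc' := hsc (n + 1) ((le_max_right _ _).trans hnN)
    have hbox' : x₀ ∈ Sbox G u j ((l : ℝ) * rr (n + 1)) (((i : ℝ) + 1) * rr (n + 1) ^ 2)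
        (n + 1) := by
      refine ⟨hxc, hxl, t₀, ⟨?_, hi2⟩, hsg⟩
      linarith
    obtain ⟨y, hy, hyx⟩ := hF2 (n + 1) i l hnN (by linarith [ht₀.1]) (by
      linarith [ht₀.2]) x₀ hbox'
    refine ⟨(((i : ℝ) + 1) * rr (n + 1) ^ 2, y), ?_, ?_, ?_⟩
    · refine Finset.mem_biUnion.2 ⟨(i, l), ?_, Finset.mem_image.2 ⟨y, hy, rfl⟩⟩
      refine Finset.mem_filter.2 ⟨Finset.mem_product.2 ⟨Finset.mem_range.2
        (idx_lt hi1 ht₀T.2), Finset.mem_range.2 hl⟩, ?_⟩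
      exact hSN.trans (SN_Ag hq hi1.le hi2 hxl)
    · show |t₀ - ((i : ℝ) + 1) * rr (n + 1) ^ 2| < rr n ^ 2
      rw [hrr, abs_lt]
      constructor <;> nlinarith [sq_nonneg (rr (n + 1))]
    · show ‖x₀ - y‖ < rr n
      rw [hrr]
      exact hyx
  · intro n hn
    have hn1 : (1 : ℝ) ≤ n := by exact_mod_cast hn₃1.trans hn
    have hn0 : (0 : ℝ) < n := by linarith
    have h1 := hcount (n + 1) ⌈T / rr (n + 1) ^ 2⌉₊ ((((n + 1 : ℕ) : ℝ) ^ 2)⁻¹) (by positivity)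
    have e0 : 2 / m + 3 / q - 1 = 0 := by linarith
    rw [e0, neg_zero, Real.rpow_zero, mul_one, inv_inv] at h1
    have h2 : (((Bad (n + 1)).biUnion fun w => (F (n + 1) w.1 w.2).image
        fun y => ((((w.1 : ℝ) + 1) * rr (n + 1) ^ 2, y) : ℝ × V)).card : ℝ)
        ≤ ∑ w ∈ Bad (n + 1), C' * (Z * Real.exp (b / 4 * (((n + 1 : ℕ) : ℝ) + 1) ^ s)) ^ 2 := by
      refine le_trans ?_ (Finset.sum_le_sum fun w _ => hF1 (n + 1) w.1 w.2)
      exact_mod_cast Finset.card_biUnion_le.trans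
        (Finset.sum_le_sum fun w _ => Finset.card_image_le)
    rw [Finset.sum_const, nsmul_eq_mul] at h2
    have h3 : (((n + 1 : ℕ) : ℝ) + 1) ^ s ≤ (n : ℝ) ^ s + 2 := by
      have e1 : ((n + 1 : ℕ) : ℝ) + 1 = (n : ℝ) + 2 := by push_cast; ring
      rw [e1]
      have h4 : ((n : ℝ) + 2) ^ s ≤ (n : ℝ) ^ s + 2 ^ s :=
        Real.rpow_add_le_add_rpow hn0.le (by norm_num) hs0.le hs1
      have h5 : (2 : ℝ) ^ s ≤ 2 ^ (1 : ℝ) := Real.rpow_le_rpow_of_exponent_le (by norm_num) hs1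
      rw [Real.rpow_one] at h5
      linarith
    have h6 : (Z * Real.exp (b / 4 * (((n + 1 : ℕ) : ℝ) + 1) ^ s)) ^ 2
        ≤ Z ^ 2 * (Real.exp b * Real.exp (b / 2 * (n : ℝ) ^ s)) := by
      rw [mul_pow, ← Real.exp_nat_mul, ← Real.exp_add]
      refine mul_le_mul_of_nonneg_left (Real.exp_le_exp.2 ?_) (sq_nonneg Z)
      push_cast
      push_cast at h3
      nlinarith
    have h7 : gau A s (rr n) = Real.exp (-(b / 2 * (n : ℝ) ^ s)) * Real.exp (-(b / 2 * (n : ℝ) ^ s)) := by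
      rw [gau_rr, Real.mul_rpow hn0.le hlog.le, ← Real.exp_add, hb]
      congr 1
      ring
    have h8 : (((n + 1 : ℕ) : ℝ) ^ 2) ^ μ * Real.exp (-(b / 2 * (n : ℝ) ^ s)) ≤ 1 / (n : ℝ) ^ 2 := by
      rcases hn₃ n hn with h9 | h9
      · rw [le_div_iff₀ (by positivity)]
        push_cast
        exact h9
      · linarith
    have hg0 : 0 ≤ gau A s (rr n) := (Real.exp_pos _).le
    calc _ ≤ (((Bad (n + 1)).card : ℝ) * (C' * (Z * Real.exp (b / 4 *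
            (((n + 1 : ℕ) : ℝ) + 1) ^ s)) ^ 2)) * gau A s (rr n) :=
          mul_le_mul_of_nonneg_right h2 hg0
      _ ≤ ((C * (((n + 1 : ℕ) : ℝ) ^ 2) ^ μ) * (C' * (Z ^ 2 * (Real.exp b
            * Real.exp (b / 2 * (n : ℝ) ^ s))))) * gau A s (rr n) := by
          refine mul_le_mul_of_nonneg_right ?_ hg0
          refine mul_le_mul h1 (mul_le_mul_of_nonneg_left h6 hC'.le) (by positivity) (by positivity)
      _ = C * C' * Z ^ 2 * Real.exp b * ((((n + 1 : ℕ) : ℝ) ^ 2) ^ μ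
            * Real.exp (-(b / 2 * (n : ℝ) ^ s)))
            * (Real.exp (b / 2 * (n : ℝ) ^ s) * Real.exp (-(b / 2 * (n : ℝ) ^ s))) := by
          rw [h7]
          ring
      _ = C * C' * Z ^ 2 * Real.exp b * ((((n + 1 : ℕ) : ℝ) ^ 2) ^ μ
            * Real.exp (-(b / 2 * (n : ℝ) ^ s))) := by
          rw [← Real.exp_add, add_neg_cancel, Real.exp_zero, mul_one]
      _ ≤ _ := by gcongr

/-- The critical class, viscosity one. -/
theorem gauge1 (h : Turb 1 T E D G u p) {q m : ℝ} (hq : 3 < q) (hm : 2 ≤ m)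
    (hqm : 2 / m + 3 / q = 1) (j : Fin 3) (hY : ∫⁻ t in G, Nq q u j t ^ (m / q) ≠ ⊤) {A : ℝ}
    (hA : 0 < A) : GNull (gau A (1 - 1 / m)) {w : ℝ × V | w.1 ∈ Ioo 0 T ∧ SingPt G u w.1 w.2} := by
  have h0 : ∀ N : ℕ, GNull (gau A (1 - 1 / m)) {w : ℝ × V | w.1 ∈ Icc (1 / ((N : ℝ) + 1))
      (T - 1 / ((N : ℝ) + 1)) ∧ w.2 ∈ cube ∧ SingPt G u w.1 w.2} := by
    intro N
    have : 0 < 1 / ((N : ℝ) + 1) := by positivity
    exact critc2 h hq hm hqm j hY hA this (by linarith)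
  refine GNull.mono (GNull.iUnion (κ := ℕ × (Fin 3 → ℤ)) fun w =>
    (h0 w.1).translate (fun i => (w.2 i : ℝ))) ?_
  rintro ⟨t₀, x₀⟩ ⟨ht₀, hs⟩
  obtain ⟨k, hk⟩ := to_cube x₀
  obtain ⟨N, hN⟩ := exists_nat_one_div_lt (lt_min ht₀.1 (sub_pos.2 ht₀.2))
  have e1 : (x₀ - fun i => (((fun i => -(k i)) i : ℤ) : ℝ)) = fun i => x₀ i + (k i : ℝ) := by
    funext i
    rw [Pi.sub_apply]
    push_cast
    ring
  refine mem_iUnion.2 ⟨(N, fun i => -(k i)), ⟨?_, ?_⟩, ?_, ?_⟩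
  · exact (hN.trans_le (min_le_left _ _)).le
  · have := hN.trans_le (min_le_right _ _)
    show t₀ ≤ T - 1 / ((N : ℝ) + 1)
    linarith
  · show (x₀ - fun i => (((fun i => -(k i)) i : ℤ) : ℝ)) ∈ cube
    rw [e1]
    exact hk
  · show SingPt G u t₀ (x₀ - fun i => (((fun i => -(k i)) i : ℤ) : ℝ))
    rw [e1]
    exact sing_shift h k hs

/-- The critical class. -/
theorem gauge {ν : ℝ} (hν : 0 < ν) (h : Turb ν T E D G u p) {q m : ℝ} (hq : 3 < q) (hm : 2 ≤ m)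
    (hqm : 2 / m + 3 / q = 1) (j : Fin 3) (hY : ∫⁻ t in G, Nq q u j t ^ (m / q) ≠ ⊤) {A : ℝ}
    (hA : 0 < A) : GNull (gau A (1 - 1 / m)) {w : ℝ × V | w.1 ∈ Ioo 0 T ∧ SingPt G u w.1 w.2} := by
  obtain ⟨h1, h2⟩ := Pool.Agent.Y96.NS.t_WSCAL ν T E D G u p hν h
  have hm0 : 0 < m := by linarith
  have hm1 : 0 < 1 / m := by positivity
  have hm2 : 1 / m ≤ 1 / 2 := by apply one_div_le_one_div_of_le <;> linarith
  refine ((gauge1 h1 hq hm hqm j (Nq_scale hν (by linarith) (by linarith) h.openG j hY)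
    hA).scale hν (gau_dbl hA (by linarith) (by linarith))).mono ?_
  rintro w ⟨hw, hs⟩
  exact ⟨⟨mul_pos hν hw.1, mul_lt_mul_of_pos_left hw.2 hν⟩, h2 _ _ hs⟩

/-- The dimension in the critical class. -/
theorem dim_crit {ν : ℝ} (hν : 0 < ν) (h : Turb ν T E D G u p) {q m : ℝ} (hq : 3 < q) (hm : 2 ≤ m)
    (hqm : 2 / m + 3 / q = 1) (j : Fin 3) (hY : ∫⁻ t in G, Nq q u j t ^ (m / q) ≠ ⊤) :
    dimH {w : ℝ × V | w.1 ∈ Ioo 0 T ∧ SingPt G u w.1 w.2} = 0 := by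
  have hm0 : 0 < m := by linarith
  have hm1 : 0 < 1 / m := by positivity
  refine dim_zero fun δ hδ => ?_
  obtain ⟨r₀, hr₀, hle⟩ := pow_le_gau (A := 1) (s := 1 - 1 / m) hδ (by linarith)
  exact GNull_pow.1 ((gauge hν h hq hm hqm j hY one_pos).of_le one_pos hr₀ hle)

end

end Pool.Agent.Helper30K1
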