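import Pool.Agent.Helper30K1.Pl

/-!
One velocity component (helper30): the number of the boxes in which the component is not small,
second part.
-/

set_option autoImplicit false

open MeasureTheory Set Metric Filter Topology
open scoped ContDiff ENNReal

namespace Pool.Agent.Helper30K1

open H459R3.NS W221.NS Pool.Agent.Y8

section

variable {T E D : ℝ} {G : Set ℝ} {u : ℝ → V → V} {p : ℝ → V → ℝ}

/-- The power of the quotient. -/
theorem zpow_le (h : Turb 1 T E D G u p) {q m : ℝ} (hq : 3 < q) (hm : 2 ≤ m) (j : Fin 3)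
    {μ : ℝ} (hμ : m ≤ μ) (n i : ℕ) {b : ℝ} (hb : 0 < b) :
    (Tg q G u j n i / ENNReal.ofReal b) ^ μ
      ≤ ENNReal.ofReal ((2 * (b⁻¹ * rr n ^ (-(2 / m + 3 / q - 1)))) ^ μ)
        * ((∫⁻ t in G, Nq q u j t ^ (m / q)) ^ (μ / m - 1)
          * ∫⁻ t in Wg G n i, Nq q u j t ^ (m / q)) := by
  have hm0 : 0 < m := by linarith
  have hμ0 : 0 < μ := by linarith
  have hr := rr_pos n
  set y := ∫⁻ t in Wg G n i, Nq q u j t ^ (m / q) with hy
  have hyY : y ≤ ∫⁻ t in G, Nq q u j t ^ (m / q) := lintegral_mono_set inter_subset_right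
  have h1 : Tg q G u j n i / ENNReal.ofReal b
      ≤ ENNReal.ofReal (2 * (b⁻¹ * rr n ^ (-(2 / m + 3 / q - 1)))) * y ^ (1 / m) := by
    rw [div_eq_mul_inv, ← ENNReal.ofReal_inv_of_pos hb]
    refine (mul_le_mul' (Tg_le h hq hm j n i) le_rfl).trans (le_of_eq ?_)
    rw [ENNReal.ofReal_mul (p := 2) (by norm_num), ENNReal.ofReal_mul (p := b⁻¹) (by positivity),
      show ENNReal.ofReal 2 = 2 by norm_num]
    ring
  have h2 := ENNReal.rpow_le_rpow h1 hμ0.le
  refine h2.trans ?_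
  rw [ENNReal.mul_rpow_of_nonneg _ _ hμ0.le, ENNReal.ofReal_rpow_of_nonneg (by positivity) hμ0.le]
  refine mul_le_mul' le_rfl ?_
  rw [← ENNReal.rpow_mul]
  have e1 : 1 / m * μ = (μ / m - 1) + 1 := by field_simp; ring
  have e2 : 0 ≤ μ / m - 1 := by
    rw [sub_nonneg, le_div_iff₀ hm0]
    linarith
  rw [e1, ENNReal.rpow_add_of_nonneg _ _ e2 zero_le_one, ENNReal.rpow_one]
  exact mul_le_mul' (ENNReal.rpow_le_rpow hyY e2) le_rfl

open scoped Classical in
/-- The number of the windows. -/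
theorem count_tm (h : Turb 1 T E D G u p) {q m : ℝ} (hq : 3 < q) (hm : 2 ≤ m) (j : Fin 3)
    (hY : ∫⁻ t in G, Nq q u j t ^ (m / q) ≠ ⊤) : ∃ C : ℝ, 0 < C ∧ ∀ (n N : ℕ) (b : ℝ), 0 < b →
      (((Finset.range N).filter fun i => ENNReal.ofReal b ≤ Tg q G u j n i).card : ℝ)
        ≤ C * (b⁻¹ * rr n ^ (-(2 / m + 3 / q - 1))) ^ m := by
  have hm0 : 0 < m := by linarith
  set Y := (∫⁻ t in G, Nq q u j t ^ (m / q)).toReal with hYd
  have hYe : ∫⁻ t in G, Nq q u j t ^ (m / q) = ENNReal.ofReal Y := (ENNReal.ofReal_toReal hY).symm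
  have hY0 : 0 ≤ Y := ENNReal.toReal_nonneg
  refine ⟨2 ^ m * (2 * Y + 1), by positivity, fun n N b hb => ?_⟩
  have hr := rr_pos n
  set F := (Finset.range N).filter fun i => ENNReal.ofReal b ≤ Tg q G u j n i with hF
  set κ := b⁻¹ * rr n ^ (-(2 / m + 3 / q - 1)) with hκ
  have hκ0 : 0 < κ := by positivity
  have hfm : AEMeasurable (fun t => Nq q u j t ^ (m / q)) (volume.restrict G) :=
    (int_meas h j cube_meas subset_rfl).pow_const _
  have h1 : ((F.card : ℕ) : ℝ≥0∞) ≤ ENNReal.ofReal ((2 * κ) ^ m * (2 * Y)) := by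
    calc ((F.card : ℕ) : ℝ≥0∞) = ∑ i ∈ F, (1 : ℝ≥0∞) := by simp
      _ ≤ ∑ i ∈ F, (Tg q G u j n i / ENNReal.ofReal b) ^ m := by
          refine Finset.sum_le_sum fun i hi => ?_
          have h2 := (Finset.mem_filter.1 hi).2
          refine ENNReal.one_le_rpow ?_ hm0
          rw [ENNReal.le_div_iff_mul_le (Or.inl (ENNReal.ofReal_pos.2 hb).ne')
            (Or.inl ENNReal.ofReal_ne_top), one_mul]
          exact h2
      _ ≤ ∑ i ∈ Finset.range N, (Tg q G u j n i / ENNReal.ofReal b) ^ m :=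
          Finset.sum_le_sum_of_subset (Finset.filter_subset _ _)
      _ ≤ ∑ i ∈ Finset.range N, ENNReal.ofReal ((2 * κ) ^ m)
          * ∫⁻ t in Wg G n i, Nq q u j t ^ (m / q) := by
          refine Finset.sum_le_sum fun i _ => ?_
          refine (zpow_le h hq hm j le_rfl n i hb).trans (le_of_eq ?_)
          rw [div_self hm0.ne', sub_self, ENNReal.rpow_zero, one_mul]
      _ = ENNReal.ofReal ((2 * κ) ^ m)
          * ∑ i ∈ Finset.range N, ∫⁻ t in Wg G n i, Nq q u j t ^ (m / q) :=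
          (Finset.mul_sum _ _ _).symm
      _ ≤ ENNReal.ofReal ((2 * κ) ^ m) * (2 * ENNReal.ofReal Y) := by
          rw [← hYe]
          exact mul_le_mul' le_rfl (sum_Wg h hfm n N)
      _ = _ := by
          rw [ENNReal.ofReal_mul (by positivity), ENNReal.ofReal_mul (p := 2) (by norm_num),
            show ENNReal.ofReal 2 = 2 by norm_num]
  rw [← ENNReal.ofReal_natCast, ENNReal.ofReal_le_ofReal_iff (by positivity)] at h1
  refine h1.trans ?_
  rw [Real.mul_rpow (by norm_num) hκ0.le]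
  have : 0 ≤ 2 ^ m * κ ^ m := by positivity
  nlinarith

open scoped Classical in
/-- The number of the boxes. -/
theorem count_pl (h : Turb 1 T E D G u p) {q m : ℝ} (hq : 3 < q) (hm : 2 ≤ m) (j : Fin 3)
    (hY : ∫⁻ t in G, Nq q u j t ^ (m / q) ≠ ⊤) : ∃ C : ℝ, 0 < C ∧ ∀ (n N : ℕ) (b : ℝ), 0 < b →
      (((Finset.range N ×ˢ Finset.range (2 ^ n)).filter
        fun w => ENNReal.ofReal b ≤ Ag q G u j n w.1 w.2).card : ℝ)
        ≤ C * (b⁻¹ * rr n ^ (-(2 / m + 3 / q - 1))) ^ (max q m) := by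
  have hm0 : 0 < m := by linarith
  have hq0 : 0 < q := by linarith
  set μ := max q m with hμ
  have hμq : q ≤ μ := le_max_left _ _
  have hμm : m ≤ μ := le_max_right _ _
  have hμ0 : 0 < μ := by linarith
  set Y := (∫⁻ t in G, Nq q u j t ^ (m / q)).toReal with hYd
  have hYe : ∫⁻ t in G, Nq q u j t ^ (m / q) = ENNReal.ofReal Y := (ENNReal.ofReal_toReal hY).symm
  have hY0 : 0 ≤ Y := ENNReal.toReal_nonneg
  have hμ1 : 0 ≤ μ / m - 1 := by
    rw [sub_nonneg, le_div_iff₀ hm0]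
    linarith
  refine ⟨5 ^ (μ / q) * 2 ^ μ * (Y ^ (μ / m - 1) * (2 * Y) + 1), by positivity,
    fun n N b hb => ?_⟩
  have hr := rr_pos n
  set κ := b⁻¹ * rr n ^ (-(2 / m + 3 / q - 1)) with hκ
  have hκ0 : 0 < κ := by positivity
  have hb0 : ENNReal.ofReal b ≠ 0 := (ENNReal.ofReal_pos.2 hb).ne'
  have hfm : AEMeasurable (fun t => Nq q u j t ^ (m / q)) (volume.restrict G) :=
    (int_meas h j cube_meas subset_rfl).pow_const _
  set F := (Finset.range N ×ˢ Finset.range (2 ^ n)).filter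
        fun w => ENNReal.ofReal b ≤ Ag q G u j n w.1 w.2 with hF
  have hcard : F.card = ∑ i ∈ Finset.range N,
      ((Finset.range (2 ^ n)).filter fun l => ENNReal.ofReal b ≤ Ag q G u j n i l).card := by
    rw [hF, Finset.card_filter, Finset.sum_product]
    refine Finset.sum_congr rfl fun i _ => ?_
    rw [Finset.card_filter]
  have hone : ∀ i, ((((Finset.range (2 ^ n)).filter
      fun l => ENNReal.ofReal b ≤ Ag q G u j n i l).card : ℕ) : ℝ≥0∞)
      ≤ 5 ^ (μ / q) * (Tg q G u j n i / ENNReal.ofReal b) ^ μ := by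
    intro i
    set F' := (Finset.range (2 ^ n)).filter fun l => ENNReal.ofReal b ≤ Ag q G u j n i l with hF'
    have h1 : ((F'.card : ℕ) : ℝ≥0∞) ≤ 5 * (Tg q G u j n i / ENNReal.ofReal b) ^ q := by
      calc ((F'.card : ℕ) : ℝ≥0∞) = ∑ l ∈ F', (1 : ℝ≥0∞) := by simp
        _ ≤ ∑ l ∈ F', (Ag q G u j n i l / ENNReal.ofReal b) ^ q := by
            refine Finset.sum_le_sum fun l hl => ?_
            have h2 := (Finset.mem_filter.1 hl).2
            refine ENNReal.one_le_rpow ?_ hq0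
            rw [ENNReal.le_div_iff_mul_le (Or.inl hb0) (Or.inl ENNReal.ofReal_ne_top), one_mul]
            exact h2
        _ ≤ ∑ l ∈ Finset.range (2 ^ n), (Ag q G u j n i l / ENNReal.ofReal b) ^ q :=
            Finset.sum_le_sum_of_subset (Finset.filter_subset _ _)
        _ = (∑ l ∈ Finset.range (2 ^ n), Ag q G u j n i l ^ q) / ENNReal.ofReal b ^ q := by
            rw [div_eq_mul_inv, Finset.sum_mul]
            refine Finset.sum_congr rfl fun l _ => ?_
            rw [ENNReal.div_rpow_of_nonneg _ _ hq0.le, div_eq_mul_inv]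
        _ ≤ 5 * Tg q G u j n i ^ q / ENNReal.ofReal b ^ q :=
            ENNReal.div_le_div_right (sum_Ag h hq j n i) _
        _ = _ := by
            rw [ENNReal.div_rpow_of_nonneg _ _ hq0.le, mul_div_assoc]
    by_cases h0 : F'.card = 0
    · rw [h0, Nat.cast_zero]
      exact zero_le
    · have h2 : (1 : ℝ≥0∞) ≤ ((F'.card : ℕ) : ℝ≥0∞) := by
        exact_mod_cast Nat.one_le_iff_ne_zero.2 h0
      have h3 := h2.trans h1
      calc ((F'.card : ℕ) : ℝ≥0∞) ≤ 5 * (Tg q G u j n i / ENNReal.ofReal b) ^ q := h1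
        _ = (5 * (Tg q G u j n i / ENNReal.ofReal b) ^ q) ^ (1 : ℝ) := by rw [ENNReal.rpow_one]
        _ ≤ (5 * (Tg q G u j n i / ENNReal.ofReal b) ^ q) ^ (μ / q) := by
            refine ENNReal.rpow_le_rpow_of_exponent_le h3 ?_
            rw [le_div_iff₀ hq0]
            linarith
        _ = _ := by
            rw [ENNReal.mul_rpow_of_nonneg _ _ (by positivity), ← ENNReal.rpow_mul]
            congr 2
            field_simp
  have h1 : ((F.card : ℕ) : ℝ≥0∞)
      ≤ ENNReal.ofReal (5 ^ (μ / q) * ((2 * κ) ^ μ * (Y ^ (μ / m - 1) * (2 * Y)))) := by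
    rw [hcard]
    push_cast
    calc ∑ i ∈ Finset.range N, ((((Finset.range (2 ^ n)).filter
          fun l => ENNReal.ofReal b ≤ Ag q G u j n i l).card : ℕ) : ℝ≥0∞)
        ≤ ∑ i ∈ Finset.range N, 5 ^ (μ / q) * (ENNReal.ofReal ((2 * κ) ^ μ)
          * (ENNReal.ofReal Y ^ (μ / m - 1) * ∫⁻ t in Wg G n i, Nq q u j t ^ (m / q))) := by
          refine Finset.sum_le_sum fun i _ => ?_
          refine (hone i).trans (mul_le_mul' le_rfl ?_)
          rw [← hYe]
          exact zpow_le h hq hm j hμm n i hb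
      _ = 5 ^ (μ / q) * (ENNReal.ofReal ((2 * κ) ^ μ) * (ENNReal.ofReal Y ^ (μ / m - 1)
          * ∑ i ∈ Finset.range N, ∫⁻ t in Wg G n i, Nq q u j t ^ (m / q))) := by
          rw [Finset.mul_sum, Finset.mul_sum, Finset.mul_sum]
      _ ≤ 5 ^ (μ / q) * (ENNReal.ofReal ((2 * κ) ^ μ) * (ENNReal.ofReal Y ^ (μ / m - 1)
          * (2 * ENNReal.ofReal Y))) := by
          refine mul_le_mul' le_rfl (mul_le_mul' le_rfl (mul_le_mul' le_rfl ?_))
          rw [← hYe]
          exact sum_Wg h hfm n N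
      _ = _ := by
          rw [ENNReal.ofReal_mul (by positivity), ENNReal.ofReal_mul (by positivity),
            ENNReal.ofReal_mul (by positivity), ENNReal.ofReal_mul (p := 2) (by norm_num),
            ← ENNReal.ofReal_rpow_of_nonneg hY0 hμ1,
            ← ENNReal.ofReal_rpow_of_nonneg (p := μ / q) (by norm_num : (0 : ℝ) ≤ 5) (by positivity),
            show ENNReal.ofReal 2 = 2 by norm_num, show ENNReal.ofReal 5 = 5 by norm_num]
  rw [← ENNReal.ofReal_natCast, ENNReal.ofReal_le_ofReal_iff (by positivity)] at h1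
  refine h1.trans ?_
  rw [Real.mul_rpow (by norm_num) hκ0.le]
  have h2 : 0 ≤ 5 ^ (μ / q) * (2 ^ μ * κ ^ μ) := by positivity
  calc 5 ^ (μ / q) * (2 ^ μ * κ ^ μ * (Y ^ (μ / m - 1) * (2 * Y)))
      = 5 ^ (μ / q) * (2 ^ μ * κ ^ μ) * (Y ^ (μ / m - 1) * (2 * Y)) := by ring
    _ ≤ 5 ^ (μ / q) * (2 ^ μ * κ ^ μ) * (Y ^ (μ / m - 1) * (2 * Y) + 1) := by
        gcongr
        linarith
    _ = _ := by ring

end

end Pool.Agent.Helper30K1
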