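import Pool.Agent.W135.MD.FarA

/-!
One velocity component (helper30): integrals of periodic functions over translated cells.
-/

set_option autoImplicit false

open MeasureTheory Set Metric Filter Topology
open scoped ContDiff ENNReal

namespace Pool.Agent.Helper30K1

open H459R3.NS

/-- The half open cell. -/
def Dm : Set V := ZSpan.fundamentalDomain (Pi.basisFun ℝ (Fin 3))

theorem Dm_mem (y : V) : y ∈ Dm ↔ ∀ i, y i ∈ Ico (0 : ℝ) 1 := by
  unfold Dm
  rw [ZSpan.mem_fundamentalDomain]
  simp

theorem Dm_meas : MeasurableSet Dm := ZSpan.fundamentalDomain_measurableSet _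

theorem Dm_ae : Dm =ᵐ[volume] cube := by
  have h1 : Dm = Set.pi Set.univ fun _ : Fin 3 => Ico (0 : ℝ) 1 := by
    ext y; rw [Dm_mem]; simp
  rw [h1]
  have h2 := Measure.univ_pi_Ico_ae_eq_Icc (μ := fun _ : Fin 3 => (volume : Measure ℝ))
    (f := (0 : V)) (g := 1)
  rw [← volume_pi] at h2
  exact h2

theorem fd0 : IsAddFundamentalDomain
    (Submodule.span ℤ (Set.range (Pi.basisFun ℝ (Fin 3)))) Dm (volume : Measure V) :=
  ZSpan.isAddFundamentalDomain _ _

theorem fdA (a : V) : IsAddFundamentalDomain
    (Submodule.span ℤ (Set.range (Pi.basisFun ℝ (Fin 3)))) ((fun y => a + y) '' Dm)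
    (volume : Measure V) := by
  refine IsAddFundamentalDomain.mk' ?_ ?_
  · exact ((measurableEmbedding_addLeft a).measurableSet_image.2 Dm_meas).nullMeasurableSet
  · intro y
    obtain ⟨g, hg, hg'⟩ := ZSpan.exist_unique_vadd_mem_fundamentalDomain
      (Pi.basisFun ℝ (Fin 3)) (-a + y)
    refine ⟨g, ?_, ?_⟩
    · refine ⟨g +ᵥ (-a + y), hg, ?_⟩
      show a + ((g : V) + (-a + y)) = (g : V) + y
      abel
    · intro g2 hg2
      apply hg'
      obtain ⟨w, hw, hw2⟩ := hg2
      have h2 : (g2 : V) + (-a + y) = w := by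
        have : a + w = (g2 : V) + y := hw2
        have h3 : w = (g2 : V) + y - a := by rw [← this]; abel
        rw [h3]; abel
      show (g2 : V) + (-a + y) ∈ Dm
      rw [h2]
      exact hw

theorem per_lat {F : Type*} {f : V → F} (hp : Per f)
    (g : Submodule.span ℤ (Set.range (Pi.basisFun ℝ (Fin 3)))) (x : V) : f (g +ᵥ x) = f x := by
  obtain ⟨g, hg⟩ := g
  show f (g + x) = f x
  have key : ∀ y : V, y ∈ Submodule.span ℤ (Set.range (Pi.basisFun ℝ (Fin 3))) →
      ∀ x : V, f (y + x) = f x := by
    intro y hy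
    induction hy using Submodule.span_induction with
    | mem y hy =>
      obtain ⟨i, rfl⟩ := hy
      intro x
      rw [add_comm, Pi.basisFun_apply]
      exact hp i x
    | zero => intro x; rw [zero_add]
    | add y z _ _ h1 h2 => intro x; rw [add_assoc, h1, h2]
    | smul n y hy h1 =>
      intro x
      have hn : ∀ (n : ℕ) (x : V), f (n • y + x) = f x := by
        intro n
        induction n with
        | zero => intro x; simp
        | succ k ih => intro x; rw [add_smul, one_smul, add_assoc, ih, h1]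
      rcases Int.eq_nat_or_neg n with ⟨k, rfl | rfl⟩
      · rw [natCast_zsmul]; exact hn k x
      · have h3 := hn k (-(k : ℤ) • y + x)
        rw [← add_assoc, neg_smul, natCast_zsmul, add_neg_cancel, zero_add] at h3
        rw [neg_smul, natCast_zsmul]
        exact h3.symm
  exact key g hg x

theorem lcube_shift {f : V → ℝ≥0∞} (hp : Per f) (a : V) :
    ∫⁻ y in cube, f (a + y) = ∫⁻ y in cube, f y := by
  have hinv : VAddInvariantMeasure
      (Submodule.span ℤ (Set.range (Pi.basisFun ℝ (Fin 3)))) V (volume : Measure V) :=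
    ⟨fun g s _ => measure_preimage_add volume (g : V) s⟩
  have e1 : ∫⁻ z in Dm, f z = ∫⁻ z in (fun y => a + y) '' Dm, f z :=
    fd0.setLIntegral_eq (fdA a) f (fun g x => per_lat hp g x)
  have e2 : ∫⁻ z in (fun y => a + y) '' Dm, f z = ∫⁻ z in Dm, f (a + z) := by
    have hm : MeasurePreserving (fun y : V => a + y) volume volume :=
      measurePreserving_add_left volume a
    exact (hm.setLIntegral_comp_emb (measurableEmbedding_addLeft a) f Dm).symm
  rw [setLIntegral_congr Dm_ae.symm, setLIntegral_congr (f := f) Dm_ae.symm, e1, e2]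

theorem icube_shift {f : V → ℝ} (hp : Per f) (a : V) :
    ∫ y in cube, f (a + y) = ∫ y in cube, f y := by
  have hinv : VAddInvariantMeasure
      (Submodule.span ℤ (Set.range (Pi.basisFun ℝ (Fin 3)))) V (volume : Measure V) :=
    ⟨fun g s _ => measure_preimage_add volume (g : V) s⟩
  have e1 : ∫ z in Dm, f z = ∫ z in (fun y => a + y) '' Dm, f z :=
    fd0.setIntegral_eq (fdA a) (fun g x => per_lat hp g x)
  have e2 : ∫ z in (fun y => a + y) '' Dm, f z = ∫ z in Dm, f (a + z) := by
    have hm : MeasurePreserving (fun y : V => a + y) volume volume :=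
      measurePreserving_add_left volume a
    exact (hm.setIntegral_image_emb (measurableEmbedding_addLeft a) f Dm)
  rw [setIntegral_congr_set Dm_ae.symm, setIntegral_congr_set (f := f) Dm_ae.symm, e1, e2]

theorem ball_ae (x : V) : ball x (1 / 2) =ᵐ[volume] (fun y => (fun i => x i - 1 / 2 : V) + y) '' Dm := by
  have h1 : ball x (1 / 2) = Set.pi Set.univ fun i : Fin 3 => Ioo (x i - 1 / 2) (x i + 1 / 2) := by
    rw [ball_pi x (by norm_num)]
    congr 1
    funext i
    rw [Real.ball_eq_Ioo]
  have h2 : (fun y => (fun i => x i - 1 / 2 : V) + y) '' Dm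
      = Set.pi Set.univ fun i : Fin 3 => Ico (x i - 1 / 2) (x i + 1 / 2) := by
    ext z
    constructor
    · rintro ⟨y, hy, rfl⟩
      rw [Dm_mem] at hy
      intro i _
      have := hy i
      show x i - 1 / 2 + y i ∈ _
      exact ⟨by linarith [this.1], by linarith [this.2]⟩
    · intro hz
      refine ⟨fun i => z i - (x i - 1 / 2), ?_, ?_⟩
      · rw [Dm_mem]
        intro i
        have := hz i (mem_univ i)
        exact ⟨by linarith [this.1], by linarith [this.2]⟩
      · funext i
        show x i - 1 / 2 + (z i - (x i - 1 / 2)) = z i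
        ring
  rw [h1, h2]
  have h3 := Measure.univ_pi_Ioo_ae_eq_Icc (μ := fun _ : Fin 3 => (volume : Measure ℝ))
    (f := fun i => x i - 1 / 2) (g := fun i => x i + 1 / 2)
  have h4 := Measure.univ_pi_Ico_ae_eq_Icc (μ := fun _ : Fin 3 => (volume : Measure ℝ))
    (f := fun i => x i - 1 / 2) (g := fun i => x i + 1 / 2)
  rw [← volume_pi] at h3 h4
  exact h3.trans h4.symm

theorem lball_cube {f : V → ℝ≥0∞} (hp : Per f) (x : V) :
    ∫⁻ y in ball x (1 / 2), f y = ∫⁻ y in cube, f y := by
  have hinv : VAddInvariantMeasure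
      (Submodule.span ℤ (Set.range (Pi.basisFun ℝ (Fin 3)))) V (volume : Measure V) :=
    ⟨fun g s _ => measure_preimage_add volume (g : V) s⟩
  have e1 : ∫⁻ z in Dm, f z = ∫⁻ z in (fun y => (fun i => x i - 1 / 2 : V) + y) '' Dm, f z :=
    fd0.setLIntegral_eq (fdA _) f (fun g x => per_lat hp g x)
  rw [setLIntegral_congr (ball_ae x), setLIntegral_congr (f := f) Dm_ae.symm, e1]

end Pool.Agent.Helper30K1
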