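import Pool.Agent.Y8.Moll
import Pool.Agent.W12.MD.HARM0
import Pool.Agent.Helper30K1.Dom

/-!
One velocity component (helper30): a smooth partition of unity and integrals of periodic functions
against it.
-/

set_option autoImplicit false

open MeasureTheory Set Metric Filter Topology
open scoped ContDiff ENNReal Convolution

namespace Pool.Agent.Helper30K1

open H459R3.NS W221.NS Pool.Agent.Y8

theorem cube_meas : MeasurableSet cube := measurableSet_Icc

/-- Averages over translated cells. -/
noncomputable def cv (g : V → ℝ) (x : V) : ℝ := ∫ y in cube, g (x - y)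

theorem cv_eq (g : V → ℝ) :
    cv g = (cube.indicator (fun _ => (1 : ℝ))) ⋆[ContinuousLinearMap.mul ℝ ℝ, volume] g := by
  funext x
  unfold cv convolution
  rw [← integral_indicator cube_meas]
  refine integral_congr_ae (Eventually.of_forall fun y => ?_)
  simp only [ContinuousLinearMap.mul_apply']
  by_cases hy : y ∈ cube
  · rw [indicator_of_mem hy, indicator_of_mem hy, one_mul]
  · rw [indicator_of_notMem hy, indicator_of_notMem hy, zero_mul]

theorem ind_loc : LocallyIntegrable (cube.indicator (fun _ => (1 : ℝ))) (volume : Measure V) := by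
  refine Integrable.locallyIntegrable ?_
  rw [integrable_indicator_iff cube_meas]
  exact cube_int continuous_const

theorem cv_sm {g : V → ℝ} (hg : ContDiff ℝ ∞ g) (hc : HasCompactSupport g) :
    ContDiff ℝ ∞ (cv g) := by
  rw [cv_eq]
  exact hc.contDiff_convolution_right _ ind_loc hg

theorem cv_pd {g : V → ℝ} (hg : ContDiff ℝ ∞ g) (hc : HasCompactSupport g) (i : Fin 3) :
    pd i (cv g) = cv (pd i g) := by
  funext x
  have h := hc.hasFDerivAt_convolution_right (ContinuousLinearMap.mul ℝ ℝ)
    ind_loc (hg.of_le (by norm_cast)) x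
  rw [← cv_eq] at h
  unfold pd
  rw [h.fderiv]
  rw [convolution_precompR_apply _ ind_loc (hc.fderiv ℝ)
    ((hg.fderiv_right (m := ∞) (by norm_cast)).continuous)]
  rw [← cv_eq]

theorem th_i0 (i : Fin 3) : ∫ y, pd i th y = 0 :=
  Pool.Agent.W12.MD.int_pd_zero th_sm th_hcs i

theorem cv_unfold {g F : V → ℝ} (hg : Continuous g) {a : V} {R : ℝ} (hs : ∀ z ∉ ball a R, g z = 0)
    (hF : Continuous F) (hp : Per F) : ∫ x, F x * cv g x = (∫ z, g z) * ∫ y in cube, F y := by
  have hK : IsCompact (closedBall a R) := isCompact_closedBall a R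
  have e1 : ∀ x, F x * cv g x = ∫ y in cube, F x * g (x - y) := fun x => by
    unfold cv
    rw [integral_const_mul]
  simp_rw [e1]
  have hm : (volume : Measure V).prod (volume.restrict cube)
      = ((volume : Measure V).prod volume).restrict (univ ×ˢ cube) := by
    rw [← Measure.prod_restrict, Measure.restrict_univ]
  -- first swap
  have hi1 : Integrable (Function.uncurry fun (x y : V) => F x * g (x - y))
      ((volume : Measure V).prod (volume.restrict cube)) := by
    rw [hm]
    have hcont : Continuous (Function.uncurry fun (x y : V) => F x * g (x - y)) :=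
      (hF.comp continuous_fst).mul (hg.comp (continuous_fst.sub continuous_snd))
    have hc1 : IsCompact (closedBall a (R + 1) ×ˢ cube : Set (V × V)) :=
      (isCompact_closedBall a (R + 1)).prod isCompact_Icc
    have h1 : IntegrableOn (Function.uncurry fun (x y : V) => F x * g (x - y))
        (closedBall a (R + 1) ×ˢ cube) ((volume : Measure V).prod volume) :=
      hcont.continuousOn.integrableOn_compact hc1
    refine h1.of_forall_sdiff_eq_zero (MeasurableSet.univ.prod measurableSet_Icc) ?_
    rintro ⟨x, y⟩ ⟨⟨-, hy⟩, hn⟩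
    show F x * g (x - y) = 0
    rw [hs, mul_zero]
    intro hb
    apply hn
    refine ⟨?_, hy⟩
    rw [mem_ball, dist_eq_norm] at hb
    rw [mem_closedBall, dist_eq_norm]
    have hy1 : ‖y‖ ≤ 1 := by
      rw [pi_norm_le_iff_of_nonneg (by norm_num)]
      intro i
      rw [Real.norm_eq_abs, abs_le]
      have h1 : (0 : ℝ) ≤ y i := hy.1 i
      have h2 : y i ≤ 1 := hy.2 i
      exact ⟨by linarith, h2⟩
    calc ‖x - a‖ = ‖(x - y - a) + y‖ := by congr 1; abel
      _ ≤ ‖x - y - a‖ + ‖y‖ := norm_add_le _ _
      _ ≤ R + 1 := by linarith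
  rw [integral_integral_swap hi1]
  have e2 : ∀ y : V, ∫ x, F x * g (x - y) = ∫ z, F (z + y) * g z := fun y => by
    have := integral_sub_right_eq_self (μ := (volume : Measure V))
      (fun z : V => F (z + y) * g z) y
    rw [← this]
    simp only [sub_add_cancel]
  simp_rw [e2]
  have hi2 : Integrable (Function.uncurry fun (y z : V) => F (z + y) * g z)
      ((volume.restrict cube).prod (volume : Measure V)) := by
    have hm2 : (volume.restrict cube).prod (volume : Measure V)
        = ((volume : Measure V).prod volume).restrict (cube ×ˢ univ) := by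
      rw [← Measure.prod_restrict, Measure.restrict_univ]
    rw [hm2]
    have hcont : Continuous (Function.uncurry fun (y z : V) => F (z + y) * g z) :=
      (hF.comp (continuous_snd.add continuous_fst)).mul (hg.comp continuous_snd)
    have hc1 : IsCompact (cube ×ˢ closedBall a R : Set (V × V)) := isCompact_Icc.prod hK
    have h1 : IntegrableOn (Function.uncurry fun (y z : V) => F (z + y) * g z)
        (cube ×ˢ closedBall a R) ((volume : Measure V).prod volume) :=
      hcont.continuousOn.integrableOn_compact hc1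
    refine h1.of_forall_sdiff_eq_zero (measurableSet_Icc.prod MeasurableSet.univ) ?_
    rintro ⟨y, z⟩ ⟨⟨hy, -⟩, hn⟩
    show F (z + y) * g z = 0
    rw [hs, mul_zero]
    exact fun hb => hn ⟨hy, ball_subset_closedBall hb⟩
  rw [integral_integral_swap hi2]
  have e3 : ∀ z : V, ∫ y in cube, F (z + y) * g z = g z * ∫ y in cube, F y := fun z => by
    rw [integral_mul_const, icube_shift hp z, mul_comm]
  simp_rw [e3]
  rw [integral_mul_const]

/-- The partition of unity. -/
noncomputable def chi : V → ℝ := cv th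

theorem chi_sm : ContDiff ℝ ∞ chi := cv_sm th_sm th_hcs

theorem chi_nn (x : V) : 0 ≤ chi x :=
  setIntegral_nonneg measurableSet_Icc fun y _ => th_nn _

theorem cv_z {g : V → ℝ} (hs : ∀ z ∉ ball (0 : V) 1, g z = 0) {x : V} (hx : x ∉ ball (0 : V) 2) :
    cv g x = 0 := by
  unfold cv
  refine setIntegral_eq_zero_of_forall_eq_zero fun y hy => ?_
  apply hs
  intro hb
  apply hx
  rw [mem_ball, dist_zero_right] at hb ⊢
  have hy1 : ‖y‖ ≤ 1 := by
    rw [pi_norm_le_iff_of_nonneg (by norm_num)]
    intro i
    rw [Real.norm_eq_abs, abs_le]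
    have h1 : (0 : ℝ) ≤ y i := hy.1 i
    have h2 : y i ≤ 1 := hy.2 i
    exact ⟨by linarith, h2⟩
  calc ‖x‖ = ‖(x - y) + y‖ := by congr 1; abel
    _ ≤ ‖x - y‖ + ‖y‖ := norm_add_le _ _
    _ < 2 := by linarith

theorem chi_z {x : V} (hx : x ∉ ball (0 : V) 2) : chi x = 0 := cv_z (fun _ hz => th_z hz) hx

theorem th_pz (i : Fin 3) {z : V} (hz : z ∉ ball (0 : V) 1) : pd i th z = 0 :=
  pd_zero' th_sm one_pos (fun _ h => th_z h) hz i

theorem th_ppz (i j : Fin 3) {z : V} (hz : z ∉ ball (0 : V) 1) : pd i (pd j th) z = 0 :=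
  pd_zero' (Pool.Agent.W583.MD.sm_pd th_sm j) one_pos (fun _ h => th_pz j h) hz i

theorem chi0 {F : V → ℝ} (hF : Continuous F) (hp : Per F) :
    ∫ x, F x * chi x = ∫ y in cube, F y := by
  unfold chi
  rw [cv_unfold th_sm.continuous (fun _ hz => th_z hz) hF hp, th_i1, one_mul]

theorem chi1 {F : V → ℝ} (hF : Continuous F) (hp : Per F) (i : Fin 3) :
    ∫ x, F x * pd i chi x = 0 := by
  unfold chi
  rw [cv_pd th_sm th_hcs, cv_unfold (Pool.Agent.W583.MD.sm_pd th_sm i).continuous
    (fun _ hz => th_pz i hz) hF hp, th_i0, zero_mul]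

theorem chi2 {F : V → ℝ} (hF : Continuous F) (hp : Per F) (i : Fin 3) :
    ∫ x, F x * pd i (pd i chi) x = 0 := by
  unfold chi
  rw [cv_pd th_sm th_hcs, cv_pd (Pool.Agent.W583.MD.sm_pd th_sm i)
    (Pool.Agent.W583.MD.cs_pd th_hcs i),
    cv_unfold (Pool.Agent.W583.MD.sm_pd (Pool.Agent.W583.MD.sm_pd th_sm i) i).continuous
    (fun _ hz => th_ppz i i hz) hF hp,
    Pool.Agent.W12.MD.int_pd_zero (Pool.Agent.W583.MD.sm_pd th_sm i)
      (Pool.Agent.W583.MD.cs_pd th_hcs i) i, zero_mul]

end Pool.Agent.Helper30K1
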