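import Pool.Agent.Helper30K1.Crt2

/-!
One velocity component (helper30): Hausdorff dimensions.
-/

set_option autoImplicit false

open MeasureTheory Set Metric Filter Topology
open scoped ContDiff ENNReal NNReal

namespace Pool.Agent.Helper30K1

open H459R3.NS W221.NS Pool.Agent.Y8

/-- Null sets in time. -/
theorem PNull.dimH_time {δ : ℝ} (hδ : 0 < δ) {S : Set ℝ}
    (h : PNull δ {w : ℝ × ℝ | w.2 = 0 ∧ w.1 ∈ S}) : dimH S ≤ ENNReal.ofReal (δ / 2) := by
  have hd : ENNReal.ofReal (δ / 2) = ((δ / 2).toNNReal : ℝ≥0∞) := rfl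
  rw [hd]
  refine dimH_le_of_hausdorffMeasure_ne_top ?_
  have hdc : (((δ / 2).toNNReal : ℝ≥0) : ℝ) = δ / 2 := Real.coe_toNNReal _ (by positivity)
  rw [hdc]
  set e : ℕ → ℝ := fun n => 1 / ((n : ℝ) + 1) with he
  have he0 : ∀ n, 0 < e n := fun n => by rw [he]; positivity
  have he1 : ∀ n, e n ≤ 1 := fun n => by
    rw [he]
    simp only
    rw [div_le_one (by positivity)]
    have : (0 : ℝ) ≤ n := Nat.cast_nonneg n
    linarith
  have het : Tendsto e atTop (𝓝 0) := tendsto_one_div_add_atTop_nhds_zero_nat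
  choose ι hc z r h1 h2 h3 using fun n => h (e n) (he0 n)
  have hdiam : ∀ n i, ediam {t : ℝ | |t - (z n i).1| < r n i ^ 2}
      ≤ ENNReal.ofReal (2 * r n i ^ 2) := by
    intro n i
    refine ediam_le fun w hw w' hw' => ?_
    rw [edist_dist]
    apply ENNReal.ofReal_le_ofReal
    rw [Real.dist_eq]
    have e1 : w - w' = (w - (z n i).1) - (w' - (z n i).1) := by ring
    rw [e1]
    have h5 := abs_sub (w - (z n i).1) (w' - (z n i).1)
    have h6 : |w - (z n i).1| < r n i ^ 2 := hw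
    have h7 : |w' - (z n i).1| < r n i ^ 2 := hw'
    linarith
  have hle := Measure.hausdorffMeasure_le_liminf_tsum (δ / 2) S (l := atTop)
    (fun n => ENNReal.ofReal (2 * e n)) (by
      have h4 : Tendsto (fun n => ENNReal.ofReal (2 * e n)) atTop (𝓝 (ENNReal.ofReal (2 * 0))) :=
        ENNReal.tendsto_ofReal (het.const_mul 2)
      rwa [mul_zero, ENNReal.ofReal_zero] at h4)
    (fun n i => {t : ℝ | |t - (z n i).1| < r n i ^ 2})
    (Eventually.of_forall fun n i => (hdiam n i).trans (ENNReal.ofReal_le_ofReal (by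
      have h8 := (h1 n i).2
      have h9 := (h1 n i).1
      have h10 := he1 n
      nlinarith)))
    (Eventually.of_forall fun n => by
      intro t ht
      obtain ⟨i, hi⟩ := mem_iUnion.1 (h2 n (show ((t, 0) : ℝ × ℝ) ∈ _ from ⟨rfl, ht⟩))
      exact mem_iUnion.2 ⟨i, hi.1⟩)
  refine ne_top_of_le_ne_top ?_ hle
  have hbd : ∀ n, ∑' i, ediam {t : ℝ | |t - (z n i).1| < r n i ^ 2} ^ (δ / 2)
      ≤ ENNReal.ofReal (2 ^ (δ / 2) * e n) := by
    intro n
    calc ∑' i, ediam {t : ℝ | |t - (z n i).1| < r n i ^ 2} ^ (δ / 2)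
        ≤ ∑' i, ENNReal.ofReal (2 ^ (δ / 2)) * ENNReal.ofReal (r n i ^ δ) := by
          refine ENNReal.tsum_le_tsum fun i => ?_
          refine (ENNReal.rpow_le_rpow (hdiam n i) (by positivity)).trans (le_of_eq ?_)
          have hr0 := (h1 n i).1
          rw [ENNReal.ofReal_rpow_of_nonneg (by positivity) (by positivity),
            Real.mul_rpow (by norm_num) (by positivity), ENNReal.ofReal_mul (by positivity),
            ← Real.rpow_natCast (r n i) 2, ← Real.rpow_mul hr0.le]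
          congr 3
          push_cast
          ring
      _ = ENNReal.ofReal (2 ^ (δ / 2)) * ∑' i, ENNReal.ofReal (r n i ^ δ) :=
          ENNReal.tsum_mul_left
      _ ≤ ENNReal.ofReal (2 ^ (δ / 2)) * ENNReal.ofReal (e n) := mul_le_mul' le_rfl (h3 n)
      _ = _ := (ENNReal.ofReal_mul (by positivity)).symm
  refine ne_top_of_le_ne_top (b := ENNReal.ofReal (2 ^ (δ / 2))) ENNReal.ofReal_ne_top ?_
  refine liminf_le_of_le (by isBoundedDefault) ?_
  intro b hb
  obtain ⟨n, hn⟩ := hb.exists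
  refine (hn.trans (hbd n)).trans (ENNReal.ofReal_le_ofReal ?_)
  exact mul_le_of_le_one_right (by positivity) (he1 n)

/-- The dimension of a set in time which is null in all dimensions above `σ`. -/
theorem dim_time {σ : ℝ} {S : Set ℝ}
    (h : ∀ δ : ℝ, 0 < δ → σ < δ → PNull δ {w : ℝ × ℝ | w.2 = 0 ∧ w.1 ∈ S}) :
    dimH S ≤ ENNReal.ofReal (σ / 2) := by
  have h1 : Tendsto (fun n : ℕ => ENNReal.ofReal ((max σ 0 + 1 / ((n : ℝ) + 1)) / 2)) atTop
      (𝓝 (ENNReal.ofReal ((max σ 0 + 0) / 2))) := by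
    refine ENNReal.tendsto_ofReal (Tendsto.div_const ?_ _)
    exact tendsto_one_div_add_atTop_nhds_zero_nat.const_add _
  have h2 : ENNReal.ofReal ((max σ 0 + 0) / 2) = ENNReal.ofReal (σ / 2) := by
    rw [add_zero]
    rcases le_total σ 0 with h3 | h3
    · rw [max_eq_right h3, zero_div, ENNReal.ofReal_zero, ENNReal.ofReal_of_nonpos (by linarith)]
    · rw [max_eq_left h3]
  rw [h2] at h1
  refine ge_of_tendsto' h1 fun n => ?_
  have h4 : (0 : ℝ) < 1 / ((n : ℝ) + 1) := by positivity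
  have h5 : 0 ≤ max σ 0 := le_max_right _ _
  have h6 : σ ≤ max σ 0 := le_max_left _ _
  exact (h _ (by linarith) (by linarith)).dimH_time (by linarith)

/-- The dimension of a set which is null in all positive dimensions. -/
theorem dim_zero {F : Type*} [NormedAddCommGroup F] [MeasurableSpace F] [BorelSpace F]
    [SecondCountableTopology F] {S : Set (ℝ × F)} (h : ∀ δ : ℝ, 0 < δ → PNull δ S) :
    dimH S = 0 := by
  refine le_antisymm ?_ bot_le
  have h1 : Tendsto (fun n : ℕ => ENNReal.ofReal (1 / ((n : ℝ) + 1))) atTop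
      (𝓝 (ENNReal.ofReal 0)) :=
    ENNReal.tendsto_ofReal tendsto_one_div_add_atTop_nhds_zero_nat
  rw [ENNReal.ofReal_zero] at h1
  refine ge_of_tendsto' h1 fun n => ?_
  have h4 : (0 : ℝ) < 1 / ((n : ℝ) + 1) := by positivity
  have h5 : ((1 / ((n : ℝ) + 1)).toNNReal : ℝ) = 1 / ((n : ℝ) + 1) := Real.coe_toNNReal _ h4.le
  exact PNull.dimH_le (δ := (1 / ((n : ℝ) + 1)).toNNReal) (by
    rw [← NNReal.coe_pos, h5]; exact h4) (by rw [h5]; exact h _ h4)

end Pool.Agent.Helper30K1
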