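import Pool.Agent.Helper30K1.Wt
import Pool.Agent.H459R3.NS.Ibp

/-!
One velocity component (helper30): the energy inequality with the weight concentrating on a plane,
in terms of extended nonnegative integrals.
-/

set_option autoImplicit false

open MeasureTheory Set Metric Filter Topology
open scoped ContDiff ENNReal

namespace Pool.Agent.Helper30K1

open H459R3.NS W221.NS Pool.Agent.Y8

/-- A function minus its mean. -/
noncomputable def pz (p : V → ℝ) (x : V) : ℝ := p x - ∫ y in cube, p y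

theorem pz_sp {p : V → ℝ} (hp : SP p) : SP (pz p) where
  smooth := hp.smooth.sub contDiff_const
  per := fun i x => by
    unfold pz
    rw [hp.per i x]

theorem cube_ofReal {f : V → ℝ} (hf : Continuous f) (h0 : ∀ x, 0 ≤ f x) :
    ENNReal.ofReal (∫ x in cube, f x) = ∫⁻ x in cube, ENNReal.ofReal (f x) :=
  ofReal_integral_eq_lintegral_ofReal (cube_int hf) (Eventually.of_forall h0)

theorem gsq_ct {w : V → V} (hw : ContDiff ℝ ∞ w) : Continuous (gsq w) := by
  unfold gsq
  exact continuous_finsetSum _ fun i _ => continuous_finsetSum _ fun j _ =>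
    (Pool.Agent.W583.MD.sm_pd (contDiff_pi.1 hw i) j).continuous.pow 2

/-- An abstract step. -/
theorem abs_step {I : Set ℝ} (X Y : ℝ) (hX : 0 ≤ X) (hY : 0 ≤ Y) (e : ℝ → ℝ)
    (a f : ℝ → ℝ≥0∞) (he : IntegrableOn e I) (h1 : X - Y ≤ ∫ τ in I, e τ)
    (h2 : ∀ᵐ τ ∂(volume.restrict I), ENNReal.ofReal (e τ) + a τ
      ≤ ENNReal.ofReal (-e τ) + f τ) :
    ENNReal.ofReal X + ∫⁻ τ in I, a τ ≤ ENNReal.ofReal Y + ∫⁻ τ in I, f τ := by
  set P := ∫⁻ τ in I, ENNReal.ofReal (e τ) with hP
  set N := ∫⁻ τ in I, ENNReal.ofReal (-e τ) with hN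
  have hPt : P ≠ ⊤ := he.lintegral_lt_top.ne
  have hNt : N ≠ ⊤ := he.neg.lintegral_lt_top.ne
  have e1 : ∫ τ in I, e τ = P.toReal - N.toReal :=
    integral_eq_lintegral_pos_part_sub_lintegral_neg_part he
  rw [e1] at h1
  have h3 : ENNReal.ofReal X + N ≤ ENNReal.ofReal Y + P := by
    have h4 : ENNReal.ofReal (X + N.toReal) ≤ ENNReal.ofReal (Y + P.toReal) :=
      ENNReal.ofReal_le_ofReal (by linarith)
    rwa [ENNReal.ofReal_add hX ENNReal.toReal_nonneg, ENNReal.ofReal_add hY
      ENNReal.toReal_nonneg, ENNReal.ofReal_toReal hPt, ENNReal.ofReal_toReal hNt] at h4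
  have hm : AEMeasurable (fun τ => ENNReal.ofReal (e τ)) (volume.restrict I) :=
    he.aestronglyMeasurable.aemeasurable.ennreal_ofReal
  have hm2 : AEMeasurable (fun τ => ENNReal.ofReal (-e τ)) (volume.restrict I) :=
    he.aestronglyMeasurable.aemeasurable.neg.ennreal_ofReal
  have h5 : P + ∫⁻ τ in I, a τ ≤ N + ∫⁻ τ in I, f τ := by
    rw [hP, hN, ← lintegral_add_left' hm, ← lintegral_add_left' hm2]
    exact lintegral_mono_ae h2
  have h6 : (P + N) + (ENNReal.ofReal X + ∫⁻ τ in I, a τ)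
      ≤ (P + N) + (ENNReal.ofReal Y + ∫⁻ τ in I, f τ) := by
    calc (P + N) + (ENNReal.ofReal X + ∫⁻ τ in I, a τ)
        = (ENNReal.ofReal X + N) + (P + ∫⁻ τ in I, a τ) := by ring
      _ ≤ (ENNReal.ofReal Y + P) + (N + ∫⁻ τ in I, f τ) := add_le_add h3 h5
      _ = _ := by ring
  exact (ENNReal.add_le_add_iff_left (ENNReal.add_ne_top.2 ⟨hPt, hNt⟩)).1 h6

section

variable {T E D : ℝ} {G : Set ℝ} {u : ℝ → V → V} {p : ℝ → V → ℝ}

theorem pen2 (h : Turb 1 T E D G u p) (j : Fin 3) (c a : ℝ) {s t : ℝ} (hs : s ∈ G) (ht : t ∈ G)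
    (hst : s ≤ t) (hta : t < a) :
    (∫⁻ x in cube, ENNReal.ofReal (nsq (u t) x * wt j c a t x))
      + ∫⁻ τ in Ioo s t ∩ G, ∫⁻ x in cube, ENNReal.ofReal (2 * (gsq (u τ) x * wt j c a τ x))
    ≤ (∫⁻ x in cube, ENNReal.ofReal (nsq (u s) x * wt j c a s x))
      + ∫⁻ τ in Ioo s t ∩ G, ∫⁻ x in cube, ENNReal.ofReal
        ((nsq (u τ) x + 2 * |pz (p τ) x|) * (|u τ x j| * |pd j (wt j c a τ) x|)) := by
  have hsm := wt_sm j c a (s - 1)
  have hsm1 : ∀ τ, s - 1 < τ → τ < a → ContDiff ℝ ∞ (wt j c a τ) := fun τ h1 h2 =>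
    sl_sm hsm ⟨h1, h2⟩
  obtain ⟨h1, h2⟩ := pen h hsm (fun τ _ => wt_per j c a τ) hs ht (by linarith) hst hta
    (fun τ _ z => wt_nn j c a τ z)
  have hct : ∀ τ ∈ G, s - 1 < τ → τ < a → Continuous fun x => nsq (u τ) x * wt j c a τ x :=
    fun τ hτ h1 h2 => (nsq_sm (h.spv hτ).1).continuous.mul (hsm1 τ h1 h2).continuous
  rw [← cube_ofReal (hct t ht (by linarith) hta) fun x => mul_nonneg (nsq_nn _ _) (wt_nn _ _ _ _ _),
    ← cube_ofReal (hct s hs (by linarith) (by linarith)) fun x =>
      mul_nonneg (nsq_nn _ _) (wt_nn _ _ _ _ _)]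
  refine abs_step _ _ (integral_nonneg fun x => mul_nonneg (nsq_nn _ _) (wt_nn _ _ _ _ _))
    (integral_nonneg fun x => mul_nonneg (nsq_nn _ _) (wt_nn _ _ _ _ _)) _ _ _ h1 h2 ?_
  have hms : MeasurableSet (Ioo s t ∩ G) := measurableSet_Ioo.inter h.openG.measurableSet
  filter_upwards [self_mem_ae_restrict hms] with τ hτ
  have hτa : τ < a := hτ.1.2.trans hta
  have hτs : s - 1 < τ := by linarith [hτ.1.1]
  have hu := h.spv hτ.2
  have hp := h.sp hτ.2
  have hw := hsm1 τ hτs hτa
  have hwp := wt_per j c a τ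
  have hcu : ∀ i, Continuous fun x => u τ x i := fun i => (contDiff_pi.1 hu.1 i).continuous
  have hpj : ∀ i, Continuous (pd i (wt j c a τ)) := fun i =>
    (Pool.Agent.W583.MD.sm_pd hw i).continuous
  have hnc := (nsq_sm hu.1).continuous
  have hpzc := (pz_sp hp).smooth.continuous
  have hadv : ∀ x, adv (u τ) (wt j c a τ) x = u τ x j * pd j (wt j c a τ) x := by
    intro x
    unfold adv
    rw [Finset.sum_eq_single j]
    · intro i _ hij
      rw [wt_pd, if_neg hij, mul_zero]
    · intro h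
      exact absurd (Finset.mem_univ j) h
  -- the real inequality
  set A := ∫ x in cube, 2 * (gsq (u τ) x * wt j c a τ x) with hA
  set F := ∫ x in cube, (nsq (u τ) x + 2 * |pz (p τ) x|) * (|u τ x j| * |pd j (wt j c a τ) x|)
    with hF
  have hA0 : 0 ≤ A := integral_nonneg fun x => mul_nonneg zero_le_two
    (mul_nonneg (gsq_nn _ _) (wt_nn _ _ _ _ _))
  have hF0 : 0 ≤ F := integral_nonneg fun x => by
    have := nsq_nn (u τ) x
    positivity
  have key : EC u p (wt j c a) τ + A ≤ F := by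
    have t2 : ∫ x in cube, nsq (u τ) x * (deriv (fun s => wt j c a s x) τ + lap (wt j c a τ) x)
        ≤ 0 := by
      refine setIntegral_nonpos cube_meas fun x _ => ?_
      have h3 := wt_heat (j := j) (c := c) hτa x
      have h4 := nsq_nn (u τ) x
      exact mul_nonpos_of_nonneg_of_nonpos h4 h3
    have t3 : ∫ x in cube, adv (u τ) (wt j c a τ) x = 0 := by
      have h5 := int_press (v := fun i x => u τ x i)
        (fun i => ⟨contDiff_pi.1 hu.1 i, comp_per hu.2 i⟩) (h.divfree τ hτ.2)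
        (q := wt j c a τ) ⟨hw, hwp⟩
      rw [← h5, ← integral_finsetSum]
      · rfl
      · intro i _
        exact cube_int ((hcu i).mul (hpj i))
    have t4 : ∫ x in cube, (nsq (u τ) x + 2 * p τ x) * adv (u τ) (wt j c a τ) x
        = ∫ x in cube, (nsq (u τ) x + 2 * pz (p τ) x) * adv (u τ) (wt j c a τ) x := by
      have h6 : ∀ x, (nsq (u τ) x + 2 * p τ x) * adv (u τ) (wt j c a τ) x
          = (nsq (u τ) x + 2 * pz (p τ) x) * adv (u τ) (wt j c a τ) x
            + (2 * ∫ y in cube, p τ y) * adv (u τ) (wt j c a τ) x := by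
        intro x
        unfold pz
        ring
      simp_rw [h6]
      have hac : Continuous (adv (u τ) (wt j c a τ)) := by
        rw [show adv (u τ) (wt j c a τ) = fun x => u τ x j * pd j (wt j c a τ) x from
          funext hadv]
        exact (hcu j).mul (hpj j)
      have i1 : IntegrableOn (fun x => (nsq (u τ) x + 2 * pz (p τ) x)
          * adv (u τ) (wt j c a τ) x) cube :=
        cube_int ((hnc.add (continuous_const.mul hpzc)).mul hac)
      have i2 : IntegrableOn (fun x => (2 * ∫ y in cube, p τ y)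
          * adv (u τ) (wt j c a τ) x) cube := cube_int (continuous_const.mul hac)
      rw [integral_add i1 i2, integral_const_mul, t3, mul_zero, add_zero]
    have t5 : ∫ x in cube, (nsq (u τ) x + 2 * pz (p τ) x) * adv (u τ) (wt j c a τ) x ≤ F := by
      rw [hF]
      refine setIntegral_mono_on ?_ ?_ cube_meas fun x _ => ?_
      · refine cube_int ?_
        rw [show adv (u τ) (wt j c a τ) = fun x => u τ x j * pd j (wt j c a τ) x from
          funext hadv]
        exact (hnc.add (continuous_const.mul hpzc)).mul ((hcu j).mul (hpj j))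
      · exact cube_int ((hnc.add (continuous_const.mul hpzc.abs)).mul ((hcu j).abs.mul
          (hpj j).abs))
      · rw [hadv]
        refine (le_abs_self _).trans ?_
        rw [abs_mul, abs_mul]
        refine mul_le_mul_of_nonneg_right ?_ (by positivity)
        refine (abs_add_le _ _).trans ?_
        rw [abs_of_nonneg (nsq_nn _ _), abs_mul, abs_of_pos (two_pos : (0 : ℝ) < 2)]
    unfold EC
    rw [t4]
    have t6 : A = 2 * ∫ x in cube, gsq (u τ) x * wt j c a τ x := by
      rw [hA, integral_const_mul]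
    linarith
  rw [← cube_ofReal (f := fun x => 2 * (gsq (u τ) x * wt j c a τ x))
    (continuous_const.mul ((gsq_ct hu.1).mul hw.continuous)) (fun x =>
    mul_nonneg zero_le_two (mul_nonneg (gsq_nn _ _) (wt_nn _ _ _ _ _))),
    ← cube_ofReal (f := fun x => (nsq (u τ) x + 2 * |pz (p τ) x|)
      * (|u τ x j| * |pd j (wt j c a τ) x|))
      ((hnc.add (continuous_const.mul hpzc.abs)).mul ((hcu j).abs.mul
          (hpj j).abs)) (fun x => by
    have := nsq_nn (u τ) x
    positivity)]
  show ENNReal.ofReal (EC u p (wt j c a) τ) + ENNReal.ofReal A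
    ≤ ENNReal.ofReal (-EC u p (wt j c a) τ) + ENNReal.ofReal F
  rcases le_total 0 (EC u p (wt j c a) τ) with h0 | h0
  · rw [ENNReal.ofReal_of_nonpos (by linarith : -EC u p (wt j c a) τ ≤ 0), zero_add,
      ← ENNReal.ofReal_add h0 hA0]
    exact ENNReal.ofReal_le_ofReal key
  · rw [ENNReal.ofReal_of_nonpos h0, zero_add, ← ENNReal.ofReal_add (by linarith) hF0]
    exact ENNReal.ofReal_le_ofReal (by linarith)

end

end Pool.Agent.Helper30K1
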