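import Pool.Agent.Helper30K1.Tm

/-!
One velocity component (helper30): the weighted energy inequality and the flux over windows.
-/

set_option autoImplicit false

open MeasureTheory Set Metric Filter Topology
open scoped ContDiff ENNReal

namespace Pool.Agent.Helper30K1

open H459R3.NS W221.NS Pool.Agent.Y8

/-- The density of the flux. -/
noncomputable def gz (u : ℝ → V → V) (p : ℝ → V → ℝ) (j : Fin 3) (t : ℝ) (x : V) : ℝ≥0∞ :=
  ‖u t x j‖ₑ * (ENNReal.ofReal (nsq (u t) x) + 2 * ‖pz (p t) x‖ₑ)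

section

variable {T E D : ℝ} {G : Set ℝ} {u : ℝ → V → V} {p : ℝ → V → ℝ}

theorem gz_slice (h : Turb 1 T E D G u p) (j : Fin 3) {t : ℝ} (ht : t ∈ G) :
    Measurable (gz u p j t) := by
  have hu := h.spv ht
  unfold gz
  have h1 := vj_meas hu j
  have h2 := (nsq_sm hu.1).continuous.measurable.ennreal_ofReal
  have h3 : Measurable fun x => ‖pz (p t) x‖ₑ := (pz_sp (h.sp ht)).smooth.continuous.enorm.measurable
  exact h1.mul (h2.add (h3.const_mul 2))

theorem gz_meas (h : Turb 1 T E D G u p) (j : Fin 3) {S : Set V} (hS : MeasurableSet S)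
    {I : Set ℝ} (hI : I ⊆ G) :
    AEMeasurable (fun t => ∫⁻ x in S, gz u p j t x) (volume.restrict I) := by
  have hpr : ∀ {f : ℝ → V → ℝ}, ContinuousOn (fun z : ℝ × V => f z.1 z.2) (G ×ˢ univ) →
      ∀ {S : Set V}, MeasurableSet S → AEMeasurable (fun z : ℝ × V => f z.1 z.2)
        ((volume.restrict G).prod (volume.restrict S)) := by
    intro f hf S hS
    rw [Measure.prod_restrict]
    exact (hf.mono (prod_mono subset_rfl (subset_univ S))).aemeasurable
      (h.openG.measurableSet.prod hS)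
  have h1 := hpr (f := fun t x => u t x j) (comp_joint h.smooth_u j).continuousOn hS
  have h2 := hpr (f := fun t x => nsq (u t) x) (nsq_joint h.smooth_u).continuousOn hS
  have h3 := hpr (f := p) h.smooth_p.continuousOn hS
  have h4 : AEMeasurable (fun t => ∫ x in cube, p t x) (volume.restrict G) := by
    have h5 := hpr (f := p) h.smooth_p.continuousOn cube_meas
    exact (h5.aestronglyMeasurable.integral_prod_right').aemeasurable
  have h6 : AEMeasurable (fun z : ℝ × V => pz (p z.1) z.2)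
      ((volume.restrict G).prod (volume.restrict S)) := by
    unfold pz
    exact h3.sub (h4.comp_quasiMeasurePreserving Measure.quasiMeasurePreserving_fst)
  have h7 : AEMeasurable (fun z : ℝ × V => gz u p j z.1 z.2)
      ((volume.restrict G).prod (volume.restrict S)) := by
    unfold gz
    exact h1.enorm.mul (h2.ennreal_ofReal.add (h6.enorm.const_mul 2))
  exact (h7.lintegral_prod_right').mono_measure (Measure.restrict_mono hI le_rfl)

theorem pz_mean (h : Turb 1 T E D G u p) {t : ℝ} (ht : t ∈ G) :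
    |∫ y in cube, p t y| ≤ ∫ y in cube, MM (u t) (p t) y := by
  have hu := h.spv ht
  have hp := h.sp ht
  refine abs_integral_le_integral_abs.trans ?_
  refine setIntegral_mono_on (cube_int hp.smooth.continuous.abs)
    (cube_int (MM_cont hu.1 hp.smooth.continuous)) cube_meas fun y _ => ?_
  unfold MM
  have := gsq_nn (u t) y
  have := nsq_nn (u t) y
  have h1 : 0 ≤ √(nsq (u t) y) := Real.sqrt_nonneg _
  have h2 : 0 ≤ |p t y| * √(nsq (u t) y) := by positivity
  have h3 : 0 ≤ √(nsq (u t) y) ^ 3 := by positivity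
  linarith

/-- The centre of the cell. -/
noncomputable def hc : V := fun _ => 1 / 2

theorem cube_sub : cube ⊆ ball hc 1 := by
  intro x hx
  rw [mem_ball, dist_pi_lt_iff one_pos]
  intro i
  have h3 : (0 : ℝ) ≤ x i := hx.1 i
  have h4 : x i ≤ 1 := hx.2 i
  rw [Real.dist_eq, abs_lt]
  unfold hc
  constructor <;> linarith

/-- The flux is finite. -/
theorem gz_fin (h : Turb 1 T E D G u p) (j : Fin 3) :
    ∫⁻ t in G, ∫⁻ x in cube, gz u p j t x ≠ ⊤ := by
  obtain ⟨C, hC, hmaj⟩ := maj E 1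
  have hkk := kk_int h
  have hb : ∀ t ∈ G, ∫⁻ x in cube, gz u p j t x
      ≤ ENNReal.ofReal ((2 + 2 * (1 + E ^ 2)) * (C * kk u p t)) := by
    intro t ht
    have hu := h.spv ht
    have hp := h.sp ht
    have hMc := MM_cont hu.1 hp.smooth.continuous
    set M := ∫ y in cube, MM (u t) (p t) y with hM
    have hM0 : 0 ≤ M := integral_nonneg fun y => MM_nn _ _ _
    have hMk : M ≤ C * kk u p t := by
      refine le_trans ?_ (hmaj (u t) (p t) hu hp (h.energy_le t ht) hc)
      exact setIntegral_mono_set (ballint hMc hc 1) (ae_of_all _ fun x => MM_nn _ _ _)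
        cube_sub.eventuallyLE
    have hnc := (nsq_sm hu.1).continuous
    have hm := pz_mean h ht
    set F : V → ℝ := fun x => 2 * MM (u t) (p t) x + 2 * M * (1 + nsq (u t) x) with hF
    have hFc : Continuous F := by
      rw [hF]
      fun_prop
    clear_value M
    have hF0 : ∀ x, 0 ≤ F x := by
      intro x
      have h1 := MM_nn (u t) (p t) x
      have h2 := nsq_nn (u t) x
      have h3 : 0 ≤ 2 * M * (1 + nsq (u t) x) := by positivity
      show 0 ≤ 2 * MM (u t) (p t) x + 2 * M * (1 + nsq (u t) x)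
      linarith
    have hpt : ∀ x, gz u p j t x ≤ ENNReal.ofReal (F x) := by
      intro x
      unfold gz
      have hn := nsq_nn (u t) x
      have e1 : ‖u t x j‖ₑ * (ENNReal.ofReal (nsq (u t) x) + 2 * ‖pz (p t) x‖ₑ)
          = ENNReal.ofReal (|u t x j| * (nsq (u t) x + 2 * |pz (p t) x|)) := by
        rw [ENNReal.ofReal_mul (abs_nonneg _), ENNReal.ofReal_add hn (by positivity),
          ENNReal.ofReal_mul (by norm_num), ← ofReal_norm, ← ofReal_norm, Real.norm_eq_abs,
          Real.norm_eq_abs]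
        norm_num
      rw [e1]
      refine ENNReal.ofReal_le_ofReal ?_
      have h1 := abs_comp_le (u t) x j
      set b := √(nsq (u t) x) with hb
      have hb0 : 0 ≤ b := Real.sqrt_nonneg _
      have hbn : nsq (u t) x = b ^ 2 := (Real.sq_sqrt hn).symm
      have h2 : |pz (p t) x| ≤ |p t x| + M := by
        unfold pz
        refine (abs_sub _ _).trans ?_
        linarith
      have h3 : 0 ≤ |p t x| := abs_nonneg _
      have hg := gsq_nn (u t) x
      calc |u t x j| * (nsq (u t) x + 2 * |pz (p t) x|)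
          ≤ b * (nsq (u t) x + 2 * (|p t x| + M)) := by gcongr
        _ = b ^ 3 + 2 * (|p t x| * b) + 2 * M * b := by rw [hbn]; ring
        _ ≤ F x := by
            rw [hF]
            simp only
            unfold MM
            rw [← hb, hbn]
            have h4 : 2 * M * b ≤ 2 * M * (1 + b ^ 2) := by
              have : b ≤ 1 + b ^ 2 := by nlinarith
              gcongr
            have h5 : 0 ≤ b ^ 3 := by positivity
            have h6 : 0 ≤ |p t x| * b := by positivity
            have h7 : 0 ≤ b ^ 2 := by positivity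
            linarith
    calc ∫⁻ x in cube, gz u p j t x ≤ ∫⁻ x in cube, ENNReal.ofReal (F x) := lintegral_mono hpt
      _ = ENNReal.ofReal (∫ x in cube, F x) := (cube_ofReal hFc hF0).symm
      _ ≤ _ := by
          refine ENNReal.ofReal_le_ofReal ?_
          rw [hF]
          have i1 : IntegrableOn (fun x => 2 * MM (u t) (p t) x) cube := cube_int (by fun_prop)
          have i2 : IntegrableOn (fun x => 2 * M * (1 + nsq (u t) x)) cube := cube_int (by fun_prop)
          have i3 : IntegrableOn (fun _ : V => (1 : ℝ)) cube := cube_int continuous_const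
          rw [integral_add i1 i2, integral_const_mul,
            integral_const_mul, integral_add i3 (cube_int hnc),
            ← energy_eq hu.1, ← hM]
          have hvol : ∫ _ in cube, (1 : ℝ) = 1 := by
            rw [setIntegral_const]
            have : (volume : Measure V).real cube = 1 := by
              unfold cube Measure.real
              rw [Real.volume_Icc_pi]
              simp
            rw [this]
            simp
          rw [hvol]
          have h8 := h.energy_le t ht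
          have h9 := energy_nn (u t)
          calc 2 * M + 2 * M * (1 + energy (u t)) ≤ 2 * M + 2 * M * (1 + E ^ 2) := by gcongr
            _ = (2 + 2 * (1 + E ^ 2)) * M := by ring
            _ ≤ _ := by gcongr
  have hfin : ∫⁻ t in G, ENNReal.ofReal ((2 + 2 * (1 + E ^ 2)) * (C * kk u p t)) ≠ ⊤ :=
    ((hkk.const_mul C).const_mul _).lintegral_lt_top.ne
  exact ne_top_of_le_ne_top hfin (setLIntegral_mono' h.openG.measurableSet hb)

end

open scoped Classical in
/-- The weight of the flux is a sum over scales. -/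
theorem split_w {k₀ n : ℕ} (hkn : k₀ ≤ n) {t₀ τ : ℝ} (hτ : τ < t₀) {j : Fin 3} {c : ℝ} (x : V) :
    1 / (t₀ + rr n ^ 2 - τ + Qf c (x j)) ≤ (rr k₀ ^ 2)⁻¹ + 4 * ∑ m ∈ Finset.Icc k₀ n,
      if t₀ - rr m ^ 2 < τ ∧ x ∈ Sb j c (rr m) then (rr m ^ 2)⁻¹ else 0 := by
  have hQ := Qf_nonneg c (x j)
  have hn := rr_pos n
  set f : ℕ → ℝ := fun m => if t₀ - rr m ^ 2 < τ ∧ x ∈ Sb j c (rr m) then (rr m ^ 2)⁻¹ else 0
    with hf
  have hf0 : ∀ m, 0 ≤ f m := by
    intro m
    rw [hf]
    simp only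
    split_ifs
    · have := rr_pos m; positivity
    · exact le_rfl
  have hbd : ∀ m, ¬(t₀ - rr m ^ 2 < τ ∧ x ∈ Sb j c (rr m)) →
      1 / (t₀ + rr n ^ 2 - τ + Qf c (x j)) ≤ (rr m ^ 2)⁻¹ := by
    intro m hm
    have hm0 := rr_pos m
    rw [one_div]
    apply inv_anti₀ (by positivity)
    rw [not_and_or, not_lt] at hm
    have : 0 < rr n ^ 2 := by positivity
    rcases hm with hm | hm
    · linarith
    · have h2 : rr m ^ 2 ≤ Qf c (x j) := not_lt.1 hm
      linarith
  by_cases h0 : t₀ - rr k₀ ^ 2 < τ ∧ x ∈ Sb j c (rr k₀)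
  · -- find the last scale
    have hex : ∃ m, k₀ ≤ m ∧ m ≤ n ∧ (t₀ - rr m ^ 2 < τ ∧ x ∈ Sb j c (rr m)) ∧
        (m = n ∨ ¬(t₀ - rr (m + 1) ^ 2 < τ ∧ x ∈ Sb j c (rr (m + 1)))) := by
      clear hbd hf0 hn hf f
      induction n, hkn using Nat.le_induction with
      | base => exact ⟨k₀, le_rfl, le_rfl, h0, Or.inl rfl⟩
      | succ n hkn ih =>
        obtain ⟨m, h1, h2, h3, h4⟩ := ih
        rcases h4 with h4 | h4
        · subst h4
          by_cases h5 : t₀ - rr (m + 1) ^ 2 < τ ∧ x ∈ Sb j c (rr (m + 1))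
          · exact ⟨m + 1, by omega, le_rfl, h5, Or.inl rfl⟩
          · exact ⟨m, h1, by omega, h3, Or.inr h5⟩
        · exact ⟨m, h1, by omega, h3, Or.inr h4⟩
    obtain ⟨m, h1, h2, h3, h4⟩ := hex
    have hm0 := rr_pos m
    have h5 : f m = (rr m ^ 2)⁻¹ := by
      rw [hf]
      simp only
      rw [if_pos h3]
    have h6 : f m ≤ ∑ m ∈ Finset.Icc k₀ n, f m :=
      Finset.single_le_sum (fun i _ => hf0 i) (Finset.mem_Icc.2 ⟨h1, h2⟩)
    have h7 : 1 / (t₀ + rr n ^ 2 - τ + Qf c (x j)) ≤ 4 * (rr m ^ 2)⁻¹ := by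
      rcases h4 with h4 | h4
      · subst h4
        have : 1 / (t₀ + rr m ^ 2 - τ + Qf c (x j)) ≤ (rr m ^ 2)⁻¹ := by
          rw [one_div]
          apply inv_anti₀ (by positivity)
          linarith
        have h8 : 0 ≤ (rr m ^ 2)⁻¹ := by positivity
        linarith
      · refine (hbd (m + 1) h4).trans (le_of_eq ?_)
        rw [rr_succ]
        field_simp
        norm_num
    have hk0 := rr_pos k₀
    have h9 : 0 ≤ (rr k₀ ^ 2)⁻¹ := by positivity
    rw [h5] at h6
    show _ ≤ (rr k₀ ^ 2)⁻¹ + 4 * ∑ m ∈ Finset.Icc k₀ n, f m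
    linarith
  · refine (hbd k₀ h0).trans ?_
    have : 0 ≤ ∑ m ∈ Finset.Icc k₀ n, f m := Finset.sum_nonneg fun i _ => hf0 i
    show _ ≤ (rr k₀ ^ 2)⁻¹ + 4 * ∑ m ∈ Finset.Icc k₀ n, f m
    linarith

section

variable {T E D : ℝ} {G : Set ℝ} {u : ℝ → V → V} {p : ℝ → V → ℝ}

/-- The total flux. -/
noncomputable def Wf (G : Set ℝ) (u : ℝ → V → V) (p : ℝ → V → ℝ) (j : Fin 3) : ℝ≥0∞ :=
  ∫⁻ t in G, ∫⁻ x in cube, gz u p j t x

/-- The right hand side of the energy inequality at the scale `n`. -/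
noncomputable def Rn (G : Set ℝ) (u : ℝ → V → V) (p : ℝ → V → ℝ) (j : Fin 3)
    (c s₁ t₀ E : ℝ) (k₀ n : ℕ) : ℝ≥0∞ :=
  ENNReal.ofReal (Real.exp (2 * Real.pi ^ 2) * (√(t₀ - s₁))⁻¹) * ENNReal.ofReal (E ^ 2)
    + ENNReal.ofReal (8 * Real.exp (2 * Real.pi ^ 2)) * (ENNReal.ofReal (rr k₀ ^ 2)⁻¹ * Wf G u p j
      + 4 * ∑ m ∈ Finset.Icc k₀ n, ENNReal.ofReal (rr m ^ 2)⁻¹ * Fw G u p j c s₁ t₀ m)

theorem flux_split (h : Turb 1 T E D G u p) (j : Fin 3) (c : ℝ) {s₁ t₀ : ℝ} (h1 : t₀ - s₁ ≤ 1)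
    {k₀ n : ℕ} (hkn : k₀ ≤ n) {t : ℝ} (ht : t < t₀) :
    ∫⁻ τ in Ioo s₁ t ∩ G, ∫⁻ x in cube, ENNReal.ofReal
        ((nsq (u τ) x + 2 * |pz (p τ) x|) * (|u τ x j| * |pd j (wt j c (t₀ + rr n ^ 2) τ) x|))
      ≤ ENNReal.ofReal (8 * Real.exp (2 * Real.pi ^ 2)) * (ENNReal.ofReal (rr k₀ ^ 2)⁻¹
        * Wf G u p j
      + 4 * ∑ m ∈ Finset.Icc k₀ n, ENNReal.ofReal (rr m ^ 2)⁻¹ * Fw G u p j c s₁ t₀ m) := by
  classical
  set K := 8 * Real.exp (2 * Real.pi ^ 2) with hK
  have hK0 : 0 < K := by positivity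
  set J := Ioo s₁ t ∩ G with hJ
  have hJG : J ⊆ G := inter_subset_right
  have hJm : MeasurableSet J := measurableSet_Ioo.inter h.openG.measurableSet
  have hrn1 : rr n ^ 2 ≤ 1 := by
    have h2 : rr n ≤ 1 := by rw [← rr_zero]; exact rr_anti (Nat.zero_le _)
    have := rr_pos n
    nlinarith
  have hpt : ∀ τ ∈ J, ∫⁻ x in cube, ENNReal.ofReal
        ((nsq (u τ) x + 2 * |pz (p τ) x|) * (|u τ x j| * |pd j (wt j c (t₀ + rr n ^ 2) τ) x|))
      ≤ ENNReal.ofReal K * (ENNReal.ofReal (rr k₀ ^ 2)⁻¹ * (∫⁻ x in cube, gz u p j τ x)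
        + 4 * ∑ m ∈ Finset.Icc k₀ n, ENNReal.ofReal (rr m ^ 2)⁻¹ * (Iw G s₁ t₀ m).indicator
          (fun τ => ∫⁻ x in cube ∩ Sb j c (rr m), gz u p j τ x) τ) := by
    intro τ hτ
    have hτ0 : τ < t₀ := hτ.1.2.trans ht
    have hτG : τ ∈ G := hτ.2
    have hgm := gz_slice h j hτG
    have hn0 := rr_pos n
    have hpw : ∀ x, ENNReal.ofReal
        ((nsq (u τ) x + 2 * |pz (p τ) x|) * (|u τ x j| * |pd j (wt j c (t₀ + rr n ^ 2) τ) x|))
        ≤ ENNReal.ofReal K * (ENNReal.ofReal (rr k₀ ^ 2)⁻¹ * gz u p j τ x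
          + 4 * ∑ m ∈ Finset.Icc k₀ n, ENNReal.ofReal (rr m ^ 2)⁻¹
            * (if t₀ - rr m ^ 2 < τ then (Sb j c (rr m)).indicator (gz u p j τ) x else 0)) := by
      intro x
      have h2 := wt_pdj (j := j) (c := c) (a := t₀ + rr n ^ 2) (t := τ)
        (by nlinarith) (by linarith [hτ.1.1]) x
      have h3 := split_w hkn hτ0 (j := j) (c := c) x
      have hn := nsq_nn (u τ) x
      have hQ := Qf_nonneg c (x j)
      have e1 : gz u p j τ x = ENNReal.ofReal ((nsq (u τ) x + 2 * |pz (p τ) x|) * |u τ x j|) := by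
        unfold gz
        rw [mul_comm (nsq (u τ) x + 2 * |pz (p τ) x|),
          ENNReal.ofReal_mul (abs_nonneg _), ENNReal.ofReal_add hn (by positivity),
          ENNReal.ofReal_mul (by norm_num), ← ofReal_norm, ← ofReal_norm, Real.norm_eq_abs,
          Real.norm_eq_abs]
        norm_num
      set g0 := (nsq (u τ) x + 2 * |pz (p τ) x|) * |u τ x j| with hg0
      have hg0n : 0 ≤ g0 := by positivity
      have h4 : (nsq (u τ) x + 2 * |pz (p τ) x|) * (|u τ x j|
          * |pd j (wt j c (t₀ + rr n ^ 2) τ) x|) ≤ K * ((rr k₀ ^ 2)⁻¹ * g0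
          + 4 * ∑ m ∈ Finset.Icc k₀ n, (rr m ^ 2)⁻¹ *
            (if t₀ - rr m ^ 2 < τ ∧ x ∈ Sb j c (rr m) then g0 else 0)) := by
        calc (nsq (u τ) x + 2 * |pz (p τ) x|) * (|u τ x j|
              * |pd j (wt j c (t₀ + rr n ^ 2) τ) x|)
            = g0 * |pd j (wt j c (t₀ + rr n ^ 2) τ) x| := by rw [hg0]; ring
          _ ≤ g0 * (K / ((t₀ + rr n ^ 2 - τ) + Qf c (x j))) := by gcongr
          _ = g0 * (K * (1 / ((t₀ + rr n ^ 2 - τ) + Qf c (x j)))) := by ring
          _ ≤ g0 * (K * ((rr k₀ ^ 2)⁻¹ + 4 * ∑ m ∈ Finset.Icc k₀ n,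
              if t₀ - rr m ^ 2 < τ ∧ x ∈ Sb j c (rr m) then (rr m ^ 2)⁻¹ else 0)) := by gcongr
          _ = _ := by
              have : ∑ m ∈ Finset.Icc k₀ n, (rr m ^ 2)⁻¹ *
                  (if t₀ - rr m ^ 2 < τ ∧ x ∈ Sb j c (rr m) then g0 else 0)
                  = g0 * ∑ m ∈ Finset.Icc k₀ n,
                  if t₀ - rr m ^ 2 < τ ∧ x ∈ Sb j c (rr m) then (rr m ^ 2)⁻¹ else 0 := by
                rw [Finset.mul_sum]
                refine Finset.sum_congr rfl fun m _ => ?_
                split_ifs <;> ring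
              rw [this]
              ring
      refine (ENNReal.ofReal_le_ofReal h4).trans (le_of_eq ?_)
      have hmn : ∀ m : ℕ, 0 ≤ (rr m ^ 2)⁻¹ := fun m => by have := rr_pos m; positivity
      have hin : ∀ m, 0 ≤ (rr m ^ 2)⁻¹ *
            (if t₀ - rr m ^ 2 < τ ∧ x ∈ Sb j c (rr m) then g0 else 0) := by
        intro m
        refine mul_nonneg (hmn m) ?_
        split_ifs
        · exact hg0n
        · exact le_rfl
      rw [ENNReal.ofReal_mul hK0.le, ENNReal.ofReal_add (mul_nonneg (hmn k₀) hg0n)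
        (mul_nonneg (by norm_num) (Finset.sum_nonneg fun m _ => hin m)),
        ENNReal.ofReal_mul (hmn k₀), ENNReal.ofReal_mul (p := 4) (by norm_num),
        ENNReal.ofReal_sum_of_nonneg fun m _ => hin m, ← e1]
      congr 3
      · norm_num
      · refine Finset.sum_congr rfl fun m _ => ?_
        rw [ENNReal.ofReal_mul (hmn m)]
        congr 1
        by_cases h5 : t₀ - rr m ^ 2 < τ
        · by_cases h6 : x ∈ Sb j c (rr m)
          · rw [if_pos ⟨h5, h6⟩, if_pos h5, indicator_of_mem h6, e1]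
          · rw [if_neg (fun h => h6 h.2), if_pos h5, indicator_of_notMem h6, ENNReal.ofReal_zero]
        · rw [if_neg (fun h => h5 h.1), if_neg h5, ENNReal.ofReal_zero]
    refine (lintegral_mono hpw).trans (le_of_eq ?_)
    have him : ∀ m, Measurable fun x => (if t₀ - rr m ^ 2 < τ then
        (Sb j c (rr m)).indicator (gz u p j τ) x else 0) := by
      intro m
      by_cases h5 : t₀ - rr m ^ 2 < τ
      · simp only [if_pos h5]
        exact hgm.indicator (Sb_meas j c _)
      · simp only [if_neg h5]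
        exact measurable_const
    rw [lintegral_const_mul' _ _ ENNReal.ofReal_ne_top, lintegral_add_left (hgm.const_mul _),
      lintegral_const_mul' _ _ ENNReal.ofReal_ne_top, lintegral_const_mul' _ _ (by norm_num),
      lintegral_finsetSum _ fun m _ => (him m).const_mul _]
    congr 3
    refine Finset.sum_congr rfl fun m _ => ?_
    rw [lintegral_const_mul' _ _ ENNReal.ofReal_ne_top]
    congr 1
    by_cases h5 : t₀ - rr m ^ 2 < τ
    · have h6 : τ ∈ Iw G s₁ t₀ m := ⟨⟨max_lt hτ.1.1 h5, hτ0⟩, hτG⟩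
      rw [indicator_of_mem h6, cube_ind]
      simp only [if_pos h5]
    · have h6 : τ ∉ Iw G s₁ t₀ m := fun h => h5 ((le_max_right _ _).trans_lt h.1.1)
      rw [indicator_of_notMem h6]
      simp only [if_neg h5]
      exact lintegral_zero
  refine (setLIntegral_mono' hJm hpt).trans ?_
  have hIm : ∀ m, MeasurableSet (Iw G s₁ t₀ m) := fun m => Iw_meas h.openG s₁ t₀ m
  have ham : ∀ m, AEMeasurable ((Iw G s₁ t₀ m).indicator
      (fun τ => ∫⁻ x in cube ∩ Sb j c (rr m), gz u p j τ x)) (volume.restrict J) := fun m =>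
    (gz_meas h j (cube_meas.inter (Sb_meas j c _)) hJG).indicator (hIm m)
  rw [lintegral_const_mul' _ _ ENNReal.ofReal_ne_top, lintegral_add_left'
    ((gz_meas h j cube_meas hJG).const_mul _),
    lintegral_const_mul' _ _ ENNReal.ofReal_ne_top, lintegral_const_mul' _ _ (by norm_num),
    lintegral_finsetSum' _ fun m _ => (ham m).const_mul _]
  gcongr with m hm
  · exact lintegral_mono_set hJG
  · rw [lintegral_const_mul' _ _ ENNReal.ofReal_ne_top]
    gcongr
    rw [lintegral_indicator (hIm m), Measure.restrict_restrict (hIm m)]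
    exact lintegral_mono_set inter_subset_left

end

end Pool.Agent.Helper30K1
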