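import Pool.Agent.Helper30K1.En2

/-!
One velocity component (helper30): the scale invariant energy is controlled by the flux.
-/

set_option autoImplicit false

open MeasureTheory Set Metric Filter Topology
open scoped ContDiff ENNReal

namespace Pool.Agent.Helper30K1

open H459R3.NS W221.NS Pool.Agent.Y8

/-- The weighted dissipation. -/
noncomputable def Gw (G : Set ℝ) (u : ℝ → V → V) (j : Fin 3) (c s₁ t₀ : ℝ) (n : ℕ) : ℝ≥0∞ :=
  ∫⁻ τ in Ioo s₁ t₀ ∩ G, ∫⁻ x in cube,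
    ENNReal.ofReal (2 * (gsq (u τ) x * wt j c (t₀ + rr n ^ 2) τ x))

section

variable {T E D : ℝ} {G : Set ℝ} {u : ℝ → V → V} {p : ℝ → V → ℝ}

theorem rr_le_one (n : ℕ) : rr n ≤ 1 := by rw [← rr_zero]; exact rr_anti (Nat.zero_le _)

theorem rr_sq_le_one (n : ℕ) : rr n ^ 2 ≤ 1 := by
  have := rr_pos n
  have := rr_le_one n
  nlinarith

theorem en_low (h : Turb 1 T E D G u p) (j : Fin 3) (c : ℝ) {s₁ t₀ : ℝ} (hs : s₁ ∈ G)
    (h1 : t₀ - s₁ ≤ 1) {k₀ n : ℕ} (hkn : k₀ ≤ n) {t : ℝ} (ht : t ∈ Ioo s₁ t₀ ∩ G) :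
    (∫⁻ x in cube, ENNReal.ofReal (nsq (u t) x * wt j c (t₀ + rr n ^ 2) t x))
      + ∫⁻ τ in Ioo s₁ t ∩ G, ∫⁻ x in cube,
        ENNReal.ofReal (2 * (gsq (u τ) x * wt j c (t₀ + rr n ^ 2) τ x))
      ≤ Rn G u p j c s₁ t₀ E k₀ n := by
  have hn := rr_pos n
  have hn2 : 0 < rr n ^ 2 := by positivity
  have hn1 := rr_sq_le_one n
  have hst : s₁ < t₀ := ht.1.1.trans ht.1.2
  refine (pen2 h j c (t₀ + rr n ^ 2) hs ht.2 ht.1.1.le (by linarith [ht.1.2])).trans ?_
  unfold Rn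
  refine add_le_add ?_ (flux_split h j c h1 hkn ht.1.2)
  have hu := h.spv hs
  calc ∫⁻ x in cube, ENNReal.ofReal (nsq (u s₁) x * wt j c (t₀ + rr n ^ 2) s₁ x)
      ≤ ∫⁻ x in cube, ENNReal.ofReal (Real.exp (2 * Real.pi ^ 2) * (√(t₀ - s₁))⁻¹)
          * ENNReal.ofReal (nsq (u s₁) x) := by
        refine lintegral_mono fun x => ?_
        rw [← ENNReal.ofReal_mul (by positivity)]
        refine ENNReal.ofReal_le_ofReal ?_
        rw [mul_comm]
        refine mul_le_mul_of_nonneg_right ?_ (nsq_nn _ _)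
        unfold wt w1
        have e1 : Real.exp (Real.pi ^ 2 * (t₀ + rr n ^ 2 - s₁)) ≤ Real.exp (2 * Real.pi ^ 2) := by
          apply Real.exp_le_exp.2
          have := sq_nonneg Real.pi
          nlinarith
        have e2 : (√(t₀ + rr n ^ 2 - s₁))⁻¹ ≤ (√(t₀ - s₁))⁻¹ := by
          apply inv_anti₀ (Real.sqrt_pos.2 (by linarith))
          exact Real.sqrt_le_sqrt (by linarith)
        have e3 : Real.exp (-(Qf c (x j) / (4 * (t₀ + rr n ^ 2 - s₁)))) ≤ 1 := by
          apply Real.exp_le_one_iff.2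
          have := Qf_nonneg c (x j)
          have h5 : 0 < t₀ + rr n ^ 2 - s₁ := by linarith
          have : 0 ≤ Qf c (x j) / (4 * (t₀ + rr n ^ 2 - s₁)) := by positivity
          linarith
        calc _ ≤ Real.exp (2 * Real.pi ^ 2) * (√(t₀ - s₁))⁻¹ * 1 := by gcongr
          _ = _ := mul_one _
    _ = ENNReal.ofReal (Real.exp (2 * Real.pi ^ 2) * (√(t₀ - s₁))⁻¹)
        * ENNReal.ofReal (energy (u s₁)) := by
        rw [lintegral_const_mul' _ _ ENNReal.ofReal_ne_top,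
          ← cube_ofReal (nsq_sm hu.1).continuous (nsq_nn _), energy_eq hu.1]
    _ ≤ _ := by
        gcongr
        exact h.energy_le s₁ hs

/-- Regular times accumulate at every time. -/
theorem seq_G (h : Turb 1 T E D G u p) {s₁ t₀ : ℝ} (hs : s₁ ∈ G) (hst : s₁ < t₀) (ht : t₀ ≤ T) :
    ∀ r, r < t₀ → ∃ t ∈ Ioo s₁ t₀ ∩ G, r < t := by
  intro r hr
  by_contra hcon
  push Not at hcon
  have h0 := (h.subG hs).1
  have h1 : Ioo (max s₁ r) t₀ ⊆ Ioo 0 T \ G := by
    intro t ht'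
    have h2 : s₁ < t := (le_max_left _ _).trans_lt ht'.1
    have h3 : r < t := (le_max_right _ _).trans_lt ht'.1
    refine ⟨⟨h0.trans h2, ht'.2.trans_le ht⟩, fun hG => ?_⟩
    exact absurd (hcon t ⟨⟨h2, ht'.2⟩, hG⟩) (not_le.2 h3)
  have h2 := measure_mono_null h1 h.fullG
  rw [Real.volume_Ioo, ENNReal.ofReal_eq_zero] at h2
  have : max s₁ r < t₀ := max_lt hst hr
  linarith

theorem Gw_le (h : Turb 1 T E D G u p) (j : Fin 3) (c : ℝ) {s₁ t₀ : ℝ} (hs : s₁ ∈ G)
    (hst : s₁ < t₀) (hT : t₀ ≤ T) (h1 : t₀ - s₁ ≤ 1) {k₀ n : ℕ} (hkn : k₀ ≤ n) :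
    Gw G u j c s₁ t₀ n ≤ Rn G u p j c s₁ t₀ E k₀ n := by
  have hseq := seq_G h hs hst hT
  choose! f hf hf2 using hseq
  set t : ℕ → ℝ := fun k => f (t₀ - 1 / (k + 1)) with ht
  have hk : ∀ k : ℕ, t₀ - 1 / ((k : ℝ) + 1) < t₀ := fun k => by
    have : 0 < 1 / ((k : ℝ) + 1) := by positivity
    linarith
  have htI : ∀ k, t k ∈ Ioo s₁ t₀ ∩ G := fun k => hf _ (hk k)
  have htk : ∀ k : ℕ, t₀ - 1 / ((k : ℝ) + 1) < t k := fun k => hf2 _ (hk k)
  have hU : Ioo s₁ t₀ ∩ G = ⋃ k, (Ioo s₁ (t k) ∩ G) := by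
    ext τ
    simp only [mem_inter_iff, mem_iUnion]
    constructor
    · rintro ⟨h2, h3⟩
      obtain ⟨k, hk2⟩ := exists_nat_one_div_lt (sub_pos.2 h2.2)
      exact ⟨k, ⟨h2.1, by linarith [htk k]⟩, h3⟩
    · rintro ⟨k, h2, h3⟩
      exact ⟨⟨h2.1, h2.2.trans (htI k).1.2⟩, h3⟩
  have hd : Directed (· ⊆ ·) fun k => Ioo s₁ (t k) ∩ G := by
    intro a b
    rcases le_total (t a) (t b) with h2 | h2
    · exact ⟨b, inter_subset_inter_left _ (Ioo_subset_Ioo_right h2), subset_rfl⟩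
    · exact ⟨a, subset_rfl, inter_subset_inter_left _ (Ioo_subset_Ioo_right h2)⟩
  unfold Gw
  rw [hU, setLIntegral_iUnion_of_directed _ hd]
  refine iSup_le fun k => ?_
  exact le_add_self.trans (en_low h j c hs h1 hkn (htI k))

theorem em_le (h : Turb 1 T E D G u p) (j : Fin 3) (c : ℝ) {s₁ t₀ : ℝ} (hs : s₁ ∈ G)
    (hst : s₁ < t₀) (hT : t₀ ≤ T) (h1 : t₀ - s₁ ≤ 1) {k₀ n : ℕ} (hkn : k₀ ≤ n) :
    em G u j c s₁ t₀ n ≤ 3 * Rn G u p j c s₁ t₀ E k₀ n := by
  set R := Rn G u p j c s₁ t₀ E k₀ n with hR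
  have hn := rr_pos n
  have hn2 : 0 < rr n ^ 2 := by positivity
  have hIs : Iw G s₁ t₀ n ⊆ Ioo s₁ t₀ ∩ G :=
    inter_subset_inter_left _ (Ioo_subset_Ioo_left (le_max_left _ _))
  have hlow : ∀ t ∈ Iw G s₁ t₀ n, ∀ x ∈ Sb j c (rr n),
      1 ≤ 2 * rr n * wt j c (t₀ + rr n ^ 2) t x := by
    intro t ht x hx
    have h2 : t₀ - rr n ^ 2 < t := (le_max_right _ _).trans_lt ht.1.1
    exact wt_low hn (by linarith [ht.1.2]) (by linarith) hx
  have hSm : MeasurableSet (cube ∩ Sb j c (rr n)) := cube_meas.inter (Sb_meas j c _)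
  have hA : ∀ t ∈ Iw G s₁ t₀ n, Ab (u t) j c (rr n) ≤ ENNReal.ofReal (2 * rr n) * R := by
    intro t ht
    have htI := hIs ht
    have h3 := le_self_add.trans (en_low h j c hs h1 hkn htI)
    calc Ab (u t) j c (rr n) ≤ ∫⁻ x in cube ∩ Sb j c (rr n), ENNReal.ofReal (2 * rr n)
          * ENNReal.ofReal (nsq (u t) x * wt j c (t₀ + rr n ^ 2) t x) := by
          unfold Ab
          refine setLIntegral_mono' hSm fun x hx => ?_
          rw [← ENNReal.ofReal_mul (by positivity)]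
          refine ENNReal.ofReal_le_ofReal ?_
          have h4 := hlow t ht x hx.2
          have h5 := nsq_nn (u t) x
          calc nsq (u t) x = nsq (u t) x * 1 := (mul_one _).symm
            _ ≤ nsq (u t) x * (2 * rr n * wt j c (t₀ + rr n ^ 2) t x) := by gcongr
            _ = _ := by ring
      _ ≤ ∫⁻ x in cube, ENNReal.ofReal (2 * rr n)
          * ENNReal.ofReal (nsq (u t) x * wt j c (t₀ + rr n ^ 2) t x) :=
          lintegral_mono_set inter_subset_left
      _ = ENNReal.ofReal (2 * rr n) * ∫⁻ x in cube,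
          ENNReal.ofReal (nsq (u t) x * wt j c (t₀ + rr n ^ 2) t x) :=
          lintegral_const_mul' _ _ ENNReal.ofReal_ne_top
      _ ≤ _ := by gcongr
  have hB : ∫⁻ t in Iw G s₁ t₀ n, Bb (u t) j c (rr n) ≤ ENNReal.ofReal (rr n) * R := by
    calc ∫⁻ t in Iw G s₁ t₀ n, Bb (u t) j c (rr n)
        ≤ ∫⁻ t in Iw G s₁ t₀ n, ENNReal.ofReal (rr n) * ∫⁻ x in cube,
          ENNReal.ofReal (2 * (gsq (u t) x * wt j c (t₀ + rr n ^ 2) t x)) := by
          refine setLIntegral_mono' (Iw_meas h.openG s₁ t₀ n) fun t ht => ?_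
          unfold Bb
          calc ∫⁻ x in cube ∩ Sb j c (rr n), ENNReal.ofReal (gsq (u t) x)
              ≤ ∫⁻ x in cube ∩ Sb j c (rr n), ENNReal.ofReal (rr n)
                * ENNReal.ofReal (2 * (gsq (u t) x * wt j c (t₀ + rr n ^ 2) t x)) := by
                refine setLIntegral_mono' hSm fun x hx => ?_
                rw [← ENNReal.ofReal_mul (by positivity)]
                refine ENNReal.ofReal_le_ofReal ?_
                have h4 := hlow t ht x hx.2
                have h5 := gsq_nn (u t) x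
                calc gsq (u t) x = gsq (u t) x * 1 := (mul_one _).symm
                  _ ≤ gsq (u t) x * (2 * rr n * wt j c (t₀ + rr n ^ 2) t x) := by gcongr
                  _ = _ := by ring
            _ ≤ ∫⁻ x in cube, ENNReal.ofReal (rr n)
                * ENNReal.ofReal (2 * (gsq (u t) x * wt j c (t₀ + rr n ^ 2) t x)) :=
                lintegral_mono_set inter_subset_left
            _ = _ := lintegral_const_mul' _ _ ENNReal.ofReal_ne_top
      _ = ENNReal.ofReal (rr n) * ∫⁻ t in Iw G s₁ t₀ n, ∫⁻ x in cube,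
          ENNReal.ofReal (2 * (gsq (u t) x * wt j c (t₀ + rr n ^ 2) t x)) :=
          lintegral_const_mul' _ _ ENNReal.ofReal_ne_top
      _ ≤ ENNReal.ofReal (rr n) * Gw G u j c s₁ t₀ n := by
          gcongr
          exact lintegral_mono_set hIs
      _ ≤ _ := by
          gcongr
          exact Gw_le h j c hs hst hT h1 hkn
  unfold em
  calc ENNReal.ofReal (rr n)⁻¹ * ((⨆ t ∈ Iw G s₁ t₀ n, Ab (u t) j c (rr n))
        + ∫⁻ t in Iw G s₁ t₀ n, Bb (u t) j c (rr n))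
      ≤ ENNReal.ofReal (rr n)⁻¹ * (ENNReal.ofReal (2 * rr n) * R
        + ENNReal.ofReal (rr n) * R) := by
        gcongr
        exact iSup₂_le hA
    _ = (ENNReal.ofReal (rr n)⁻¹ * ENNReal.ofReal (rr n)) * ((2 + 1) * R) := by
        rw [ENNReal.ofReal_mul (p := 2) (by norm_num), show ENNReal.ofReal 2 = 2 by norm_num]
        ring
    _ = 3 * R := by
        rw [← ENNReal.ofReal_mul (by positivity), inv_mul_cancel₀ hn.ne', ENNReal.ofReal_one,
          one_mul]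
        norm_num

/-- A priori finiteness. -/
theorem em_fin (h : Turb 1 T E D G u p) (j : Fin 3) (c s₁ t₀ : ℝ) (n : ℕ) :
    em G u j c s₁ t₀ n ≠ ⊤ := by
  unfold em
  refine ENNReal.mul_ne_top ENNReal.ofReal_ne_top (ENNReal.add_ne_top.2 ⟨?_, ?_⟩)
  · refine ne_top_of_le_ne_top (ENNReal.ofReal_ne_top (r := E ^ 2)) ?_
    exact iSup₂_le fun t ht => energy_Ab h ht.2 j c _
  · have h1 : ∫⁻ t in G, ENNReal.ofReal (enstrophy (u t)) ≠ ⊤ := h.enst_int.lintegral_lt_top.ne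
    refine ne_top_of_le_ne_top h1 ?_
    calc ∫⁻ t in Iw G s₁ t₀ n, Bb (u t) j c (rr n)
        ≤ ∫⁻ t in Iw G s₁ t₀ n, ENNReal.ofReal (enstrophy (u t)) := by
          refine setLIntegral_mono' (Iw_meas h.openG s₁ t₀ n) fun t ht => ?_
          have hu := h.spv ht.2
          rw [enst_eq hu.1, cube_ofReal (gsq_ct hu.1) (gsq_nn _)]
          exact lintegral_mono_set inter_subset_left
      _ ≤ _ := lintegral_mono_set inter_subset_right

end

/-- The iteration. -/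
theorem iter_fin {e a : ℕ → ℝ≥0∞} {k₀ : ℕ} {X E₀ : ℝ≥0∞} (hX : X ≠ ⊤) (hE : E₀ ≠ ⊤)
    (he : ∀ n, e n ≠ ⊤) (ha : ∑' m, a (m + k₀) ≠ ⊤) (K : ℝ≥0∞) (hK : K ≠ ⊤)
    (hrec : ∀ n, k₀ ≤ n → e n ≤ X + K * ∑ m ∈ Finset.Icc k₀ n,
      a m * ((Finset.range (m - 1)).sup e + E₀)) :
    ∃ Z : ℝ≥0∞, Z ≠ ⊤ ∧ ∀ n, e n ≤ Z := by
  have ham : ∀ m, k₀ ≤ m → a m ≠ ⊤ := by
    intro m hm
    have h1 := ENNReal.le_tsum (f := fun m => a (m + k₀)) (m - k₀)
    simp only [Nat.sub_add_cancel hm] at h1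
    exact ne_top_of_le_ne_top ha h1
  -- choose the scale where the tail is small
  have htail := ENNReal.tendsto_sum_nat_add (fun m => a (m + k₀)) ha
  have h2K : (0 : ℝ≥0∞) < (2 * (K + 1))⁻¹ :=
    ENNReal.inv_pos.2 (ENNReal.mul_ne_top (by norm_num) (ENNReal.add_ne_top.2 ⟨hK, by norm_num⟩))
  obtain ⟨l, hl⟩ := (htail.eventually (Iio_mem_nhds h2K)).exists
  have hl' : ∑' m, a (m + l + k₀) < (2 * (K + 1))⁻¹ := hl
  set k₁ := l + k₀ with hk₁
  have htl : ∀ n, ∑ m ∈ Finset.Icc k₁ n, a m ≤ (2 * (K + 1))⁻¹ := by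
    intro n
    refine le_trans ?_ hl'.le
    have h1 : ∑ m ∈ Finset.Icc k₁ n, a m = ∑ m ∈ Finset.Icc k₁ n, a (m - k₁ + l + k₀) := by
      refine Finset.sum_congr rfl fun m hm => ?_
      have := (Finset.mem_Icc.1 hm).1
      congr 1
      omega
    rw [h1]
    have h2 : ∑ m ∈ Finset.Icc k₁ n, a (m - k₁ + l + k₀)
        = ∑ m ∈ (Finset.Icc k₁ n).image (fun m => m - k₁), a (m + l + k₀) := by
      rw [Finset.sum_image]
      intro x hx y hy hxy
      have h3 := (Finset.mem_Icc.1 hx).1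
      have h4 := (Finset.mem_Icc.1 hy).1
      simp only at hxy
      omega
    rw [h2]
    exact ENNReal.sum_le_tsum _
  have hKhalf : K * (2 * (K + 1))⁻¹ ≤ 2⁻¹ := by
    rw [ENNReal.mul_inv (Or.inl (by norm_num)) (Or.inl (by norm_num))]
    calc K * (2⁻¹ * (K + 1)⁻¹) = 2⁻¹ * (K * (K + 1)⁻¹) := by ring
      _ ≤ 2⁻¹ * 1 := by
          gcongr
          rw [← div_eq_mul_inv]
          exact ENNReal.div_le_of_le_mul (by rw [one_mul]; exact le_self_add)
      _ = 2⁻¹ := mul_one _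
  set Y : ℝ≥0∞ := X + K * (∑ m ∈ Finset.Icc k₀ k₁, a m * ((Finset.range (m - 1)).sup e + E₀))
    + E₀ with hY
  have hsup : ∀ s : Finset ℕ, s.sup e ≠ ⊤ := by
    intro s
    have h1 : s.sup e ≤ ∑ i ∈ s, e i := Finset.sup_le fun i hi =>
      Finset.single_le_sum (fun _ _ => zero_le) hi
    exact ne_top_of_le_ne_top (ENNReal.sum_ne_top.2 fun i _ => he i) h1
  have hYt : Y ≠ ⊤ := by
    refine ENNReal.add_ne_top.2 ⟨ENNReal.add_ne_top.2 ⟨hX, ENNReal.mul_ne_top hK
      (ENNReal.sum_ne_top.2 fun m hm => ENNReal.mul_ne_top (ham m (Finset.mem_Icc.1 hm).1)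
        (ENNReal.add_ne_top.2 ⟨hsup _, hE⟩))⟩, hE⟩
  set Z : ℝ≥0∞ := 2 * Y + ∑ i ∈ Finset.range (k₁ + 1), e i with hZ
  have hZt : Z ≠ ⊤ := ENNReal.add_ne_top.2 ⟨ENNReal.mul_ne_top (by norm_num) hYt,
    ENNReal.sum_ne_top.2 fun i _ => he i⟩
  refine ⟨Z, hZt, fun n => ?_⟩
  induction n using Nat.strong_induction_on with
  | _ n ih =>
    by_cases hn : n ≤ k₁
    · refine le_trans (Finset.single_le_sum (f := e) (fun _ _ => zero_le)
        (Finset.mem_range.2 (by omega : n < k₁ + 1))) le_add_self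
    · push Not at hn
      have hk01 : k₀ ≤ k₁ := by omega
      refine (hrec n (by omega)).trans ?_
      have hsplit : ∑ m ∈ Finset.Icc k₀ n, a m * ((Finset.range (m - 1)).sup e + E₀)
          ≤ (∑ m ∈ Finset.Icc k₀ k₁, a m * ((Finset.range (m - 1)).sup e + E₀))
            + ∑ m ∈ Finset.Icc k₁ n, a m * ((Finset.range (m - 1)).sup e + E₀) := by
        have h1 : Finset.Icc k₀ n ⊆ Finset.Icc k₀ k₁ ∪ Finset.Icc k₁ n := by
          intro m hm
          rw [Finset.mem_union, Finset.mem_Icc, Finset.mem_Icc]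
          rw [Finset.mem_Icc] at hm
          omega
        refine (Finset.sum_le_sum_of_subset h1).trans ?_
        rw [← Finset.sum_union_inter]
        exact le_self_add
      have hlast : ∑ m ∈ Finset.Icc k₁ n, a m * ((Finset.range (m - 1)).sup e + E₀)
          ≤ (2 * (K + 1))⁻¹ * (Z + E₀) := by
        calc _ ≤ ∑ m ∈ Finset.Icc k₁ n, a m * (Z + E₀) := by
              refine Finset.sum_le_sum fun m hm => ?_
              gcongr
              refine Finset.sup_le fun i hi => ih i ?_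
              have h3 := Finset.mem_range.1 hi
              have h4 := (Finset.mem_Icc.1 hm).2
              omega
          _ = (∑ m ∈ Finset.Icc k₁ n, a m) * (Z + E₀) := (Finset.sum_mul _ _ _).symm
          _ ≤ _ := by
              gcongr
              exact htl n
      calc X + K * ∑ m ∈ Finset.Icc k₀ n, a m * ((Finset.range (m - 1)).sup e + E₀)
          ≤ X + K * ((∑ m ∈ Finset.Icc k₀ k₁, a m * ((Finset.range (m - 1)).sup e + E₀))
            + (2 * (K + 1))⁻¹ * (Z + E₀)) := by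
            gcongr
            exact hsplit.trans (add_le_add le_rfl hlast)
        _ = (X + K * (∑ m ∈ Finset.Icc k₀ k₁, a m * ((Finset.range (m - 1)).sup e + E₀)))
            + (K * (2 * (K + 1))⁻¹) * (Z + E₀) := by ring
        _ ≤ (X + K * (∑ m ∈ Finset.Icc k₀ k₁, a m * ((Finset.range (m - 1)).sup e + E₀)))
            + 2⁻¹ * (Z + E₀) := by gcongr
        _ = (X + K * (∑ m ∈ Finset.Icc k₀ k₁, a m * ((Finset.range (m - 1)).sup e + E₀)))
            + 2⁻¹ * E₀ + 2⁻¹ * Z := by ring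
        _ ≤ Y + 2⁻¹ * Z := by
            rw [hY]
            gcongr
            calc (2⁻¹ : ℝ≥0∞) * E₀ ≤ 1 * E₀ := by
                  gcongr
                  exact ENNReal.inv_le_one.2 (by norm_num)
              _ = E₀ := one_mul _
        _ ≤ 2⁻¹ * Z + 2⁻¹ * Z := by
            gcongr
            rw [hZ, mul_add, ← mul_assoc, ENNReal.inv_mul_cancel (by norm_num) (by norm_num),
              one_mul]
            exact le_self_add
        _ = Z := by
            rw [← add_mul, ENNReal.inv_two_add_inv_two, one_mul]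

end Pool.Agent.Helper30K1
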