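import Pool.Agent.Helper30K1.Crt3

/-!
The size of the singular set of a suitable weak periodic solution of the Navier-Stokes equations
one component of whose velocity is in a Serrin class (helper30). Copy of the hand-in.
-/

set_option autoImplicit false

open MeasureTheory Set Metric
open scoped ENNReal

namespace Pool.Agent.Helper30K1.Final

open H459R3.NS Pool.Agent.Y8 Pool.Agent.Helper30K1

/-- The `j`-th component is in `L^m` of time with values in `L^q` of space. -/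
def Component (m q : ℝ) (G : Set ℝ) (u : ℝ → V → V) (j : Fin 3) : Prop :=
  ∫⁻ t in G, (∫⁻ x in cube, ‖u t x j‖ₑ ^ q) ^ (m / q) ≠ ⊤

/-- The parabolic cylinder `{|t - z₁| < r², ‖x - z₂‖ < r}` around `z`. -/
def Cylinder {F : Type*} [NormedAddCommGroup F] (z : ℝ × F) (r : ℝ) : Set (ℝ × F) :=
  {w | |w.1 - z.1| < r ^ 2 ∧ ‖w.2 - z.2‖ < r}

/-- The set `S` has parabolic Hausdorff measure zero for the gauge `g`: for every `ε > 0` it is
covered by countably many parabolic cylinders of radii `rᵢ ≤ ε` with `∑ g(rᵢ) ≤ ε`. -/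
def Null {F : Type*} [NormedAddCommGroup F] (g : ℝ → ℝ) (S : Set (ℝ × F)) : Prop :=
  ∀ ε > 0, ∃ (ι : Type) (_ : Countable ι) (z : ι → ℝ × F) (r : ι → ℝ),
    (∀ i, 0 < r i ∧ r i ≤ ε) ∧ S ⊆ ⋃ i, Cylinder (z i) (r i) ∧
      ∑' i, ENNReal.ofReal (g (r i)) ≤ ENNReal.ofReal ε

/-- See the hand-in `OneComponent`. -/
theorem main (ν T E D : ℝ) (G : Set ℝ) (u : ℝ → V → V) (p : ℝ → V → ℝ) (hν : 0 < ν)
    (hu : Turb ν T E D G u p) (j : Fin 3) (m q : ℝ) (hm : 2 ≤ m) (hq : 3 < q)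
    (hY : Component m q G u j) :
    (2 / m + 3 / q = 1 →
      (∀ A > 0, Null (fun r => Real.exp (-(A * Real.log (1 / r) ^ (1 - 1 / m))))
        {w : ℝ × V | w.1 ∈ Ioo 0 T ∧ SingPt G u w.1 w.2}) ∧
      dimH {w : ℝ × V | w.1 ∈ Ioo 0 T ∧ SingPt G u w.1 w.2} = 0) ∧
    dimH {t ∈ Ioo 0 T | ∃ x : V, SingPt G u t x} ≤ ENNReal.ofReal ((2 / m + 3 / q - 1) * m / 2) ∧
    ∀ δ > 0, (2 / m + 3 / q - 1) * max q m < δ →
      Null (fun r => r ^ δ)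
        {w : ℝ × ℝ | w.1 ∈ Ioo 0 T ∧ ∃ x : V, x j = w.2 ∧ SingPt G u w.1 x} :=
  ⟨fun hqm => ⟨fun A hA => gauge hν hu hq hm hqm j hY hA, dim_crit hν hu hq hm hqm j hY⟩,
    times hν hu hq hm j hY, fun δ hδ hδ2 => planes hν hu hq hm j hY hδ hδ2⟩

/-- The norm of the `j`-th component in `L²(t₀ - r² / ν, t₀; L^q)` of the slab of the points whose
`j`-th coordinate is closer than `r` to `c` modulo one, divided by `r ^ (3 / q)`. -/
noncomputable def SlabNorm (ν q : ℝ) (G : Set ℝ) (u : ℝ → V → V) (j : Fin 3) (c t₀ r : ℝ) :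
    ℝ≥0∞ :=
  ENNReal.ofReal (r ^ (-(3 / q))) * (∫⁻ t in Ioo (t₀ - r ^ 2 / ν) t₀ ∩ G,
    (∫⁻ x in cube ∩ {x | ∃ n : ℤ, |x j - c - n| < r}, ‖u t x j‖ₑ ^ q) ^ (2 / q)) ^ (1 / 2 : ℝ)

/-- The regularity criterion. -/
theorem criterion (ν T E D : ℝ) (G : Set ℝ) (u : ℝ → V → V) (p : ℝ → V → ℝ) (hν : 0 < ν)
    (hu : Turb ν T E D G u p) (j : Fin 3) (q : ℝ) (hq : 3 < q) (t₀ : ℝ) (ht₀ : t₀ ∈ Ioo 0 T)
    (x₀ : V) (hs : SingPt G u t₀ x₀) (K : ℕ) :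
    ∑' k : ℕ, SlabNorm ν q G u j (x₀ j) t₀ ((1 / 2) ^ (k + K)) = ⊤ :=
  crit hν hu hq j ht₀ hs K

end Pool.Agent.Helper30K1.Final
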