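import Pool.Agent.Helper30K1.Flx

/-!
One velocity component (helper30): estimates of the flux at a fixed time, second part.
-/

set_option autoImplicit false

open MeasureTheory Set Metric Filter Topology
open scoped ContDiff ENNReal

namespace Pool.Agent.Helper30K1

open H459R3.NS W221.NS Pool.Agent.Y8

/-- The volume of the slab. -/
theorem vol_slab (j : Fin 3) (c : ℝ) {R : ℝ} (hR : 0 < R) :
    volume (cube ∩ Sb j c R) ≤ ENNReal.ofReal (8 * R) := by
  have h1 : volume (cube ∩ Sb j c R) = ∫⁻ x in ball (0 : V) (1 / 2) ∩ Sb j c R, (1 : ℝ≥0∞) := by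
    rw [ball_ind (f := fun _ => 1) (fun _ _ => rfl), setLIntegral_one]
  rw [h1]
  set F : ℝ → ℝ≥0∞ := indicator {s : ℝ | |s| < 1 / 2 ∧ Qf c (s + 0) < R ^ 2} 1 with hF
  set H : ℝ → ℝ≥0∞ := indicator {s : ℝ | |s| < 1 / 2} 1 with hH
  have hSm : MeasurableSet {s : ℝ | |s| < 1 / 2 ∧ Qf c (s + 0) < R ^ 2} := by
    apply MeasurableSet.inter
    · exact measurableSet_lt (by fun_prop : Measurable fun s : ℝ => |s|) measurable_const
    · exact measurableSet_lt ((Qf_cont c).comp (by fun_prop : Continuous fun s : ℝ => s + 0)).measurable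
        measurable_const
  have hSm2 : MeasurableSet {s : ℝ | |s| < 1 / 2} :=
    measurableSet_lt (by fun_prop : Measurable fun s : ℝ => |s|) measurable_const
  have hFm : Measurable F := measurable_one.indicator hSm
  have hHm : Measurable H := measurable_one.indicator hSm2
  have hpt : ∀ x, (ball (0 : V) (1 / 2) ∩ Sb j c R).indicator (fun _ => (1 : ℝ≥0∞)) x
      ≤ ∏ i, (if i = j then F else H) (x i) := by
    intro x
    by_cases hx : x ∈ ball (0 : V) (1 / 2) ∩ Sb j c R
    · rw [indicator_of_mem hx]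
      have hn : ∀ i, |x i| < 1 / 2 := fun i => by
        have h2 := norm_le_pi_norm x i
        rw [Real.norm_eq_abs] at h2
        have h3 := hx.1
        rw [mem_ball, dist_zero_right] at h3
        exact h2.trans_lt h3
      have hall : ∀ i, (if i = j then F else H) (x i) = 1 := by
        intro i
        split_ifs with h
        · subst h
          rw [hF, indicator_of_mem]
          · rfl
          · refine ⟨hn i, ?_⟩
            rw [add_zero]
            exact hx.2
        · rw [hH, indicator_of_mem]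
          · rfl
          · exact hn i
      rw [Finset.prod_congr rfl fun i _ => hall i]
      simp
    · rw [indicator_of_notMem hx]
      exact zero_le
  have hm : MeasurableSet (ball (0 : V) (1 / 2) ∩ Sb j c R) :=
    measurableSet_ball.inter (Sb_meas j c R)
  calc ∫⁻ x in ball (0 : V) (1 / 2) ∩ Sb j c R, (1 : ℝ≥0∞)
      = ∫⁻ x, (ball (0 : V) (1 / 2) ∩ Sb j c R).indicator (fun _ => (1 : ℝ≥0∞)) x :=
        (lintegral_indicator hm _).symm
    _ ≤ ∫⁻ x : V, ∏ i, (if i = j then F else H) (x i) := lintegral_mono hpt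
    _ = (∫⁻ s, F s) * (∫⁻ s, H s) ^ 2 := lprod3 j F H hFm hHm
    _ ≤ ENNReal.ofReal (8 * R) * 1 ^ 2 := by
        gcongr
        · rw [hF, lintegral_indicator_one hSm]
          exact meas_slab c 0 hR
        · rw [hH, lintegral_indicator_one hSm2]
          have : {s : ℝ | |s| < 1 / 2} = Ioo (-(1 / 2)) (1 / 2) := by
            ext s
            rw [mem_ofPred_eq, abs_lt, mem_Ioo]
          rw [this, Real.volume_Ioo]
          norm_num
    _ = _ := by rw [one_pow, mul_one]

theorem Sb_mono {j : Fin 3} {c R R' : ℝ} (h0 : 0 ≤ R) (h : R ≤ R') : Sb j c R ⊆ Sb j c R' := by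
  intro x hx
  rw [mem_Sb] at *
  exact hx.trans_le (pow_le_pow_left₀ h0 h 2)

theorem rr_pos (k : ℕ) : 0 < rr k := by unfold rr; positivity

theorem rr_succ (k : ℕ) : rr (k + 1) = rr k / 2 := by
  unfold rr
  rw [pow_succ]
  ring

theorem rr_zero : rr 0 = 1 := by simp [rr]

theorem rr_anti {i k : ℕ} (h : i ≤ k) : rr k ≤ rr i :=
  pow_le_pow_of_le_one (by norm_num) (by norm_num) h

/-- Every point outside the slab of radius `rr m` is in one of the shells. -/
theorem shell_ex {j : Fin 3} {c : ℝ} (m : ℕ) {y : V} (hy : y ∉ Sb j c (rr m)) :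
    ∃ i < m, y ∈ Sb j c (rr i) \ Sb j c (rr (i + 1)) := by
  induction m with
  | zero =>
    exact absurd (by rw [Sb_one (by rw [rr_zero])]; trivial) hy
  | succ m ih =>
    by_cases h : y ∈ Sb j c (rr m)
    · exact ⟨m, Nat.lt_succ_self m, h, hy⟩
    · obtain ⟨i, hi, h2⟩ := ih h
      exact ⟨i, hi.trans (Nat.lt_succ_self m), h2⟩

section

variable {v : V → V}

theorem H1_ct (hv : ContDiff ℝ ∞ v) (R : ℝ) : Continuous (H1 v R) := by
  unfold H1
  exact ((nsq_sm hv).continuous.sqrt.mul (gsq_ct hv).sqrt).add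
    (continuous_const.mul (nsq_sm hv).continuous)

theorem H1_per (hv : SPV v) (R : ℝ) : Per (H1 v R) := by
  intro i x
  unfold H1
  rw [nsq_per hv.2 i x, gsq_per hv.2 i x]

theorem vj_per (hv : SPV v) (j : Fin 3) : Per fun x => ‖v x j‖ₑ := by
  intro i x
  show ‖v (x + Pi.single i 1) j‖ₑ = _
  rw [hv.2 i x]

theorem vj_meas (hv : SPV v) (j : Fin 3) : Measurable fun x => ‖v x j‖ₑ :=
  (contDiff_pi.1 hv.1 j).continuous.enorm.measurable

theorem ofReal_per {f : V → ℝ} (hf : Per f) : Per fun x => ENNReal.ofReal (f x) := by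
  intro i x
  show ENNReal.ofReal (f (x + Pi.single i 1)) = _
  rw [hf i x]

/-- The near part of the flux. -/
theorem flux_near {q : ℝ} (hq : 3 < q) : ∃ C : ℝ, 0 < C ∧ ∀ (v : V → V), SPV v → ∀ (j : Fin 3)
    (c R : ℝ), 0 < R → ∫⁻ x in cube ∩ Sb j c R, ‖v x j‖ₑ * Nr v j c R x
      ≤ ENNReal.ofReal C * (ENNReal.ofReal (R ^ (1 - 3 / q)) * Nb q v j c R
        * ∫⁻ y in cube ∩ Sb j c (4 * R), ENNReal.ofReal (H1 v R y)) := by
  obtain ⟨C, hC, hb⟩ := near_b hq
  refine ⟨C, hC, fun v hv j c R hR => ?_⟩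
  set g : V → ℝ≥0∞ := (Sb j c R).indicator fun x => ‖v x j‖ₑ with hg
  set H : V → ℝ≥0∞ := (Sb j c (4 * R)).indicator fun y => ENNReal.ofReal (H1 v R y) with hH
  have hgm : Measurable g := (vj_meas hv j).indicator (Sb_meas j c R)
  have hHm : Measurable H := ((H1_ct hv.1 R).measurable.ennreal_ofReal).indicator
    (Sb_meas j c (4 * R))
  have hkm : Measurable fun z : V => ‖z‖ₑ ^ (-2 : ℝ) := by fun_prop
  have e1 : ∫⁻ x in cube ∩ Sb j c R, ‖v x j‖ₑ * Nr v j c R x
      = ∫⁻ x in cube, g x * ∫⁻ y in ball x (1 / 2), ‖y - x‖ₑ ^ (-2 : ℝ) * H y := by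
    rw [cube_ind]
    refine lintegral_congr fun x => ?_
    have e2 : ∫⁻ y in ball x (1 / 2), ‖y - x‖ₑ ^ (-2 : ℝ) * H y = Nr v j c R x := by
      unfold Nr
      rw [inter_comm (ball x (1 / 2)) (Sb j c (4 * R)),
        ← setLIntegral_indicator (Sb_meas j c (4 * R))]
      refine lintegral_congr fun y => ?_
      by_cases hy : y ∈ Sb j c (4 * R)
      · rw [hH, indicator_of_mem hy, indicator_of_mem hy]
      · rw [hH, indicator_of_notMem hy, indicator_of_notMem hy, mul_zero]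
    rw [e2]
    by_cases hx : x ∈ Sb j c R
    · rw [hg, indicator_of_mem hx, indicator_of_mem hx]
    · rw [hg, indicator_of_notMem hx, indicator_of_notMem hx, zero_mul]
  rw [e1, unf (k := fun z => ‖z‖ₑ ^ (-2 : ℝ)) hgm hHm hkm (ind_per (vj_per hv j) j c R)
    (ind_per (ofReal_per (H1_per hv R)) j c (4 * R))]
  have e3 : ∀ y, ∫⁻ x in ball y (1 / 2), ‖y - x‖ₑ ^ (-2 : ℝ) * g x
      ≤ ENNReal.ofReal (C * R ^ (1 - 3 / q)) * Nb q v j c R := by
    intro y
    refine le_trans (le_of_eq ?_) (hb v hv j c R hR y)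
    rw [inter_comm (ball y (1 / 2)) (Sb j c R), ← setLIntegral_indicator (Sb_meas j c R)]
    refine lintegral_congr fun x => ?_
    by_cases hx : x ∈ Sb j c R
    · rw [hg, indicator_of_mem hx, indicator_of_mem hx]
    · rw [hg, indicator_of_notMem hx, indicator_of_notMem hx, mul_zero]
  calc ∫⁻ y in cube, H y * ∫⁻ x in ball y (1 / 2), ‖y - x‖ₑ ^ (-2 : ℝ) * g x
      ≤ ∫⁻ y in cube, H y * (ENNReal.ofReal (C * R ^ (1 - 3 / q)) * Nb q v j c R) := by
        refine lintegral_mono fun y => ?_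
        gcongr
        exact e3 y
    _ = (∫⁻ y in cube, H y) * (ENNReal.ofReal (C * R ^ (1 - 3 / q)) * Nb q v j c R) :=
        lintegral_mul_const _ hHm
    _ = _ := by
        rw [cube_ind, ENNReal.ofReal_mul hC.le]
        ring

theorem rpow_quarter {q : ℝ} (hq : 3 < q) {r : ℝ} (hr : 0 < r) :
    (r / 4) ^ (-1 - 2 / q) ≤ 16 * r ^ (-1 - 2 / q) := by
  rw [Real.div_rpow hr.le (by norm_num), div_eq_mul_inv, mul_comm]
  gcongr
  rw [← Real.rpow_neg (by norm_num)]
  have h1 : -(-1 - 2 / q) ≤ 2 := by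
    have : 2 / q ≤ 1 := by rw [div_le_one (by linarith)]; linarith
    linarith
  calc (4 : ℝ) ^ (-(-1 - 2 / q)) ≤ 4 ^ (2 : ℝ) := Real.rpow_le_rpow_of_exponent_le (by norm_num) h1
    _ = 16 := by norm_num

/-- The far part of the flux. -/
theorem flux_far {q : ℝ} (hq : 3 < q) : ∃ C : ℝ, 0 < C ∧ ∀ (v : V → V), SPV v → ∀ (j : Fin 3)
    (c : ℝ) (k : ℕ), ∫⁻ x in cube ∩ Sb j c (rr (k + 1)), ‖v x j‖ₑ * Fa v j c (rr (k + 1)) x
      ≤ ENNReal.ofReal C * (Nb q v j c (rr (k + 1)) * ∑ i ∈ Finset.range k,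
        ENNReal.ofReal (rr (k + 1) ^ (1 - 1 / q) * rr i ^ (-1 - 2 / q)) * Ab v j c (rr i)) := by
  obtain ⟨C, hC, hb⟩ := far_b hq
  refine ⟨16 * C, by positivity, fun v hv j c k => ?_⟩
  set R := rr (k + 1) with hRdef
  have hR : 0 < R := rr_pos _
  set g : V → ℝ≥0∞ := (Sb j c R).indicator fun x => ‖v x j‖ₑ with hg
  set S : ℕ → Set V := fun i => Sb j c (rr i) \ Sb j c (rr (i + 1)) with hS
  have hSm : ∀ i, MeasurableSet (S i) := fun i => (Sb_meas j c _).diff (Sb_meas j c _)
  set H : ℕ → V → ℝ≥0∞ := fun i => (S i).indicator fun y => ENNReal.ofReal (nsq v y) with hH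
  have hnm : Measurable fun y => ENNReal.ofReal (nsq v y) :=
    (nsq_sm hv.1).continuous.measurable.ennreal_ofReal
  have hgm : Measurable g := (vj_meas hv j).indicator (Sb_meas j c R)
  have hHm : ∀ i, Measurable (H i) := fun i => hnm.indicator (hSm i)
  have hkm : Measurable fun z : V => ‖z‖ₑ ^ (-3 : ℝ) := by fun_prop
  have hHp : ∀ i, Per (H i) := by
    intro i l x
    have h1 : x + Pi.single l 1 ∈ S i ↔ x ∈ S i := by
      rw [hS]
      show (x + Pi.single l 1 ∈ Sb j c (rr i) ∧ ¬ (x + Pi.single l 1 ∈ Sb j c (rr (i + 1)))) ↔ _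
      rw [Sb_per, Sb_per]
      rfl
    by_cases h : x ∈ S i
    · rw [hH]
      simp only
      rw [indicator_of_mem h, indicator_of_mem (h1.2 h), nsq_per hv.2 l x]
    · rw [hH]
      simp only
      rw [indicator_of_notMem h, indicator_of_notMem (fun h' => h (h1.1 h'))]
  have e0 : ∀ x, Fa v j c R x
      ≤ ∑ i ∈ Finset.range k, ∫⁻ y in ball x (1 / 2), ‖y - x‖ₑ ^ (-3 : ℝ) * H i y := by
    intro x
    unfold Fa
    rw [← lintegral_finsetSum]
    · have hm2 : MeasurableSet (ball x (1 / 2) \ Sb j c (2 * R)) :=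
        measurableSet_ball.diff (Sb_meas j c _)
      refine (setLIntegral_mono' hm2 fun y hy => ?_).trans
        (lintegral_mono_set (sdiff_subset : ball x (1 / 2) \ Sb j c (2 * R) ⊆ ball x (1 / 2)))
      have h2R : 2 * R = rr k := by rw [hRdef, rr_succ]; ring
      have h1 : y ∉ Sb j c (rr k) := by rw [← h2R]; exact hy.2
      obtain ⟨i, hi, hiS⟩ := shell_ex k h1
      refine le_trans ?_ (Finset.single_le_sum (f := fun i => ‖y - x‖ₑ ^ (-3 : ℝ) * H i y)
        (fun _ _ => zero_le) (Finset.mem_range.2 hi))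
      rw [hH]
      simp only
      rw [indicator_of_mem hiS]
    · intro i _
      exact (hkm.comp (measurable_id.sub measurable_const)).mul (hHm i)
  have e1 : ∫⁻ x in cube ∩ Sb j c R, ‖v x j‖ₑ * Fa v j c R x
      ≤ ∑ i ∈ Finset.range k,
        ∫⁻ x in cube, g x * ∫⁻ y in ball x (1 / 2), ‖y - x‖ₑ ^ (-3 : ℝ) * H i y := by
    rw [cube_ind, ← lintegral_finsetSum']
    · refine lintegral_mono fun x => ?_
      rw [← Finset.mul_sum]
      by_cases hx : x ∈ Sb j c R
      · rw [hg, indicator_of_mem hx, indicator_of_mem hx]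
        gcongr
        exact e0 x
      · rw [hg, indicator_of_notMem hx, indicator_of_notMem hx, zero_mul]
    · intro i _
      refine (hgm.mul ?_).aemeasurable
      have h2 : Measurable (Function.uncurry fun (x y : V) =>
          (ball x (1 / 2)).indicator (fun y => ‖y - x‖ₑ ^ (-3 : ℝ) * H i y) y) := by
        have h3 : (Function.uncurry fun (x y : V) =>
            (ball x (1 / 2)).indicator (fun y => ‖y - x‖ₑ ^ (-3 : ℝ) * H i y) y)
            = ({p : V × V | dist p.2 p.1 < 1 / 2}).indicator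
              fun p => ‖p.2 - p.1‖ₑ ^ (-3 : ℝ) * H i p.2 := by
          funext p
          rfl
        rw [h3]
        refine Measurable.indicator ?_ ?_
        · exact (hkm.comp (measurable_snd.sub measurable_fst)).mul ((hHm i).comp measurable_snd)
        · exact measurableSet_lt (measurable_snd.dist measurable_fst) measurable_const
      have h4 : Measurable fun x => ∫⁻ y, (ball x (1 / 2)).indicator
          (fun y => ‖y - x‖ₑ ^ (-3 : ℝ) * H i y) y := h2.lintegral_prod_right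
      have h5 : (fun x => ∫⁻ y in ball x (1 / 2), ‖y - x‖ₑ ^ (-3 : ℝ) * H i y)
          = fun x => ∫⁻ y, (ball x (1 / 2)).indicator
            (fun y => ‖y - x‖ₑ ^ (-3 : ℝ) * H i y) y :=
        funext fun x => (lintegral_indicator measurableSet_ball _).symm
      rw [h5]
      exact h4
  refine e1.trans ?_
  rw [Finset.mul_sum, Finset.mul_sum]
  refine Finset.sum_le_sum fun i hi => ?_
  have hik : i < k := Finset.mem_range.1 hi
  rw [unf (k := fun z => ‖z‖ₑ ^ (-3 : ℝ)) hgm (hHm i) hkm (ind_per (vj_per hv j) j c R) (hHp i)]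
  have hri : 0 < rr i := rr_pos i
  have hRi : R ≤ rr i / 4 := by
    have h1 : rr (k + 1) ≤ rr (i + 1 + 1) := rr_anti (by omega)
    rw [rr_succ (i + 1), rr_succ i] at h1
    rw [hRdef]
    linarith
  have e3 : ∀ y, H i y * ∫⁻ x in ball y (1 / 2), ‖y - x‖ₑ ^ (-3 : ℝ) * g x
      ≤ H i y * (ENNReal.ofReal (C * (R ^ (1 - 1 / q) * (rr i / 4) ^ (-1 - 2 / q)))
        * Nb q v j c R) := by
    intro y
    by_cases hy : y ∈ S i
    · gcongr
      refine le_trans (le_of_eq ?_) (hb v hv j c R (rr i / 4) hR (by positivity) y fun x hx => ?_)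
      · rw [inter_comm (ball y (1 / 2)) (Sb j c R), ← setLIntegral_indicator (Sb_meas j c R)]
        refine lintegral_congr fun x => ?_
        by_cases hx : x ∈ Sb j c R
        · rw [hg, indicator_of_mem hx, indicator_of_mem hx]
        · rw [hg, indicator_of_notMem hx, indicator_of_notMem hx, mul_zero]
      · have h1 := Sb_dist hR (rr_pos (i + 1)) hx hy.2
        rw [rr_succ] at h1
        linarith
    · have : H i y = 0 := by
        rw [hH]
        simp only
        rw [indicator_of_notMem hy]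
      rw [this, zero_mul, zero_mul]
  calc ∫⁻ y in cube, H i y * ∫⁻ x in ball y (1 / 2), ‖y - x‖ₑ ^ (-3 : ℝ) * g x
      ≤ ∫⁻ y in cube, H i y * (ENNReal.ofReal (C * (R ^ (1 - 1 / q)
        * (rr i / 4) ^ (-1 - 2 / q))) * Nb q v j c R) := lintegral_mono e3
    _ = (∫⁻ y in cube, H i y) * (ENNReal.ofReal (C * (R ^ (1 - 1 / q)
        * (rr i / 4) ^ (-1 - 2 / q))) * Nb q v j c R) :=
        lintegral_mul_const _ (hHm i)
    _ ≤ Ab v j c (rr i) * (ENNReal.ofReal (16 * C * (R ^ (1 - 1 / q)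
        * rr i ^ (-1 - 2 / q))) * Nb q v j c R) := by
        refine mul_le_mul' ?_ (mul_le_mul' (ENNReal.ofReal_le_ofReal ?_) le_rfl)
        · unfold Ab
          rw [cube_ind]
          refine lintegral_mono fun y => ?_
          by_cases hy : y ∈ S i
          · rw [hH]
            simp only
            rw [indicator_of_mem hy, indicator_of_mem hy.1]
          · rw [hH]
            simp only
            rw [indicator_of_notMem hy]
            exact zero_le
        · have h9 := rpow_quarter hq hri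
          have h10 : 0 ≤ C * R ^ (1 - 1 / q) := by positivity
          calc C * (R ^ (1 - 1 / q) * (rr i / 4) ^ (-1 - 2 / q))
              = (C * R ^ (1 - 1 / q)) * (rr i / 4) ^ (-1 - 2 / q) := by ring
            _ ≤ (C * R ^ (1 - 1 / q)) * (16 * rr i ^ (-1 - 2 / q)) :=
                mul_le_mul_of_nonneg_left h9 h10
            _ = _ := by ring
    _ = _ := by
        rw [ENNReal.ofReal_mul (p := 16 * C) (by positivity)]
        ring

/-- The constant part of the flux. -/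
theorem flux_cst {q : ℝ} (hq : 3 < q) (v : V → V) (hv : SPV v) (j : Fin 3) (c : ℝ) {R : ℝ}
    (hR : 0 < R) : ∫⁻ x in cube ∩ Sb j c R, ‖v x j‖ₑ
      ≤ ENNReal.ofReal 8 * (ENNReal.ofReal (R ^ (1 - 1 / q)) * Nb q v j c R) := by
  obtain ⟨h1, h2⟩ := qc_lt hq
  have h := ENNReal.lintegral_mul_le_Lp_mul_Lq (volume.restrict (cube ∩ Sb j c R))
    (qc_conj hq) (f := fun _ => 1) (g := fun x => ‖v x j‖ₑ) aemeasurable_const
    (vj_meas hv j).aemeasurable
  have e1 : ∫⁻ x in cube ∩ Sb j c R, ‖v x j‖ₑ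
      = ∫⁻ x in cube ∩ Sb j c R, ((fun _ : V => (1 : ℝ≥0∞)) * fun x : V => ‖v x j‖ₑ) x := by
    refine lintegral_congr fun x => ?_
    simp
  rw [e1]
  refine h.trans ?_
  simp only [ENNReal.one_rpow, lintegral_const, one_mul, MeasurableSet.univ,
    Measure.restrict_apply, univ_inter]
  rw [← mul_assoc]
  have hq0 : 0 ≤ 1 / qc q := by positivity
  unfold Nb
  gcongr
  calc volume (cube ∩ Sb j c R) ^ (1 / qc q) ≤ (ENNReal.ofReal (8 * R)) ^ (1 / qc q) :=
        ENNReal.rpow_le_rpow (vol_slab j c hR) hq0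
    _ = ENNReal.ofReal (8 ^ (1 / qc q) * R ^ (1 - 1 / q)) := by
        rw [ENNReal.ofReal_rpow_of_nonneg (by positivity) hq0, Real.mul_rpow (by norm_num) hR.le,
          qc_inv hq]
    _ ≤ ENNReal.ofReal (8 * R ^ (1 - 1 / q)) := by
        gcongr
        calc (8 : ℝ) ^ (1 / qc q) ≤ 8 ^ (1 : ℝ) := by
              apply Real.rpow_le_rpow_of_exponent_le (by norm_num)
              rw [div_le_one (by linarith)]
              exact h1.le
          _ = 8 := Real.rpow_one 8
    _ = _ := ENNReal.ofReal_mul (by norm_num)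

/-- The flux at a fixed time. -/
theorem flux0 {q : ℝ} (hq : 3 < q) : ∃ C : ℝ, 0 < C ∧ ∀ (v : V → V) (p : V → ℝ), SPV v →
    (∀ x, ∑ i, pd i (fun y => v y i) x = 0) → SP p → (∀ x, -lap p x = ddq v x) →
    ∀ (j : Fin 3) (c : ℝ) (k : ℕ),
      ∫⁻ x in cube ∩ Sb j c (rr (k + 1)), ‖v x j‖ₑ * (ENNReal.ofReal (nsq v x) + 2 * ‖pz p x‖ₑ)
      ≤ ENNReal.ofReal C * (Nb q v j c (rr (k + 1))
        * (ENNReal.ofReal (rr (k + 1) ^ (1 - 3 / q))
            * (∫⁻ y in cube ∩ Sb j c (4 * rr (k + 1)), ENNReal.ofReal (H1 v (rr (k + 1)) y))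
          + (∑ i ∈ Finset.range k,
            ENNReal.ofReal (rr (k + 1) ^ (1 - 1 / q) * rr i ^ (-1 - 2 / q)) * Ab v j c (rr i))
          + ENNReal.ofReal (rr (k + 1) ^ (1 - 1 / q)) * ENNReal.ofReal (energy v))) := by
  obtain ⟨C0, hC0, hptw⟩ := ptw
  obtain ⟨C1, hC1, hn⟩ := flux_near hq
  obtain ⟨C2, hC2, hf⟩ := flux_far hq
  refine ⟨3 * C0 * (C1 + C2 + 8), by positivity, fun v p hv hdiv hp heq j c k => ?_⟩
  set R := rr (k + 1) with hRdef
  have hR : 0 < R := rr_pos _
  have hE := energy_eq hv.1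
  set Ev := ENNReal.ofReal (energy v) with hEv
  have hpt : ∀ x ∈ cube ∩ Sb j c R, ‖v x j‖ₑ * (ENNReal.ofReal (nsq v x) + 2 * ‖pz p x‖ₑ)
      ≤ ENNReal.ofReal (3 * C0) * (‖v x j‖ₑ * Nr v j c R x + ‖v x j‖ₑ * Fa v j c R x
        + ‖v x j‖ₑ * Ev) := by
    intro x hx
    obtain ⟨h1, h2⟩ := hptw v p hv hdiv hp heq j c R hR x
    have h3 := h2 (Sb_mono hR.le (by linarith) hx.2)
    calc ‖v x j‖ₑ * (ENNReal.ofReal (nsq v x) + 2 * ‖pz p x‖ₑ)
        ≤ ‖v x j‖ₑ * (ENNReal.ofReal C0 * (Nr v j c R x + Ev)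
          + 2 * (ENNReal.ofReal C0 * (Nr v j c R x + Fa v j c R x + Ev))) := by gcongr
      _ ≤ ‖v x j‖ₑ * (ENNReal.ofReal C0 * (Nr v j c R x + Fa v j c R x + Ev)
          + 2 * (ENNReal.ofReal C0 * (Nr v j c R x + Fa v j c R x + Ev))) := by
          gcongr
          exact le_self_add
      _ = _ := by
          rw [ENNReal.ofReal_mul (p := 3) (by norm_num), show ENNReal.ofReal 3 = 3 by norm_num]
          ring
  have hSm : MeasurableSet (cube ∩ Sb j c R) := cube_meas.inter (Sb_meas j c R)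
  refine (setLIntegral_mono' hSm hpt).trans ?_
  rw [lintegral_const_mul' _ _ ENNReal.ofReal_ne_top]
  have hadd : ∫⁻ x in cube ∩ Sb j c R, (‖v x j‖ₑ * Nr v j c R x + ‖v x j‖ₑ * Fa v j c R x
        + ‖v x j‖ₑ * Ev) = (∫⁻ x in cube ∩ Sb j c R, (‖v x j‖ₑ * Nr v j c R x
          + ‖v x j‖ₑ * Fa v j c R x)) + ∫⁻ x in cube ∩ Sb j c R, ‖v x j‖ₑ * Ev :=
    lintegral_add_right _ ((vj_meas hv j).mul_const _)
  rw [hadd]
  have hNm : Measurable fun x => ‖v x j‖ₑ * Nr v j c R x := by
    refine (vj_meas hv j).mul ?_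
    have h2 : Measurable (Function.uncurry fun (x y : V) =>
        (ball x (1 / 2) ∩ Sb j c (4 * R)).indicator (fun y => ‖y - x‖ₑ ^ (-2 : ℝ)
          * ENNReal.ofReal (H1 v R y)) y) := by
      have h3 : (Function.uncurry fun (x y : V) =>
          (ball x (1 / 2) ∩ Sb j c (4 * R)).indicator (fun y => ‖y - x‖ₑ ^ (-2 : ℝ)
            * ENNReal.ofReal (H1 v R y)) y)
          = ({p : V × V | dist p.2 p.1 < 1 / 2} ∩ {p : V × V | p.2 ∈ Sb j c (4 * R)}).indicator
            fun p => ‖p.2 - p.1‖ₑ ^ (-2 : ℝ) * ENNReal.ofReal (H1 v R p.2) := by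
        funext p
        rfl
      rw [h3]
      refine Measurable.indicator ?_ ?_
      · have hkm : Measurable fun z : V => ‖z‖ₑ ^ (-2 : ℝ) := by fun_prop
        exact (hkm.comp (measurable_snd.sub measurable_fst)).mul
          (((H1_ct hv.1 R).measurable.ennreal_ofReal).comp measurable_snd)
      · exact (measurableSet_lt (measurable_snd.dist measurable_fst) measurable_const).inter
          (measurable_snd (Sb_meas j c (4 * R)))
    have h4 : Measurable fun x => ∫⁻ y, (ball x (1 / 2) ∩ Sb j c (4 * R)).indicator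
        (fun y => ‖y - x‖ₑ ^ (-2 : ℝ) * ENNReal.ofReal (H1 v R y)) y := h2.lintegral_prod_right
    have h5 : Nr v j c R = fun x => ∫⁻ y, (ball x (1 / 2) ∩ Sb j c (4 * R)).indicator
        (fun y => ‖y - x‖ₑ ^ (-2 : ℝ) * ENNReal.ofReal (H1 v R y)) y :=
      funext fun x => (lintegral_indicator (measurableSet_ball.inter (Sb_meas j c _)) _).symm
    rw [h5]
    exact h4
  rw [lintegral_add_left hNm, lintegral_mul_const _ (vj_meas hv j)]
  have a1 := hn v hv j c R hR
  have a2 := hf v hv j c k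
  rw [← hRdef] at a2
  have a3 := flux_cst hq v hv j c hR
  set X := ENNReal.ofReal (R ^ (1 - 3 / q)) with hX
  set HI := ∫⁻ y in cube ∩ Sb j c (4 * R), ENNReal.ofReal (H1 v R y)
  set SS := ∑ i ∈ Finset.range k,
            ENNReal.ofReal (R ^ (1 - 1 / q) * rr i ^ (-1 - 2 / q)) * Ab v j c (rr i)
  set N := Nb q v j c R
  set Y := ENNReal.ofReal (R ^ (1 - 1 / q))
  have b1 : ENNReal.ofReal C1 ≤ ENNReal.ofReal (C1 + C2 + 8) :=
    ENNReal.ofReal_le_ofReal (by linarith)
  have b2 : ENNReal.ofReal C2 ≤ ENNReal.ofReal (C1 + C2 + 8) :=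
    ENNReal.ofReal_le_ofReal (by linarith)
  have b3 : ENNReal.ofReal 8 ≤ ENNReal.ofReal (C1 + C2 + 8) :=
    ENNReal.ofReal_le_ofReal (by linarith)
  calc ENNReal.ofReal (3 * C0) * ((∫⁻ x in cube ∩ Sb j c R, ‖v x j‖ₑ * Nr v j c R x)
        + (∫⁻ x in cube ∩ Sb j c R, ‖v x j‖ₑ * Fa v j c R x)
        + (∫⁻ x in cube ∩ Sb j c R, ‖v x j‖ₑ) * Ev)
      ≤ ENNReal.ofReal (3 * C0) * (ENNReal.ofReal (C1 + C2 + 8) * (X * N * HI)
        + ENNReal.ofReal (C1 + C2 + 8) * (N * SS)
        + (ENNReal.ofReal (C1 + C2 + 8) * (Y * N)) * Ev) := by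
        gcongr
        · exact a1.trans (mul_le_mul_left b1 _)
        · exact a2.trans (mul_le_mul_left b2 _)
        · exact a3.trans (mul_le_mul_left b3 _)
    _ = _ := by
        rw [ENNReal.ofReal_mul (p := 3 * C0) (by positivity)]
        ring

end

end Pool.Agent.Helper30K1
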