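import Pool.Agent.Helper30K1.Ptw

/-!
One velocity component (helper30): estimates of the flux at a fixed time.
-/

set_option autoImplicit false

open MeasureTheory Set Metric Filter Topology
open scoped ContDiff ENNReal

namespace Pool.Agent.Helper30K1

open H459R3.NS W221.NS Pool.Agent.Y8

/-- Exchange of two integrals over a cell and over balls. -/
theorem unf {g H k : V → ℝ≥0∞} (hg : Measurable g) (hH : Measurable H) (hk : Measurable k)
    (hgp : Per g) (hHp : Per H) :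
    ∫⁻ x in cube, g x * ∫⁻ y in ball x (1 / 2), k (y - x) * H y
      = ∫⁻ y in cube, H y * ∫⁻ x in ball y (1 / 2), k (y - x) * g x := by
  have hb : MeasurableSet (ball (0 : V) (1 / 2)) := measurableSet_ball
  have e1 : ∀ x, ∫⁻ y in ball x (1 / 2), k (y - x) * H y
      = ∫⁻ z in ball (0 : V) (1 / 2), k z * H (x + z) := by
    intro x
    rw [← lintegral_indicator measurableSet_ball, ← lintegral_indicator hb,
      ← lintegral_add_left_eq_self _ x]
    refine lintegral_congr fun z => ?_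
    by_cases hz : z ∈ ball (0 : V) (1 / 2)
    · have : x + z ∈ ball x (1 / 2) := by
        rw [mem_ball, dist_eq_norm] at *
        simpa using hz
      rw [indicator_of_mem hz, indicator_of_mem this, add_sub_cancel_left]
    · have : x + z ∉ ball x (1 / 2) := by
        rw [mem_ball, dist_eq_norm] at *
        simpa using hz
      rw [indicator_of_notMem hz, indicator_of_notMem this]
  have e2 : ∀ y, ∫⁻ x in ball y (1 / 2), k (y - x) * g x
      = ∫⁻ z in ball (0 : V) (1 / 2), k z * g (y - z) := by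
    intro y
    rw [← lintegral_indicator measurableSet_ball, ← lintegral_indicator hb,
      ← lintegral_sub_left_eq_self _ y]
    refine lintegral_congr fun z => ?_
    by_cases hz : z ∈ ball (0 : V) (1 / 2)
    · have : y - z ∈ ball y (1 / 2) := by
        rw [mem_ball, dist_eq_norm] at *
        simpa using hz
      rw [indicator_of_mem hz, indicator_of_mem this, sub_sub_cancel]
    · have : y - z ∉ ball y (1 / 2) := by
        rw [mem_ball, dist_eq_norm] at *
        simpa using hz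
      rw [indicator_of_notMem hz, indicator_of_notMem this]
  simp_rw [e1, e2]
  have e3 : ∀ x, g x * ∫⁻ z in ball (0 : V) (1 / 2), k z * H (x + z)
      = ∫⁻ z in ball (0 : V) (1 / 2), g x * (k z * H (x + z)) := by
    intro x
    rw [lintegral_const_mul]
    exact hk.mul (hH.comp (measurable_const.add measurable_id))
  have e4 : ∀ y, H y * ∫⁻ z in ball (0 : V) (1 / 2), k z * g (y - z)
      = ∫⁻ z in ball (0 : V) (1 / 2), H y * (k z * g (y - z)) := by
    intro x
    rw [lintegral_const_mul]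
    exact hk.mul (hg.comp (measurable_const.sub measurable_id))
  simp_rw [e3, e4]
  rw [lintegral_lintegral_swap, lintegral_lintegral_swap (f := fun y z => H y * (k z * g (y - z)))]
  · refine lintegral_congr fun z => ?_
    have e5 : ∀ x, g x * (k z * H (x + z)) = (fun y => H y * (k z * g (y - z))) (z + x) := by
      intro x
      show _ = H (z + x) * (k z * g (z + x - z))
      rw [add_sub_cancel_left, add_comm z x]
      ring
    simp_rw [e5]
    refine lcube_shift (f := fun y => H y * (k z * g (y - z))) ?_ z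
    intro i x
    show H _ * (k z * g _) = _
    rw [hHp i x, show x + Pi.single i 1 - z = (x - z) + Pi.single i 1 by abel, hgp i (x - z)]
  · exact ((hH.comp measurable_fst).mul ((hk.comp measurable_snd).mul
      (hg.comp (measurable_fst.sub measurable_snd)))).aemeasurable
  · exact ((hg.comp measurable_fst).mul ((hk.comp measurable_snd).mul
      (hH.comp (measurable_fst.add measurable_snd)))).aemeasurable

/-- The energy in the slab. -/
noncomputable def Ab (v : V → V) (j : Fin 3) (c R : ℝ) : ℝ≥0∞ :=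
  ∫⁻ x in cube ∩ Sb j c R, ENNReal.ofReal (nsq v x)

/-- The dissipation in the slab. -/
noncomputable def Bb (v : V → V) (j : Fin 3) (c R : ℝ) : ℝ≥0∞ :=
  ∫⁻ x in cube ∩ Sb j c R, ENNReal.ofReal (gsq v x)

/-- The norm of the component in the slab. -/
noncomputable def Nb (q : ℝ) (v : V → V) (j : Fin 3) (c R : ℝ) : ℝ≥0∞ :=
  (∫⁻ x in cube ∩ Sb j c R, ‖v x j‖ₑ ^ q) ^ (1 / q)

theorem mem_Sb {j : Fin 3} {c R : ℝ} {x : V} : x ∈ Sb j c R ↔ Qf c (x j) < R ^ 2 := Iff.rfl

theorem Sb_per (j : Fin 3) (c R : ℝ) {x : V} (i : Fin 3) :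
    x + Pi.single i 1 ∈ Sb j c R ↔ x ∈ Sb j c R := by
  rw [mem_Sb, mem_Sb]
  by_cases h : j = i
  · subst h
    rw [Pi.add_apply, Pi.single_eq_same, Qf_per]
  · rw [Pi.add_apply, Pi.single_eq_of_ne h, add_zero]

theorem ind_per {f : V → ℝ≥0∞} (hf : Per f) (j : Fin 3) (c R : ℝ) :
    Per ((Sb j c R).indicator f) := by
  intro i x
  by_cases h : x ∈ Sb j c R
  · rw [indicator_of_mem h, indicator_of_mem ((Sb_per j c R i).2 h), hf i x]
  · rw [indicator_of_notMem h, indicator_of_notMem (fun h' => h ((Sb_per j c R i).1 h'))]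

theorem cube_ind (f : V → ℝ≥0∞) (j : Fin 3) (c R : ℝ) :
    ∫⁻ x in cube ∩ Sb j c R, f x = ∫⁻ x in cube, (Sb j c R).indicator f x := by
  rw [inter_comm cube (Sb j c R)]
  exact (setLIntegral_indicator (Sb_meas j c R) f).symm

theorem ball_ind {f : V → ℝ≥0∞} (hf : Per f) (j : Fin 3) (c R : ℝ) (y : V) :
    ∫⁻ x in ball y (1 / 2) ∩ Sb j c R, f x = ∫⁻ x in cube ∩ Sb j c R, f x := by
  rw [cube_ind, ← lball_cube (ind_per hf j c R) y, inter_comm (ball y (1 / 2)) (Sb j c R)]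
  exact (setLIntegral_indicator (Sb_meas j c R) f).symm

theorem ofReal_pow_help {C R a b : ℝ} (hC : 0 ≤ C) (hR : 0 < R) (hb : 0 ≤ b) :
    (ENNReal.ofReal (C * R ^ a)) ^ b = ENNReal.ofReal (C ^ b * R ^ (a * b)) := by
  rw [ENNReal.ofReal_rpow_of_nonneg (by positivity) hb, Real.mul_rpow hC (by positivity),
    ← Real.rpow_mul hR.le]

/-- The exponent conjugate to `q`. -/
noncomputable def qc (q : ℝ) : ℝ := q / (q - 1)

theorem qc_conj {q : ℝ} (hq : 3 < q) : (qc q).HolderConjugate q := by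
  rw [Real.holderConjugate_comm, Real.holderConjugate_iff]
  refine ⟨by linarith, ?_⟩
  unfold qc
  have : q - 1 ≠ 0 := by linarith
  have : q ≠ 0 := by linarith
  field_simp
  ring

theorem qc_inv {q : ℝ} (hq : 3 < q) : 1 / qc q = 1 - 1 / q := by
  unfold qc
  have : q - 1 ≠ 0 := by linarith
  have : q ≠ 0 := by linarith
  field_simp

theorem qc_lt {q : ℝ} (hq : 3 < q) : 1 < qc q ∧ qc q < 3 / 2 := by
  unfold qc
  have h1 : 0 < q - 1 := by linarith
  constructor
  · rw [lt_div_iff₀ h1]; linarith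
  · rw [div_lt_iff₀ h1]; linarith

theorem holder_b {q : ℝ} (hq : 3 < q) {v : V → V} (hv : SPV v) (j : Fin 3) (c R : ℝ) (y : V)
    {k : V → ℝ≥0∞} (hk : Measurable k) :
    ∫⁻ x in ball y (1 / 2) ∩ Sb j c R, k x * ‖v x j‖ₑ
      ≤ (∫⁻ x in ball y (1 / 2) ∩ Sb j c R, k x ^ qc q) ^ (1 / qc q) * Nb q v j c R := by
  have hvm : Measurable fun x => ‖v x j‖ₑ := (contDiff_pi.1 hv.1 j).continuous.enorm.measurable
  have h := ENNReal.lintegral_mul_le_Lp_mul_Lq (volume.restrict (ball y (1 / 2) ∩ Sb j c R))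
    (qc_conj hq) hk.aemeasurable hvm.aemeasurable
  refine h.trans (le_of_eq ?_)
  unfold Nb
  rw [ball_ind (f := fun x => ‖v x j‖ₑ ^ q) (fun i x => by
    show ‖v (x + Pi.single i 1) j‖ₑ ^ q = _
    rw [hv.2 i x])]

/-- The near kernel against the component. -/
theorem near_b {q : ℝ} (hq : 3 < q) : ∃ C : ℝ, 0 < C ∧ ∀ (v : V → V), SPV v → ∀ (j : Fin 3)
    (c R : ℝ), 0 < R → ∀ y, ∫⁻ x in ball y (1 / 2) ∩ Sb j c R, ‖y - x‖ₑ ^ (-2 : ℝ) * ‖v x j‖ₑ
      ≤ ENNReal.ofReal (C * R ^ (1 - 3 / q)) * Nb q v j c R := by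
  obtain ⟨h1, h2⟩ := qc_lt hq
  obtain ⟨C, hC, hn⟩ := nearS (a := 2 * qc q) (by linarith) (by linarith)
  refine ⟨C ^ (1 / qc q), by positivity, fun v hv j c R hR y => ?_⟩
  have hkm : Measurable fun x : V => ‖y - x‖ₑ ^ (-2 : ℝ) := by fun_prop
  refine (holder_b hq hv j c R y hkm).trans ?_
  gcongr
  have e1 : ∫⁻ x in ball y (1 / 2) ∩ Sb j c R, (‖y - x‖ₑ ^ (-2 : ℝ)) ^ qc q
      ≤ ENNReal.ofReal (C * R ^ (3 - 2 * qc q)) := by
    refine le_trans (le_of_eq ?_) (hn j c y R hR)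
    have : ball y (1 / 2) ∩ Sb j c R = {x : V | ‖x - y‖ < 1 / 2 ∧ x ∈ Sb j c R} := by
      ext x
      rw [mem_inter_iff, mem_ball, dist_eq_norm]
      rfl
    rw [this]
    refine lintegral_congr fun x => ?_
    rw [← ENNReal.rpow_mul, enorm_sub_rev]
    congr 1
    ring
  have hq0 : 0 ≤ 1 / qc q := by positivity
  calc (∫⁻ x in ball y (1 / 2) ∩ Sb j c R, (‖y - x‖ₑ ^ (-2 : ℝ)) ^ qc q) ^ (1 / qc q)
      ≤ (ENNReal.ofReal (C * R ^ (3 - 2 * qc q))) ^ (1 / qc q) := ENNReal.rpow_le_rpow e1 hq0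
    _ = ENNReal.ofReal (C ^ (1 / qc q) * R ^ (1 - 3 / q)) := by
        rw [ofReal_pow_help hC.le hR hq0]
        congr 3
        have h3 := qc_inv hq
        have h4 : qc q ≠ 0 := by linarith
        have : (3 - 2 * qc q) * (1 / qc q) = 3 * (1 / qc q) - 2 := by
          field_simp
        rw [this, h3]
        ring

/-- The far kernel against the component. -/
theorem far_b {q : ℝ} (hq : 3 < q) : ∃ C : ℝ, 0 < C ∧ ∀ (v : V → V), SPV v → ∀ (j : Fin 3)
    (c R ρ : ℝ), 0 < R → 0 < ρ → ∀ y, (∀ x ∈ Sb j c R, ρ ≤ ‖x - y‖) →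
      ∫⁻ x in ball y (1 / 2) ∩ Sb j c R, ‖y - x‖ₑ ^ (-3 : ℝ) * ‖v x j‖ₑ
        ≤ ENNReal.ofReal (C * (R ^ (1 - 1 / q) * ρ ^ (-1 - 2 / q))) * Nb q v j c R := by
  obtain ⟨h1, h2⟩ := qc_lt hq
  obtain ⟨C, hC, hn⟩ := farS (b := 3 * qc q) (by linarith)
  refine ⟨C ^ (1 / qc q), by positivity, fun v hv j c R ρ hR hρ y hy => ?_⟩
  have hkm : Measurable fun x : V => ‖y - x‖ₑ ^ (-3 : ℝ) := by fun_prop
  refine (holder_b hq hv j c R y hkm).trans ?_
  gcongr
  have e1 : ∫⁻ x in ball y (1 / 2) ∩ Sb j c R, (‖y - x‖ₑ ^ (-3 : ℝ)) ^ qc q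
      ≤ ENNReal.ofReal (C * (R * ρ ^ (2 - 3 * qc q))) := by
    refine le_trans (le_of_eq ?_) (hn j c y R ρ hR hρ)
    have : ball y (1 / 2) ∩ Sb j c R
        = {x : V | ρ ≤ ‖x - y‖ ∧ ‖x - y‖ < 1 / 2 ∧ x ∈ Sb j c R} := by
      ext x
      rw [mem_inter_iff, mem_ball, dist_eq_norm]
      constructor
      · rintro ⟨h3, h4⟩
        exact ⟨hy x h4, h3, h4⟩
      · rintro ⟨-, h3, h4⟩
        exact ⟨h3, h4⟩
    rw [this]
    refine lintegral_congr fun x => ?_
    rw [← ENNReal.rpow_mul, enorm_sub_rev]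
    congr 1
    ring
  have hq0 : 0 ≤ 1 / qc q := by positivity
  calc (∫⁻ x in ball y (1 / 2) ∩ Sb j c R, (‖y - x‖ₑ ^ (-3 : ℝ)) ^ qc q) ^ (1 / qc q)
      ≤ (ENNReal.ofReal (C * (R * ρ ^ (2 - 3 * qc q)))) ^ (1 / qc q) :=
        ENNReal.rpow_le_rpow e1 hq0
    _ = ENNReal.ofReal (C ^ (1 / qc q) * (R ^ (1 - 1 / q) * ρ ^ (-1 - 2 / q))) := by
        rw [ENNReal.ofReal_rpow_of_nonneg (by positivity) hq0, Real.mul_rpow hC.le (by positivity),
          Real.mul_rpow hR.le (by positivity), ← Real.rpow_mul hρ.le]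
        have h3 := qc_inv hq
        have h4 : qc q ≠ 0 := by linarith
        have : (2 - 3 * qc q) * (1 / qc q) = 2 * (1 / qc q) - 3 := by
          field_simp
        rw [this, h3]
        congr 4
        ring

theorem sqrtQ_lip (c s t : ℝ) : |√(Qf c s) - √(Qf c t)| ≤ |s - t| := by
  have h1 : ∀ s, √(Qf c s) = |Real.sin (Real.pi * (s - c))| / Real.pi := by
    intro s
    unfold Qf
    rw [Real.sqrt_div (sq_nonneg _), Real.sqrt_sq_eq_abs, Real.sqrt_sq Real.pi_pos.le]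
  rw [h1, h1, ← sub_div, abs_div, abs_of_pos Real.pi_pos, div_le_iff₀ Real.pi_pos]
  refine (abs_abs_sub_abs_le_abs_sub _ _).trans ?_
  have h2 := Real.lipschitzWith_sin.dist_le_mul (Real.pi * (s - c)) (Real.pi * (t - c))
  rw [Real.dist_eq, Real.dist_eq] at h2
  refine h2.trans (le_of_eq ?_)
  have : Real.pi * (s - c) - Real.pi * (t - c) = (s - t) * Real.pi := by ring
  rw [this, abs_mul, abs_of_pos Real.pi_pos]
  simp

theorem Sb_dist {j : Fin 3} {c R R' : ℝ} (hR : 0 < R) (hR' : 0 < R') {x y : V}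
    (hx : x ∈ Sb j c R) (hy : y ∉ Sb j c R') : R' - R ≤ ‖x - y‖ := by
  have hx' : Qf c (x j) < R ^ 2 := hx
  have hy' : R' ^ 2 ≤ Qf c (y j) := not_lt.1 hy
  have h1 : √(Qf c (x j)) ≤ R := by
    rw [show R = √(R ^ 2) by rw [Real.sqrt_sq hR.le]]
    exact Real.sqrt_le_sqrt hx'.le
  have h2 : R' ≤ √(Qf c (y j)) := by
    rw [show R' = √(R' ^ 2) by rw [Real.sqrt_sq hR'.le]]
    exact Real.sqrt_le_sqrt hy'
  have h3 := sqrtQ_lip c (x j) (y j)
  have h4 := norm_le_pi_norm (x - y) j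
  rw [Pi.sub_apply, Real.norm_eq_abs] at h4
  have h5 := neg_le_of_abs_le (h3.trans h4)
  linarith

end Pool.Agent.Helper30K1
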