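import Pool.Agent.H459R3.NS.High
import Pool.Agent.Helper30K1.En1

/-!
One velocity component (helper30): the smooth part of the pressure is bounded by the energy.
-/

set_option autoImplicit false

open MeasureTheory Set Metric Filter Topology
open scoped ContDiff ENNReal

namespace Pool.Agent.Helper30K1

open H459R3.NS W221.NS Pool.Agent.Y8

/-- The integral of `f` against a character over the whole space. -/
noncomputable def If (f : V → ℝ) (k : K3) : ℂ := ∫ z, f z • ee k z

theorem If_int {f : V → ℝ} (hf : Continuous f) (hc : HasCompactSupport f) (k : K3) :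
    Integrable fun z => f z • ee k z :=
  (hf.smul (ee_continuous k)).integrable_of_hasCompactSupport hc.smul_right

theorem If_pd {f : V → ℝ} (hf : ContDiff ℝ ∞ f) (hc : HasCompactSupport f) (k : K3) (i : Fin 3) :
    If (pd i f) k = -(2 * Real.pi * Complex.I * (k i : ℂ)) * If f k := by
  have hc' : HasCompactSupport (pd i f) := Pool.Agent.W583.MD.cs_pd hc i
  have hf' := Pool.Agent.W583.MD.sm_pd hf i
  have hpe : ∀ z, fderiv ℝ (ee k) z (Pi.single i 1) = 2 * Real.pi * Complex.I * (k i : ℂ) * ee k z :=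
    fun z => pd_ee k i z
  have h := integral_smul_fderiv_eq_neg_fderiv_smul_of_integrable (𝕜 := ℝ)
    (μ := (volume : Measure V)) (f := f) (g := ee k) (v := Pi.single i 1)
    (If_int hf'.continuous hc' k) (by
      simp_rw [hpe]
      have : (fun z => f z • (2 * Real.pi * Complex.I * (k i : ℂ) * ee k z))
          = fun z => (2 * Real.pi * Complex.I * (k i : ℂ)) * (f z • ee k z) := by
        funext z
        rw [Complex.real_smul, Complex.real_smul]
        ring
      rw [this]
      exact (If_int hf.continuous hc k).const_mul _)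
    (If_int hf.continuous hc k) (fun x _ => hf.differentiable (by simp) x)
    (fun x _ => (ee_contDiff k (n := 1)).differentiable one_ne_zero x)
  unfold If
  have e1 : ∫ z, pd i f z • ee k z = -∫ z, f z • fderiv ℝ (ee k) z (Pi.single i 1) := by
    rw [h, neg_neg]
    rfl
  rw [e1]
  simp_rw [hpe]
  have : ∀ z, f z • (2 * Real.pi * Complex.I * (k i : ℂ) * ee k z)
      = (2 * Real.pi * Complex.I * (k i : ℂ)) * (f z • ee k z) := by
    intro z
    rw [Complex.real_smul, Complex.real_smul]
    ring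
  simp_rw [this]
  rw [integral_const_mul]
  ring

theorem lap_sm {f : V → ℝ} (hf : ContDiff ℝ ∞ f) : ContDiff ℝ ∞ (lap f) := by
  unfold lap
  exact ContDiff.sum fun i _ => Pool.Agent.W583.MD.sm_pd (Pool.Agent.W583.MD.sm_pd hf i) i

theorem lap_cs {f : V → ℝ} (hc : HasCompactSupport f) : HasCompactSupport (lap f) := by
  refine HasCompactSupport.of_support_subset_isCompact hc.isCompact fun x hx => ?_
  by_contra hcon
  apply hx
  unfold lap
  refine Finset.sum_eq_zero fun i _ => ?_
  have h1 : tsupport (pd i (pd i f)) ⊆ tsupport f := by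
    refine (tsupport_fderiv_apply_subset ℝ (Pi.single i 1)).trans ?_
    exact tsupport_fderiv_apply_subset ℝ (Pi.single i 1)
  exact image_eq_zero_of_notMem_tsupport fun h => hcon (h1 h)

theorem If_lap {f : V → ℝ} (hf : ContDiff ℝ ∞ f) (hc : HasCompactSupport f) (k : K3) :
    If (lap f) k = -(((2 * Real.pi) ^ 2 * ∑ j, (k j : ℝ) ^ 2 : ℝ) : ℂ) * If f k := by
  have h1 : If (lap f) k = ∑ i, If (pd i (pd i f)) k := by
    unfold If lap
    simp_rw [Finset.sum_smul]
    rw [integral_finsetSum]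
    intro i _
    exact If_int (Pool.Agent.W583.MD.sm_pd (Pool.Agent.W583.MD.sm_pd hf i) i).continuous
      (Pool.Agent.W583.MD.cs_pd (Pool.Agent.W583.MD.cs_pd hc i) i) k
  rw [h1]
  push_cast
  rw [Finset.mul_sum, ← Finset.sum_neg_distrib, Finset.sum_mul]
  refine Finset.sum_congr rfl fun i _ => ?_
  rw [If_pd (Pool.Agent.W583.MD.sm_pd hf i) (Pool.Agent.W583.MD.cs_pd hc i), If_pd hf hc]
  have := Complex.I_sq
  linear_combination ((2 * Real.pi : ℂ) ^ 2 * (k i : ℂ) ^ 2 * If f k) * this

theorem N_le_sum (k : K3) : (N k : ℝ) ^ 2 ≤ (2 * Real.pi) ^ 2 * ∑ j, (k j : ℝ) ^ 2 := by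
  have a1 := N_sq_le k
  have a2 : (1 : ℝ) ≤ (2 * Real.pi) ^ 2 := by nlinarith [Real.pi_gt_three]
  have a3 : (0 : ℝ) ≤ ∑ j, (k j : ℝ) ^ 2 := by positivity
  nlinarith

/-- Decay of the integrals against characters. -/
theorem If_decay {f : V → ℝ} (hf : ContDiff ℝ ∞ f) (hs : ∀ z ∉ ball (0 : V) 1, f z = 0) {K : ℝ}
    (hK : ∀ z, |lap (lap f) z| ≤ K) (k : K3) : (N k : ℝ) ^ 4 * ‖If f k‖ ≤ 8 * K := by
  have hc : HasCompactSupport f := hcsR hs
  have h1 : If (lap (lap f)) k = (((2 * Real.pi) ^ 2 * ∑ j, (k j : ℝ) ^ 2 : ℝ) : ℂ) ^ 2 * If f k := by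
    rw [If_lap (lap_sm hf) (lap_cs hc), If_lap hf hc]
    ring
  have hK0 : 0 ≤ K := (abs_nonneg _).trans (hK 0)
  have h2 : ‖If (lap (lap f)) k‖ ≤ 8 * K := by
    have hz : ∀ z ∉ ball (0 : V) 1, lap (lap f) z • ee k z = 0 := by
      intro z hz
      rw [lap_zero' (lap_sm hf) one_pos (fun z hz => lap_zero' hf one_pos hs hz) hz, zero_smul]
    unfold If
    rw [← setIntegral_eq_integral_of_forall_compl_eq_zero hz]
    refine (norm_setIntegral_le_of_norm_le_const (C := K) measure_ball_lt_top ?_).trans ?_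
    · intro z _
      rw [norm_smul, norm_ee, mul_one]
      exact hK z
    · rw [measureReal_def, Real.volume_pi_ball _ one_pos, ENNReal.toReal_ofReal (by positivity)]
      simp only [Fintype.card_fin]
      nlinarith
  rw [h1, norm_mul, norm_pow, Complex.norm_real, Real.norm_eq_abs,
    abs_of_nonneg (by positivity)] at h2
  refine le_trans ?_ h2
  have h3 := N_le_sum k
  calc (N k : ℝ) ^ 4 * ‖If f k‖ = ((N k : ℝ) ^ 2) ^ 2 * ‖If f k‖ := by ring
    _ ≤ _ := by gcongr

section

variable {v : V → V} {q : V → ℝ}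

theorem fr_prod_le (hv : SPV v) (i l : Fin 3) (k : K3) :
    ‖fr (fun y => v y i * v y l) k‖ ≤ energy v := by
  have hc : ∀ i, Continuous fun x => v x i := fun i => (contDiff_pi.1 hv.1 i).continuous
  unfold fr fc
  refine (norm_integral_le_integral_norm _).trans ?_
  rw [energy_eq hv.1]
  refine setIntegral_mono_on ?_ (cube_int (nsq_sm hv.1).continuous) cube_meas fun x _ => ?_
  · refine integrableOn_cube ?_
    have : Continuous fun x => ((v x i * v x l : ℝ) : ℂ) :=
      Complex.continuous_ofReal.comp ((hc i).mul (hc l))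
    exact ((ee_continuous _).mul this).norm
  · rw [norm_mul, norm_ee, one_mul, Complex.norm_real, Real.norm_eq_abs, abs_mul]
    have h1 := abs_comp_le v x i
    have h2 := abs_comp_le v x l
    calc |v x i| * |v x l| ≤ √(nsq v x) * √(nsq v x) :=
          mul_le_mul h1 h2 (abs_nonneg _) (Real.sqrt_nonneg _)
      _ = nsq v x := Real.mul_self_sqrt (nsq_nn v x)

theorem N_comp (k : K3) (i : Fin 3) : |(k i : ℝ)| ≤ N k := by
  have h := (N_le_iff k (N k)).1 le_rfl i
  exact_mod_cast h

/-- The Fourier coefficients of the pressure. -/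
theorem fr_press (hv : SPV v) (hq : SP q) (heq : ∀ x, -lap q x = ddq v x) {k : K3} (hk : k ≠ 0) :
    ‖fr q k‖ ≤ 9 * energy v := by
  have hsp : ∀ i, SP fun y => v y i := fun i => ⟨contDiff_pi.1 hv.1 i, comp_per hv.2 i⟩
  have hE : 0 ≤ energy v := by
    rw [energy_eq hv.1]
    exact integral_nonneg fun x => nsq_nn v x
  have hN : 1 ≤ N k := Nat.one_le_iff_ne_zero.2 fun h => hk (N_eq_zero.1 h)
  have hN' : (0 : ℝ) < N k := by exact_mod_cast hN
  have e1 : fr (lap q) k = -(((2 * Real.pi) ^ 2 * ∑ j, (k j : ℝ) ^ 2 : ℝ) : ℂ) * fr q k := by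
    unfold lap
    rw [fr_sum fun j _ => (hq.pd j).pd j]
    push_cast
    rw [Finset.mul_sum, ← Finset.sum_neg_distrib, Finset.sum_mul]
    refine Finset.sum_congr rfl fun j _ => ?_
    rw [fr_pd (hq.pd j), fr_pd hq, D, D]
    have := Complex.I_sq
    linear_combination ((2 * Real.pi : ℂ) ^ 2 * (k j : ℂ) ^ 2 * fr q k) * this
  have e2 : fr (ddq v) k = ∑ i, ∑ l, -((2 * Real.pi : ℂ) ^ 2 * (k i : ℂ) * (k l : ℂ))
      * fr (fun y => v y i * v y l) k := by
    unfold ddq
    rw [fr_sum fun i _ => SP.sum fun l _ => (((hsp i).mul (hsp l)).pd l).pd i]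
    refine Finset.sum_congr rfl fun i _ => ?_
    rw [fr_sum fun l _ => (((hsp i).mul (hsp l)).pd l).pd i]
    refine Finset.sum_congr rfl fun l _ => ?_
    rw [fr_pd (((hsp i).mul (hsp l)).pd l), fr_pd ((hsp i).mul (hsp l)), D, D]
    have := Complex.I_sq
    linear_combination ((2 * Real.pi : ℂ) ^ 2 * (k i : ℂ) * (k l : ℂ)
      * fr (fun y => v y i * v y l) k) * this
  have e3 : fr (lap q) k = -fr (ddq v) k := by
    have h1 : lap q = fun x => -ddq v x := funext fun x => by rw [← heq x, neg_neg]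
    rw [h1]
    unfold fr fc
    rw [← integral_neg]
    congr 1
    funext x
    push_cast
    ring
  have e4 : ‖fr (ddq v) k‖ ≤ (2 * Real.pi) ^ 2 * (9 * (N k : ℝ) ^ 2 * energy v) := by
    rw [e2]
    refine (norm_sum_le _ _).trans ?_
    have h1 : ∀ i ∈ Finset.univ, ‖∑ l, -((2 * Real.pi : ℂ) ^ 2 * (k i : ℂ) * (k l : ℂ))
        * fr (fun y => v y i * v y l) k‖ ≤ (2 * Real.pi) ^ 2 * (3 * (N k : ℝ) ^ 2 * energy v) := by
      intro i _
      refine (norm_sum_le _ _).trans ?_
      have h2 : ∀ l ∈ Finset.univ, ‖-((2 * Real.pi : ℂ) ^ 2 * (k i : ℂ) * (k l : ℂ))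
          * fr (fun y => v y i * v y l) k‖ ≤ (2 * Real.pi) ^ 2 * ((N k : ℝ) ^ 2 * energy v) := by
        intro l _
        rw [norm_mul, norm_neg, norm_mul, norm_mul, norm_pow, norm_mul, Complex.norm_intCast,
          Complex.norm_intCast, Complex.norm_real, Real.norm_eq_abs, abs_of_pos Real.pi_pos,
          Complex.norm_ofNat]
        have h3 := N_comp k i
        have h4 := N_comp k l
        have h5 := fr_prod_le hv i l k
        calc (2 * Real.pi) ^ 2 * |(k i : ℝ)| * |(k l : ℝ)| * ‖fr (fun y => v y i * v y l) k‖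
            ≤ (2 * Real.pi) ^ 2 * (N k : ℝ) * (N k : ℝ) * energy v := by gcongr
          _ = _ := by ring
      refine (Finset.sum_le_sum h2).trans (le_of_eq ?_)
      simp only [Finset.sum_const, Finset.card_univ, Fintype.card_fin, nsmul_eq_mul]
      push_cast
      ring
    refine (Finset.sum_le_sum h1).trans (le_of_eq ?_)
    simp only [Finset.sum_const, Finset.card_univ, Fintype.card_fin, nsmul_eq_mul]
    push_cast
    ring
  have e5 : ((2 * Real.pi) ^ 2 * (N k : ℝ) ^ 2) * ‖fr q k‖ ≤ ‖fr (lap q) k‖ := by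
    rw [e1, norm_mul, norm_neg, Complex.norm_real, Real.norm_eq_abs,
      abs_of_nonneg (by positivity)]
    have := N_sq_le k
    gcongr
  rw [e3, norm_neg] at e5
  have e6 := e5.trans e4
  have e7 : (2 * Real.pi) ^ 2 * (9 * (N k : ℝ) ^ 2 * energy v)
      = ((2 * Real.pi) ^ 2 * (N k : ℝ) ^ 2) * (9 * energy v) := by ring
  rw [e7] at e6
  exact le_of_mul_le_mul_left e6 (by have := Real.pi_pos; positivity)

theorem fr_pz (hq : SP q) (k : K3) : ‖fr (pz q) k‖ ≤ if k = 0 then 0 else ‖fr q k‖ := by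
  have h1 : fr (pz q) k = fr q k - (∫ y in cube, q y : ℝ) * ∫ x in cube, ee (-k) x := by
    unfold fr fc pz
    rw [← integral_const_mul, ← integral_sub]
    · congr 1
      funext x
      push_cast
      ring
    · exact integrableOn_cube ((ee_continuous _).mul
        (Complex.continuous_ofReal.comp hq.smooth.continuous))
    · exact integrableOn_cube (continuous_const.mul (ee_continuous _))
  rw [h1, integral_ee]
  by_cases hk : k = 0
  · rw [if_pos hk, if_pos (by rw [hk]; simp), hk]
    have : fr q 0 = (∫ y in cube, q y : ℝ) := by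
      unfold fr fc
      rw [← integral_complex_ofReal]
      congr 1
      funext x
      rw [neg_zero, ee_zero, one_mul]
    rw [this]
    simp
  · rw [if_neg hk, if_neg (fun h => hk (neg_eq_zero.1 h))]
    simp

/-- The smooth part of the pressure. -/
theorem kapF {κ : V → ℝ} (hκ : ContDiff ℝ ∞ κ) (hs : ∀ z ∉ ball (0 : V) 1, κ z = 0) {K : ℝ}
    (hK : ∀ z, |lap (lap κ) z| ≤ K) (hv : SPV v) (hq : SP q) (heq : ∀ x, -lap q x = ddq v x)
    (x : V) : |∫ y, κ (y - x) * pz q y| ≤ 72 * C4 * K * energy v := by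
  have hK0 : 0 ≤ K := (abs_nonneg _).trans (hK 0)
  have hE : 0 ≤ energy v := by
    rw [energy_eq hv.1]
    exact integral_nonneg fun x => nsq_nn v x
  have hpz := pz_sp hq
  have hsum : Summable (fr (pz q)) := (rap_fr hpz).summable
  have hc : HasCompactSupport κ := hcsR hs
  have e0 : ∫ y, κ (y - x) * pz q y = ∫ z, κ z * pz q (x + z) := by
    rw [← integral_sub_right_eq_self (fun z => κ z * pz q (x + z)) x]
    simp only [add_sub_cancel]
  have e1 : ((∫ z, κ z * pz q (x + z) : ℝ) : ℂ)
      = ∫ z, ∑' k, (fr (pz q) k * ee k x) * (κ z • ee k z) := by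
    rw [← integral_complex_ofReal]
    congr 1
    funext z
    have h1 := S_fr hpz (x + z)
    push_cast
    rw [← h1]
    unfold S
    rw [← tsum_mul_left]
    refine tsum_congr fun k => ?_
    rw [ee_add, Complex.real_smul]
    ring
  have hi : ∀ k, Integrable fun z => (fr (pz q) k * ee k x) * (κ z • ee k z) := fun k =>
    (If_int hκ.continuous hc k).const_mul _
  have hnorm : ∀ k, ∫ z, ‖(fr (pz q) k * ee k x) * (κ z • ee k z)‖ = ‖fr (pz q) k‖ * ∫ z, ‖κ z‖ := by
    intro k
    rw [← integral_const_mul]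
    congr 1
    funext z
    rw [norm_mul, norm_mul, norm_ee, norm_smul, norm_ee, mul_one, mul_one]
  have h2 := hasSum_integral_of_summable_integral_norm hi (by
    simp_rw [hnorm]
    exact hsum.norm.mul_right _)
  rw [← e1] at h2
  have e2 : ∀ k, ∫ z, (fr (pz q) k * ee k x) * (κ z • ee k z)
      = (fr (pz q) k * ee k x) * If κ k := fun k => integral_const_mul _ _
  simp_rw [e2] at h2
  have hb : ∀ k, ‖(fr (pz q) k * ee k x) * If κ k‖
      ≤ (if k = 0 then (0 : ℝ) else 1 / (N k : ℝ) ^ 4) * (72 * K * energy v) := by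
    intro k
    rw [norm_mul, norm_mul, norm_ee, mul_one]
    have h3 := fr_pz hq k
    by_cases hk : k = 0
    · rw [if_pos hk] at h3 ⊢
      have : ‖fr (pz q) k‖ = 0 := le_antisymm h3 (norm_nonneg _)
      rw [this]
      simp
    · rw [if_neg hk] at h3 ⊢
      have h4 := If_decay hκ hs hK k
      have h5 := fr_press hv hq heq hk
      have hN : 1 ≤ N k := Nat.one_le_iff_ne_zero.2 fun h => hk (N_eq_zero.1 h)
      have hN' : (0 : ℝ) < N k := by exact_mod_cast hN
      calc ‖fr (pz q) k‖ * ‖If κ k‖ ≤ (9 * energy v) * ‖If κ k‖ := by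
            gcongr
            exact h3.trans h5
        _ = 1 / (N k : ℝ) ^ 4 * (9 * energy v * ((N k : ℝ) ^ 4 * ‖If κ k‖)) := by
            field_simp
        _ ≤ 1 / (N k : ℝ) ^ 4 * (9 * energy v * (8 * K)) := by gcongr
        _ = _ := by ring
  have hs4 : Summable fun k : K3 => (if k = 0 then (0 : ℝ) else 1 / (N k : ℝ) ^ 4)
      * (72 * K * energy v) := summable_N4.mul_right _
  have h6 : ‖((∫ z, κ z * pz q (x + z) : ℝ) : ℂ)‖ ≤ C4 * (72 * K * energy v) := by
    rw [← h2.tsum_eq]
    refine (norm_tsum_le_tsum_norm ?_).trans ?_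
    · exact Summable.of_nonneg_of_le (fun k => norm_nonneg _) hb hs4
    · unfold C4
      rw [← tsum_mul_right]
      exact Summable.tsum_le_tsum hb (Summable.of_nonneg_of_le (fun k => norm_nonneg _) hb hs4) hs4
  rw [Complex.norm_real, Real.norm_eq_abs] at h6
  rw [e0]
  linarith

end

end Pool.Agent.Helper30K1
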