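import Pool.Agent.Helper30K1.Sm

/-!
One velocity component (helper30): sets of parabolic Hausdorff measure zero for a gauge.
-/

set_option autoImplicit false

open MeasureTheory Set Metric Filter Topology
open scoped ContDiff ENNReal NNReal

namespace Pool.Agent.Helper30K1

open W221.NS

/-- The set `S` has parabolic Hausdorff measure zero for the gauge `g`: for every `ε > 0` it is
covered by countably many parabolic cylinders of radii `r i ≤ ε` with `∑ g (r i) ≤ ε`. -/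
def GNull {F : Type*} [NormedAddCommGroup F] (g : ℝ → ℝ) (S : Set (ℝ × F)) : Prop :=
  ∀ ε > 0, ∃ (ι : Type) (_ : Countable ι) (z : ι → ℝ × F) (r : ι → ℝ),
    (∀ i, 0 < r i ∧ r i ≤ ε) ∧ S ⊆ ⋃ i, PCyl (z i) (r i) ∧
      ∑' i, ENNReal.ofReal (g (r i)) ≤ ENNReal.ofReal ε

section

variable {F : Type*} [NormedAddCommGroup F] {g : ℝ → ℝ}

theorem GNull.mono {S S' : Set (ℝ × F)} (h : GNull g S') (hS : S ⊆ S') : GNull g S := by
  intro ε hε
  obtain ⟨ι, hc, z, r, h1, h2, h3⟩ := h ε hε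
  exact ⟨ι, hc, z, r, h1, hS.trans h2, h3⟩

theorem GNull.iUnion {κ : Type} [Countable κ] {S : κ → Set (ℝ × F)} (h : ∀ k, GNull g (S k)) :
    GNull g (⋃ k, S k) := by
  intro ε hε
  obtain ⟨ε', hε', hsum⟩ := ENNReal.exists_pos_sum_of_countable'
    (ENNReal.ofReal_pos.2 hε).ne' κ
  have hmin : ∀ k, 0 < min (ε' k) (ENNReal.ofReal ε) := fun k =>
    lt_min (hε' k) (ENNReal.ofReal_pos.2 hε)
  have hmt : ∀ k, min (ε' k) (ENNReal.ofReal ε) ≠ ⊤ := fun k =>
    ne_top_of_le_ne_top ENNReal.ofReal_ne_top (min_le_right _ _)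
  set e : κ → ℝ := fun k => (min (ε' k) (ENNReal.ofReal ε)).toReal with he
  have he0 : ∀ k, 0 < e k := fun k => ENNReal.toReal_pos (hmin k).ne' (hmt k)
  have heε : ∀ k, e k ≤ ε := fun k =>
    ENNReal.toReal_le_of_le_ofReal hε.le (min_le_right _ _)
  have hee : ∀ k, ENNReal.ofReal (e k) ≤ ε' k := by
    intro k
    rw [he]
    simp only
    rw [ENNReal.ofReal_toReal (hmt k)]
    exact min_le_left _ _
  choose ι hc z r h1 h2 h3 using fun k => h k (e k) (he0 k)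
  refine ⟨Σ k, ι k, inferInstance, fun w => z w.1 w.2, fun w => r w.1 w.2, ?_, ?_, ?_⟩
  · rintro ⟨k, i⟩
    exact ⟨(h1 k i).1, (h1 k i).2.trans (heε k)⟩
  · refine iUnion_subset fun k => (h2 k).trans ?_
    refine iUnion_subset fun i => ?_
    exact subset_iUnion (fun w : Σ k, ι k => PCyl (z w.1 w.2) (r w.1 w.2)) ⟨k, i⟩
  · show ∑' w : (Σ k, ι k), ENNReal.ofReal (g (r w.1 w.2)) ≤ _
    rw [ENNReal.tsum_sigma fun k i => ENNReal.ofReal (g (r k i))]
    calc ∑' k, ∑' i, ENNReal.ofReal (g (r k i)) ≤ ∑' k, ε' k :=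
          ENNReal.tsum_le_tsum fun k => (h3 k).trans (hee k)
      _ ≤ _ := hsum.le

/-- Translations. -/
theorem GNull.translate {S : Set (ℝ × F)} (h : GNull g S) (a : F) :
    GNull g {w : ℝ × F | (w.1, w.2 - a) ∈ S} := by
  intro ε hε
  obtain ⟨ι, hc, z, r, h1, h2, h3⟩ := h ε hε
  refine ⟨ι, hc, fun i => ((z i).1, (z i).2 + a), r, h1, ?_, h3⟩
  intro w hw
  obtain ⟨i, hi⟩ := mem_iUnion.1 (h2 hw)
  refine mem_iUnion.2 ⟨i, hi.1, ?_⟩
  have h4 := hi.2
  simp only at h4 ⊢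
  rw [show w.2 - ((z i).2 + a) = w.2 - a - (z i).2 by abel]
  exact h4

/-- Smaller gauges. -/
theorem GNull.of_le {g' : ℝ → ℝ} {S : Set (ℝ × F)} (h : GNull g S) {C r₀ : ℝ} (hC : 0 < C)
    (hr₀ : 0 < r₀) (hle : ∀ r ∈ Ioc 0 r₀, g' r ≤ C * g r) : GNull g' S := by
  intro ε hε
  obtain ⟨ι, hc, z, r, h1, h2, h3⟩ := h (min (min ε (ε / C)) r₀)
    (lt_min (lt_min hε (by positivity)) hr₀)
  refine ⟨ι, hc, z, r, fun i => ⟨(h1 i).1, ?_⟩, h2, ?_⟩
  · exact (h1 i).2.trans ((min_le_left _ _).trans (min_le_left _ _))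
  · calc ∑' i, ENNReal.ofReal (g' (r i))
        ≤ ∑' i, ENNReal.ofReal C * ENNReal.ofReal (g (r i)) := by
          refine ENNReal.tsum_le_tsum fun i => ?_
          rw [← ENNReal.ofReal_mul hC.le]
          exact ENNReal.ofReal_le_ofReal (hle _ ⟨(h1 i).1, (h1 i).2.trans (min_le_right _ _)⟩)
      _ = ENNReal.ofReal C * ∑' i, ENNReal.ofReal (g (r i)) := ENNReal.tsum_mul_left
      _ ≤ ENNReal.ofReal C * ENNReal.ofReal (ε / C) := by
          refine mul_le_mul' le_rfl (h3.trans (ENNReal.ofReal_le_ofReal ?_))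
          exact (min_le_left _ _).trans (min_le_right _ _)
      _ = ENNReal.ofReal ε := by
          rw [← ENNReal.ofReal_mul hC.le]
          congr 1
          field_simp

/-- Scaling in time. -/
theorem GNull.scale {S : Set (ℝ × F)} (h : GNull g S) {ν : ℝ} (hν : 0 < ν)
    (hd : ∀ l : ℝ, 1 ≤ l → ∃ C > 0, ∃ r₀ > 0, ∀ r ∈ Ioc 0 r₀, g (l * r) ≤ C * g r) :
    GNull g {w : ℝ × F | (ν * w.1, w.2) ∈ S} := by
  intro ε hε
  obtain ⟨l, hl1, hlν⟩ : ∃ l : ℝ, 1 ≤ l ∧ 1 ≤ ν * l ^ 2 := by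
    refine ⟨max 1 (√(1 / ν)), le_max_left _ _, ?_⟩
    have h1 : √(1 / ν) ≤ max 1 (√(1 / ν)) := le_max_right _ _
    have h2 : √(1 / ν) ^ 2 ≤ max 1 (√(1 / ν)) ^ 2 := pow_le_pow_left₀ (Real.sqrt_nonneg _) h1 2
    rw [Real.sq_sqrt (by positivity)] at h2
    calc 1 = ν * (1 / ν) := by field_simp
      _ ≤ _ := by gcongr
  have hl0 : 0 < l := by linarith
  obtain ⟨C, hC, r₀, hr₀, hle⟩ := hd l hl1
  obtain ⟨ι, hc, z, r, h1, h2, h3⟩ := h (min (min (ε / l) (ε / C)) r₀)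
    (lt_min (lt_min (by positivity) (by positivity)) hr₀)
  refine ⟨ι, hc, fun i => (ν⁻¹ * (z i).1, (z i).2), fun i => l * r i, ?_, ?_, ?_⟩
  · intro i
    have h4 := h1 i
    refine ⟨mul_pos hl0 h4.1, ?_⟩
    calc l * r i ≤ l * (ε / l) := by
          gcongr
          exact h4.2.trans ((min_le_left _ _).trans (min_le_left _ _))
      _ = ε := by field_simp
  · intro w hw
    obtain ⟨i, hi⟩ := mem_iUnion.1 (h2 hw)
    have hri := (h1 i).1
    refine mem_iUnion.2 ⟨i, ?_, ?_⟩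
    · have h4 : |ν * w.1 - (z i).1| < r i ^ 2 := hi.1
      show |w.1 - ν⁻¹ * (z i).1| < (l * r i) ^ 2
      have e1 : w.1 - ν⁻¹ * (z i).1 = ν⁻¹ * (ν * w.1 - (z i).1) := by
        field_simp
      rw [e1, abs_mul, abs_of_pos (inv_pos.2 hν)]
      calc ν⁻¹ * |ν * w.1 - (z i).1| < ν⁻¹ * r i ^ 2 := by gcongr
        _ ≤ ν⁻¹ * ((ν * l ^ 2) * r i ^ 2) := by
            gcongr
            exact le_mul_of_one_le_left (by positivity) hlν
        _ = (l * r i) ^ 2 := by field_simp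
    · have h4 : ‖w.2 - (z i).2‖ < r i := hi.2
      show ‖w.2 - (z i).2‖ < l * r i
      exact h4.trans_le (le_mul_of_one_le_left hri.le hl1)
  · calc ∑' i, ENNReal.ofReal (g (l * r i))
        ≤ ∑' i, ENNReal.ofReal C * ENNReal.ofReal (g (r i)) := by
          refine ENNReal.tsum_le_tsum fun i => ?_
          rw [← ENNReal.ofReal_mul hC.le]
          exact ENNReal.ofReal_le_ofReal (hle _ ⟨(h1 i).1, (h1 i).2.trans (min_le_right _ _)⟩)
      _ = ENNReal.ofReal C * ∑' i, ENNReal.ofReal (g (r i)) := ENNReal.tsum_mul_left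
      _ ≤ ENNReal.ofReal C * ENNReal.ofReal (ε / C) := by
          refine mul_le_mul' le_rfl (h3.trans (ENNReal.ofReal_le_ofReal ?_))
          exact (min_le_left _ _).trans (min_le_right _ _)
      _ = ENNReal.ofReal ε := by
          rw [← ENNReal.ofReal_mul hC.le]
          congr 1
          field_simp

/-- Sets covered infinitely often by few cylinders. -/
theorem GNull_limsup {κ : Type} {S : Set (ℝ × F)} {A : ℕ → Finset κ}
    {z : ℕ → κ → ℝ × F} {n₁ : ℕ} (hcov : ∀ w ∈ S, ∀ K, ∃ n ≥ K, ∃ i ∈ A n,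
      w ∈ PCyl (z n i) (rr n)) {f : ℕ → ℝ} (hf : Summable f) (hf0 : ∀ n, 0 ≤ f n)
    (hA : ∀ n ≥ n₁, ((A n).card : ℝ) * g (rr n) ≤ f n) : GNull g S := by
  intro ε hε
  have ht1 : Tendsto (fun K : ℕ => ∑' k, f (k + K)) atTop (𝓝 0) := tendsto_sum_nat_add f
  have ht2 : Tendsto (fun K : ℕ => rr K) atTop (𝓝 0) := by
    unfold rr
    exact tendsto_pow_atTop_nhds_zero_of_lt_one (by norm_num) (by norm_num)
  obtain ⟨K, hK1, hK2, hKn⟩ := ((ht1.eventually (Iio_mem_nhds hε)).and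
    ((ht2.eventually (Iio_mem_nhds hε)).and (eventually_ge_atTop n₁))).exists
  refine ⟨Σ k : ℕ, {i // i ∈ A (k + K)}, inferInstance, fun w => z (w.1 + K) w.2.1,
    fun w => rr (w.1 + K), ?_, ?_, ?_⟩
  · rintro ⟨k, i⟩
    refine ⟨rr_pos _, le_trans ?_ (le_of_lt hK2)⟩
    exact rr_anti (Nat.le_add_left K k)
  · intro w hw
    obtain ⟨n, hn, i, hi, hwi⟩ := hcov w hw K
    obtain ⟨k, rfl⟩ := Nat.exists_eq_add_of_le' hn
    exact mem_iUnion.2 ⟨⟨k, i, hi⟩, hwi⟩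
  · rw [ENNReal.tsum_sigma fun (k : ℕ) (_ : {i // i ∈ A (k + K)}) =>
      ENNReal.ofReal (g (rr (k + K)))]
    calc ∑' (k : ℕ) (_ : {i // i ∈ A (k + K)}), ENNReal.ofReal (g (rr (k + K)))
        = ∑' k : ℕ, ((A (k + K)).card : ℝ≥0∞) * ENNReal.ofReal (g (rr (k + K))) := by
          refine tsum_congr fun k => ?_
          rw [tsum_fintype, Finset.sum_const, nsmul_eq_mul, Finset.card_univ, Fintype.card_coe]
      _ ≤ ∑' k : ℕ, ENNReal.ofReal (f (k + K)) := by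
          refine ENNReal.tsum_le_tsum fun k => ?_
          rw [← ENNReal.ofReal_natCast, ← ENNReal.ofReal_mul (by positivity)]
          exact ENNReal.ofReal_le_ofReal (hA (k + K) (by omega))
      _ = ENNReal.ofReal (∑' k : ℕ, f (k + K)) :=
          (ENNReal.ofReal_tsum_of_nonneg (fun k => hf0 _) ((summable_nat_add_iff K).2 hf)).symm
      _ ≤ _ := ENNReal.ofReal_le_ofReal (le_of_lt hK1)

theorem GNull_pow {δ : ℝ} {S : Set (ℝ × F)} : GNull (fun r => r ^ δ) S ↔ PNull δ S := Iff.rfl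

end

/-! ### The gauge -/

/-- The gauge `exp (- A (log (1 / r)) ^ s)`. -/
noncomputable def gau (A s r : ℝ) : ℝ := Real.exp (-(A * Real.log (1 / r) ^ s))

theorem gau_rr (A s : ℝ) (n : ℕ) : gau A s (rr n) = Real.exp (-(A * (n * Real.log 2) ^ s)) := by
  unfold gau rr
  rw [one_div, ← inv_pow, one_div, inv_inv, Real.log_pow]

/-- The doubling property. -/
theorem gau_dbl {A s : ℝ} (hA : 0 < A) (hs0 : 0 ≤ s) (hs1 : s ≤ 1) (l : ℝ) (hl : 1 ≤ l) :
    ∃ C > 0, ∃ r₀ > 0, ∀ r ∈ Ioc 0 r₀, gau A s (l * r) ≤ C * gau A s r := by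
  have hl0 : 0 < l := by linarith
  refine ⟨Real.exp (A * Real.log l ^ s), Real.exp_pos _, 1 / l, by positivity, fun r hr => ?_⟩
  have hr0 := hr.1
  unfold gau
  rw [← Real.exp_add]
  apply Real.exp_le_exp.2
  have h1 : Real.log (1 / r) = Real.log (1 / (l * r)) + Real.log l := by
    rw [Real.log_div one_ne_zero hr0.ne', Real.log_div one_ne_zero (by positivity),
      Real.log_mul hl0.ne' hr0.ne']
    ring
  have h2 : 0 ≤ Real.log (1 / (l * r)) := by
    apply Real.log_nonneg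
    rw [le_div_iff₀ (by positivity), one_mul]
    have h3 := hr.2
    rw [le_div_iff₀ hl0] at h3
    linarith
  have h3 : 0 ≤ Real.log l := Real.log_nonneg hl
  have h4 : (Real.log (1 / (l * r)) + Real.log l) ^ s
      ≤ Real.log (1 / (l * r)) ^ s + Real.log l ^ s :=
    Real.rpow_add_le_add_rpow h2 h3 hs0 hs1
  rw [h1]
  nlinarith

/-- Comparison with the powers. -/
theorem pow_le_gau {A s δ : ℝ} (hδ : 0 < δ) (hs1 : s < 1) :
    ∃ r₀ > 0, ∀ r ∈ Ioc 0 r₀, r ^ δ ≤ 1 * gau A s r := by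
  have h1 : Tendsto (fun x : ℝ => x ^ (1 - s)) atTop atTop := tendsto_rpow_atTop (by linarith)
  obtain ⟨x₀, hx₀⟩ := (((h1.eventually_ge_atTop (A / δ)).and (eventually_ge_atTop (1 : ℝ)))).exists_forall_of_atTop
  refine ⟨Real.exp (-x₀), Real.exp_pos _, fun r hr => ?_⟩
  have hr0 := hr.1
  have h2 : x₀ ≤ Real.log (1 / r) := by
    rw [Real.log_div one_ne_zero hr0.ne', Real.log_one, zero_sub]
    have := Real.log_le_log hr0 hr.2
    rw [Real.log_exp] at this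
    linarith
  obtain ⟨h3, h4⟩ := hx₀ _ h2
  set x := Real.log (1 / r) with hx
  have hx0 : 0 < x := by linarith
  have e1 : r ^ δ = Real.exp (-(δ * x)) := by
    rw [Real.rpow_def_of_pos hr0, hx, Real.log_div one_ne_zero hr0.ne', Real.log_one]
    congr 1
    ring
  unfold gau
  rw [one_mul, e1]
  apply Real.exp_le_exp.2
  have h5 : x = x ^ (1 - s) * x ^ s := by
    rw [← Real.rpow_add hx0]
    norm_num
  have h6 : A ≤ δ * x ^ (1 - s) := by
    rw [div_le_iff₀ hδ] at h3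
    linarith
  have h7 : 0 < x ^ s := Real.rpow_pos_of_pos hx0 _
  have h8 : A * x ^ s ≤ δ * x := by
    calc A * x ^ s ≤ (δ * x ^ (1 - s)) * x ^ s := by gcongr
      _ = δ * (x ^ (1 - s) * x ^ s) := by ring
      _ = δ * x := by rw [← h5]
  linarith

end Pool.Agent.Helper30K1
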