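import Pool.Agent.Helper30K1.Nu

/-!
One velocity component (helper30): exponential form of the growth of the slab energies.
-/

set_option autoImplicit false

open MeasureTheory Set Metric Filter Topology
open scoped ContDiff ENNReal

namespace Pool.Agent.Helper30K1

open H459R3.NS W221.NS Pool.Agent.Y8

/-- Telescoping. -/
theorem tele {K : ℝ} {k₀ : ℕ} (hk₀ : 1 ≤ k₀) (α : ℕ → ℝ) (m : ℕ) :
    ∑ i ∈ Finset.Icc k₀ m, K * α i * Real.exp (K * ∑ l ∈ Finset.Icc k₀ (i - 1), α l)
      ≤ Real.exp (K * ∑ l ∈ Finset.Icc k₀ m, α l) - 1 := by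
  induction m with
  | zero =>
    rw [Finset.Icc_eq_empty (by omega), Finset.sum_empty, Finset.sum_empty, mul_zero,
      Real.exp_zero, sub_self]
  | succ m ih =>
    by_cases hm : m + 1 < k₀
    · rw [Finset.Icc_eq_empty (by omega), Finset.sum_empty, Finset.sum_empty, mul_zero,
        Real.exp_zero, sub_self]
    · rw [Finset.sum_Icc_succ_top (by omega), Finset.sum_Icc_succ_top (by omega) α, mul_add,
        Real.exp_add]
      have e1 : m + 1 - 1 = m := by omega
      rw [e1]
      have h2 := Real.add_one_le_exp (K * α (m + 1))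
      have h3 := Real.exp_pos (K * ∑ l ∈ Finset.Icc k₀ m, α l)
      nlinarith

/-- The growth of the energies in exponential form. -/
theorem growth2 {q : ℝ} (hq : 3 < q) : ∃ K : ℝ, 0 < K ∧ ∀ (T E D : ℝ)
    (G : Set ℝ) (u : ℝ → V → V) (p : ℝ → V → ℝ), Turb 1 T E D G u p → ∀ (j : Fin 3) (η : ℝ),
    0 < η → ∀ k₀ : ℕ, 2 ≤ k₀ → ∃ Z : ℝ, 0 < Z ∧ ∀ c s₁ t₀ : ℝ, s₁ ∈ G → η ≤ t₀ - s₁ → t₀ ≤ T →
    t₀ - s₁ ≤ 1 → ∀ (n : ℕ) (S : ℝ), 0 ≤ S →
      ∑ m ∈ Finset.Icc k₀ n, am q G u j c s₁ t₀ m ≤ ENNReal.ofReal S →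
      em G u j c s₁ t₀ n ≤ ENNReal.ofReal (Z * Real.exp (K * S)) := by
  obtain ⟨K, hK, hrec⟩ := em_rec hq
  refine ⟨K, hK, ?_⟩
  intro T E D G u p h j η hη k₀ hk₀
  set W := (Wf G u p j).toReal with hW
  have hWt : Wf G u p j = ENNReal.ofReal W := (ENNReal.ofReal_toReal (gz_fin h j)).symm
  have hW0 : 0 ≤ W := ENNReal.toReal_nonneg
  have hrk := rr_pos k₀
  set X : ℝ := 3 * (Real.exp (2 * Real.pi ^ 2) * (√η)⁻¹ * E ^ 2
    + 8 * Real.exp (2 * Real.pi ^ 2) * ((rr k₀ ^ 2)⁻¹ * W)) with hX
  have hX0 : 0 ≤ X := by positivity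
  set Z : ℝ := X + E ^ 2 + 2 ^ k₀ * (E ^ 2 + |D|) + 1 with hZ
  have hZ0 : 0 < Z := by positivity
  refine ⟨Z, hZ0, ?_⟩
  intro c s₁ t₀ hs₁ hη1 hT h1 n S hS0 hS
  have hst : s₁ < t₀ := by linarith
  set α : ℕ → ℝ := fun m => (am q G u j c s₁ t₀ m).toReal with hα
  have hα0 : ∀ m, 0 ≤ α m := fun m => ENNReal.toReal_nonneg
  have hsum_ne : ∀ i ≤ n, ∑ m ∈ Finset.Icc k₀ i, am q G u j c s₁ t₀ m ≤ ENNReal.ofReal S := by
    intro i hi
    refine le_trans ?_ hS
    exact Finset.sum_le_sum_of_subset (Finset.Icc_subset_Icc_right hi)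
  have ham : ∀ m ∈ Finset.Icc k₀ n, am q G u j c s₁ t₀ m = ENNReal.ofReal (α m) := by
    intro m hm
    refine (ENNReal.ofReal_toReal ?_).symm
    refine ne_top_of_le_ne_top ENNReal.ofReal_ne_top (le_trans ?_ hS)
    exact Finset.single_le_sum (f := fun m => am q G u j c s₁ t₀ m) (fun _ _ => zero_le) hm
  set P : ℕ → ℝ := fun m => Real.exp (K * ∑ l ∈ Finset.Icc k₀ m, α l) with hP
  have hP1 : ∀ m, 1 ≤ P m := by
    intro m
    rw [hP]
    apply Real.one_le_exp
    exact mul_nonneg hK.le (Finset.sum_nonneg fun l _ => hα0 l)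
  have hPm : Monotone P := by
    intro a b hab
    rw [hP]
    simp only
    apply Real.exp_le_exp.2
    refine mul_le_mul_of_nonneg_left ?_ hK.le
    exact Finset.sum_le_sum_of_subset_of_nonneg (Finset.Icc_subset_Icc_right hab)
      fun l _ _ => hα0 l
  -- the main induction
  have key : ∀ i ≤ n, em G u j c s₁ t₀ i + ENNReal.ofReal (E ^ 2) ≤ ENNReal.ofReal (Z * P i) := by
    intro i
    induction i using Nat.strong_induction_on with
    | _ i ih =>
      intro hin
      by_cases hi : i < k₀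
      · refine (add_le_add (em_crude h j c s₁ t₀ i) le_rfl).trans ?_
        rw [← ENNReal.ofReal_add (by positivity) (by positivity)]
        apply ENNReal.ofReal_le_ofReal
        have h2 : (2 : ℝ) ^ i ≤ 2 ^ k₀ := pow_le_pow_right₀ (by norm_num) hi.le
        have h3 : 2 ^ i * (E ^ 2 + |D|) ≤ 2 ^ k₀ * (E ^ 2 + |D|) := by gcongr
        have h4 : Z ≤ Z * P i := le_mul_of_one_le_right hZ0.le (hP1 i)
        rw [hZ] at h4
        linarith
      · push Not at hi
        refine (add_le_add (hrec T E D G u p h j c s₁ t₀ hs₁ hst hT h1 k₀ hk₀ i hi) le_rfl).trans ?_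
        have hXb : 3 * (ENNReal.ofReal (Real.exp (2 * Real.pi ^ 2) * (√(t₀ - s₁))⁻¹)
            * ENNReal.ofReal (E ^ 2) + ENNReal.ofReal (8 * Real.exp (2 * Real.pi ^ 2))
            * (ENNReal.ofReal (rr k₀ ^ 2)⁻¹ * Wf G u p j)) ≤ ENNReal.ofReal X := by
          rw [hWt, hX, ENNReal.ofReal_mul (p := 3) (by norm_num),
            ENNReal.ofReal_add (by positivity) (by positivity),
            ENNReal.ofReal_mul (p := Real.exp (2 * Real.pi ^ 2) * (√η)⁻¹) (by positivity),
            ENNReal.ofReal_mul (p := 8 * Real.exp (2 * Real.pi ^ 2)) (by positivity),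
            ENNReal.ofReal_mul (p := (rr k₀ ^ 2)⁻¹) (by positivity),
            show ENNReal.ofReal 3 = 3 by norm_num]
          have h3 : (√(t₀ - s₁))⁻¹ ≤ (√η)⁻¹ :=
            inv_anti₀ (Real.sqrt_pos.2 hη) (Real.sqrt_le_sqrt hη1)
          gcongr
        have hsum : ENNReal.ofReal K * ∑ m ∈ Finset.Icc k₀ i, am q G u j c s₁ t₀ m
            * ((Finset.range (m - 1)).sup (em G u j c s₁ t₀) + ENNReal.ofReal (E ^ 2))
            ≤ ENNReal.ofReal (Z * (P i - 1)) := by
          calc ENNReal.ofReal K * ∑ m ∈ Finset.Icc k₀ i, am q G u j c s₁ t₀ m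
                * ((Finset.range (m - 1)).sup (em G u j c s₁ t₀) + ENNReal.ofReal (E ^ 2))
              ≤ ENNReal.ofReal K * ∑ m ∈ Finset.Icc k₀ i, ENNReal.ofReal (α m)
                * ENNReal.ofReal (Z * P (m - 1)) := by
                refine mul_le_mul' le_rfl (Finset.sum_le_sum fun m hm => ?_)
                have hm1 := (Finset.mem_Icc.1 hm).1
                have hm2 := (Finset.mem_Icc.1 hm).2
                rw [ham m (Finset.mem_Icc.2 ⟨hm1, hm2.trans hin⟩)]
                refine mul_le_mul' le_rfl ?_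
                -- the supremum
                have hne : (Finset.range (m - 1)).Nonempty := ⟨0, Finset.mem_range.2 (by omega)⟩
                obtain ⟨i', hi', hsup⟩ := Finset.exists_mem_eq_sup _ hne (em G u j c s₁ t₀)
                rw [hsup]
                have hi'' := Finset.mem_range.1 hi'
                refine (ih i' (by omega) (by omega)).trans (ENNReal.ofReal_le_ofReal ?_)
                have := hPm (show i' ≤ m - 1 by omega)
                gcongr
            _ = ENNReal.ofReal (∑ m ∈ Finset.Icc k₀ i, K * α m * (Z * P (m - 1))) := by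
                rw [ENNReal.ofReal_sum_of_nonneg fun m _ => by
                  have := hα0 m
                  have := hP1 (m - 1)
                  positivity, Finset.mul_sum]
                refine Finset.sum_congr rfl fun m _ => ?_
                rw [ENNReal.ofReal_mul (mul_nonneg hK.le (hα0 m)), ENNReal.ofReal_mul hK.le,
                  mul_assoc]
            _ ≤ _ := by
                apply ENNReal.ofReal_le_ofReal
                have e1 : ∑ m ∈ Finset.Icc k₀ i, K * α m * (Z * P (m - 1))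
                    = Z * ∑ m ∈ Finset.Icc k₀ i, K * α m * P (m - 1) := by
                  rw [Finset.mul_sum]
                  exact Finset.sum_congr rfl fun m _ => by ring
                rw [e1]
                exact mul_le_mul_of_nonneg_left (tele (by omega) α i) hZ0.le
        calc _ ≤ ENNReal.ofReal X + ENNReal.ofReal (Z * (P i - 1)) + ENNReal.ofReal (E ^ 2) :=
              add_le_add (add_le_add hXb hsum) le_rfl
          _ = ENNReal.ofReal (X + Z * (P i - 1) + E ^ 2) := by
              have hP0 : 0 ≤ Z * (P i - 1) := mul_nonneg hZ0.le (by linarith [hP1 i])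
              rw [← ENNReal.ofReal_add hX0 hP0, ← ENNReal.ofReal_add (by positivity)
                (sq_nonneg E)]
          _ ≤ _ := by
              apply ENNReal.ofReal_le_ofReal
              have h6 : X + E ^ 2 ≤ Z := by
                rw [hZ]
                have : 0 ≤ 2 ^ k₀ * (E ^ 2 + |D|) := by positivity
                linarith
              linarith
  refine (le_self_add.trans (key n le_rfl)).trans (ENNReal.ofReal_le_ofReal ?_)
  have hle : ∑ l ∈ Finset.Icc k₀ n, α l ≤ S := by
    have h5 : ENNReal.ofReal (∑ l ∈ Finset.Icc k₀ n, α l) ≤ ENNReal.ofReal S := by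
      rw [ENNReal.ofReal_sum_of_nonneg fun l _ => hα0 l]
      refine le_trans (le_of_eq ?_) hS
      exact Finset.sum_congr rfl fun l hl => (ham l hl).symm
    exact (ENNReal.ofReal_le_ofReal_iff hS0).1 h5
  have : P n ≤ Real.exp (K * S) := by
    rw [hP]
    exact Real.exp_le_exp.2 (mul_le_mul_of_nonneg_left hle hK.le)
  gcongr

end Pool.Agent.Helper30K1
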