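import Pool.Agent.Helper30K1.Low

/-!
One velocity component (helper30): slow growth of the scale invariant slab energies if the scale
invariant norms of the component are small.
-/

set_option autoImplicit false

open MeasureTheory Set Metric Filter Topology
open scoped ContDiff ENNReal

namespace Pool.Agent.Helper30K1

open H459R3.NS W221.NS Pool.Agent.Y8

/-- The recursion for the scale invariant energies. -/
theorem em_rec {q : ℝ} (hq : 3 < q) : ∃ K : ℝ, 0 < K ∧ ∀ (T E D : ℝ) (G : Set ℝ)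
    (u : ℝ → V → V) (p : ℝ → V → ℝ), Turb 1 T E D G u p → ∀ (j : Fin 3) (c s₁ t₀ : ℝ), s₁ ∈ G →
    s₁ < t₀ → t₀ ≤ T → t₀ - s₁ ≤ 1 → ∀ k₀ : ℕ, 2 ≤ k₀ → ∀ n, k₀ ≤ n →
    em G u j c s₁ t₀ n ≤ 3 * (ENNReal.ofReal (Real.exp (2 * Real.pi ^ 2) * (√(t₀ - s₁))⁻¹)
        * ENNReal.ofReal (E ^ 2) + ENNReal.ofReal (8 * Real.exp (2 * Real.pi ^ 2))
        * (ENNReal.ofReal (rr k₀ ^ 2)⁻¹ * Wf G u p j))
      + ENNReal.ofReal K * ∑ m ∈ Finset.Icc k₀ n, am q G u j c s₁ t₀ m
        * ((Finset.range (m - 1)).sup (em G u j c s₁ t₀) + ENNReal.ofReal (E ^ 2)) := by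
  obtain ⟨C, hC, hf⟩ := flux_w hq
  refine ⟨3 * (8 * Real.exp (2 * Real.pi ^ 2) * (4 * C)), by positivity, ?_⟩
  intro T E D G u p h j c s₁ t₀ hs hst hT h1 k₀ hk₀ n hn
  set e := em G u j c s₁ t₀ with he
  set a := am q G u j c s₁ t₀ with haa
  set E₀ := ENNReal.ofReal (E ^ 2) with hE₀
  set K2 := ENNReal.ofReal (8 * Real.exp (2 * Real.pi ^ 2)) with hK2
  have h2 : ∑ m ∈ Finset.Icc k₀ n, ENNReal.ofReal (rr m ^ 2)⁻¹ * Fw G u p j c s₁ t₀ m
      ≤ ENNReal.ofReal C * ∑ m ∈ Finset.Icc k₀ n,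
        a m * ((Finset.range (m - 1)).sup e + E₀) := by
    rw [Finset.mul_sum]
    refine Finset.sum_le_sum fun m hm => ?_
    have hm2 : 2 ≤ m := hk₀.trans (Finset.mem_Icc.1 hm).1
    have h3 := hf T E D G u p h j c s₁ t₀ (m - 2) ((Finset.range (m - 1)).sup e)
      (fun i hi => Finset.le_sup (f := e) (Finset.mem_range.2 (by omega)))
    rw [show m - 2 + 2 = m by omega] at h3
    have hm0 := rr_pos m
    calc ENNReal.ofReal (rr m ^ 2)⁻¹ * Fw G u p j c s₁ t₀ m
        ≤ ENNReal.ofReal (rr m ^ 2)⁻¹ * (ENNReal.ofReal C * (ENNReal.ofReal (rr m ^ 2)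
          * (a m * ((Finset.range (m - 1)).sup e + E₀)))) := by gcongr
      _ = (ENNReal.ofReal (rr m ^ 2)⁻¹ * ENNReal.ofReal (rr m ^ 2)) * (ENNReal.ofReal C
          * (a m * ((Finset.range (m - 1)).sup e + E₀))) := by ring
      _ = _ := by
          rw [← ENNReal.ofReal_mul (by positivity), inv_mul_cancel₀ (by positivity),
            ENNReal.ofReal_one, one_mul]
  have h3 := em_le h j c hs hst hT h1 hn
  refine h3.trans ?_
  unfold Rn
  have e3 : ENNReal.ofReal (3 * (8 * Real.exp (2 * Real.pi ^ 2) * (4 * C)))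
      = 3 * (K2 * (4 * ENNReal.ofReal C)) := by
    rw [ENNReal.ofReal_mul (p := 3) (by norm_num), ENNReal.ofReal_mul (by positivity),
      ENNReal.ofReal_mul (p := 4) (by norm_num), hK2]
    norm_num
  rw [e3]
  calc 3 * (ENNReal.ofReal (Real.exp (2 * Real.pi ^ 2) * (√(t₀ - s₁))⁻¹) * E₀
        + K2 * (ENNReal.ofReal (rr k₀ ^ 2)⁻¹ * Wf G u p j
          + 4 * ∑ m ∈ Finset.Icc k₀ n, ENNReal.ofReal (rr m ^ 2)⁻¹ * Fw G u p j c s₁ t₀ m))
      ≤ 3 * (ENNReal.ofReal (Real.exp (2 * Real.pi ^ 2) * (√(t₀ - s₁))⁻¹) * E₀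
        + K2 * (ENNReal.ofReal (rr k₀ ^ 2)⁻¹ * Wf G u p j
          + 4 * (ENNReal.ofReal C * ∑ m ∈ Finset.Icc k₀ n,
            a m * ((Finset.range (m - 1)).sup e + E₀)))) := by gcongr
    _ = _ := by ring

/-- The bound of the scale invariant energy at a fixed scale. -/
theorem em_crude {T E D : ℝ} {G : Set ℝ} {u : ℝ → V → V} {p : ℝ → V → ℝ}
    (h : Turb 1 T E D G u p) (j : Fin 3) (c s₁ t₀ : ℝ) (n : ℕ) :
    em G u j c s₁ t₀ n ≤ ENNReal.ofReal (2 ^ n * (E ^ 2 + |D|)) := by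
  have hn := rr_pos n
  have e1 : (rr n)⁻¹ = 2 ^ n := by
    unfold rr
    rw [one_div, inv_pow, inv_inv]
  unfold em
  rw [e1, ENNReal.ofReal_mul (by positivity), ENNReal.ofReal_add (by positivity) (by positivity)]
  refine mul_le_mul' le_rfl (add_le_add ?_ ?_)
  · exact iSup₂_le fun t ht => energy_Ab h ht.2 j c _
  · calc ∫⁻ t in Iw G s₁ t₀ n, Bb (u t) j c (rr n)
        ≤ ∫⁻ t in Iw G s₁ t₀ n, ENNReal.ofReal (enstrophy (u t)) := by
          refine setLIntegral_mono' (Iw_meas h.openG s₁ t₀ n) fun t ht => ?_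
          have hu := h.spv ht.2
          rw [enst_eq hu.1, cube_ofReal (gsq_ct hu.1) (gsq_nn _)]
          exact lintegral_mono_set inter_subset_left
      _ ≤ ∫⁻ t in G, ENNReal.ofReal (enstrophy (u t)) := lintegral_mono_set inter_subset_right
      _ = ENNReal.ofReal (∫ t in G, enstrophy (u t)) := by
          symm
          refine ofReal_integral_eq_lintegral_ofReal h.enst_int ?_
          filter_upwards [ae_restrict_mem h.openG.measurableSet] with t ht
          rw [enst_eq (h.spv ht).1]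
          exact setIntegral_nonneg cube_meas fun x _ => gsq_nn _ x
      _ ≤ _ := ENNReal.ofReal_le_ofReal (h.enst_le.trans (le_abs_self D))

/-- Slow growth. -/
theorem growth {q : ℝ} (hq : 3 < q) {B : ℝ} (hB : 1 < B) : ∃ κ : ℝ, 0 < κ ∧ ∀ (T E D : ℝ)
    (G : Set ℝ) (u : ℝ → V → V) (p : ℝ → V → ℝ), Turb 1 T E D G u p → ∀ (j : Fin 3) (η : ℝ),
    0 < η → ∀ k₀ : ℕ, 2 ≤ k₀ → ∃ Z : ℝ, 0 < Z ∧ ∀ c s₁ t₀ : ℝ, s₁ ∈ G → η ≤ t₀ - s₁ → t₀ ≤ T →
    t₀ - s₁ ≤ 1 → (∀ m, k₀ ≤ m → am q G u j c s₁ t₀ m ≤ ENNReal.ofReal κ) →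
      ∀ n, em G u j c s₁ t₀ n ≤ ENNReal.ofReal (Z * B ^ n) := by
  obtain ⟨K, hK, hrec⟩ := em_rec hq
  have hB1 : 0 < B - 1 := by linarith
  refine ⟨(B - 1) / (4 * K * B), by positivity, ?_⟩
  intro T E D G u p h j η hη k₀ hk₀
  set W := (Wf G u p j).toReal with hW
  have hWt : Wf G u p j = ENNReal.ofReal W := (ENNReal.ofReal_toReal (gz_fin h j)).symm
  have hW0 : 0 ≤ W := ENNReal.toReal_nonneg
  have hrk := rr_pos k₀
  set X : ℝ := 3 * (Real.exp (2 * Real.pi ^ 2) * (√η)⁻¹ * E ^ 2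
    + 8 * Real.exp (2 * Real.pi ^ 2) * ((rr k₀ ^ 2)⁻¹ * W)) with hX
  have hX0 : 0 ≤ X := by positivity
  set Z : ℝ := 4 * X + E ^ 2 + 2 ^ k₀ * (E ^ 2 + |D|) + 1 with hZ
  have hZ0 : 0 < Z := by positivity
  refine ⟨Z, hZ0, ?_⟩
  intro c s₁ t₀ hs₁ hη1 hT h1 ha n
  have hst : s₁ < t₀ := by linarith
  set κ : ℝ := (B - 1) / (4 * K * B) with hκ
  have hκ0 : 0 < κ := by positivity
  induction n using Nat.strong_induction_on with
  | _ n ih =>
    have hBn : 1 ≤ B ^ n := one_le_pow₀ hB.le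
    by_cases hn : n < k₀
    · refine (em_crude h j c s₁ t₀ n).trans (ENNReal.ofReal_le_ofReal ?_)
      have h2 : (2 : ℝ) ^ n ≤ 2 ^ k₀ := pow_le_pow_right₀ (by norm_num) hn.le
      calc 2 ^ n * (E ^ 2 + |D|) ≤ 2 ^ k₀ * (E ^ 2 + |D|) := by gcongr
        _ ≤ Z := by
            rw [hZ]
            nlinarith [sq_nonneg E]
        _ ≤ Z * B ^ n := le_mul_of_one_le_right hZ0.le hBn
    · push Not at hn
      refine (hrec T E D G u p h j c s₁ t₀ hs₁ hst hT h1 k₀ hk₀ n hn).trans ?_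
      have hXb : 3 * (ENNReal.ofReal (Real.exp (2 * Real.pi ^ 2) * (√(t₀ - s₁))⁻¹)
          * ENNReal.ofReal (E ^ 2) + ENNReal.ofReal (8 * Real.exp (2 * Real.pi ^ 2))
          * (ENNReal.ofReal (rr k₀ ^ 2)⁻¹ * Wf G u p j)) ≤ ENNReal.ofReal X := by
        rw [hWt, hX, ENNReal.ofReal_mul (p := 3) (by norm_num),
          ENNReal.ofReal_add (by positivity) (by positivity),
          ENNReal.ofReal_mul (p := Real.exp (2 * Real.pi ^ 2) * (√η)⁻¹) (by positivity),
          ENNReal.ofReal_mul (p := 8 * Real.exp (2 * Real.pi ^ 2)) (by positivity),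
          ENNReal.ofReal_mul (p := (rr k₀ ^ 2)⁻¹) (by positivity),
          show ENNReal.ofReal 3 = 3 by norm_num]
        have h3 : (√(t₀ - s₁))⁻¹ ≤ (√η)⁻¹ :=
          inv_anti₀ (Real.sqrt_pos.2 hη) (Real.sqrt_le_sqrt hη1)
        gcongr
      have hsum : ∑ m ∈ Finset.Icc k₀ n, am q G u j c s₁ t₀ m
          * ((Finset.range (m - 1)).sup (em G u j c s₁ t₀) + ENNReal.ofReal (E ^ 2))
          ≤ ENNReal.ofReal (κ * ((Z + E ^ 2) * (B ^ (n + 1) / (B - 1)))) := by
        calc ∑ m ∈ Finset.Icc k₀ n, am q G u j c s₁ t₀ m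
              * ((Finset.range (m - 1)).sup (em G u j c s₁ t₀) + ENNReal.ofReal (E ^ 2))
            ≤ ∑ m ∈ Finset.Icc k₀ n, ENNReal.ofReal (κ * ((Z + E ^ 2) * B ^ m)) := by
              refine Finset.sum_le_sum fun m hm => ?_
              have hm1 := (Finset.mem_Icc.1 hm).1
              have hm2 := (Finset.mem_Icc.1 hm).2
              have hBm : 1 ≤ B ^ m := one_le_pow₀ hB.le
              rw [ENNReal.ofReal_mul hκ0.le]
              refine mul_le_mul' (ha m hm1) ?_
              rw [add_mul, ENNReal.ofReal_add (by positivity) (by positivity)]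
              refine add_le_add (Finset.sup_le fun i hi => ?_) (ENNReal.ofReal_le_ofReal ?_)
              · have hi' := Finset.mem_range.1 hi
                refine (ih i (by omega)).trans (ENNReal.ofReal_le_ofReal ?_)
                have : B ^ i ≤ B ^ m := pow_le_pow_right₀ hB.le (by omega)
                gcongr
              · exact le_mul_of_one_le_right (sq_nonneg E) hBm
          _ = ENNReal.ofReal (∑ m ∈ Finset.Icc k₀ n, κ * ((Z + E ^ 2) * B ^ m)) :=
              (ENNReal.ofReal_sum_of_nonneg fun m _ => by positivity).symm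
          _ ≤ _ := by
              apply ENNReal.ofReal_le_ofReal
              rw [← Finset.mul_sum, ← Finset.mul_sum]
              have h4 : ∑ m ∈ Finset.Icc k₀ n, B ^ m ≤ B ^ (n + 1) / (B - 1) := by
                calc ∑ m ∈ Finset.Icc k₀ n, B ^ m ≤ ∑ m ∈ Finset.range (n + 1), B ^ m := by
                      refine Finset.sum_le_sum_of_subset_of_nonneg ?_ fun i _ _ => by positivity
                      intro m hm
                      have := (Finset.mem_Icc.1 hm).2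
                      exact Finset.mem_range.2 (by omega)
                  _ = (B ^ (n + 1) - 1) / (B - 1) := geom_sum_eq hB.ne' _
                  _ ≤ _ := by
                      gcongr
                      linarith
              gcongr
      calc _ ≤ ENNReal.ofReal X + ENNReal.ofReal K
            * ENNReal.ofReal (κ * ((Z + E ^ 2) * (B ^ (n + 1) / (B - 1)))) :=
            add_le_add hXb (mul_le_mul' le_rfl hsum)
        _ = ENNReal.ofReal (X + K * (κ * ((Z + E ^ 2) * (B ^ (n + 1) / (B - 1))))) := by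
            rw [← ENNReal.ofReal_mul hK.le, ← ENNReal.ofReal_add hX0 (by positivity)]
        _ ≤ _ := by
            apply ENNReal.ofReal_le_ofReal
            have e5 : K * (κ * ((Z + E ^ 2) * (B ^ (n + 1) / (B - 1)))) = (Z + E ^ 2) / 4 * B ^ n := by
              rw [hκ]
              field_simp
              ring
            rw [e5]
            have h6 : X ≤ Z / 4 := by
              rw [hZ]
              have : 0 ≤ 2 ^ k₀ * (E ^ 2 + |D|) := by positivity
              nlinarith [sq_nonneg E]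
            have h7 : E ^ 2 ≤ Z := by
              rw [hZ]
              have : 0 ≤ 2 ^ k₀ * (E ^ 2 + |D|) := by positivity
              linarith
            nlinarith

end Pool.Agent.Helper30K1
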