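import Pool.Agent.Helper30K1.En3

/-!
One velocity component (helper30): conclusion of the iteration.
-/

set_option autoImplicit false

open MeasureTheory Set Metric Filter Topology
open scoped ContDiff ENNReal

namespace Pool.Agent.Helper30K1

open H459R3.NS W221.NS Pool.Agent.Y8

section

variable {T E D : ℝ} {G : Set ℝ} {u : ℝ → V → V} {p : ℝ → V → ℝ}

/-- The scale invariant energies are bounded. -/
theorem bound_all {q : ℝ} (hq : 3 < q) (h : Turb 1 T E D G u p) (j : Fin 3) (c : ℝ) {s₁ t₀ : ℝ}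
    (hs : s₁ ∈ G) (hst : s₁ < t₀) (hT : t₀ ≤ T) (h1 : t₀ - s₁ ≤ 1) {k₀ : ℕ} (hk₀ : 2 ≤ k₀)
    (ha : ∑' m, am q G u j c s₁ t₀ (m + k₀) ≠ ⊤) :
    ∃ M : ℝ≥0∞, M ≠ ⊤ ∧ (∀ n, em G u j c s₁ t₀ n ≤ M) ∧ ∀ n, k₀ ≤ n → Gw G u j c s₁ t₀ n ≤ M := by
  obtain ⟨C, hC, hf⟩ := flux_w hq
  set e := em G u j c s₁ t₀ with he
  set a := am q G u j c s₁ t₀ with haa
  set E₀ := ENNReal.ofReal (E ^ 2) with hE₀
  set K1' := ENNReal.ofReal (Real.exp (2 * Real.pi ^ 2) * (√(t₀ - s₁))⁻¹) with hK1
  set K2 := ENNReal.ofReal (8 * Real.exp (2 * Real.pi ^ 2)) with hK2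
  set W := Wf G u p j with hW
  have hWt : W ≠ ⊤ := gz_fin h j
  set X := K1' * E₀ + K2 * (ENNReal.ofReal (rr k₀ ^ 2)⁻¹ * W) with hX
  have hXt : X ≠ ⊤ := ENNReal.add_ne_top.2 ⟨ENNReal.mul_ne_top ENNReal.ofReal_ne_top
    ENNReal.ofReal_ne_top, ENNReal.mul_ne_top ENNReal.ofReal_ne_top
      (ENNReal.mul_ne_top ENNReal.ofReal_ne_top hWt)⟩
  set K := K2 * (4 * ENNReal.ofReal C) with hK
  have hKt : K ≠ ⊤ := ENNReal.mul_ne_top ENNReal.ofReal_ne_top
    (ENNReal.mul_ne_top (by norm_num) ENNReal.ofReal_ne_top)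
  have hR : ∀ n, k₀ ≤ n → Rn G u p j c s₁ t₀ E k₀ n ≤ X + K * ∑ m ∈ Finset.Icc k₀ n,
      a m * ((Finset.range (m - 1)).sup e + E₀) := by
    intro n hn
    unfold Rn
    rw [hX, hK, mul_add, ← add_assoc]
    refine add_le_add le_rfl ?_
    have h2 : ∑ m ∈ Finset.Icc k₀ n, ENNReal.ofReal (rr m ^ 2)⁻¹ * Fw G u p j c s₁ t₀ m
        ≤ ENNReal.ofReal C * ∑ m ∈ Finset.Icc k₀ n,
          a m * ((Finset.range (m - 1)).sup e + E₀) := by
      rw [Finset.mul_sum]
      refine Finset.sum_le_sum fun m hm => ?_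
      have hm2 : 2 ≤ m := hk₀.trans (Finset.mem_Icc.1 hm).1
      have h3 := hf T E D G u p h j c s₁ t₀ (m - 2) ((Finset.range (m - 1)).sup e)
        (fun i hi => Finset.le_sup (f := e) (Finset.mem_range.2 (by omega)))
      rw [show m - 2 + 2 = m by omega] at h3
      have hm0 := rr_pos m
      calc ENNReal.ofReal (rr m ^ 2)⁻¹ * Fw G u p j c s₁ t₀ m
          ≤ ENNReal.ofReal (rr m ^ 2)⁻¹ * (ENNReal.ofReal C * (ENNReal.ofReal (rr m ^ 2)
            * (a m * ((Finset.range (m - 1)).sup e + E₀)))) := by gcongr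
        _ = (ENNReal.ofReal (rr m ^ 2)⁻¹ * ENNReal.ofReal (rr m ^ 2)) * (ENNReal.ofReal C
            * (a m * ((Finset.range (m - 1)).sup e + E₀))) := by ring
        _ = _ := by
            rw [← ENNReal.ofReal_mul (by positivity), inv_mul_cancel₀ (by positivity),
              ENNReal.ofReal_one, one_mul]
    calc K2 * (4 * ∑ m ∈ Finset.Icc k₀ n, ENNReal.ofReal (rr m ^ 2)⁻¹ * Fw G u p j c s₁ t₀ m)
        ≤ K2 * (4 * (ENNReal.ofReal C * ∑ m ∈ Finset.Icc k₀ n,
          a m * ((Finset.range (m - 1)).sup e + E₀))) := by gcongr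
      _ = _ := by ring
  obtain ⟨Z, hZ, hZe⟩ := iter_fin (e := e) (a := a) (k₀ := k₀) (X := 3 * X) (E₀ := E₀)
    (ENNReal.mul_ne_top (by norm_num) hXt) ENNReal.ofReal_ne_top
    (fun n => em_fin h j c s₁ t₀ n) ha (3 * K) (ENNReal.mul_ne_top (by norm_num) hKt) (by
      intro n hn
      calc e n ≤ 3 * Rn G u p j c s₁ t₀ E k₀ n := em_le h j c hs hst hT h1 hn
        _ ≤ 3 * (X + K * ∑ m ∈ Finset.Icc k₀ n,
          a m * ((Finset.range (m - 1)).sup e + E₀)) := by
            gcongr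
            exact hR n hn
        _ = _ := by ring)
  set S := ∑' m, a (m + k₀) with hS
  have hsum : ∀ n, ∑ m ∈ Finset.Icc k₀ n, a m ≤ S := by
    intro n
    have h2 : ∑ m ∈ Finset.Icc k₀ n, a m
        = ∑ m ∈ (Finset.Icc k₀ n).image (fun m => m - k₀), a (m + k₀) := by
      rw [Finset.sum_image]
      · refine Finset.sum_congr rfl fun m hm => ?_
        have := (Finset.mem_Icc.1 hm).1
        congr 1
        omega
      · intro x hx y hy hxy
        have h3 := (Finset.mem_Icc.1 hx).1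
        have h4 := (Finset.mem_Icc.1 hy).1
        simp only at hxy
        omega
    rw [h2]
    exact ENNReal.sum_le_tsum _
  refine ⟨max Z (X + K * (S * (Z + E₀))), ?_, fun n => (hZe n).trans (le_max_left _ _),
    fun n hn => ?_⟩
  · rw [Ne, max_eq_top, not_or]
    exact ⟨hZ, ENNReal.add_ne_top.2 ⟨hXt, ENNReal.mul_ne_top hKt (ENNReal.mul_ne_top ha
      (ENNReal.add_ne_top.2 ⟨hZ, ENNReal.ofReal_ne_top⟩))⟩⟩
  · refine le_trans ?_ (le_max_right _ _)
    refine (Gw_le h j c hs hst hT h1 hn).trans ((hR n hn).trans ?_)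
    gcongr
    calc ∑ m ∈ Finset.Icc k₀ n, a m * ((Finset.range (m - 1)).sup e + E₀)
        ≤ ∑ m ∈ Finset.Icc k₀ n, a m * (Z + E₀) := by
          refine Finset.sum_le_sum fun m _ => ?_
          gcongr
          exact Finset.sup_le fun i _ => hZe i
      _ = (∑ m ∈ Finset.Icc k₀ n, a m) * (Z + E₀) := (Finset.sum_mul _ _ _).symm
      _ ≤ _ := by
          gcongr
          exact hsum n

/-- The dissipation away from the tip is small at some scales. -/
theorem small_scale (h : Turb 1 T E D G u p) (j : Fin 3) (c : ℝ) {s₁ t₀ : ℝ}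
    {k₀ : ℕ} {M : ℝ≥0∞} (hM : M ≠ ⊤) (hG : ∀ n, k₀ ≤ n → Gw G u j c s₁ t₀ n ≤ M)
    (L : ℕ) {ε : ℝ≥0∞} (hε : ε ≠ 0) (N : ℕ) (hN : rr N ^ 2 ≤ t₀ - s₁) (h1 : t₀ - s₁ ≤ 1) :
    ∃ m, N ≤ m ∧ ENNReal.ofReal (rr m)⁻¹ * ∫⁻ t in Ioo (t₀ - rr m ^ 2) (t₀ - rr (m + L) ^ 2) ∩ G,
      Bb (u t) j c (rr m) ≤ ε := by
  classical
  by_contra hcon
  push Not at hcon
  set g : ℕ → ℝ≥0∞ := fun m => ENNReal.ofReal (rr m)⁻¹
    * ∫⁻ t in Ioo (t₀ - rr m ^ 2) (t₀ - rr (m + L) ^ 2) ∩ G, Bb (u t) j c (rr m) with hg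
  set K : ℝ := √2 * Real.exp (4 ^ L) with hK
  have hK0 : 0 < K := by positivity
  obtain ⟨n, hn⟩ := ENNReal.exists_nat_mul_gt hε (b := ENNReal.ofReal K * M)
    (ENNReal.mul_ne_top ENNReal.ofReal_ne_top hM)
  refine absurd hn (not_lt.2 ?_)
  set n₀ := max k₀ (N + (n + 1) * L + 1) with hn₀
  have hk₀n : k₀ ≤ n₀ := le_max_left _ _
  set f : ℝ → ℝ≥0∞ := fun τ => ∫⁻ x in cube,
    ENNReal.ofReal (2 * (gsq (u τ) x * wt j c (t₀ + rr n₀ ^ 2) τ x)) with hf
  set Wd : ℕ → Set ℝ := fun i =>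
    Ioo (t₀ - rr (N + i * L) ^ 2) (t₀ - rr (N + i * L + L) ^ 2) ∩ G with hWd
  have hrm : ∀ {a b : ℕ}, a ≤ b → rr b ^ 2 ≤ rr a ^ 2 := fun {a b} hab =>
    pow_le_pow_left₀ (rr_pos b).le (rr_anti hab) 2
  have hWm : ∀ i, MeasurableSet (Wd i) := fun i => measurableSet_Ioo.inter h.openG.measurableSet
  have hdis : Pairwise (Function.onFun Disjoint Wd) := by
    have key : ∀ a b, a < b → Disjoint (Wd a) (Wd b) := by
      intro a b hab
      rw [Set.disjoint_left]
      intro t ht1 ht2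
      have h2 : N + a * L + L ≤ N + b * L := by
        have := Nat.mul_le_mul_right L (Nat.succ_le_of_lt hab)
        rw [Nat.succ_mul] at this
        omega
      have h3 := hrm h2
      have h4 := ht1.1.2
      have h5 := ht2.1.1
      linarith
    intro a b hab
    rcases lt_or_gt_of_ne hab with h2 | h2
    · exact key a b h2
    · exact (key b a h2).symm
  -- the comparison at one scale
  have hone : ∀ i < n, g (N + i * L) ≤ ENNReal.ofReal K * ∫⁻ τ in Wd i, f τ := by
    intro i hi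
    set m := N + i * L with hm
    have hm0 := rr_pos m
    have hmL : m + L ≤ n₀ := by
      have h2 : (i + 1) * L ≤ (n + 1) * L := Nat.mul_le_mul_right L (by omega)
      rw [Nat.succ_mul] at h2
      have h3 : N + (n + 1) * L + 1 ≤ n₀ := le_max_right _ _
      omega
    have hrL : rr (m + L) = rr m * (1 / 2) ^ L := by
      unfold rr
      rw [pow_add]
    calc g m ≤ ENNReal.ofReal (rr m)⁻¹ * ∫⁻ τ in Wd i, ENNReal.ofReal (rr m * K) * f τ := by
          rw [hg]
          refine mul_le_mul' le_rfl ?_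
          refine setLIntegral_mono' (hWm i) fun τ hτ => ?_
          rw [hf]
          simp only
          rw [← lintegral_const_mul' _ _ ENNReal.ofReal_ne_top]
          unfold Bb
          refine (setLIntegral_mono' (cube_meas.inter (Sb_meas j c (rr m))) fun x hx => ?_).trans
            (lintegral_mono_set inter_subset_left)
          rw [← ENNReal.ofReal_mul (by positivity)]
          refine ENNReal.ofReal_le_ofReal ?_
          have hτ1 := hτ.1.1
          have hτ2 := hτ.1.2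
          have hgn := gsq_nn (u τ) x
          have hL0 := rr_pos (m + L)
          have hn0 := rr_pos n₀
          have hnm := hrm (show m ≤ n₀ by omega)
          set y := t₀ + rr n₀ ^ 2 - τ with hy
          have hy1 : rr (m + L) ^ 2 < y := by nlinarith
          have hy2 : y ≤ 2 * rr m ^ 2 := by linarith
          have hy0 : 0 < y := (by positivity : 0 < rr (m + L) ^ 2).trans hy1
          have hw : 1 ≤ rr m * K * wt j c (t₀ + rr n₀ ^ 2) τ x := by
            have hwe : wt j c (t₀ + rr n₀ ^ 2) τ x = Real.exp (Real.pi ^ 2 * y)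
                * ((√y)⁻¹ * Real.exp (-(Qf c (x j) / (4 * y)))) := by
              unfold wt w1
              rw [mul_assoc]
            rw [hwe]
            have f1 : 1 ≤ Real.exp (Real.pi ^ 2 * y) := Real.one_le_exp (by positivity)
            have f2 : (√2 * rr m)⁻¹ ≤ (√y)⁻¹ := by
              apply inv_anti₀ (Real.sqrt_pos.2 hy0)
              calc √y ≤ √(2 * rr m ^ 2) := Real.sqrt_le_sqrt hy2
                _ = √2 * rr m := by rw [Real.sqrt_mul (by norm_num), Real.sqrt_sq hm0.le]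
            have f3 : Real.exp (-(4 ^ L)) ≤ Real.exp (-(Qf c (x j) / (4 * y))) := by
              apply Real.exp_le_exp.2
              apply neg_le_neg
              have hQ : Qf c (x j) < rr m ^ 2 := mem_Sb.1 hx.2
              rw [div_le_iff₀ (by positivity)]
              have h4 : (1 / 2 : ℝ) ^ L * 2 ^ L = 1 := by
                rw [← mul_pow]
                norm_num
              have h5 : rr (m + L) ^ 2 * 4 ^ L = rr m ^ 2 := by
                rw [hrL, show (4 : ℝ) = 2 ^ 2 by norm_num, ← pow_mul, mul_comm 2 L, pow_mul,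
                  mul_pow]
                calc rr m ^ 2 * ((1 / 2) ^ L) ^ 2 * (2 ^ L) ^ 2
                    = rr m ^ 2 * ((1 / 2) ^ L * 2 ^ L) ^ 2 := by ring
                  _ = rr m ^ 2 := by rw [h4, one_pow, mul_one]
              have h6 : (0 : ℝ) < 4 ^ L := by positivity
              nlinarith
            calc (1 : ℝ) = rr m * (√2 * Real.exp (4 ^ L))
                * (1 * ((√2 * rr m)⁻¹ * Real.exp (-(4 ^ L)))) := by
                  rw [Real.exp_neg]
                  field_simp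
              _ ≤ _ := by
                  rw [hK]
                  gcongr
          calc gsq (u τ) x = gsq (u τ) x * 1 := (mul_one _).symm
            _ ≤ gsq (u τ) x * (rr m * K * wt j c (t₀ + rr n₀ ^ 2) τ x) := by gcongr
            _ = rr m * K * (gsq (u τ) x * wt j c (t₀ + rr n₀ ^ 2) τ x) := by ring
            _ ≤ rr m * K * (2 * (gsq (u τ) x * wt j c (t₀ + rr n₀ ^ 2) τ x)) := by
                have h7 : 0 ≤ gsq (u τ) x * wt j c (t₀ + rr n₀ ^ 2) τ x :=
                  mul_nonneg hgn (wt_nn j c _ τ x)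
                have h8 : 0 ≤ rr m * K := by positivity
                nlinarith [mul_nonneg h8 h7]
      _ = (ENNReal.ofReal (rr m)⁻¹ * ENNReal.ofReal (rr m * K)) * ∫⁻ τ in Wd i, f τ := by
          rw [lintegral_const_mul' _ _ ENNReal.ofReal_ne_top]
          ring
      _ = _ := by
          rw [← ENNReal.ofReal_mul (by positivity), ← mul_assoc, inv_mul_cancel₀ hm0.ne', one_mul]
  calc (n : ℝ≥0∞) * ε = ∑ i ∈ Finset.range n, ε := by simp
    _ ≤ ∑ i ∈ Finset.range n, g (N + i * L) :=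
        Finset.sum_le_sum fun i _ => (hcon (N + i * L) (by omega)).le
    _ ≤ ∑ i ∈ Finset.range n, ENNReal.ofReal K * ∫⁻ τ in Wd i, f τ :=
        Finset.sum_le_sum fun i hi => hone i (Finset.mem_range.1 hi)
    _ = ENNReal.ofReal K * ∫⁻ τ in ⋃ i ∈ Finset.range n, Wd i, f τ := by
        rw [← Finset.mul_sum, lintegral_biUnion_finset (hdis.set_pairwise _) fun i _ => hWm i]
    _ ≤ ENNReal.ofReal K * Gw G u j c s₁ t₀ n₀ := by
        refine mul_le_mul' le_rfl ?_
        unfold Gw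
        refine lintegral_mono_set ?_
        refine iUnion₂_subset fun i _ => ?_
        refine inter_subset_inter_left _ ?_
        intro t ht
        have h2 := hrm (show N ≤ N + i * L by omega)
        have h3 := rr_pos (N + i * L + L)
        exact ⟨by linarith [ht.1], by nlinarith [ht.2]⟩
    _ ≤ _ := mul_le_mul' le_rfl (hG n₀ hk₀n)

end

end Pool.Agent.Helper30K1
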