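import Pool.Agent.Y494.NS.KER2

/-!
One velocity component (helper30): bounds for the cut-off kernel, with first derivatives, and for
four derivatives of the smooth remainder.
-/

set_option autoImplicit false

open MeasureTheory Set Metric Filter Topology
open scoped ContDiff

namespace Pool.Agent.Helper30K1

open H459R3.NS Pool.Agent.Y8 Pool.Agent.Y494.NS.Ker

/-- The smooth remainder `lap gg + eta`. -/
noncomputable def kap (r : ℝ) (x : V) : ℝ := lap (gg r) x + eta r x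

theorem kap_eq {r : ℝ} (hr : 0 < r) : kap r = fun y => FK (r, y) := FK_eq hr

theorem ker_all : ∃ C : ℝ, 1 ≤ C ∧ ∀ r : ℝ, 0 < r → r ≤ 1 →
    ContDiff ℝ ∞ (gg r) ∧ ContDiff ℝ ∞ (eta r) ∧ ContDiff ℝ ∞ (kap r) ∧ (∀ x, 0 ≤ eta r x) ∧
    ∀ x : V,
      (1 / 2 ≤ ‖x‖ → gg r x = 0 ∧ eta r x = 0) ∧ (1 / 2 < ‖x‖ → kap r x = 0) ∧
      (∀ i, |pd i (gg r) x| ≤ C / (r + ‖x‖) ^ 2) ∧
      (∀ i j, |pd i (pd j (gg r)) x| ≤ C / (r + ‖x‖) ^ 3) ∧
      eta r x ≤ C * r ^ 2 / (r + ‖x‖) ^ 5 ∧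
      |kap r x| ≤ C ∧ |lap (lap (kap r)) x| ≤ C := by
  obtain ⟨C0, hC0, h0⟩ := t_KER2
  have hD1 : ∃ C : ℝ, 0 < C ∧ ∀ i : Fin 3, ∀ r x, 0 < r → r ≤ 1 →
      |Dx i GG (r, x)| ≤ C * ((r + ‖x‖) ^ 2)⁻¹ := by
    refine unif (P := fun (i : Fin 3) C => ∀ r x, 0 < r → r ≤ 1 →
      |Dx i GG (r, x)| ≤ C * ((r + ‖x‖) ^ 2)⁻¹) ?_ ?_
    · intro q a b hab h r x hr hr1
      refine (h r x hr hr1).trans (mul_le_mul_of_nonneg_right hab ?_)
      positivity
    · intro i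
      refine glue (F0 := Dx i (PP 1)) (Dx_smooth GG_smooth i).continuousOn
        ?_ ?_ (Dx_smooth (PP_smooth 1) i).continuousOn (Dx_hom (PP_hom 1) (PP_smooth 1) i)
      · intro z hz
        have := Dx_congr isOpen_W' GG_W' i hz
        rw [this]
        simp [Dx_zero]
      · intro z hz hz'
        exact Dx_congr isOpen_W GG_W i ⟨hz, hz'⟩
  have hF4 := bdd_of (LX_smooth (LX_smooth FK_smooth)).continuousOn
    (LX_congr0 isOpen_Wp (LX_congr0 isOpen_Wp FK_Wp))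
    (LX_congr0 isOpen_W' (LX_congr0 isOpen_W' FK_W'))
  obtain ⟨C1, hC1, h1⟩ := hD1
  obtain ⟨C4, hC4, h4⟩ := hF4
  refine ⟨1 + C0 + C1 + C4, by linarith, ?_⟩
  intro r hr hr1
  obtain ⟨hs, hs2, he, hx⟩ := h0 r hr hr1
  have hks : ContDiff ℝ ∞ (kap r) := by
    rw [kap_eq hr]
    have h8 : ContDiffOn ℝ ∞ (fun y : V => FK (r, y)) univ :=
      FK_smooth.comp (contDiff_prodMk_right r).contDiffOn fun y _ => mem_U hr y
    exact contDiffOn_univ.1 h8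
  refine ⟨hs, hs2, hks, he, fun x => ?_⟩
  have hp : 0 < r + ‖x‖ := by positivity
  have w2 : 0 ≤ ((r + ‖x‖) ^ 2)⁻¹ := by positivity
  have w3 : 0 ≤ ((r + ‖x‖) ^ 3)⁻¹ := by positivity
  have w5 : 0 ≤ r ^ 2 * ((r + ‖x‖) ^ 5)⁻¹ := by positivity
  obtain ⟨g1, g2, -, -, g3, -, -, g4, -⟩ := hx x
  refine ⟨g1, ?_, ?_, ?_, ?_, ?_, ?_⟩
  · intro h
    rw [kap_eq hr]
    exact FK_W' (show ((r, x) : E) ∈ W' from h)
  · intro i
    rw [gg_eq, pd_slice GG_smooth i hr, div_eq_mul_inv]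
    exact (h1 i r x hr hr1).trans (mul_le_mul_of_nonneg_right (by linarith) w2)
  · intro i j
    refine (g4 i j).trans ?_
    rw [div_eq_mul_inv, div_eq_mul_inv]
    exact mul_le_mul_of_nonneg_right (by linarith) w3
  · refine g2.trans ?_
    rw [mul_div_assoc, mul_div_assoc, div_eq_mul_inv]
    exact mul_le_mul_of_nonneg_right (by linarith) w5
  · exact g3.trans (by linarith)
  · rw [kap_eq hr, lap_slice FK_smooth hr, lap_slice (LX_smooth FK_smooth) hr]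
    exact (h4 r x hr hr1).trans (by linarith)

end Pool.Agent.Helper30K1
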