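import Pool.Agent.H459R3.NS.Defs

/-!
One velocity component (helper30): integrals of powers over slabs.
-/

set_option autoImplicit false

open MeasureTheory Set Metric Filter Topology
open scoped ContDiff ENNReal

namespace Pool.Agent.Helper30K1

open H459R3.NS

/-- Integrals of products. -/
theorem lprod : ∀ {n : ℕ} (f : Fin n → ℝ → ℝ≥0∞), (∀ i, Measurable (f i)) →
    ∫⁻ x : Fin n → ℝ, ∏ i, f i (x i) = ∏ i, ∫⁻ s, f i s := by
  intro n
  induction n with
  | zero =>
    intro f _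
    simp [lintegral_const, volume_pi]
  | succ n ih =>
    intro f hf
    have hmp := (volume_preserving_piFinSuccAbove (fun _ : Fin (n + 1) => ℝ) 0).symm
    rw [← hmp.lintegral_comp_emb (MeasurableEquiv.measurableEmbedding _)]
    have e1 : ∀ z : ℝ × (Fin n → ℝ),
        (∏ i, f i ((MeasurableEquiv.piFinSuccAbove (fun _ : Fin (n + 1) => ℝ) 0).symm z i))
          = f 0 z.1 * ∏ i : Fin n, f i.succ (z.2 i) := by
      intro z
      rw [Fin.prod_univ_succ]
      simp [MeasurableEquiv.piFinSuccAbove]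
    simp_rw [e1]
    rw [Fin.prod_univ_succ]
    have h2 : Measurable fun x : Fin n → ℝ => ∏ i : Fin n, f i.succ (x i) := by
      refine Finset.measurable_prod _ fun i _ => ?_
      exact (hf i.succ).comp (measurable_pi_apply i)
    rw [show (volume : Measure (ℝ × (Fin n → ℝ))) = (volume : Measure ℝ).prod volume from rfl,
      lintegral_prod_mul (hf 0).aemeasurable h2.aemeasurable, ih _ fun i => hf i.succ]

theorem lprod3 (j : Fin 3) (F H : ℝ → ℝ≥0∞) (hF : Measurable F) (hH : Measurable H) :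
    ∫⁻ x : V, ∏ i, (if i = j then F else H) (x i) = (∫⁻ s, F s) * (∫⁻ s, H s) ^ 2 := by
  rw [lprod (fun i => if i = j then F else H) (fun i => by split_ifs <;> assumption)]
  rw [Fin.prod_univ_three]
  fin_cases j <;> simp <;> ring

theorem near1 {α : ℝ} (h0 : 0 < α) (h1 : α < 1) {R : ℝ} (hR : 0 < R) :
    ∫⁻ s in Ioo (-R) R, ‖s‖ₑ ^ (-α) ≤ ENNReal.ofReal (2 / (1 - α) * R ^ (1 - α)) := by
  have e1 : ∫⁻ s in Ioo 0 R, ‖s‖ₑ ^ (-α) = ENNReal.ofReal (R ^ (1 - α) / (1 - α)) := by
    have h2 : ∫⁻ s in Ioo 0 R, ‖s‖ₑ ^ (-α) = ∫⁻ s in Ioo 0 R, ENNReal.ofReal (s ^ (-α)) := by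
      refine setLIntegral_congr_fun measurableSet_Ioo fun s hs => ?_
      rw [Real.enorm_of_nonneg hs.1.le, ENNReal.ofReal_rpow_of_pos hs.1]
    have h3 : IntervalIntegrable (fun s : ℝ => s ^ (-α)) volume 0 R :=
      intervalIntegral.intervalIntegrable_rpow' (by linarith)
    have h4 : IntegrableOn (fun s : ℝ => s ^ (-α)) (Ioo 0 R) := by
      have := (intervalIntegrable_iff_integrableOn_Ioo_of_le hR.le).1 h3
      exact this
    rw [h2, ← ofReal_integral_eq_lintegral_ofReal h4]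
    · congr 1
      rw [← integral_Ioc_eq_integral_Ioo, ← intervalIntegral.integral_of_le hR.le,
        integral_rpow (Or.inl (by linarith))]
      rw [Real.zero_rpow (by linarith : -α + 1 ≠ 0), sub_zero, show -α + 1 = 1 - α by ring]
    · filter_upwards [self_mem_ae_restrict measurableSet_Ioo] with s hs
      exact Real.rpow_nonneg hs.1.le _
  have e2 : ∫⁻ s in Ioo (-R) 0, ‖s‖ₑ ^ (-α) = ∫⁻ s in Ioo 0 R, ‖s‖ₑ ^ (-α) := by
    have hm : MeasurePreserving (fun s : ℝ => -s) volume volume := Measure.measurePreserving_neg _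
    have := hm.setLIntegral_comp_preimage_emb (MeasurableEquiv.neg ℝ).measurableEmbedding
      (fun s => ‖s‖ₑ ^ (-α)) (Ioo 0 R)
    rw [← this]
    simp
  have hsub : Ioo (-R) R ⊆ Ioo (-R) 0 ∪ ({0} ∪ Ioo 0 R) := by
    intro s hs
    rcases lt_trichotomy s 0 with h | h | h
    · exact Or.inl ⟨hs.1, h⟩
    · exact Or.inr (Or.inl h)
    · exact Or.inr (Or.inr ⟨h, hs.2⟩)
  calc ∫⁻ s in Ioo (-R) R, ‖s‖ₑ ^ (-α) ≤ ∫⁻ s in Ioo (-R) 0 ∪ ({0} ∪ Ioo 0 R), ‖s‖ₑ ^ (-α) :=
        lintegral_mono_set hsub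
    _ ≤ (∫⁻ s in Ioo (-R) 0, ‖s‖ₑ ^ (-α)) + ((∫⁻ s in ({0} : Set ℝ), ‖s‖ₑ ^ (-α))
          + ∫⁻ s in Ioo 0 R, ‖s‖ₑ ^ (-α)) := by
        refine (lintegral_union_le _ _ _).trans ?_
        gcongr
        exact lintegral_union_le _ _ _
    _ = ENNReal.ofReal (R ^ (1 - α) / (1 - α)) + ENNReal.ofReal (R ^ (1 - α) / (1 - α)) := by
        rw [e2, e1]
        simp
    _ = _ := by
        rw [← ENNReal.ofReal_add]
        · congr 1
          field_simp
          ring
        all_goals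
          have : 0 < 1 - α := by linarith
          positivity

theorem far1 {α : ℝ} (h1 : 1 < α) {ρ : ℝ} (hρ : 0 < ρ) :
    ∫⁻ s : ℝ, ENNReal.ofReal (max |s| ρ ^ (-α)) ≤ ENNReal.ofReal (2 * α / (α - 1) * ρ ^ (1 - α)) := by
  have hα : 0 < α - 1 := by linarith
  have e1 : ∫⁻ s in Ioi ρ, ENNReal.ofReal (max |s| ρ ^ (-α))
      = ENNReal.ofReal (ρ ^ (1 - α) / (α - 1)) := by
    have h2 : ∫⁻ s in Ioi ρ, ENNReal.ofReal (max |s| ρ ^ (-α))
        = ∫⁻ s in Ioi ρ, ENNReal.ofReal (s ^ (-α)) := by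
      refine setLIntegral_congr_fun measurableSet_Ioi fun s hs => ?_
      have h3 : (0 : ℝ) < s := hρ.trans hs
      rw [abs_of_pos h3, max_eq_left (le_of_lt hs)]
    have h4 : IntegrableOn (fun s : ℝ => s ^ (-α)) (Ioi ρ) :=
      integrableOn_Ioi_rpow_of_lt (by linarith) hρ
    rw [h2, ← ofReal_integral_eq_lintegral_ofReal h4]
    · congr 1
      rw [integral_Ioi_rpow_of_lt (by linarith) hρ]
      rw [show -α + 1 = -(α - 1) by ring, show (1 : ℝ) - α = -(α - 1) by ring]
      field_simp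
    · filter_upwards [self_mem_ae_restrict measurableSet_Ioi] with s hs
      exact Real.rpow_nonneg (hρ.trans hs).le _
  have e2 : ∫⁻ s in Iio (-ρ), ENNReal.ofReal (max |s| ρ ^ (-α))
      = ∫⁻ s in Ioi ρ, ENNReal.ofReal (max |s| ρ ^ (-α)) := by
    have hm : MeasurePreserving (fun s : ℝ => -s) volume volume := Measure.measurePreserving_neg _
    have := hm.setLIntegral_comp_preimage_emb (MeasurableEquiv.neg ℝ).measurableEmbedding
      (fun s => ENNReal.ofReal (max |s| ρ ^ (-α))) (Ioi ρ)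
    rw [← this]
    simp
  have e3 : ∫⁻ s in Icc (-ρ) ρ, ENNReal.ofReal (max |s| ρ ^ (-α))
      ≤ ENNReal.ofReal (2 * ρ ^ (1 - α)) := by
    have h2 : ∀ s ∈ Icc (-ρ) ρ, ENNReal.ofReal (max |s| ρ ^ (-α)) = ENNReal.ofReal (ρ ^ (-α)) := by
      intro s hs
      rw [max_eq_right (abs_le.2 hs)]
    rw [setLIntegral_congr_fun measurableSet_Icc h2, setLIntegral_const, Real.volume_Icc,
      ← ENNReal.ofReal_mul (by positivity)]
    refine ENNReal.ofReal_le_ofReal (le_of_eq ?_)
    rw [show (1 : ℝ) - α = -α + 1 by ring, Real.rpow_add hρ, Real.rpow_one]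
    ring
  have hsub : (univ : Set ℝ) ⊆ Icc (-ρ) ρ ∪ (Iio (-ρ) ∪ Ioi ρ) := by
    intro s _
    rcases lt_or_ge s (-ρ) with h | h
    · exact Or.inr (Or.inl h)
    · rcases lt_or_ge ρ s with h' | h'
      · exact Or.inr (Or.inr h')
      · exact Or.inl ⟨h, h'⟩
  calc ∫⁻ s : ℝ, ENNReal.ofReal (max |s| ρ ^ (-α))
      = ∫⁻ s in univ, ENNReal.ofReal (max |s| ρ ^ (-α)) := by rw [setLIntegral_univ]
    _ ≤ ∫⁻ s in Icc (-ρ) ρ ∪ (Iio (-ρ) ∪ Ioi ρ), ENNReal.ofReal (max |s| ρ ^ (-α)) :=
        lintegral_mono_set hsub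
    _ ≤ (∫⁻ s in Icc (-ρ) ρ, ENNReal.ofReal (max |s| ρ ^ (-α)))
          + ((∫⁻ s in Iio (-ρ), ENNReal.ofReal (max |s| ρ ^ (-α)))
          + ∫⁻ s in Ioi ρ, ENNReal.ofReal (max |s| ρ ^ (-α))) := by
        refine (lintegral_union_le _ _ _).trans ?_
        gcongr
        exact lintegral_union_le _ _ _
    _ ≤ ENNReal.ofReal (2 * ρ ^ (1 - α)) + (ENNReal.ofReal (ρ ^ (1 - α) / (α - 1))
          + ENNReal.ofReal (ρ ^ (1 - α) / (α - 1))) := by
        rw [e2, e1]
        gcongr
    _ = _ := by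
        have h3 : 0 < ρ ^ (1 - α) := Real.rpow_pos_of_pos hρ _
        rw [← ENNReal.ofReal_add (by positivity) (by positivity),
          ← ENNReal.ofReal_add (by positivity) (by positivity)]
        congr 1
        field_simp
        ring

/-- The square of the periodic distance to `c`. -/
noncomputable def Qf (c s : ℝ) : ℝ := Real.sin (Real.pi * (s - c)) ^ 2 / Real.pi ^ 2

theorem Qf_nonneg (c s : ℝ) : 0 ≤ Qf c s := by unfold Qf; positivity

theorem Qf_small {c s : ℝ} {R : ℝ} (hR : 0 < R) (h : Qf c s < R ^ 2) :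
    |s - c - round (s - c)| < 2 * R := by
  set n := round (s - c) with hn
  set x := s - c - n with hx
  have h1 : |x| ≤ 1 / 2 := abs_sub_round (s - c)
  have hpi := Real.pi_pos
  have h2 : |Real.sin (Real.pi * (s - c))| = |Real.sin (Real.pi * x)| := by
    have : Real.pi * (s - c) = Real.pi * x + n * Real.pi := by rw [hx]; ring
    rw [this, Real.sin_add_int_mul_pi, abs_mul, abs_zpow]
    simp
  have h3 : 2 * |x| ≤ |Real.sin (Real.pi * x)| := by
    have h4 : |Real.sin (Real.pi * x)| = Real.sin (Real.pi * |x|) := by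
      have h5 : Real.pi * |x| = |Real.pi * x| := by rw [abs_mul, abs_of_pos hpi]
      rw [h5, Real.abs_sin_eq_sin_abs_of_abs_le_pi]
      rw [abs_mul, abs_of_pos hpi]
      nlinarith
    rw [h4]
    have h6 := Real.mul_le_sin (x := Real.pi * |x|) (by positivity) (by nlinarith)
    have h7 : 2 / Real.pi * (Real.pi * |x|) = 2 * |x| := by field_simp
    rw [h7] at h6
    exact h6
  have h4 : |Real.sin (Real.pi * (s - c))| < Real.pi * R := by
    unfold Qf at h
    rw [div_lt_iff₀ (by positivity), ← mul_pow] at h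
    have := abs_lt_of_sq_lt_sq h (by positivity)
    rw [mul_comm Real.pi R]
    exact this
  have h5 : Real.pi < 4 := Real.pi_lt_four
  rw [h2] at h4
  nlinarith

theorem meas_slab (c y : ℝ) {R : ℝ} (hR : 0 < R) :
    volume {s : ℝ | |s| < 1 / 2 ∧ Qf c (s + y) < R ^ 2} ≤ ENNReal.ofReal (8 * R) := by
  set n : ℤ := ⌊y - c⌋ with hn
  have hsub : {s : ℝ | |s| < 1 / 2 ∧ Qf c (s + y) < R ^ 2} ⊆
      Ioo (c - y + n - 2 * R) (c - y + n + 2 * R)
        ∪ Ioo (c - y + n + 1 - 2 * R) (c - y + n + 1 + 2 * R) := by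
    rintro s ⟨hs1, hs2⟩
    have h1 := Qf_small hR hs2
    rw [abs_lt] at h1 hs1
    have h2 : round (s + y - c) = n ∨ round (s + y - c) = n + 1 := by
      rw [round_eq]
      have h3 : n ≤ ⌊s + y - c + 1 / 2⌋ := by
        rw [hn]
        exact Int.floor_le_floor (by linarith)
      have h4 : ⌊s + y - c + 1 / 2⌋ ≤ n + 1 := by
        rw [hn, ← Int.floor_add_one]
        exact Int.floor_le_floor (by linarith)
      omega
    rcases h2 with h2 | h2
    · left
      rw [h2] at h1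
      constructor <;> linarith
    · right
      rw [h2] at h1
      push_cast at h1
      constructor <;> linarith
  refine (measure_mono hsub).trans ((measure_union_le _ _).trans ?_)
  rw [Real.volume_Ioo, Real.volume_Ioo, ← ENNReal.ofReal_add (by linarith) (by linarith)]
  exact ENNReal.ofReal_le_ofReal (by linarith)

theorem Qf_cont (c : ℝ) : Continuous (Qf c) := by unfold Qf; fun_prop

/-- The slab of radius `R`. -/
def Sb (j : Fin 3) (c R : ℝ) : Set V := {x | Qf c (x j) < R ^ 2}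

theorem Sb_meas (j : Fin 3) (c R : ℝ) : MeasurableSet (Sb j c R) := by
  apply measurableSet_lt
  · exact ((Qf_cont c).comp (continuous_apply j)).measurable
  · exact measurable_const

theorem abs_le_of (z : V) (i : Fin 3) : ‖z i‖ₑ ≤ ‖z‖ₑ := by
  rw [enorm_le_iff_norm_le]
  exact norm_le_pi_norm z i

/-- The far integral: powers larger than two. -/
theorem farS {b : ℝ} (hb : 2 < b) : ∃ C : ℝ, 0 < C ∧ ∀ (j : Fin 3) (c : ℝ) (y : V) (R ρ : ℝ),
    0 < R → 0 < ρ → ∫⁻ x in {x : V | ρ ≤ ‖x - y‖ ∧ ‖x - y‖ < 1 / 2 ∧ x ∈ Sb j c R},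
      ‖x - y‖ₑ ^ (-b) ≤ ENNReal.ofReal (C * (R * ρ ^ (2 - b))) := by
  have hb2 : 1 < b / 2 := by linarith
  set A : ℝ := 2 * (b / 2) / (b / 2 - 1) with hA
  have hA0 : 0 < A := by
    have : 0 < b / 2 - 1 := by linarith
    positivity
  refine ⟨8 * A ^ 2, by positivity, ?_⟩
  intro j c y R ρ hR hρ
  set F : ℝ → ℝ≥0∞ := indicator {s : ℝ | |s| < 1 / 2 ∧ Qf c (s + y j) < R ^ 2} 1 with hF
  set H : ℝ → ℝ≥0∞ := fun s => ENNReal.ofReal (max |s| ρ ^ (-(b / 2))) with hH
  have hSm : MeasurableSet {s : ℝ | |s| < 1 / 2 ∧ Qf c (s + y j) < R ^ 2} := by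
    apply MeasurableSet.inter
    · exact measurableSet_lt (by fun_prop : Measurable fun s : ℝ => |s|) measurable_const
    · exact measurableSet_lt ((Qf_cont c).comp (by fun_prop : Continuous fun s : ℝ => s + y j)).measurable
        measurable_const
  have hFm : Measurable F := measurable_one.indicator hSm
  have hHm : Measurable H := by
    rw [hH]
    fun_prop
  set W : Set V := {x : V | ρ ≤ ‖x - y‖ ∧ ‖x - y‖ < 1 / 2 ∧ x ∈ Sb j c R} with hW
  have hWm : MeasurableSet W := by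
    have hn : Measurable fun x : V => ‖x - y‖ := by fun_prop
    exact (measurableSet_le measurable_const hn).inter
      ((measurableSet_lt hn measurable_const).inter (Sb_meas j c R))
  have hpt : ∀ x, W.indicator (fun x => ‖x - y‖ₑ ^ (-b)) x
      ≤ ∏ i, (if i = j then F else H) ((x - y) i) := by
    intro x
    by_cases hx : x ∈ W
    · rw [indicator_of_mem hx]
      set z := x - y with hz
      have hz0 : 0 < ‖z‖ := hρ.trans_le hx.1
      have hFz : F (z j) = 1 := by
        rw [hF, indicator_of_mem]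
        · rfl
        · refine ⟨?_, ?_⟩
          · have := norm_le_pi_norm z j
            rw [Real.norm_eq_abs] at this
            exact this.trans_lt hx.2.1
          · have : z j + y j = x j := by simp [hz]
            rw [this]
            exact hx.2.2
      have hHz : ∀ i, ‖z‖ₑ ^ (-(b / 2)) ≤ H (z i) := by
        intro i
        rw [hH]
        simp only
        rw [← ofReal_norm, ENNReal.ofReal_rpow_of_pos hz0]
        refine ENNReal.ofReal_le_ofReal ?_
        refine Real.rpow_le_rpow_of_nonpos (lt_of_lt_of_le hρ (le_max_right _ _)) ?_ (by linarith)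
        refine max_le ?_ hx.1
        have := norm_le_pi_norm z i
        rwa [Real.norm_eq_abs] at this
      have hsplit : ‖z‖ₑ ^ (-b) = ‖z‖ₑ ^ (-(b / 2)) * ‖z‖ₑ ^ (-(b / 2)) := by
        rw [← ENNReal.rpow_add]
        · congr 1; ring
        · rw [← ofReal_norm]
          simp only [ne_eq, ENNReal.ofReal_eq_zero, not_le]
          exact hz0
        · exact enorm_ne_top
      rw [hsplit, Fin.prod_univ_three]
      fin_cases j
      · simp only [Fin.isValue, Fin.zero_eta, if_true, one_ne_zero, if_false] at *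
        rw [hFz, one_mul]
        exact mul_le_mul' (hHz 1) (hHz 2)
      · simp only [Fin.isValue, Fin.mk_one, if_true, zero_ne_one, if_false] at *
        rw [hFz, mul_one]
        exact mul_le_mul' (hHz 0) (hHz 2)
      · have e1 : (1 : Fin 3) ≠ 2 := by decide
        have e0 : (0 : Fin 3) ≠ 2 := by decide
        simp only [Fin.isValue, Fin.reduceFinMk, if_true, if_neg e0, if_neg e1] at *
        rw [hFz, mul_one]
        exact mul_le_mul' (hHz 0) (hHz 1)
    · rw [indicator_of_notMem hx]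
      exact zero_le
  calc ∫⁻ x in W, ‖x - y‖ₑ ^ (-b) = ∫⁻ x, W.indicator (fun x => ‖x - y‖ₑ ^ (-b)) x :=
        (lintegral_indicator hWm _).symm
    _ ≤ ∫⁻ x, ∏ i, (if i = j then F else H) ((x - y) i) := lintegral_mono hpt
    _ = ∫⁻ x : V, ∏ i, (if i = j then F else H) (x i) :=
        lintegral_sub_right_eq_self (fun x : V => ∏ i, (if i = j then F else H) (x i)) y
    _ = (∫⁻ s, F s) * (∫⁻ s, H s) ^ 2 := lprod3 j F H hFm hHm
    _ ≤ ENNReal.ofReal (8 * R) * (ENNReal.ofReal (A * ρ ^ (1 - b / 2))) ^ 2 := by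
        gcongr
        · rw [hF, lintegral_indicator_one hSm]
          exact meas_slab c (y j) hR
        · exact far1 hb2 hρ
    _ = ENNReal.ofReal (8 * A ^ 2 * (R * ρ ^ (2 - b))) := by
        rw [← ENNReal.ofReal_pow (by positivity), ← ENNReal.ofReal_mul (by positivity)]
        congr 1
        have : (ρ ^ (1 - b / 2)) ^ 2 = ρ ^ (2 - b) := by
          rw [← Real.rpow_natCast, ← Real.rpow_mul hρ.le]
          congr 1
          push_cast
          ring
        rw [mul_pow, this]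
        ring

/-- The near integral: powers between two and three. -/
theorem nearS {a : ℝ} (ha : 2 < a) (ha3 : a < 3) : ∃ C : ℝ, 0 < C ∧
    ∀ (j : Fin 3) (c : ℝ) (y : V) (R : ℝ), 0 < R →
      ∫⁻ x in {x : V | ‖x - y‖ < 1 / 2 ∧ x ∈ Sb j c R}, ‖x - y‖ₑ ^ (-a)
        ≤ ENNReal.ofReal (C * R ^ (3 - a)) := by
  obtain ⟨C1, hC1, hfar⟩ := farS ha
  have ha1 : a / 3 < 1 := by linarith
  have ha0 : 0 < a / 3 := by linarith
  have h1a : 0 < 1 - a / 3 := by linarith
  set A : ℝ := 2 / (1 - a / 3) with hA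
  have hA0 : 0 < A := by positivity
  refine ⟨A ^ 3 + C1, by positivity, ?_⟩
  intro j c y R hR
  set F : ℝ → ℝ≥0∞ := indicator (Ioo (-R) R) (fun s => ‖s‖ₑ ^ (-(a / 3))) with hF
  have hFm : Measurable F := by
    refine Measurable.indicator ?_ measurableSet_Ioo
    fun_prop
  have hsub : {x : V | ‖x - y‖ < 1 / 2 ∧ x ∈ Sb j c R} ⊆ {x : V | ‖x - y‖ < R} ∪
      {x : V | R ≤ ‖x - y‖ ∧ ‖x - y‖ < 1 / 2 ∧ x ∈ Sb j c R} := by
    rintro x ⟨h1, h2⟩
    rcases lt_or_ge ‖x - y‖ R with h | h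
    · exact Or.inl h
    · exact Or.inr ⟨h, h1, h2⟩
  have hball : ∫⁻ x in {x : V | ‖x - y‖ < R}, ‖x - y‖ₑ ^ (-a) ≤ ENNReal.ofReal (A ^ 3 * R ^ (3 - a)) := by
    have hn : Measurable fun x : V => ‖x - y‖ := by fun_prop
    have hWm : MeasurableSet {x : V | ‖x - y‖ < R} := measurableSet_lt hn measurable_const
    have hpt : ∀ x, ({x : V | ‖x - y‖ < R}).indicator (fun x => ‖x - y‖ₑ ^ (-a)) x
        ≤ ∏ i, F ((x - y) i) := by
      intro x
      by_cases hx : x ∈ {x : V | ‖x - y‖ < R}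
      · rw [indicator_of_mem hx]
        set z := x - y with hz
        have hFz : ∀ i, ‖z‖ₑ ^ (-(a / 3)) ≤ F (z i) := by
          intro i
          have h1 : z i ∈ Ioo (-R) R := by
            have := norm_le_pi_norm z i
            rw [Real.norm_eq_abs] at this
            rw [mem_Ioo, ← abs_lt]
            exact this.trans_lt hx
          rw [hF, indicator_of_mem h1]
          rw [ENNReal.rpow_neg, ENNReal.rpow_neg]
          exact ENNReal.inv_le_inv.2 (ENNReal.rpow_le_rpow (abs_le_of z i) ha0.le)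
        have hsplit : ‖z‖ₑ ^ (-a) = ∏ i : Fin 3, ‖z‖ₑ ^ (-(a / 3)) := by
          rw [Finset.prod_const, Finset.card_univ, Fintype.card_fin, ← ENNReal.rpow_natCast,
            ← ENNReal.rpow_mul]
          congr 1
          push_cast
          ring
        rw [hsplit]
        exact Finset.prod_le_prod' fun i _ => hFz i
      · rw [indicator_of_notMem hx]
        exact zero_le
    calc ∫⁻ x in {x : V | ‖x - y‖ < R}, ‖x - y‖ₑ ^ (-a)
        = ∫⁻ x, ({x : V | ‖x - y‖ < R}).indicator (fun x => ‖x - y‖ₑ ^ (-a)) x :=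
          (lintegral_indicator hWm _).symm
      _ ≤ ∫⁻ x, ∏ i, F ((x - y) i) := lintegral_mono hpt
      _ = ∫⁻ x : V, ∏ i, F (x i) :=
          lintegral_sub_right_eq_self (fun x : V => ∏ i, F (x i)) y
      _ = ∏ _i : Fin 3, ∫⁻ s, F s := lprod (fun _ => F) fun _ => hFm
      _ = (∫⁻ s, F s) ^ 3 := by rw [Finset.prod_const, Finset.card_univ, Fintype.card_fin]
      _ ≤ (ENNReal.ofReal (A * R ^ (1 - a / 3))) ^ 3 := by
          gcongr
          rw [hF, lintegral_indicator measurableSet_Ioo]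
          exact near1 ha0 ha1 hR
      _ = _ := by
          rw [← ENNReal.ofReal_pow (by positivity)]
          congr 1
          rw [mul_pow]
          congr 1
          rw [← Real.rpow_natCast, ← Real.rpow_mul hR.le]
          congr 1
          push_cast
          ring
  calc ∫⁻ x in {x : V | ‖x - y‖ < 1 / 2 ∧ x ∈ Sb j c R}, ‖x - y‖ₑ ^ (-a)
      ≤ ∫⁻ x in {x : V | ‖x - y‖ < R} ∪
          {x : V | R ≤ ‖x - y‖ ∧ ‖x - y‖ < 1 / 2 ∧ x ∈ Sb j c R}, ‖x - y‖ₑ ^ (-a) :=
        lintegral_mono_set hsub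
    _ ≤ _ := lintegral_union_le _ _ _
    _ ≤ ENNReal.ofReal (A ^ 3 * R ^ (3 - a)) + ENNReal.ofReal (C1 * (R * R ^ (2 - a))) := by
        gcongr
        exact hfar j c y R R hR hR
    _ = _ := by
        rw [← ENNReal.ofReal_add (by positivity) (by positivity)]
        congr 1
        have : R * R ^ (2 - a) = R ^ (3 - a) := by
          rw [show (3 : ℝ) - a = 1 + (2 - a) by ring, Real.rpow_add hR, Real.rpow_one]
        rw [this]
        ring

end Pool.Agent.Helper30K1
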