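import Pool.Agent.Helper30K1.NatS

/-!
One velocity component (helper30): a lower bound of the dissipation near a singular point at every
scale, in fixed cylinders.
-/

set_option autoImplicit false

open MeasureTheory Set Metric Filter Topology
open scoped ContDiff ENNReal

namespace Pool.Agent.Helper30K1

open H459R3.NS W221.NS Pool.Agent.Y8

theorem low_pt : ∃ ε₀ K : ℝ, 0 < ε₀ ∧ 0 < K ∧ ∀ (T E D : ℝ) (G : Set ℝ) (u : ℝ → V → V)
    (p : ℝ → V → ℝ), Turb 1 T E D G u p → ∀ (j : Fin 3) (t₀ M : ℝ), 0 ≤ M → t₀ ∈ Ioo 0 T →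
    ∀ a : ℕ, 5 ≤ a → 4 * (K * M) < 2 ^ a → ∀ (n : ℕ) (x₀ : V),
    (∀ t ∈ Ioo (t₀ - rr n ^ 2) t₀ ∩ G, Ab (u t) j (x₀ j) (rr n) ≤ ENNReal.ofReal (M * rr n)) →
    rr n ^ 2 < t₀ → SingPt G u t₀ x₀ →
    ENNReal.ofReal (ε₀ * rr (n + a))
      ≤ ∫⁻ t in Ioo (t₀ - rr n ^ 2) t₀ ∩ G, ENNReal.ofReal (B2 x₀ (rr n) (u t)) := by
  obtain ⟨ε₀, hε₀, hcr⟩ := Pool.Agent.Y8.B.p_crit3
  obtain ⟨K, hK, hmo⟩ := mo_A2
  obtain ⟨Kp, hKp, hpath⟩ := path_ex Pool.Agent.Y8.B.p_tcut Pool.Agent.Y8.B.p_acx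
  refine ⟨ε₀, K, hε₀, hK, ?_⟩
  intro T E D G u p h j t₀ M hM ht₀ a ha haM n x₀ hA hnt hsing
  by_contra hcon
  rw [not_le] at hcon
  obtain ⟨r, hr⟩ : ∃ r, r = rr (n + a) := ⟨_, rfl⟩
  have hr0 : 0 < r := by rw [hr]; exact rr_pos _
  have hr1 : r ≤ 1 := by rw [hr]; exact rr_le_one _
  have hn0 := rr_pos n
  have hRr : rr n = 2 ^ a * r := by rw [hr]; exact rr_add n a
  have h32 : (32 : ℝ) ≤ 2 ^ a := by
    have : (2 : ℝ) ^ 5 ≤ 2 ^ a := pow_le_pow_right₀ (by norm_num) ha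
    linarith
  have hrn : 32 * r ≤ rr n := by rw [hRr]; nlinarith
  have hr2n : r ^ 2 ≤ rr n ^ 2 := pow_le_pow_left₀ hr0.le (by linarith) 2
  rw [← hr] at hcon
  set f : ℝ → ℝ≥0∞ := fun t => ENNReal.ofReal (B2 x₀ (rr n) (u t)) with hf
  set I₀ := ∫⁻ t in Ioo (t₀ - rr n ^ 2) t₀ ∩ G, f t with hI₀
  -- the path
  obtain ⟨CX, hCX, hpX⟩ := hpath E r hr0 hr1
  obtain ⟨X, Y, hX0, hX⟩ := hpX T D G u p h t₀ ht₀ x₀
  have hXr : FPath T (rr (n + a)) (Kp * |E| / √(r ^ 3) + 1) CX G u p X Y := hr ▸ hX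
  have c1 : ∀ t ∈ Ioo (t₀ - r ^ 2) t₀, ‖X t - x₀‖ ≤ rr n / 2 := by
    have h1 := conf hK hmo h hM ht₀ ha haM hA hXr rfl hX0 (L := r ^ 2) (by positivity)
      (by rw [hr]) (by linarith)
    intro t ht
    refine (h1 t ht).trans (le_of_eq ?_)
    rw [← hr, hRr]
    field_simp
  have hXc : ContinuousAt X t₀ := (hX.hd t₀ ht₀).continuousAt
  obtain ⟨η₁, hη₁, hη₁'⟩ := Metric.continuousAt_iff.1 hXc (rr n / 2) (by positivity)
  -- absolute continuity
  have hfi : ∫⁻ t, G.indicator f t ≠ ⊤ := by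
    rw [lintegral_indicator h.openG.measurableSet]
    obtain ⟨Cb, hCb, hb⟩ := Pool.Agent.Y458.NS.B2_enst (rr n)
    have h1 : IntegrableOn (fun τ => Cb * enstrophy (u τ)) G := h.enst_int.const_mul Cb
    refine ne_top_of_le_ne_top h1.lintegral_lt_top.ne ?_
    refine setLIntegral_mono' h.openG.measurableSet fun τ hτ => ?_
    exact ENNReal.ofReal_le_ofReal (hb (u τ) (h.spv hτ) x₀)
  obtain ⟨δ, hδ, hδ2⟩ := exists_pos_setLIntegral_lt_of_measure_lt hfi
    (tsub_pos_iff_lt.2 hcon).ne'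
  have hmin : 0 < min δ 1 := lt_min hδ one_pos
  have hmint : min δ 1 ≠ ⊤ := ne_top_of_le_ne_top ENNReal.one_ne_top (min_le_right _ _)
  have hη₃ := ENNReal.toReal_pos hmin.ne' hmint
  obtain ⟨s, hst, hs1, hs3, hs4, hs5⟩ : ∃ s, t₀ < s ∧ s < t₀ + η₁ ∧
      s < t₀ + (min δ 1).toReal ∧ s < T ∧ s < t₀ + r ^ 2 / 16 := by
    have hT : 0 < T - t₀ := by linarith [ht₀.2]
    set η := min (min η₁ (min δ 1).toReal) (min (T - t₀) (r ^ 2 / 16)) with hη
    have hη0 : 0 < η := lt_min (lt_min hη₁ hη₃) (lt_min hT (by positivity))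
    have g1 : η ≤ η₁ := (min_le_left _ _).trans (min_le_left _ _)
    have g2 : η ≤ (min δ 1).toReal := (min_le_left _ _).trans (min_le_right _ _)
    have g4 : η ≤ T - t₀ := (min_le_right _ _).trans (min_le_left _ _)
    have g5 : η ≤ r ^ 2 / 16 := (min_le_right _ _).trans (min_le_right _ _)
    exact ⟨t₀ + η / 2, by linarith, by linarith, by linarith, by linarith, by linarith⟩
  have hvol : volume (Ioo t₀ s) < δ := by
    rw [Real.volume_Ioo]
    refine lt_of_lt_of_le ?_ (min_le_left δ 1)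
    rw [← ENNReal.ofReal_toReal hmint]
    exact (ENNReal.ofReal_lt_ofReal_iff hη₃).2 (by linarith)
  have h2 := hδ2 (Ioo t₀ s) hvol
  rw [setLIntegral_indicator h.openG.measurableSet, inter_comm G (Ioo t₀ s), lt_tsub_iff_left] at h2
  -- the criterion
  have hcr' := hcr T E D G u p h r s hr0 hr1 (by linarith) hs4 X Y _ _ hX t₀
    ⟨by linarith, hst⟩ x₀ (by rw [hX0]; exact mem_ball_self (by positivity)) hsing
  have hsub : Ioo (s - r ^ 2) s ⊆ Ioo 0 T := fun x hx => ⟨by linarith [hx.1], by linarith [hx.2]⟩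
  have hae : ∀ᵐ τ ∂(volume.restrict (Ioo (s - r ^ 2) s)), τ ∈ G := by
    rw [ae_restrict_iff' measurableSet_Ioo]
    exact Pool.Agent.Y458.NS.sub_ae h hsub
  have hint : IntegrableOn (fun t => B2 (X t) (8 * r) (u t)) (Ioo (s - r ^ 2) s) :=
    (Pool.Agent.Y458.NS.B2_mov_int h hX.sm.continuousOn (8 * r)).mono_set_ae
      (Pool.Agent.Y458.NS.sub_ae h hsub)
  have hB0 : ∀ τ, 0 ≤ B2 (X τ) (8 * r) (u τ) := fun τ => integral_nonneg fun x => gsq_nn _ x
  have hle : ENNReal.ofReal (ε₀ * r) ≤ I₀ + ∫⁻ t in Ioo t₀ s ∩ G, f t := by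
    calc ENNReal.ofReal (ε₀ * r)
        ≤ ENNReal.ofReal (∫ t in Ioo (s - r ^ 2) s, B2 (X t) (8 * r) (u t)) :=
          ENNReal.ofReal_le_ofReal hcr'
      _ = ∫⁻ t in Ioo (s - r ^ 2) s, ENNReal.ofReal (B2 (X t) (8 * r) (u t)) :=
          ofReal_integral_eq_lintegral_ofReal hint (Eventually.of_forall hB0)
      _ ≤ ∫⁻ t in Ioo (s - r ^ 2) s, f t := by
          refine lintegral_mono_ae ?_
          filter_upwards [hae, ae_restrict_mem measurableSet_Ioo] with τ hτG hτ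
          rw [hf]
          apply ENNReal.ofReal_le_ofReal
          apply Pool.Agent.Y458.NS.B2_mono (h.spv hτG).1
          apply ball_subset_ball'
          rw [dist_eq_norm]
          rcases lt_or_ge τ t₀ with hlt | hge
          · have := c1 τ ⟨by linarith [hτ.1], hlt⟩
            linarith
          · have h1 : dist (X τ) (X t₀) < rr n / 2 := by
              apply hη₁'
              rw [Real.dist_eq, abs_lt]
              constructor <;> linarith [hτ.1, hτ.2]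
            rw [hX0, dist_eq_norm] at h1
            linarith
      _ ≤ ∫⁻ t in (Ioo (t₀ - rr n ^ 2) t₀ ∩ G) ∪ (Ioo t₀ s ∩ G), f t := by
          refine lintegral_mono' (Measure.restrict_mono_ae ?_) le_rfl
          have h5 : (Ioo (s - r ^ 2) s : Set ℝ) ≤ᵐ[volume] G := Pool.Agent.Y458.NS.sub_ae h hsub
          have h6 : ∀ᵐ τ : ℝ, τ ≠ t₀ :=
            (measure_eq_zero_iff_ae_notMem.1 (measure_singleton t₀)).mono fun τ hτ => by
              simpa using hτ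
          filter_upwards [h5, h6] with τ h7 h8 h9
          have hG : τ ∈ G := h7 h9
          rcases lt_or_gt_of_ne h8 with h10 | h10
          · exact Or.inl ⟨⟨by linarith [h9.1], h10⟩, hG⟩
          · exact Or.inr ⟨⟨h10, h9.2⟩, hG⟩
      _ ≤ _ := lintegral_union_le _ _ _
  exact absurd hle (not_le.2 h2)

end Pool.Agent.Helper30K1
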