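import Pool.Agent.Helper30K1.Reg

/-!
One velocity component (helper30): the criterion with periodic slabs, viscosity one.
-/

set_option autoImplicit false

open MeasureTheory Set Metric Filter Topology
open scoped ContDiff ENNReal

namespace Pool.Agent.Helper30K1

open H459R3.NS W221.NS Pool.Agent.Y8

/-- The slab of the points whose `j`-th coordinate is closer than `r` to `c` modulo one. -/
def Slab (j : Fin 3) (c r : ℝ) : Set V := {x | ∃ n : ℤ, |x j - c - n| < r}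

/-- The norm of the `j`-th component in `L²(t₀ - r² / ν, t₀; L^q)` of the slab, divided by
`r ^ (3 / q)`. -/
noncomputable def SN (ν q : ℝ) (G : Set ℝ) (u : ℝ → V → V) (j : Fin 3) (c t₀ r : ℝ) : ℝ≥0∞ :=
  ENNReal.ofReal (r ^ (-(3 / q))) * (∫⁻ t in Ioo (t₀ - r ^ 2 / ν) t₀ ∩ G,
    (∫⁻ x in cube ∩ Slab j c r, ‖u t x j‖ₑ ^ q) ^ (2 / q)) ^ (1 / 2 : ℝ)

theorem Slab_open (j : Fin 3) (c r : ℝ) : IsOpen (Slab j c r) := by
  have h1 : Slab j c r = ⋃ n : ℤ, {x : V | |x j - c - n| < r} := by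
    ext x
    simp [Slab]
  rw [h1]
  refine isOpen_iUnion fun n => ?_
  exact isOpen_lt (by fun_prop) continuous_const

theorem Sb_Slab {j : Fin 3} {c R : ℝ} (hR : 0 < R) : Sb j c R ⊆ Slab j c (2 * R) := by
  intro x hx
  rw [mem_Sb] at hx
  refine ⟨round (x j - c), ?_⟩
  set y := x j - c - round (x j - c) with hy
  have hy1 : |y| ≤ 1 / 2 := abs_sub_round _
  have h1 : Real.sin (Real.pi * (x j - c)) ^ 2 = Real.sin (Real.pi * y) ^ 2 := by
    have e1 : Real.pi * (x j - c) = Real.pi * y + (round (x j - c) : ℤ) * Real.pi := by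
      rw [hy]
      ring
    rw [e1, Real.sin_add_int_mul_pi, mul_pow]
    have : ((-1 : ℝ) ^ (round (x j - c))) ^ 2 = 1 := by
      rw [← zpow_natCast, ← zpow_mul, mul_comm, zpow_mul]
      norm_num
    rw [this, one_mul]
  have h2 : (2 * |y|) ^ 2 ≤ Real.sin (Real.pi * y) ^ 2 := by
    have h3 : 2 * |y| ≤ |Real.sin (Real.pi * y)| := by
      have h4 : Real.pi * |y| ≤ Real.pi / 2 := by nlinarith [Real.pi_pos]
      have h5 := Real.mul_le_sin (x := Real.pi * |y|) (by positivity) h4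
      have h6 : 2 / Real.pi * (Real.pi * |y|) = 2 * |y| := by field_simp
      rw [h6] at h5
      have h7 : |Real.sin (Real.pi * y)| = |Real.sin (Real.pi * |y|)| := by
        rcases abs_cases y with ⟨h8, -⟩ | ⟨h8, -⟩
        · rw [h8]
        · rw [h8, mul_neg, Real.sin_neg, abs_neg]
      rw [h7]
      exact h5.trans (le_abs_self _)
    rw [← sq_abs (Real.sin _)]
    exact pow_le_pow_left₀ (by positivity) h3 2
  have h8 : Qf c (x j) = Real.sin (Real.pi * y) ^ 2 / Real.pi ^ 2 := by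
    unfold Qf
    rw [h1]
  rw [h8, div_lt_iff₀ (by positivity)] at hx
  have hpi : Real.pi ^ 2 < 16 := by nlinarith [Real.pi_lt_four, Real.pi_pos]
  have h9 : (2 * |y|) ^ 2 < (4 * R) ^ 2 := by
    have : 0 < R ^ 2 := by positivity
    nlinarith
  have h10 : 2 * |y| < 4 * R := lt_of_pow_lt_pow_left₀ 2 (by positivity) h9
  linarith

theorem Nb_sq {q : ℝ} (hq : 3 < q) (v : V → V) (j : Fin 3) (c : ℝ) {R : ℝ} (hR : 0 < R) :
    Nb q v j c R ^ (2 : ℝ) ≤ (∫⁻ x in cube ∩ Slab j c (2 * R), ‖v x j‖ₑ ^ q) ^ (2 / q) := by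
  unfold Nb
  rw [← ENNReal.rpow_mul]
  have e1 : 1 / q * 2 = 2 / q := by ring
  rw [e1]
  refine ENNReal.rpow_le_rpow ?_ (by positivity)
  exact lintegral_mono_set (inter_subset_inter_right _ (Sb_Slab hR))

theorem am_le {q : ℝ} (hq : 3 < q) (G : Set ℝ) (hG : IsOpen G) (u : ℝ → V → V) (j : Fin 3)
    (c s₁ t₀ : ℝ) (k : ℕ) :
    am q G u j c s₁ t₀ (k + 1) ≤ 2 * SN 1 q G u j c t₀ (rr k) := by
  have hk := rr_pos k
  have hk1 := rr_pos (k + 1)
  have hs : 2 * rr (k + 1) = rr k := by rw [rr_succ]; ring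
  unfold am SN Nn
  have h1 : ENNReal.ofReal (rr (k + 1) ^ (-(3 / q))) ≤ 2 * ENNReal.ofReal (rr k ^ (-(3 / q))) := by
    rw [show (2 : ℝ≥0∞) = ENNReal.ofReal 2 by norm_num, ← ENNReal.ofReal_mul (by norm_num)]
    apply ENNReal.ofReal_le_ofReal
    have e1 : rr (k + 1) = 2⁻¹ * rr k := by rw [rr_succ]; ring
    rw [e1, Real.mul_rpow (by norm_num) hk.le]
    have e2 : (2⁻¹ : ℝ) ^ (-(3 / q)) = 2 ^ (3 / q) := by
      rw [Real.inv_rpow (by norm_num), Real.rpow_neg (by norm_num), inv_inv]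
    rw [e2]
    have e3 : (2 : ℝ) ^ (3 / q) ≤ 2 ^ (1 : ℝ) := by
      apply Real.rpow_le_rpow_of_exponent_le (by norm_num)
      rw [div_le_one (by linarith)]
      exact hq.le
    rw [Real.rpow_one] at e3
    gcongr
  rw [← mul_assoc]
  refine mul_le_mul' h1 (ENNReal.rpow_le_rpow ?_ (by norm_num))
  calc ∫⁻ t in Iw G s₁ t₀ (k + 1), Nb q (u t) j c (rr (k + 1)) ^ (2 : ℝ)
      ≤ ∫⁻ t in Iw G s₁ t₀ (k + 1),
        (∫⁻ x in cube ∩ Slab j c (rr k), ‖u t x j‖ₑ ^ q) ^ (2 / q) := by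
        refine setLIntegral_mono' (Iw_meas hG s₁ t₀ (k + 1)) fun t _ => ?_
        rw [← hs]
        exact Nb_sq hq (u t) j c hk1
    _ ≤ _ := by
        refine lintegral_mono_set ?_
        refine inter_subset_inter_left _ (Ioo_subset_Ioo_left ?_)
        refine le_trans ?_ (le_max_right _ _)
        have : rr (k + 1) ^ 2 ≤ rr k ^ 2 := pow_le_pow_left₀ hk1.le (rr_anti (Nat.le_succ k)) 2
        rw [div_one]
        linarith

section

variable {T E D : ℝ} {G : Set ℝ} {u : ℝ → V → V} {p : ℝ → V → ℝ}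

/-- The criterion, viscosity one. -/
theorem crit1 (h : Turb 1 T E D G u p) {q : ℝ} (hq : 3 < q) (j : Fin 3) (c : ℝ) {t₀ : ℝ}
    (ht₀ : t₀ ∈ Ioo 0 T) {K : ℕ} (hsum : ∑' k, SN 1 q G u j c t₀ (rr (k + K)) ≠ ⊤) {x₀ : V}
    (hx₀ : x₀ j = c) : ¬SingPt G u t₀ x₀ := by
  -- the starting time
  obtain ⟨s₁, hs₁G, hs₁, hs₁1⟩ : ∃ s₁ ∈ G, s₁ < t₀ ∧ t₀ - s₁ ≤ 1 := by
    have hT : 0 < T := ht₀.1.trans ht₀.2
    have h1 : max 0 (t₀ - 1) < t₀ := max_lt ht₀.1 (by linarith)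
    obtain ⟨y, hy1, hy2⟩ := exists_between h1
    have hyT : y ∈ Ioo 0 T := ⟨(le_max_left _ _).trans_lt hy1, hy2.trans ht₀.2⟩
    have h2 := dense_G hT h.fullG (Ioo_subset_Icc_self hyT)
    rw [_root_.mem_closure_iff] at h2
    obtain ⟨s, hs, hs'⟩ := h2 (Ioo (max 0 (t₀ - 1)) t₀) isOpen_Ioo ⟨hy1, hy2⟩
    exact ⟨s, hs'.2, hs.2, by linarith [(le_max_right 0 (t₀ - 1)).trans_lt hs.1]⟩
  -- the scales
  set k₀ := K + 2 with hk₀
  have ha : ∑' m, am q G u j c s₁ t₀ (m + k₀) ≠ ⊤ := by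
    have h1 : ∑' m, am q G u j c s₁ t₀ (m + k₀)
        ≤ ∑' m, 2 * SN 1 q G u j c t₀ (rr (m + 1 + K)) := by
      refine ENNReal.tsum_le_tsum fun m => ?_
      have := am_le hq G h.openG u j c s₁ t₀ (m + 1 + K)
      have e1 : m + 1 + K + 1 = m + k₀ := by omega
      rw [e1] at this
      exact this
    refine ne_top_of_le_ne_top ?_ h1
    rw [ENNReal.tsum_mul_left]
    refine ENNReal.mul_ne_top (by norm_num) (ne_top_of_le_ne_top hsum ?_)
    exact ENNReal.tsum_comp_le_tsum_of_injective (f := fun m : ℕ => m + 1)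
      (fun a b hab => by simpa using hab) (fun m => SN 1 q G u j c t₀ (rr (m + K)))
  obtain ⟨M, hM, hMe, hMG⟩ := bound_all hq h j c hs₁G hs₁ ht₀.2.le hs₁1 (by omega) ha
  -- the windows
  obtain ⟨N₀, hN₀⟩ : ∃ N₀ : ℕ, rr N₀ < t₀ - s₁ := by
    unfold rr
    exact exists_pow_lt_of_lt_one (by linarith) (by norm_num)
  have hwin : ∀ n, N₀ ≤ n → rr n ^ 2 ≤ t₀ - s₁ := by
    intro n hn
    have h1 := rr_anti hn
    have h2 := rr_le_one n
    have h3 := rr_pos n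
    nlinarith
  have hIw : ∀ n, N₀ ≤ n → Iw G s₁ t₀ n = Ioo (t₀ - rr n ^ 2) t₀ ∩ G := by
    intro n hn
    unfold Iw
    rw [max_eq_right (by linarith [hwin n hn])]
  have hMr : M = ENNReal.ofReal M.toReal := (ENNReal.ofReal_toReal hM).symm
  have hA : SlA G u j c t₀ N₀ M.toReal := by
    intro n hn t ht
    rw [← hIw n hn] at ht
    refine (em_A ht).trans ?_
    rw [mul_comm M.toReal, ENNReal.ofReal_mul (rr_pos n).le, ← hMr]
    exact mul_le_mul' le_rfl (hMe n)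
  have hB : SlB G u j c t₀ N₀ M.toReal := by
    intro n hn
    rw [← hIw n hn]
    refine em_B.trans ?_
    rw [mul_comm M.toReal, ENNReal.ofReal_mul (rr_pos n).le, ← hMr]
    exact mul_le_mul' le_rfl (hMe n)
  have hS : SlS G u j c t₀ := by
    intro L N ε hε
    obtain ⟨m, hm1, hm2⟩ := small_scale h j c hM hMG L (ENNReal.ofReal_pos.2 hε).ne'
      (max N N₀) (hwin _ (le_max_right _ _)) hs₁1
    refine ⟨m, (le_max_left _ _).trans hm1, ?_⟩
    have hm0 := rr_pos m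
    have h1 := mul_le_mul' (le_refl (ENNReal.ofReal (rr m))) hm2
    rw [cancel_r hm0] at h1
    rw [mul_comm ε, ENNReal.ofReal_mul hm0.le]
    exact h1
  exact reg h ENNReal.toReal_nonneg ht₀ hA hB hS hx₀

end

end Pool.Agent.Helper30K1
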