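import Pool.Agent.Helper30K1.Dm
import Pool.Agent.Y96.NS.Scal

/-!
One velocity component (helper30): general viscosity.
-/

set_option autoImplicit false

open MeasureTheory Set Metric Filter Topology
open scoped ContDiff ENNReal NNReal

namespace Pool.Agent.Helper30K1

open H459R3.NS W221.NS Pool.Agent.Y8

/-- Change of variables in time. -/
theorem lint_div {ν : ℝ} (hν : 0 < ν) {A : Set ℝ} (hA : MeasurableSet A) (f : ℝ → ℝ≥0∞) :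
    ∫⁻ t in {t | t / ν ∈ A}, f (t / ν) = ENNReal.ofReal ν * ∫⁻ t in A, f t := by
  have he : MeasurableEmbedding (fun t : ℝ => t * ν⁻¹) :=
    (Homeomorph.mulRight₀ ν⁻¹ (inv_ne_zero hν.ne')).measurableEmbedding
  have h1 : Measure.map (fun t : ℝ => t * ν⁻¹) volume = ENNReal.ofReal ν • volume := by
    have := Real.map_volume_mul_right (inv_ne_zero hν.ne')
    rw [this, inv_inv, abs_of_pos hν]
  have h2 : ∫⁻ t in (fun t : ℝ => t * ν⁻¹) ⁻¹' A, f (t * ν⁻¹)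
      = ∫⁻ y, f y ∂(Measure.map (fun t : ℝ => t * ν⁻¹)
        (volume.restrict ((fun t : ℝ => t * ν⁻¹) ⁻¹' A))) :=
    (he.lintegral_map f).symm
  rw [← he.restrict_map, h1, Measure.restrict_smul, lintegral_smul_measure, smul_eq_mul] at h2
  rw [← h2]
  simp only [div_eq_mul_inv]
  rfl

section

variable {ν T E D : ℝ} {G : Set ℝ} {u : ℝ → V → V} {p : ℝ → V → ℝ}

theorem en_scale {q : ℝ} (hν : 0 < ν) (hq : 0 < q) (v : V → V) (j : Fin 3) (S : Set V) :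
    ∫⁻ x in S, ‖(ν⁻¹ • v x) j‖ₑ ^ q = ENNReal.ofReal ν⁻¹ ^ q * ∫⁻ x in S, ‖v x j‖ₑ ^ q := by
  have h1 : ∀ x, ‖(ν⁻¹ • v x) j‖ₑ ^ q = ENNReal.ofReal ν⁻¹ ^ q * ‖v x j‖ₑ ^ q := by
    intro x
    rw [Pi.smul_apply, smul_eq_mul, enorm_mul, ENNReal.mul_rpow_of_nonneg _ _ hq.le,
      Real.enorm_eq_ofReal (by positivity)]
  simp_rw [h1]
  refine lintegral_const_mul' _ _ ?_
  exact ENNReal.rpow_ne_top_of_nonneg hq.le ENNReal.ofReal_ne_top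

theorem SN_scale {q : ℝ} (hν : 0 < ν) (hq : 0 < q) (hG : IsOpen G) (j : Fin 3) (c t₀ r : ℝ) :
    SN 1 q {t | t / ν ∈ G} (fun t x => ν⁻¹ • u (t / ν) x) j c (ν * t₀) r
      = ENNReal.ofReal ν⁻¹ ^ (1 / 2 : ℝ) * SN ν q G u j c t₀ r := by
  unfold SN
  have hset : Ioo (ν * t₀ - r ^ 2 / 1) (ν * t₀) ∩ {t | t / ν ∈ G}
      = {t | t / ν ∈ Ioo (t₀ - r ^ 2 / ν) t₀ ∩ G} := by
    ext t
    simp only [mem_inter_iff, mem_Ioo, mem_ofPred_eq]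
    have e1 : ν * t₀ - r ^ 2 / 1 < t ↔ t₀ - r ^ 2 / ν < t / ν := by
      rw [lt_div_iff₀ hν, sub_mul, div_mul_cancel₀ _ hν.ne', div_one, mul_comm t₀]
    have e2 : t < ν * t₀ ↔ t / ν < t₀ := by
      rw [div_lt_iff₀ hν, mul_comm]
    rw [e1, e2]
  rw [hset]
  have hI : ∫⁻ t in {t | t / ν ∈ Ioo (t₀ - r ^ 2 / ν) t₀ ∩ G},
      (∫⁻ x in cube ∩ Slab j c r, ‖(ν⁻¹ • u (t / ν) x) j‖ₑ ^ q) ^ (2 / q)
      = ENNReal.ofReal ν⁻¹ * ∫⁻ t in Ioo (t₀ - r ^ 2 / ν) t₀ ∩ G,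
        (∫⁻ x in cube ∩ Slab j c r, ‖u t x j‖ₑ ^ q) ^ (2 / q) := by
    have h1 : ∀ t, (∫⁻ x in cube ∩ Slab j c r, ‖(ν⁻¹ • u (t / ν) x) j‖ₑ ^ q) ^ (2 / q)
        = (fun s => ENNReal.ofReal ν⁻¹ ^ (2 : ℝ) *
          (∫⁻ x in cube ∩ Slab j c r, ‖u s x j‖ₑ ^ q) ^ (2 / q)) (t / ν) := by
      intro t
      simp only
      rw [en_scale hν hq (u (t / ν)) j, ENNReal.mul_rpow_of_nonneg _ _ (by positivity),
        ← ENNReal.rpow_mul]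
      congr 2
      field_simp
    refine (lintegral_congr h1).trans ?_
    refine (lint_div hν (measurableSet_Ioo.inter hG.measurableSet) (fun s =>
      ENNReal.ofReal ν⁻¹ ^ (2 : ℝ) *
          (∫⁻ x in cube ∩ Slab j c r, ‖u s x j‖ₑ ^ q) ^ (2 / q))).trans ?_
    rw [lintegral_const_mul' _ _
      (ENNReal.rpow_ne_top_of_nonneg (by norm_num) ENNReal.ofReal_ne_top), ← mul_assoc]
    congr 1
    rw [ENNReal.ofReal_rpow_of_pos (by positivity), ← ENNReal.ofReal_mul hν.le]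
    congr 1
    rw [Real.rpow_two]
    field_simp
  rw [hI, ENNReal.mul_rpow_of_nonneg _ _ (by norm_num)]
  ring

theorem Nq_scale {q m : ℝ} (hν : 0 < ν) (hq : 0 < q) (hm : 0 < m) (hG : IsOpen G) (j : Fin 3)
    (hY : ∫⁻ t in G, Nq q u j t ^ (m / q) ≠ ⊤) :
    ∫⁻ t in {t | t / ν ∈ G}, Nq q (fun t x => ν⁻¹ • u (t / ν) x) j t ^ (m / q) ≠ ⊤ := by
  have h1 : ∀ t, Nq q (fun t x => ν⁻¹ • u (t / ν) x) j t ^ (m / q)
      = (fun s => ENNReal.ofReal ν⁻¹ ^ m * Nq q u j s ^ (m / q)) (t / ν) := by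
    intro t
    unfold Nq
    simp only
    rw [en_scale hν hq (u (t / ν)) j, ENNReal.mul_rpow_of_nonneg _ _ (by positivity),
      ← ENNReal.rpow_mul]
    congr 2
    field_simp
  have h2 : ∫⁻ t in {t | t / ν ∈ G}, Nq q (fun t x => ν⁻¹ • u (t / ν) x) j t ^ (m / q)
      = ENNReal.ofReal ν * (ENNReal.ofReal ν⁻¹ ^ m * ∫⁻ t in G, Nq q u j t ^ (m / q)) := by
    refine (lintegral_congr h1).trans ?_
    refine (lint_div hν hG.measurableSet (fun s =>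
      ENNReal.ofReal ν⁻¹ ^ m * Nq q u j s ^ (m / q))).trans ?_
    rw [lintegral_const_mul' _ _ (ENNReal.rpow_ne_top_of_nonneg hm.le ENNReal.ofReal_ne_top)]
  rw [h2]
  exact ENNReal.mul_ne_top ENNReal.ofReal_ne_top (ENNReal.mul_ne_top
    (ENNReal.rpow_ne_top_of_nonneg hm.le ENNReal.ofReal_ne_top) hY)

/-- The criterion. -/
theorem crit (hν : 0 < ν) (h : Turb ν T E D G u p) {q : ℝ} (hq : 3 < q) (j : Fin 3) {t₀ : ℝ}
    (ht₀ : t₀ ∈ Ioo 0 T) {x₀ : V} (hs : SingPt G u t₀ x₀) (K : ℕ) :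
    ∑' k, SN ν q G u j (x₀ j) t₀ (rr (k + K)) = ⊤ := by
  by_contra hcon
  obtain ⟨h1, h2⟩ := Pool.Agent.Y96.NS.t_WSCAL ν T E D G u p hν h
  refine crit1 h1 hq j (x₀ j) (t₀ := ν * t₀) ⟨mul_pos hν ht₀.1,
    mul_lt_mul_of_pos_left ht₀.2 hν⟩ (K := K) ?_ rfl (h2 t₀ x₀ hs)
  simp_rw [SN_scale hν (by linarith : 0 < q) h.openG]
  rw [ENNReal.tsum_mul_left]
  exact ENNReal.mul_ne_top (ENNReal.rpow_ne_top_of_nonneg (by norm_num) ENNReal.ofReal_ne_top) hcon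

/-- The planes with singular points. -/
theorem planes (hν : 0 < ν) (h : Turb ν T E D G u p) {q m : ℝ} (hq : 3 < q) (hm : 2 ≤ m)
    (j : Fin 3) (hY : ∫⁻ t in G, Nq q u j t ^ (m / q) ≠ ⊤) {δ : ℝ} (hδ : 0 < δ)
    (hδ2 : (2 / m + 3 / q - 1) * max q m < δ) :
    PNull δ {w : ℝ × ℝ | w.1 ∈ Ioo 0 T ∧ ∃ x : V, x j = w.2 ∧ SingPt G u w.1 x} := by
  obtain ⟨h1, h2⟩ := Pool.Agent.Y96.NS.t_WSCAL ν T E D G u p hν h
  refine ((planes1 h1 hq hm j (Nq_scale hν (by linarith) (by linarith) h.openG j hY)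
    hδ2).scale hδ.le hν).mono ?_
  rintro w ⟨hw, x, hx, hs⟩
  exact ⟨⟨mul_pos hν hw.1, mul_lt_mul_of_pos_left hw.2 hν⟩, x, hx, h2 _ _ hs⟩

/-- The singular times. -/
theorem times (hν : 0 < ν) (h : Turb ν T E D G u p) {q m : ℝ} (hq : 3 < q) (hm : 2 ≤ m)
    (j : Fin 3) (hY : ∫⁻ t in G, Nq q u j t ^ (m / q) ≠ ⊤) :
    dimH {t ∈ Ioo 0 T | ∃ x : V, SingPt G u t x}
      ≤ ENNReal.ofReal ((2 / m + 3 / q - 1) * m / 2) := by
  obtain ⟨h1, h2⟩ := Pool.Agent.Y96.NS.t_WSCAL ν T E D G u p hν h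
  refine dim_time fun δ hδ hδ2 => ?_
  refine ((times1 h1 hq hm j (Nq_scale hν (by linarith) (by linarith) h.openG j hY)
    hδ2).scale hδ.le hν).mono ?_
  rintro w ⟨hw0, hw, x, hs⟩
  exact ⟨hw0, ⟨mul_pos hν hw.1, mul_lt_mul_of_pos_left hw.2 hν⟩, x, h2 _ _ hs⟩

/-- The critical class. -/
theorem crit_class (hν : 0 < ν) (h : Turb ν T E D G u p) {q m : ℝ} (hq : 3 < q) (hm : 2 ≤ m)
    (hqm : 2 / m + 3 / q = 1) (j : Fin 3) (hY : ∫⁻ t in G, Nq q u j t ^ (m / q) ≠ ⊤) {δ : ℝ}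
    (hδ : 0 < δ) : PNull δ {w : ℝ × V | w.1 ∈ Ioo 0 T ∧ SingPt G u w.1 w.2} := by
  obtain ⟨h1, h2⟩ := Pool.Agent.Y96.NS.t_WSCAL ν T E D G u p hν h
  refine ((crit_class1 h1 hq hm hqm j (Nq_scale hν (by linarith) (by linarith) h.openG j hY)
    hδ).scale hδ.le hν).mono ?_
  rintro w ⟨hw, hs⟩
  exact ⟨⟨mul_pos hν hw.1, mul_lt_mul_of_pos_left hw.2 hν⟩, h2 _ _ hs⟩

end

end Pool.Agent.Helper30K1
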