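import Pool.Agent.Helper30K1.Ct
import Mathlib.Topology.MetricSpace.HausdorffDimension

/-!
One velocity component (helper30): sets of parabolic Hausdorff measure zero.
-/

set_option autoImplicit false

open MeasureTheory Set Metric Filter Topology
open scoped ContDiff ENNReal NNReal

namespace Pool.Agent.Helper30K1

/-- The parabolic cylinder (two-sided in time) of radius `r` around `z`. -/
def PCyl {F : Type*} [NormedAddCommGroup F] (z : ℝ × F) (r : ℝ) : Set (ℝ × F) :=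
  {w | |w.1 - z.1| < r ^ 2 ∧ ‖w.2 - z.2‖ < r}

/-- The set `S` has parabolic Hausdorff measure zero in the dimension `δ`: for every `ε > 0` it is
covered by countably many parabolic cylinders of radii `r i ≤ ε` with `∑ r i ^ δ ≤ ε`. -/
def PNull {F : Type*} [NormedAddCommGroup F] (δ : ℝ) (S : Set (ℝ × F)) : Prop :=
  ∀ ε > 0, ∃ (ι : Type) (_ : Countable ι) (z : ι → ℝ × F) (r : ι → ℝ),
    (∀ i, 0 < r i ∧ r i ≤ ε) ∧ S ⊆ ⋃ i, PCyl (z i) (r i) ∧
      ∑' i, ENNReal.ofReal (r i ^ δ) ≤ ENNReal.ofReal ε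

section

variable {F : Type*} [NormedAddCommGroup F] {δ : ℝ}

theorem PNull.mono {S S' : Set (ℝ × F)} (h : PNull δ S') (hS : S ⊆ S') : PNull δ S := by
  intro ε hε
  obtain ⟨ι, hc, z, r, h1, h2, h3⟩ := h ε hε
  exact ⟨ι, hc, z, r, h1, hS.trans h2, h3⟩

theorem PNull.iUnion {κ : Type} [Countable κ] {S : κ → Set (ℝ × F)} (h : ∀ k, PNull δ (S k)) :
    PNull δ (⋃ k, S k) := by
  intro ε hε
  obtain ⟨ε', hε', hsum⟩ := ENNReal.exists_pos_sum_of_countable'
    (ENNReal.ofReal_pos.2 hε).ne' κ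
  have hmin : ∀ k, 0 < min (ε' k) (ENNReal.ofReal ε) := fun k =>
    lt_min (hε' k) (ENNReal.ofReal_pos.2 hε)
  have hmt : ∀ k, min (ε' k) (ENNReal.ofReal ε) ≠ ⊤ := fun k =>
    ne_top_of_le_ne_top ENNReal.ofReal_ne_top (min_le_right _ _)
  set e : κ → ℝ := fun k => (min (ε' k) (ENNReal.ofReal ε)).toReal with he
  have he0 : ∀ k, 0 < e k := fun k => ENNReal.toReal_pos (hmin k).ne' (hmt k)
  have heε : ∀ k, e k ≤ ε := fun k =>
    ENNReal.toReal_le_of_le_ofReal hε.le (min_le_right _ _)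
  have hee : ∀ k, ENNReal.ofReal (e k) ≤ ε' k := by
    intro k
    rw [he]
    simp only
    rw [ENNReal.ofReal_toReal (hmt k)]
    exact min_le_left _ _
  choose ι hc z r h1 h2 h3 using fun k => h k (e k) (he0 k)
  refine ⟨Σ k, ι k, inferInstance, fun w => z w.1 w.2, fun w => r w.1 w.2, ?_, ?_, ?_⟩
  · rintro ⟨k, i⟩
    exact ⟨(h1 k i).1, (h1 k i).2.trans (heε k)⟩
  · refine iUnion_subset fun k => (h2 k).trans ?_
    refine iUnion_subset fun i => ?_
    exact subset_iUnion (fun w : Σ k, ι k => PCyl (z w.1 w.2) (r w.1 w.2)) ⟨k, i⟩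
  · show ∑' w : (Σ k, ι k), ENNReal.ofReal (r w.1 w.2 ^ δ) ≤ _
    rw [ENNReal.tsum_sigma fun k i => ENNReal.ofReal (r k i ^ δ)]
    calc ∑' k, ∑' i, ENNReal.ofReal (r k i ^ δ) ≤ ∑' k, ε' k :=
          ENNReal.tsum_le_tsum fun k => (h3 k).trans (hee k)
      _ ≤ _ := hsum.le

/-- Translations. -/
theorem PNull.translate {S : Set (ℝ × F)} (h : PNull δ S) (a : F) :
    PNull δ {w : ℝ × F | (w.1, w.2 - a) ∈ S} := by
  intro ε hε
  obtain ⟨ι, hc, z, r, h1, h2, h3⟩ := h ε hε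
  refine ⟨ι, hc, fun i => ((z i).1, (z i).2 + a), r, h1, ?_, h3⟩
  intro w hw
  obtain ⟨i, hi⟩ := mem_iUnion.1 (h2 hw)
  refine mem_iUnion.2 ⟨i, hi.1, ?_⟩
  have h4 := hi.2
  simp only at h4 ⊢
  rw [show w.2 - ((z i).2 + a) = w.2 - a - (z i).2 by abel]
  exact h4

/-- Scaling in time. -/
theorem PNull.scale {S : Set (ℝ × F)} (hδ : 0 ≤ δ) (h : PNull δ S) {ν : ℝ} (hν : 0 < ν) :
    PNull δ {w : ℝ × F | (ν * w.1, w.2) ∈ S} := by
  intro ε hε
  -- the factor
  obtain ⟨l, hl1, hlν⟩ : ∃ l : ℝ, 1 ≤ l ∧ 1 ≤ ν * l ^ 2 := by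
    refine ⟨max 1 (√(1 / ν)), le_max_left _ _, ?_⟩
    have h1 : √(1 / ν) ≤ max 1 (√(1 / ν)) := le_max_right _ _
    have h2 : √(1 / ν) ^ 2 ≤ max 1 (√(1 / ν)) ^ 2 := pow_le_pow_left₀ (Real.sqrt_nonneg _) h1 2
    rw [Real.sq_sqrt (by positivity)] at h2
    calc 1 = ν * (1 / ν) := by field_simp
      _ ≤ _ := by gcongr
  have hl0 : 0 < l := by linarith
  set ε' : ℝ := min (ε / l) (ε / l ^ δ) with hε'
  have hε'0 : 0 < ε' := lt_min (by positivity) (by positivity)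
  obtain ⟨ι, hc, z, r, h1, h2, h3⟩ := h ε' hε'0
  refine ⟨ι, hc, fun i => (ν⁻¹ * (z i).1, (z i).2), fun i => l * r i, ?_, ?_, ?_⟩
  · intro i
    have h4 := h1 i
    refine ⟨mul_pos hl0 h4.1, ?_⟩
    calc l * r i ≤ l * (ε / l) := by
          gcongr
          exact h4.2.trans (min_le_left _ _)
      _ = ε := by field_simp
  · intro w hw
    obtain ⟨i, hi⟩ := mem_iUnion.1 (h2 hw)
    have hri := (h1 i).1
    refine mem_iUnion.2 ⟨i, ?_, ?_⟩
    · have h4 : |ν * w.1 - (z i).1| < r i ^ 2 := hi.1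
      show |w.1 - ν⁻¹ * (z i).1| < (l * r i) ^ 2
      have e1 : w.1 - ν⁻¹ * (z i).1 = ν⁻¹ * (ν * w.1 - (z i).1) := by
        field_simp
      rw [e1, abs_mul, abs_of_pos (inv_pos.2 hν)]
      calc ν⁻¹ * |ν * w.1 - (z i).1| < ν⁻¹ * r i ^ 2 := by gcongr
        _ ≤ ν⁻¹ * ((ν * l ^ 2) * r i ^ 2) := by
            gcongr
            exact le_mul_of_one_le_left (by positivity) hlν
        _ = (l * r i) ^ 2 := by field_simp
    · have h4 : ‖w.2 - (z i).2‖ < r i := hi.2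
      show ‖w.2 - (z i).2‖ < l * r i
      exact h4.trans_le (le_mul_of_one_le_left hri.le hl1)
  · have e1 : ∀ i, ENNReal.ofReal ((l * r i) ^ δ)
        = ENNReal.ofReal (l ^ δ) * ENNReal.ofReal (r i ^ δ) := by
      intro i
      rw [Real.mul_rpow hl0.le (h1 i).1.le, ENNReal.ofReal_mul (by positivity)]
    simp_rw [e1]
    rw [ENNReal.tsum_mul_left]
    calc ENNReal.ofReal (l ^ δ) * ∑' i, ENNReal.ofReal (r i ^ δ)
        ≤ ENNReal.ofReal (l ^ δ) * ENNReal.ofReal (ε / l ^ δ) := by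
          refine mul_le_mul' le_rfl (h3.trans (ENNReal.ofReal_le_ofReal (min_le_right _ _)))
      _ = ENNReal.ofReal ε := by
          rw [← ENNReal.ofReal_mul (by positivity)]
          congr 1
          field_simp

theorem rr_rpow' (n : ℕ) (δ : ℝ) : W221.NS.rr n ^ δ = ((1 / 2 : ℝ) ^ δ) ^ n := by
  unfold W221.NS.rr
  rw [← Real.rpow_natCast, ← Real.rpow_mul (by norm_num), mul_comm, Real.rpow_mul (by norm_num),
    Real.rpow_natCast]

theorem tail_le {C x : ℝ} (hC : 0 ≤ C) (hx0 : 0 ≤ x) (hx : x < 1) (K : ℕ) :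
    ∑' k : ℕ, ENNReal.ofReal (C * x ^ (K + k)) = ENNReal.ofReal (C * x ^ K / (1 - x)) := by
  have h1 : Summable fun k : ℕ => C * x ^ (K + k) := by
    simp_rw [pow_add]
    exact ((summable_geometric_of_lt_one hx0 hx).mul_left (x ^ K)).mul_left C
  rw [← ENNReal.ofReal_tsum_of_nonneg (fun k => by positivity) h1]
  congr 1
  simp_rw [pow_add]
  rw [tsum_mul_left, tsum_mul_left, tsum_geometric_of_lt_one hx0 hx]
  field_simp

theorem tail_small {C x : ℝ} (hx0 : 0 ≤ x) (hx : x < 1) {ε : ℝ} (hε : 0 < ε) (N : ℕ) :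
    ∃ K ≥ N, C * x ^ K / (1 - x) ≤ ε ∧ W221.NS.rr K ≤ ε := by
  have h1 : Tendsto (fun K : ℕ => C * x ^ K / (1 - x)) atTop (𝓝 (C * 0 / (1 - x))) :=
    ((tendsto_pow_atTop_nhds_zero_of_lt_one hx0 hx).const_mul C).div_const _
  rw [mul_zero, zero_div] at h1
  have h2 : Tendsto (fun K : ℕ => W221.NS.rr K) atTop (𝓝 0) := by
    unfold W221.NS.rr
    exact tendsto_pow_atTop_nhds_zero_of_lt_one (by norm_num) (by norm_num)
  have h3 := (h1.eventually (Iio_mem_nhds hε)).and ((h2.eventually (Iio_mem_nhds hε)).and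
    (eventually_ge_atTop N))
  obtain ⟨K, hK1, hK2, hK3⟩ := h3.exists
  exact ⟨K, hK3, le_of_lt hK1, le_of_lt hK2⟩

/-- Sets covered infinitely often by few cylinders. -/
theorem PNull_limsup {κ : Type} {S : Set (ℝ × F)} {A : ℕ → Finset κ}
    {z : ℕ → κ → ℝ × F} {n₁ : ℕ} (hcov : ∀ w ∈ S, ∀ K, ∃ n ≥ K, ∃ i ∈ A n,
      w ∈ PCyl (z n i) (W221.NS.rr n)) {C θ : ℝ} (hC : 0 ≤ C) (hθ0 : 0 ≤ θ)
    (hθ : θ * (1 / 2) ^ δ < 1) (hA : ∀ n ≥ n₁, ((A n).card : ℝ) ≤ C * θ ^ n) : PNull δ S := by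
  intro ε hε
  set x : ℝ := θ * (1 / 2) ^ δ with hx
  have hx0 : 0 ≤ x := by positivity
  obtain ⟨K, hKn, hK1, hK2⟩ := tail_small (C := C) hx0 hθ hε n₁
  refine ⟨Σ k : ℕ, {i // i ∈ A (K + k)}, inferInstance, fun w => z (K + w.1) w.2.1,
    fun w => W221.NS.rr (K + w.1), ?_, ?_, ?_⟩
  · rintro ⟨k, i⟩
    refine ⟨rr_pos _, le_trans ?_ hK2⟩
    exact rr_anti (Nat.le_add_right K k)
  · intro w hw
    obtain ⟨n, hn, i, hi, hwi⟩ := hcov w hw K
    obtain ⟨k, rfl⟩ := Nat.exists_eq_add_of_le hn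
    exact mem_iUnion.2 ⟨⟨k, i, hi⟩, hwi⟩
  · rw [ENNReal.tsum_sigma fun (k : ℕ) (_ : {i // i ∈ A (K + k)}) =>
      ENNReal.ofReal (W221.NS.rr (K + k) ^ δ)]
    calc ∑' (k : ℕ) (_ : {i // i ∈ A (K + k)}), ENNReal.ofReal (W221.NS.rr (K + k) ^ δ)
        = ∑' k : ℕ, ((A (K + k)).card : ℝ≥0∞) * ENNReal.ofReal (W221.NS.rr (K + k) ^ δ) := by
          refine tsum_congr fun k => ?_
          rw [tsum_fintype, Finset.sum_const, nsmul_eq_mul, Finset.card_univ, Fintype.card_coe]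
      _ ≤ ∑' k : ℕ, ENNReal.ofReal (C * x ^ (K + k)) := by
          refine ENNReal.tsum_le_tsum fun k => ?_
          rw [← ENNReal.ofReal_natCast, ← ENNReal.ofReal_mul (by positivity)]
          apply ENNReal.ofReal_le_ofReal
          rw [rr_rpow', hx, mul_pow, ← mul_assoc]
          exact mul_le_mul_of_nonneg_right (hA (K + k) (by omega)) (by positivity)
      _ = ENNReal.ofReal (C * x ^ K / (1 - x)) := tail_le hC hx0 hθ K
      _ ≤ _ := ENNReal.ofReal_le_ofReal hK1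

/-- The Hausdorff dimension of a null set. -/
theorem PNull.dimH_le {F : Type*} [NormedAddCommGroup F] [MeasurableSpace F] [BorelSpace F]
    [SecondCountableTopology F] {δ : ℝ≥0} (hδ : 0 < δ) {S : Set (ℝ × F)} (h : PNull (δ : ℝ) S) :
    dimH S ≤ δ := by
  refine dimH_le_of_hausdorffMeasure_ne_top ?_
  have hδ' : (0 : ℝ) < δ := hδ
  set e : ℕ → ℝ := fun n => 1 / ((n : ℝ) + 1) with he
  have he0 : ∀ n, 0 < e n := fun n => by rw [he]; positivity
  have he1 : ∀ n, e n ≤ 1 := fun n => by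
    rw [he]
    simp only
    rw [div_le_one (by positivity)]
    have : (0 : ℝ) ≤ n := Nat.cast_nonneg n
    linarith
  have het : Tendsto e atTop (𝓝 0) := tendsto_one_div_add_atTop_nhds_zero_nat
  choose ι hc z r h1 h2 h3 using fun n => h (e n) (he0 n)
  have hdiam : ∀ n i, ediam (PCyl (z n i) (r n i)) ≤ ENNReal.ofReal (2 * r n i) := by
    intro n i
    have hr0 := (h1 n i).1
    have hr1 : r n i ≤ 1 := (h1 n i).2.trans (he1 n)
    refine ediam_le fun w hw w' hw' => ?_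
    rw [edist_dist]
    apply ENNReal.ofReal_le_ofReal
    rw [Prod.dist_eq, max_le_iff]
    constructor
    · rw [Real.dist_eq]
      have e1 : w.1 - w'.1 = (w.1 - (z n i).1) - (w'.1 - (z n i).1) := by ring
      rw [e1]
      have h5 := abs_sub (w.1 - (z n i).1) (w'.1 - (z n i).1)
      have h6 : |w.1 - (z n i).1| < r n i ^ 2 := hw.1
      have h7 : |w'.1 - (z n i).1| < r n i ^ 2 := hw'.1
      nlinarith
    · rw [dist_eq_norm]
      have e1 : w.2 - w'.2 = (w.2 - (z n i).2) - (w'.2 - (z n i).2) := by abel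
      rw [e1]
      have h5 := norm_sub_le (w.2 - (z n i).2) (w'.2 - (z n i).2)
      have h6 : ‖w.2 - (z n i).2‖ < r n i := hw.2
      have h7 : ‖w'.2 - (z n i).2‖ < r n i := hw'.2
      linarith
  have hle := Measure.hausdorffMeasure_le_liminf_tsum (δ : ℝ) S (l := atTop)
    (fun n => ENNReal.ofReal (2 * e n)) (by
      have h4 : Tendsto (fun n => ENNReal.ofReal (2 * e n)) atTop (𝓝 (ENNReal.ofReal (2 * 0))) :=
        ENNReal.tendsto_ofReal (het.const_mul 2)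
      rwa [mul_zero, ENNReal.ofReal_zero] at h4)
    (fun n i => PCyl (z n i) (r n i))
    (Eventually.of_forall fun n i => (hdiam n i).trans (ENNReal.ofReal_le_ofReal (by
      have := (h1 n i).2
      linarith)))
    (Eventually.of_forall fun n => h2 n)
  refine ne_top_of_le_ne_top ?_ hle
  have hbd : ∀ n, ∑' i, ediam (PCyl (z n i) (r n i)) ^ (δ : ℝ)
      ≤ ENNReal.ofReal (2 ^ (δ : ℝ) * e n) := by
    intro n
    calc ∑' i, ediam (PCyl (z n i) (r n i)) ^ (δ : ℝ)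
        ≤ ∑' i, ENNReal.ofReal (2 ^ (δ : ℝ)) * ENNReal.ofReal (r n i ^ (δ : ℝ)) := by
          refine ENNReal.tsum_le_tsum fun i => ?_
          refine (ENNReal.rpow_le_rpow (hdiam n i) hδ'.le).trans (le_of_eq ?_)
          have hr0 := (h1 n i).1
          rw [ENNReal.ofReal_rpow_of_nonneg (by positivity) hδ'.le,
            Real.mul_rpow (by norm_num) hr0.le, ENNReal.ofReal_mul (by positivity)]
      _ = ENNReal.ofReal (2 ^ (δ : ℝ)) * ∑' i, ENNReal.ofReal (r n i ^ (δ : ℝ)) :=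
          ENNReal.tsum_mul_left
      _ ≤ ENNReal.ofReal (2 ^ (δ : ℝ)) * ENNReal.ofReal (e n) := mul_le_mul' le_rfl (h3 n)
      _ = _ := (ENNReal.ofReal_mul (by positivity)).symm
  refine ne_top_of_le_ne_top (b := ENNReal.ofReal (2 ^ (δ : ℝ))) ENNReal.ofReal_ne_top ?_
  refine liminf_le_of_le (by isBoundedDefault) ?_
  intro b hb
  obtain ⟨n, hn⟩ := hb.exists
  refine (hn.trans (hbd n)).trans (ENNReal.ofReal_le_ofReal ?_)
  exact mul_le_of_le_one_right (by positivity) (he1 n)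

end

end Pool.Agent.Helper30K1
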