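import Pool.Agent.Y494.NS.TCUT
import Pool.Agent.Helper30K1.Cv

/-!
One velocity component (helper30): the energy inequality over the period cell with a periodic
weight.
-/

set_option autoImplicit false

open MeasureTheory Set Metric Filter Topology
open scoped ContDiff ENNReal

namespace Pool.Agent.Helper30K1

open H459R3.NS W221.NS Pool.Agent.Y8

/-- The energy balance over the cell with the weight `Φ`. -/
noncomputable def EC (u : ℝ → V → V) (p Φ : ℝ → V → ℝ) (t : ℝ) : ℝ :=
  -2 * (∫ x in cube, gsq (u t) x * Φ t x)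
    + (∫ x in cube, nsq (u t) x * (deriv (fun s => Φ s x) t + lap (Φ t) x))
    + ∫ x in cube, (nsq (u t) x + 2 * p t x) * adv (u t) (Φ t) x

theorem chi_pz (i : Fin 3) {z : V} (hz : z ∉ ball (0 : V) 2) : pd i chi z = 0 :=
  pd_zero' chi_sm two_pos (fun _ h => chi_z h) hz i

theorem chi_ppz (i j : Fin 3) {z : V} (hz : z ∉ ball (0 : V) 2) : pd i (pd j chi) z = 0 :=
  pd_zero' (Pool.Agent.W583.MD.sm_pd chi_sm j) two_pos (fun _ h => chi_pz j h) hz i

theorem int0 {F : V → ℝ} (hF : Continuous F) : Integrable fun x => F x * chi x :=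
  int_csR (hF.mul chi_sm.continuous) (a := 0) (R := 2) fun z hz => by rw [chi_z hz, mul_zero]

theorem int1 {F : V → ℝ} (hF : Continuous F) (i : Fin 3) : Integrable fun x => F x * pd i chi x :=
  int_csR (hF.mul (Pool.Agent.W583.MD.sm_pd chi_sm i).continuous) (a := 0) (R := 2)
    fun z hz => by rw [chi_pz i hz, mul_zero]

theorem int2 {F : V → ℝ} (hF : Continuous F) (i : Fin 3) :
    Integrable fun x => F x * pd i (pd i chi) x :=
  int_csR (hF.mul (Pool.Agent.W583.MD.sm_pd (Pool.Agent.W583.MD.sm_pd chi_sm i) i).continuous)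
    (a := 0) (R := 2) fun z hz => by rw [chi_ppz i i hz, mul_zero]

/-- The unfolding of the adverse term. -/
theorem unf_adv {w : V → V} {F f : V → ℝ} (hw : ContDiff ℝ ∞ w) (hwp : Per w) (hF : Continuous F)
    (hFp : Per F) (hf : ContDiff ℝ ∞ f) (hfp : Per f) :
    ∫ x, F x * adv w (fun y => f y * chi y) x = ∫ x in cube, F x * adv w f x := by
  have e1 : ∀ x, F x * adv w (fun y => f y * chi y) x
      = (F x * adv w f x) * chi x + ∑ j, (F x * w x j * f x) * pd j chi x := by
    intro x
    unfold adv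
    have : ∀ j, pd j (fun y => f y * chi y) x = f x * pd j chi x + pd j f x * chi x := fun j =>
      Pool.Agent.W583.MD.pd_mul' hf chi_sm j x
    simp_rw [this]
    rw [Finset.mul_sum, Finset.mul_sum, Finset.sum_mul, ← Finset.sum_add_distrib]
    refine Finset.sum_congr rfl fun j _ => ?_
    ring
  simp_rw [e1]
  have hwc : ∀ j, Continuous fun x => w x j := fun j => (contDiff_pi.1 hw j).continuous
  have hac : Continuous (adv w f) := by
    unfold adv
    exact continuous_finsetSum _ fun j _ => (hwc j).mul (Pool.Agent.W583.MD.sm_pd hf j).continuous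
  have hap : Per (adv w f) := by
    intro i x
    unfold adv
    refine Finset.sum_congr rfl fun j _ => ?_
    rw [hwp i x, pd_per hfp j i x]
  have hjc : ∀ j, Continuous fun x => F x * w x j * f x := fun j =>
    (hF.mul (hwc j)).mul hf.continuous
  have hjp : ∀ j, Per fun x => F x * w x j * f x := by
    intro j i x
    show F _ * w _ j * f _ = _
    rw [hFp i x, hwp i x, hfp i x]
  rw [integral_add (int0 (F := fun x => F x * adv w f x) (hF.mul hac)) (integrable_finsetSum _ fun j _ => int1 (hjc j) j),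
    integral_finsetSum _ fun j _ => int1 (hjc j) j,
    chi0 (F := fun x => F x * adv w f x) (hF.mul hac) (fun i x => by
      show F _ * adv w f _ = _
      rw [hFp i x, hap i x])]
  rw [Finset.sum_eq_zero fun j _ => chi1 (F := fun x => F x * w x j * f x) (hjc j) (hjp j) j,
    add_zero]

/-- The unfolding of the heat term. -/
theorem unf_heat {n d f : V → ℝ} (hn : Continuous n) (hnp : Per n) (hd : Continuous d)
    (hdp : Per d) (hf : ContDiff ℝ ∞ f) (hfp : Per f) :
    ∫ x, n x * (d x * chi x + 1 * lap (fun y => f y * chi y) x)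
      = ∫ x in cube, n x * (d x + lap f x) := by
  have hlap : ∀ x, lap (fun y => f y * chi y) x = lap f x * chi x
      + ∑ j, (2 * (pd j f x * pd j chi x) + f x * pd j (pd j chi) x) := by
    intro x
    unfold lap
    rw [Finset.sum_mul, ← Finset.sum_add_distrib]
    refine Finset.sum_congr rfl fun j _ => ?_
    have e0 : pd j (fun y => f y * chi y) = fun x => f x * pd j chi x + pd j f x * chi x :=
      funext fun x => Pool.Agent.W583.MD.pd_mul' hf chi_sm j x
    have hf1 := Pool.Agent.W583.MD.sm_pd hf j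
    have hc1 := Pool.Agent.W583.MD.sm_pd chi_sm j
    rw [e0]
    have e2 : pd j (fun x => f x * pd j chi x + pd j f x * chi x) x
        = pd j (fun x => f x * pd j chi x) x + pd j (fun x => pd j f x * chi x) x := by
      unfold pd
      rw [fderiv_fun_add]
      · rfl
      · exact ((hf.mul hc1).differentiable (by simp)) x
      · exact ((hf1.mul chi_sm).differentiable (by simp)) x
    rw [e2, Pool.Agent.W583.MD.pd_mul' hf hc1, Pool.Agent.W583.MD.pd_mul' hf1 chi_sm]
    ring
  have hlc : Continuous (lap f) := by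
    unfold lap
    exact continuous_finsetSum _ fun j _ =>
      (Pool.Agent.W583.MD.sm_pd (Pool.Agent.W583.MD.sm_pd hf j) j).continuous
  have hlp : Per (lap f) := by
    intro i x
    unfold lap
    exact Finset.sum_congr rfl fun j _ => pd_per (pd_per hfp j) j i x
  have hpc : ∀ j, Continuous (pd j f) := fun j => (Pool.Agent.W583.MD.sm_pd hf j).continuous
  have e1 : ∀ x, n x * (d x * chi x + 1 * lap (fun y => f y * chi y) x)
      = (n x * (d x + lap f x)) * chi x
        + ∑ j, ((2 * (n x * pd j f x)) * pd j chi x + (n x * f x) * pd j (pd j chi) x) := by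
    intro x
    rw [hlap x, one_mul, mul_add, mul_add, Finset.mul_sum, mul_add, add_mul, add_assoc]
    congr 1
    · ring
    · congr 1
      · ring
      · refine Finset.sum_congr rfl fun j _ => ?_
        ring
  simp_rw [e1]
  have hF1c : ∀ j, Continuous fun x => 2 * (n x * pd j f x) := fun j =>
    continuous_const.mul (hn.mul (hpc j))
  have hF1p : ∀ j, Per fun x => 2 * (n x * pd j f x) := by
    intro j i x
    show 2 * (n _ * pd j f _) = _
    rw [hnp i x, pd_per hfp j i x]
  have hF2c : Continuous fun x => n x * f x := hn.mul hf.continuous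
  have hF2p : Per fun x => n x * f x := by
    intro i x
    show n _ * f _ = _
    rw [hnp i x, hfp i x]
  have hi : ∀ j, Integrable fun x =>
      (2 * (n x * pd j f x)) * pd j chi x + (n x * f x) * pd j (pd j chi) x := fun j =>
    (int1 (hF1c j) j).add (int2 hF2c j)
  rw [integral_add (int0 (F := fun x => n x * (d x + lap f x)) (hn.mul (hd.add hlc))) (integrable_finsetSum _ fun j _ => hi j),
    integral_finsetSum _ fun j _ => hi j,
    chi0 (F := fun x => n x * (d x + lap f x)) (hn.mul (hd.add hlc)) (fun i x => by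
      show n _ * (d _ + lap f _) = _
      rw [hnp i x, hdp i x, hlp i x])]
  rw [Finset.sum_eq_zero, add_zero]
  intro j _
  rw [integral_add (int1 (hF1c j) j) (int2 hF2c j), chi1 (hF1c j) (hF1p j) j,
    chi2 hF2c hF2p j, add_zero]

section

variable {T E D : ℝ} {G : Set ℝ} {u : ℝ → V → V} {p : ℝ → V → ℝ}

theorem DD_EC {α β : ℝ} {Φ : ℝ → V → ℝ} (h : Turb 1 T E D G u p)
    (hΦ : ContDiffOn ℝ ∞ (fun z : ℝ × V => Φ z.1 z.2) (Ioo α β ×ˢ univ))
    (hper : ∀ t ∈ Ioo α β, Per (Φ t)) {τ : ℝ} (hτ : τ ∈ G) (hτ2 : τ ∈ Ioo α β) :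
    DD 1 u p (fun t x => Φ t x * chi x) τ = EC u p Φ τ := by
  have hu := h.spv hτ
  have hp := h.sp hτ
  have hf := sl_sm hΦ hτ2
  have hfp := hper τ hτ2
  have hnc := (nsq_sm hu.1).continuous
  have hnp := nsq_per hu.2
  have hdt : ∀ x, HasDerivAt (fun s => Φ s x) (deriv (fun s => Φ s x) τ) τ := fun x =>
    dt_hd' isOpen_Ioo hΦ hτ2 x
  have hd : ∀ x, deriv (fun s => Φ s x * chi x) τ = deriv (fun s => Φ s x) τ * chi x := fun x =>
    ((hdt x).mul_const (chi x)).deriv
  have hdc : Continuous fun x => deriv (fun s => Φ s x) τ :=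
    sl_ct (F := fun t x => deriv (fun s => Φ s x) t) (dt_joint isOpen_Ioo hΦ).continuousOn hτ2
  have hdp : Per fun x => deriv (fun s => Φ s x) τ := by
    intro i x
    show deriv (fun s => Φ s (x + Pi.single i 1)) τ = deriv (fun s => Φ s x) τ
    apply Filter.EventuallyEq.deriv_eq
    filter_upwards [isOpen_Ioo.mem_nhds hτ2] with σ hσ
    exact hper σ hσ i x
  have hgc : Continuous (gsq (u τ)) := by
    unfold gsq
    exact continuous_finsetSum _ fun i _ => continuous_finsetSum _ fun j _ =>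
      (Pool.Agent.W583.MD.sm_pd (contDiff_pi.1 hu.1 i) j).continuous.pow 2
  unfold DD EC
  have t1 : ∫ x, gsq (u τ) x * (Φ τ x * chi x) = ∫ x in cube, gsq (u τ) x * Φ τ x := by
    rw [← chi0 (F := fun x => gsq (u τ) x * Φ τ x) (hgc.mul hf.continuous) (fun i x => by
      show gsq (u τ) _ * Φ τ _ = _
      rw [gsq_per hu.2 i x, hfp i x])]
    refine integral_congr_ae (Eventually.of_forall fun x => ?_)
    show _ = _
    ring
  have t2 := unf_heat hnc hnp hdc hdp hf hfp
  have t3 := unf_adv (F := fun x => nsq (u τ) x + 2 * p τ x) hu.1 hu.2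
    (hnc.add (continuous_const.mul hp.smooth.continuous)) (fun i x => by
      show nsq (u τ) _ + 2 * p τ _ = _
      rw [hnp i x, hp.per i x]) hf hfp
  simp_rw [hd]
  rw [t1, t2, t3]
  ring

/-- The energy inequality over the cell. -/
theorem pen (h : Turb 1 T E D G u p) {α β : ℝ} {Φ : ℝ → V → ℝ}
    (hΦ : ContDiffOn ℝ ∞ (fun z : ℝ × V => Φ z.1 z.2) (Ioo α β ×ˢ univ))
    (hper : ∀ t ∈ Ioo α β, Per (Φ t)) {s t : ℝ} (hsG : s ∈ G)
    (htG : t ∈ G) (hαs : α < s) (hst : s ≤ t) (htβ : t < β)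
    (pos : ∀ τ ∈ Icc s t, ∀ z, 0 ≤ Φ τ z) :
    IntegrableOn (EC u p Φ) (Ioo s t ∩ G) ∧
      (∫ z in cube, nsq (u t) z * Φ t z) - (∫ z in cube, nsq (u s) z * Φ s z)
        ≤ ∫ τ in Ioo s t ∩ G, EC u p Φ τ := by
  have hsm : ContDiffOn ℝ ∞ (fun z : ℝ × V => Φ z.1 z.2 * chi z.2) (Ioo α β ×ˢ univ) :=
    hΦ.mul (chi_sm.comp contDiff_snd).contDiffOn
  obtain ⟨h1, h2⟩ := lei (Pool.Agent.Y494.NS.t_TCUT) h (Φ := fun t x => Φ t x * chi x) hsm
    (a := 0) two_pos (fun t _ z hz => by rw [chi_z hz, mul_zero]) hsG htG hαs hst htβ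
    (fun τ hτ z => mul_nonneg (pos τ hτ z) (chi_nn z))
  have hms : MeasurableSet (Ioo s t ∩ G) := measurableSet_Ioo.inter h.openG.measurableSet
  have hIab : Ioo s t ⊆ Ioo α β := fun τ h => ⟨hαs.trans h.1, h.2.trans htβ⟩
  have e1 : ∀ τ ∈ Ioo s t ∩ G, DD 1 u p (fun t x => Φ t x * chi x) τ = EC u p Φ τ :=
    fun τ hτ => DD_EC h hΦ hper hτ.2 (hIab hτ.1)
  have hae := aeG h hsG htG
  have h1' : IntegrableOn (DD 1 u p (fun t x => Φ t x * chi x)) (Ioo s t ∩ G) :=
    h1.mono_set inter_subset_left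
  refine ⟨h1'.congr_fun e1 hms, ?_⟩
  have e2 : ∀ τ ∈ G, τ ∈ Ioo α β → ∫ z, nsq (u τ) z * (Φ τ z * chi z)
      = ∫ z in cube, nsq (u τ) z * Φ τ z := by
    intro τ hτ hτ2
    have hu := h.spv hτ
    rw [← chi0 (F := fun x => nsq (u τ) x * Φ τ x)
      ((nsq_sm hu.1).continuous.mul (sl_sm hΦ hτ2).continuous) (fun i x => by
      show nsq (u τ) _ * Φ τ _ = _
      rw [nsq_per hu.2 i x, hper τ hτ2 i x])]
    refine integral_congr_ae (Eventually.of_forall fun x => ?_)
    show _ = _
    ring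
  rw [e2 t htG ⟨hαs.trans_le hst, htβ⟩, e2 s hsG ⟨hαs, hst.trans_lt htβ⟩,
    ← setIntegral_congr_set hae] at h2
  rw [← setIntegral_congr_fun hms e1]
  exact h2

end

end Pool.Agent.Helper30K1
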