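import Pool.Agent.Helper30K1.Unif

/-!
One velocity component (helper30): the number of the boxes in which the component is not small.
-/

set_option autoImplicit false

open MeasureTheory Set Metric Filter Topology
open scoped ContDiff ENNReal

namespace Pool.Agent.Helper30K1

open H459R3.NS W221.NS Pool.Agent.Y8

/-- The integral of the power of the component over the cube. -/
noncomputable def Nq (q : ℝ) (u : ℝ → V → V) (j : Fin 3) (t : ℝ) : ℝ≥0∞ :=
  ∫⁻ x in cube, ‖u t x j‖ₑ ^ q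

/-- The integral of the power of the component over a slab of the grid. -/
noncomputable def fl (q : ℝ) (u : ℝ → V → V) (j : Fin 3) (n l : ℕ) (t : ℝ) : ℝ≥0∞ :=
  ∫⁻ x in cube ∩ Slab j ((l : ℝ) * rr n) (2 * rr n), ‖u t x j‖ₑ ^ q

/-- The windows in time of the grid. -/
def Wg (G : Set ℝ) (n i : ℕ) : Set ℝ := Ioo (((i : ℝ) - 1) * rr n ^ 2) (((i : ℝ) + 1) * rr n ^ 2) ∩ G

/-- The norm in a box of the grid. -/
noncomputable def Ag (q : ℝ) (G : Set ℝ) (u : ℝ → V → V) (j : Fin 3) (n i l : ℕ) : ℝ≥0∞ :=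
  ENNReal.ofReal (rr n ^ (-(3 / q))) * (∫⁻ t in Wg G n i, fl q u j n l t ^ (2 / q)) ^ (1 / 2 : ℝ)

/-- The norm in a window of the grid. -/
noncomputable def Tg (q : ℝ) (G : Set ℝ) (u : ℝ → V → V) (j : Fin 3) (n i : ℕ) : ℝ≥0∞ :=
  ENNReal.ofReal (rr n ^ (-(3 / q))) * (∫⁻ t in Wg G n i, Nq q u j t ^ (2 / q)) ^ (1 / 2 : ℝ)

section

variable {T E D : ℝ} {G : Set ℝ} {u : ℝ → V → V} {p : ℝ → V → ℝ}

theorem Wg_meas (hG : IsOpen G) (n i : ℕ) : MeasurableSet (Wg G n i) :=
  measurableSet_Ioo.inter hG.measurableSet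

theorem int_meas (h : Turb 1 T E D G u p) {q : ℝ} (j : Fin 3) {S : Set V}
    (hS : MeasurableSet S) {I : Set ℝ} (hI : I ⊆ G) :
    AEMeasurable (fun t => ∫⁻ x in S, ‖u t x j‖ₑ ^ q) (volume.restrict I) := by
  have h1 : AEMeasurable (fun t => ∫⁻ x in S, (fun s : ℝ => ‖s‖ₑ ^ q) (u t x j))
      (volume.restrict G) :=
    meas_int h.openG.measurableSet (f := fun t x => u t x j) (Φ := fun s : ℝ => ‖s‖ₑ ^ q)
      (comp_joint h.smooth_u j).continuousOn (by fun_prop) hS
  exact h1.mono_measure (Measure.restrict_mono hI le_rfl)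

theorem sum_fl (h : Turb 1 T E D G u p) {q : ℝ} (j : Fin 3) (n : ℕ) {t : ℝ} (ht : t ∈ G) :
    ∑ l ∈ Finset.range (2 ^ n), fl q u j n l t ≤ 5 * Nq q u j t := by
  classical
  have hum : Measurable fun x => ‖u t x j‖ₑ ^ q :=
    (vj_meas (h.spv ht) j).pow_const q
  unfold fl Nq
  calc ∑ l ∈ Finset.range (2 ^ n), ∫⁻ x in cube ∩ Slab j ((l : ℝ) * rr n) (2 * rr n), ‖u t x j‖ₑ ^ q
      = ∑ l ∈ Finset.range (2 ^ n), ∫⁻ x in cube,
        (Slab j ((l : ℝ) * rr n) (2 * rr n)).indicator (fun x => ‖u t x j‖ₑ ^ q) x := by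
        refine Finset.sum_congr rfl fun l _ => ?_
        rw [inter_comm cube]
        exact (setLIntegral_indicator (Slab_open j _ _).measurableSet _).symm
    _ = ∫⁻ x in cube, ∑ l ∈ Finset.range (2 ^ n),
        (Slab j ((l : ℝ) * rr n) (2 * rr n)).indicator (fun x => ‖u t x j‖ₑ ^ q) x := by
        rw [lintegral_finsetSum]
        exact fun l _ => hum.indicator (Slab_open j _ _).measurableSet
    _ ≤ ∫⁻ x in cube, 5 * ‖u t x j‖ₑ ^ q := by
        refine lintegral_mono fun x => ?_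
        have h1 : ∑ l ∈ Finset.range (2 ^ n),
            (Slab j ((l : ℝ) * rr n) (2 * rr n)).indicator (fun x => ‖u t x j‖ₑ ^ q) x
            = ∑ l ∈ (Finset.range (2 ^ n)).filter
              (fun l : ℕ => x ∈ Slab j ((l : ℝ) * rr n) (2 * rr n)), ‖u t x j‖ₑ ^ q := by
          rw [Finset.sum_filter]
          refine Finset.sum_congr rfl fun l _ => ?_
          rw [indicator_apply]
        rw [h1, Finset.sum_const, nsmul_eq_mul]
        gcongr
        exact_mod_cast slab_overlap j n x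
    _ = _ := lintegral_const_mul' _ _ (by norm_num)

/-- The norms in the slabs of one window. -/
theorem sum_Ag (h : Turb 1 T E D G u p) {q : ℝ} (hq : 3 < q) (j : Fin 3) (n i : ℕ) :
    ∑ l ∈ Finset.range (2 ^ n), Ag q G u j n i l ^ q ≤ 5 * Tg q G u j n i ^ q := by
  have hq0 : 0 < q := by linarith
  have e0 : ∀ y : ℝ≥0∞, (y ^ (1 / 2 : ℝ)) ^ q = y ^ (q / 2) := by
    intro y
    rw [← ENNReal.rpow_mul]
    congr 1
    ring
  unfold Ag Tg
  simp_rw [ENNReal.mul_rpow_of_nonneg _ _ hq0.le, e0]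
  rw [← Finset.mul_sum, mul_left_comm]
  refine mul_le_mul' le_rfl ?_
  have hfm : ∀ l : ℕ, AEMeasurable (fun t => fl q u j n l t ^ (2 / q)) (volume.restrict (Wg G n i)) :=
    fun l => (int_meas h j (cube_meas.inter (Slab_open j _ _).measurableSet)
      inter_subset_right).pow_const _
  refine (mink _ (Finset.range (2 ^ n)) (q / 2) (by linarith) _ fun l _ => hfm l).trans ?_
  have e1 : ∀ y : ℝ≥0∞, (y ^ (2 / q)) ^ (q / 2) = y := by
    intro y
    rw [← ENNReal.rpow_mul]
    have : 2 / q * (q / 2) = 1 := by field_simp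
    rw [this, ENNReal.rpow_one]
  simp_rw [e1]
  have e2 : (1 : ℝ) / (q / 2) = 2 / q := by field_simp
  rw [e2]
  calc (∫⁻ t in Wg G n i, (∑ l ∈ Finset.range (2 ^ n), fl q u j n l t) ^ (2 / q)) ^ (q / 2)
      ≤ (∫⁻ t in Wg G n i, 5 ^ (2 / q) * Nq q u j t ^ (2 / q)) ^ (q / 2) := by
        refine ENNReal.rpow_le_rpow ?_ (by positivity)
        refine setLIntegral_mono' (Wg_meas h.openG n i) fun t ht => ?_
        rw [← ENNReal.mul_rpow_of_nonneg _ _ (by positivity)]
        exact ENNReal.rpow_le_rpow (sum_fl h j n ht.2) (by positivity)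
    _ = _ := by
        have h5 : (5 : ℝ≥0∞) ^ (2 / q) ≠ ⊤ :=
          ENNReal.rpow_ne_top_of_nonneg (by positivity) (by norm_num)
        rw [lintegral_const_mul' _ _ h5, ENNReal.mul_rpow_of_nonneg _ _ (by positivity), e1]

theorem SN_Ag {q : ℝ} (hq : 3 < q) {n i l : ℕ} {j : Fin 3} {c t₀ : ℝ}
    (h1 : (i : ℝ) * rr n ^ 2 ≤ t₀) (h2 : t₀ ≤ ((i : ℝ) + 1) * rr n ^ 2)
    (hc : |c - l * rr n| ≤ rr n) : SN 1 q G u j c t₀ (rr n) ≤ Ag q G u j n i l := by
  unfold SN Ag
  refine mul_le_mul' le_rfl (ENNReal.rpow_le_rpow ?_ (by norm_num))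
  have hsub : Ioo (t₀ - rr n ^ 2 / 1) t₀ ∩ G ⊆ Wg G n i := by
    refine inter_subset_inter_left _ (Ioo_subset_Ioo ?_ h2)
    rw [div_one]
    linarith
  refine (lintegral_mono_set hsub).trans ?_
  refine lintegral_mono fun t => ?_
  refine ENNReal.rpow_le_rpow ?_ (by positivity)
  unfold fl
  refine lintegral_mono_set (inter_subset_inter_right _ ?_)
  rintro x ⟨k, hk⟩
  refine ⟨k, ?_⟩
  have e1 : x j - l * rr n - k = (x j - c - k) + (c - l * rr n) := by ring
  rw [e1]
  refine (abs_add_le _ _).trans_lt ?_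
  linarith

theorem SN_Tg {q : ℝ} (hq : 3 < q) {n i : ℕ} {j : Fin 3} {c t₀ : ℝ}
    (h1 : (i : ℝ) * rr n ^ 2 ≤ t₀) (h2 : t₀ ≤ ((i : ℝ) + 1) * rr n ^ 2) :
    SN 1 q G u j c t₀ (rr n) ≤ Tg q G u j n i := by
  unfold SN Tg
  refine mul_le_mul' le_rfl (ENNReal.rpow_le_rpow ?_ (by norm_num))
  have hsub : Ioo (t₀ - rr n ^ 2 / 1) t₀ ∩ G ⊆ Wg G n i := by
    refine inter_subset_inter_left _ (Ioo_subset_Ioo ?_ h2)
    rw [div_one]
    linarith
  refine (lintegral_mono_set hsub).trans ?_
  refine lintegral_mono fun t => ?_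
  refine ENNReal.rpow_le_rpow ?_ (by positivity)
  unfold Nq
  exact lintegral_mono_set inter_subset_left

/-- Hölder's inequality in a window. -/
theorem Tg_le (h : Turb 1 T E D G u p) {q m : ℝ} (hq : 3 < q) (hm : 2 ≤ m) (j : Fin 3) (n i : ℕ) :
    Tg q G u j n i ≤ 2 * (ENNReal.ofReal (rr n ^ (-(2 / m + 3 / q - 1)))
      * (∫⁻ t in Wg G n i, Nq q u j t ^ (m / q)) ^ (1 / m)) := by
  have hq0 : 0 < q := by linarith
  have hm0 : 0 < m := by linarith
  have hr := rr_pos n
  set I := Wg G n i with hI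
  have hvol : volume I ≤ ENNReal.ofReal (2 * rr n ^ 2) := by
    refine (measure_mono inter_subset_left).trans ?_
    rw [Real.volume_Ioo]
    exact ENNReal.ofReal_le_ofReal (by linarith)
  have hNm : AEMeasurable (fun t => Nq q u j t) (volume.restrict I) :=
    int_meas h j cube_meas inter_subset_right
  have hH : (∫⁻ t in I, Nq q u j t ^ (2 / q)) ^ (1 / 2 : ℝ)
      ≤ (∫⁻ t in I, Nq q u j t ^ (m / q)) ^ (1 / m) * volume I ^ (1 / 2 - 1 / m) := by
    rcases eq_or_lt_of_le hm with hm2 | hm2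
    · subst hm2
      rw [sub_self, ENNReal.rpow_zero, mul_one]
    · have hconj : (m / 2).HolderConjugate (m / (m - 2)) := by
        rw [Real.holderConjugate_iff]
        refine ⟨by linarith, ?_⟩
        have : m - 2 ≠ 0 := by linarith
        field_simp
        ring
      have h2 := ENNReal.lintegral_mul_le_Lp_mul_Lq (volume.restrict I) hconj
        (f := fun t => Nq q u j t ^ (2 / q)) (g := fun _ => (1 : ℝ≥0∞)) (hNm.pow_const _)
        aemeasurable_const
      have e1 : ∀ t, (Nq q u j t ^ (2 / q)) ^ (m / 2) = Nq q u j t ^ (m / q) := by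
        intro t
        rw [← ENNReal.rpow_mul]
        congr 1
        field_simp
      simp only [Pi.mul_apply, mul_one, e1, ENNReal.one_rpow, lintegral_const,
        MeasurableSet.univ, Measure.restrict_apply, univ_inter, one_mul] at h2
      have h3 := ENNReal.rpow_le_rpow h2 (by norm_num : (0 : ℝ) ≤ 1 / 2)
      refine h3.trans (le_of_eq ?_)
      rw [ENNReal.mul_rpow_of_nonneg _ _ (by norm_num), ← ENNReal.rpow_mul, ← ENNReal.rpow_mul]
      congr 2
      · field_simp
      · field_simp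
  have hexp : 0 ≤ 1 / 2 - 1 / m := by
    have : 1 / m ≤ 1 / 2 := by
      apply one_div_le_one_div_of_le <;> linarith
    linarith
  unfold Tg
  calc ENNReal.ofReal (rr n ^ (-(3 / q))) * (∫⁻ t in I, Nq q u j t ^ (2 / q)) ^ (1 / 2 : ℝ)
      ≤ ENNReal.ofReal (rr n ^ (-(3 / q))) * ((∫⁻ t in I, Nq q u j t ^ (m / q)) ^ (1 / m)
        * ENNReal.ofReal (2 * rr n ^ 2) ^ (1 / 2 - 1 / m)) := by
        refine mul_le_mul' le_rfl (hH.trans (mul_le_mul' le_rfl ?_))
        exact ENNReal.rpow_le_rpow hvol hexp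
    _ = (ENNReal.ofReal (rr n ^ (-(3 / q))) * ENNReal.ofReal (2 * rr n ^ 2) ^ (1 / 2 - 1 / m))
        * (∫⁻ t in I, Nq q u j t ^ (m / q)) ^ (1 / m) := by ring
    _ ≤ (2 * ENNReal.ofReal (rr n ^ (-(2 / m + 3 / q - 1))))
        * (∫⁻ t in I, Nq q u j t ^ (m / q)) ^ (1 / m) := by
        refine mul_le_mul' ?_ le_rfl
        rw [ENNReal.ofReal_rpow_of_nonneg (by positivity) hexp,
          ← ENNReal.ofReal_mul (by positivity), show (2 : ℝ≥0∞) = ENNReal.ofReal 2 by norm_num,
          ← ENNReal.ofReal_mul (by norm_num)]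
        apply ENNReal.ofReal_le_ofReal
        rw [Real.mul_rpow (by norm_num) (by positivity), ← Real.rpow_natCast (rr n) 2,
          ← Real.rpow_mul hr.le]
        calc rr n ^ (-(3 / q)) * (2 ^ (1 / 2 - 1 / m) * rr n ^ (((2 : ℕ) : ℝ) * (1 / 2 - 1 / m)))
            = 2 ^ (1 / 2 - 1 / m) * (rr n ^ (-(3 / q)) * rr n ^ (((2 : ℕ) : ℝ) * (1 / 2 - 1 / m))) := by
              ring
          _ = 2 ^ (1 / 2 - 1 / m) * rr n ^ (-(2 / m + 3 / q - 1)) := by
              rw [← Real.rpow_add hr]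
              congr 2
              push_cast
              ring
          _ ≤ 2 * rr n ^ (-(2 / m + 3 / q - 1)) := by
              have h5 : (2 : ℝ) ^ (1 / 2 - 1 / m) ≤ 2 ^ (1 : ℝ) := by
                apply Real.rpow_le_rpow_of_exponent_le (by norm_num)
                have : 0 < 1 / m := by positivity
                linarith
              rw [Real.rpow_one] at h5
              gcongr
    _ = _ := by ring

/-- The windows overlap at most twice. -/
theorem sum_Wg (h : Turb 1 T E D G u p) {f : ℝ → ℝ≥0∞} (hf : AEMeasurable f (volume.restrict G))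
    (n N : ℕ) : ∑ i ∈ Finset.range N, ∫⁻ t in Wg G n i, f t ≤ 2 * ∫⁻ t in G, f t := by
  classical
  have hr := rr_pos n
  calc ∑ i ∈ Finset.range N, ∫⁻ t in Wg G n i, f t
      = ∑ i ∈ Finset.range N, ∫⁻ t in G,
        (Ioo (((i : ℝ) - 1) * rr n ^ 2) (((i : ℝ) + 1) * rr n ^ 2)).indicator f t := by
        refine Finset.sum_congr rfl fun i _ => ?_
        exact (setLIntegral_indicator measurableSet_Ioo f).symm
    _ = ∫⁻ t in G, ∑ i ∈ Finset.range N,
        (Ioo (((i : ℝ) - 1) * rr n ^ 2) (((i : ℝ) + 1) * rr n ^ 2)).indicator f t := by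
        rw [lintegral_finsetSum']
        exact fun i _ => hf.indicator measurableSet_Ioo
    _ ≤ ∫⁻ t in G, 2 * f t := by
        refine setLIntegral_mono' h.openG.measurableSet fun t ht => ?_
        have h1 : ∑ i ∈ Finset.range N,
            (Ioo (((i : ℝ) - 1) * rr n ^ 2) (((i : ℝ) + 1) * rr n ^ 2)).indicator f t
            = ∑ i ∈ (Finset.range N).filter
              (fun i : ℕ => t ∈ Ioo (((i : ℝ) - 1) * rr n ^ 2) (((i : ℝ) + 1) * rr n ^ 2)), f t := by
          rw [Finset.sum_filter]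
          refine Finset.sum_congr rfl fun i _ => ?_
          rw [indicator_apply]
        rw [h1, Finset.sum_const, nsmul_eq_mul]
        gcongr
        set y : ℝ := t / rr n ^ 2 with hy
        have ht0 : 0 < t := (h.subG ht).1
        have hy0 : 0 ≤ y := by positivity
        have hsub : (Finset.range N).filter
            (fun i : ℕ => t ∈ Ioo (((i : ℝ) - 1) * rr n ^ 2) (((i : ℝ) + 1) * rr n ^ 2))
            ⊆ Finset.Icc ⌊y⌋₊ (⌊y⌋₊ + 1) := by
          intro i hi
          have h2 := (Finset.mem_filter.1 hi).2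
          have h3 : (i : ℝ) - 1 < y := by
            rw [hy, lt_div_iff₀ (by positivity)]
            exact h2.1
          have h4 : y < (i : ℝ) + 1 := by
            rw [hy, div_lt_iff₀ (by positivity)]
            exact h2.2
          have h5 := Nat.floor_le hy0
          have h6 := Nat.lt_floor_add_one y
          rw [Finset.mem_Icc]
          constructor
          · have : ((⌊y⌋₊ : ℕ) : ℝ) < ((i + 1 : ℕ) : ℝ) := by push_cast; linarith
            have := Nat.cast_lt.1 this
            omega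
          · have : ((i : ℕ) : ℝ) < ((⌊y⌋₊ + 2 : ℕ) : ℝ) := by push_cast; linarith
            have := Nat.cast_lt.1 this
            omega
        have := Finset.card_le_card hsub
        rw [Nat.card_Icc] at this
        have h7 : ((Finset.range N).filter
            (fun i : ℕ => t ∈ Ioo (((i : ℝ) - 1) * rr n ^ 2) (((i : ℝ) + 1) * rr n ^ 2))).card ≤ 2 := by
          omega
        exact_mod_cast h7
    _ = _ := lintegral_const_mul' _ _ (by norm_num)

end

end Pool.Agent.Helper30K1
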