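import Pool.Agent.Helper30K1.Ker
import Pool.Agent.Helper30K1.Lin

/-!
One velocity component (helper30): pointwise values as limits of integrals against the kernel `eta`.
-/

set_option autoImplicit false

open MeasureTheory Set Metric Filter Topology
open scoped ContDiff ENNReal

namespace Pool.Agent.Helper30K1

open H459R3.NS Pool.Agent.Y8

theorem Qf_lt_one (c s : ℝ) : Qf c s < 1 := by
  unfold Qf
  have h1 : Real.sin (Real.pi * (s - c)) ^ 2 ≤ 1 := by
    have := Real.sin_sq_add_cos_sq (Real.pi * (s - c))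
    nlinarith [sq_nonneg (Real.cos (Real.pi * (s - c)))]
  have h2 : (1 : ℝ) < Real.pi ^ 2 := by nlinarith [Real.pi_gt_three]
  rw [div_lt_one (by positivity)]
  linarith

theorem Sb_one {j : Fin 3} {c R : ℝ} (hR : 1 ≤ R) : Sb j c R = univ := by
  ext x
  simp only [mem_univ, iff_true]
  show Qf c (x j) < R ^ 2
  have := Qf_lt_one c (x j)
  nlinarith

/-- Integrability of powers. -/
theorem near0 {a : ℝ} (ha : 2 < a) (ha3 : a < 3) : ∃ C : ℝ, 0 < C ∧
    ∫⁻ z in ball (0 : V) (1 / 2), ‖z‖ₑ ^ (-a) ≤ ENNReal.ofReal C := by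
  obtain ⟨C, hC, h⟩ := nearS ha ha3
  refine ⟨C, hC, ?_⟩
  have h1 := h 0 0 0 1 one_pos
  have h2 : {x : V | ‖x - 0‖ < 1 / 2 ∧ x ∈ Sb 0 0 1} = ball (0 : V) (1 / 2) := by
    ext x
    rw [Sb_one le_rfl]
    simp
  rw [h2] at h1
  simp only [sub_zero, Real.one_rpow, mul_one] at h1
  exact h1

theorem eta_zero {δ : ℝ} {x : V} (h : x ∉ ball (0 : V) (1 / 2)) : eta δ x = 0 := by
  unfold eta
  have : cut x = 0 := by
    have h1 := (cut).support_eq
    by_contra hne
    have : x ∈ Function.support cut := hne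
    rw [h1] at this
    exact h this
  rw [this, zero_mul]

theorem eta_sm {δ : ℝ} (hδ : 0 < δ) (hδ1 : δ ≤ 1) : ContDiff ℝ ∞ (eta δ) := by
  obtain ⟨C, -, h⟩ := ker_all
  exact (h δ hδ hδ1).2.1

theorem eta_nn {δ : ℝ} (x : V) : 0 ≤ eta δ x := by
  unfold eta
  have : 0 ≤ cut x := cut.nonneg
  positivity

theorem QQ_nn {δ : ℝ} (x : V) : 0 ≤ QQ δ x := by unfold QQ; positivity

theorem eta_low {δ : ℝ} (hδ : 0 < δ) (hδ1 : δ ≤ 1 / 4) {x : V} (hx : x ∈ closedBall (0 : V) δ) :
    3 / (32 * δ ^ 3) ≤ eta δ x := by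
  rw [mem_closedBall, dist_zero_right] at hx
  have h1 : cut x = 1 := by
    apply cut.one_of_mem_closedBall
    rw [mem_closedBall, dist_zero_right]
    exact hx.trans hδ1
  unfold eta
  rw [h1, one_mul]
  have h2 : QQ δ x ≤ (2 * δ) ^ 2 := by
    unfold QQ
    have h3 : ∀ i, x i ^ 2 ≤ δ ^ 2 := fun i => by
      have := (norm_le_pi_norm x i).trans hx
      rw [Real.norm_eq_abs] at this
      exact sq_le_sq' (by linarith [neg_le_of_abs_le this]) (le_of_abs_le this)
    have h4 : ∑ i, x i ^ 2 ≤ 3 * δ ^ 2 := by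
      rw [Fin.sum_univ_three]
      linarith [h3 0, h3 1, h3 2]
    nlinarith
  have h5 : √(QQ δ x) ≤ 2 * δ := by
    rw [show 2 * δ = √((2 * δ) ^ 2) by rw [Real.sqrt_sq (by positivity)]]
    exact Real.sqrt_le_sqrt h2
  have h6 : 0 < √(QQ δ x) := by
    apply Real.sqrt_pos.2
    unfold QQ
    positivity
  have h7 : √(QQ δ x) ^ 5 ≤ (2 * δ) ^ 5 := by gcongr
  calc 3 / (32 * δ ^ 3) = 3 * δ ^ 2 * ((2 * δ) ^ 5)⁻¹ := by
        field_simp
        ring
    _ ≤ 3 * δ ^ 2 * (√(QQ δ x) ^ 5)⁻¹ := by gcongr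

theorem eta_hcs {δ : ℝ} : HasCompactSupport (eta δ) := by
  refine HasCompactSupport.of_support_subset_isCompact (isCompact_closedBall (0 : V) (1 / 2))
    fun z hz => ?_
  by_contra hcon
  exact hz (eta_zero fun h => hcon (ball_subset_closedBall h))

theorem eta_mass {δ : ℝ} (hδ : 0 < δ) (hδ1 : δ ≤ 1 / 4) : 3 / 4 ≤ ∫ x, eta δ x := by
  have hi : Integrable (eta δ) := (eta_sm hδ (by linarith)).continuous.integrable_of_hasCompactSupport
    eta_hcs
  calc (3 : ℝ) / 4 = ∫ x in closedBall (0 : V) δ, 3 / (32 * δ ^ 3) := by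
        rw [setIntegral_const, measureReal_def, Real.volume_pi_closedBall _ hδ.le,
          ENNReal.toReal_ofReal (by positivity)]
        simp only [Fintype.card_fin, smul_eq_mul]
        field_simp
        norm_num
    _ ≤ ∫ x in closedBall (0 : V) δ, eta δ x := by
        refine setIntegral_mono_on ?_ hi.integrableOn measurableSet_closedBall fun x hx =>
          eta_low hδ hδ1 hx
        rw [integrableOn_const_iff]
        right
        exact (isCompact_closedBall _ _).measure_lt_top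
    _ ≤ ∫ x, eta δ x := setIntegral_le_integral hi (Eventually.of_forall fun x => eta_nn x)

/-- The Lipschitz property near a point. -/
theorem lip_near {f : V → ℝ} (hf : ContDiff ℝ ∞ f) (x : V) :
    ∃ L : ℝ, 0 ≤ L ∧ ∀ z ∈ ball (0 : V) (1 / 2), |f (x + z) - f x| ≤ L * ‖z‖ := by
  obtain ⟨L, hL⟩ := (isCompact_closedBall x (1 / 2)).exists_bound_of_continuousOn
    ((hf.continuous_fderiv (by simp)).norm).continuousOn
  refine ⟨|L|, abs_nonneg _, fun z hz => ?_⟩
  rw [mem_ball, dist_zero_right] at hz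
  have h1 := Convex.norm_image_sub_le_of_norm_fderiv_le (𝕜 := ℝ) (f := f) (s := closedBall x (1 / 2))
    (C := |L|) (x := x) (y := x + z)
    (fun y _ => hf.differentiable (by simp) y) (fun y hy => ?_) (convex_closedBall _ _)
    (mem_closedBall_self (by norm_num)) (by
      rw [mem_closedBall, dist_eq_norm]
      simpa using hz.le)
  · rw [Real.norm_eq_abs] at h1
    simpa using h1
  · have h2 := hL y hy
    rw [norm_norm] at h2
    exact h2.trans (le_abs_self L)

/-- Values as limits. -/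
theorem eta_pt {f : V → ℝ} (hf : ContDiff ℝ ∞ f) (x : V) {B : ℝ≥0∞}
    (hB : ∀ δ : ℝ, 0 < δ → δ ≤ 1 / 4 → ‖∫ y, eta δ (y - x) * f y‖ₑ ≤ B) :
    ‖f x‖ₑ ≤ 2 * B := by
  obtain ⟨C, hC, hk⟩ := ker_all
  obtain ⟨C1, hC1, hn⟩ := near0 (a := 5 / 2) (by norm_num) (by norm_num)
  obtain ⟨L, hL0, hL⟩ := lip_near hf x
  have key : ∀ δ : ℝ, 0 < δ → δ ≤ 1 / 4 →
      ENNReal.ofReal (3 / 4) * ‖f x‖ₑ ≤ B + ENNReal.ofReal (C * L * √δ * C1) := by
    intro δ hδ hδ1
    have hes := eta_sm hδ (by linarith : δ ≤ 1)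
    have hei : Integrable (eta δ) := hes.continuous.integrable_of_hasCompactSupport eta_hcs
    have e1 : ∫ y, eta δ (y - x) * f y = ∫ z, eta δ z * f (x + z) := by
      rw [← integral_sub_right_eq_self (fun z => eta δ z * f (x + z)) x]
      simp only [add_sub_cancel]
    have hc1 : Continuous fun z => eta δ z * f (x + z) :=
      hes.continuous.mul (hf.continuous.comp (continuous_const.add continuous_id))
    have hi1 : Integrable fun z => eta δ z * f (x + z) :=
      hc1.integrable_of_hasCompactSupport eta_hcs.mul_right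
    have e2 : (∫ z, eta δ z) * f x = (∫ z, eta δ z * f (x + z))
        - ∫ z, eta δ z * (f (x + z) - f x) := by
      rw [← integral_mul_const, ← integral_sub hi1]
      · refine integral_congr_ae (Eventually.of_forall fun z => ?_)
        show _ = _
        ring
      · have : (fun z => eta δ z * (f (x + z) - f x))
            = fun z => eta δ z * f (x + z) - eta δ z * f x := by
          funext z; ring
        rw [this]
        exact hi1.sub (hei.mul_const _)
    have e3 : ‖∫ z, eta δ z * (f (x + z) - f x)‖ₑ ≤ ENNReal.ofReal (C * L * √δ * C1) := by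
      calc ‖∫ z, eta δ z * (f (x + z) - f x)‖ₑ ≤ ∫⁻ z, ‖eta δ z * (f (x + z) - f x)‖ₑ :=
            enorm_integral_le_lintegral_enorm _
        _ = ∫⁻ z in ball (0 : V) (1 / 2), ‖eta δ z * (f (x + z) - f x)‖ₑ := by
            rw [setLIntegral_eq_of_support_subset]
            intro z hz
            by_contra hcon
            apply hz
            show ‖eta δ z * (f (x + z) - f x)‖ₑ = 0
            rw [eta_zero hcon, zero_mul, enorm_zero]
        _ ≤ ∫⁻ z in ball (0 : V) (1 / 2), ENNReal.ofReal (C * L * √δ) * ‖z‖ₑ ^ (-(5 / 2) : ℝ) := by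
            refine setLIntegral_mono' measurableSet_ball fun z hz => ?_
            by_cases hz0 : z = 0
            · subst hz0
              simp
            have hzp : 0 < ‖z‖ := norm_pos_iff.2 hz0
            have h5 : eta δ z ≤ C * δ ^ 2 / (δ + ‖z‖) ^ 5 :=
              ((hk δ hδ (by linarith)).2.2.2.2 z).2.2.2.2.1
            have h6 := hL z hz
            have h7 : ‖z‖ₑ ^ (-(5 / 2) : ℝ) = ENNReal.ofReal (‖z‖ ^ (-(5 / 2) : ℝ)) := by
              rw [← ofReal_norm, ENNReal.ofReal_rpow_of_pos hzp]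
            rw [h7, ← ENNReal.ofReal_mul (by positivity), ← ofReal_norm]
            refine ENNReal.ofReal_le_ofReal ?_
            rw [norm_mul, Real.norm_eq_abs, Real.norm_eq_abs, abs_of_nonneg (eta_nn z)]
            have h8 : δ ^ 2 / (δ + ‖z‖) ^ 5 * ‖z‖ ≤ √δ * ‖z‖ ^ (-(5 / 2) : ℝ) := by
              have h9 : δ ^ (3 / 2 : ℝ) * ‖z‖ ^ (7 / 2 : ℝ) ≤ (δ + ‖z‖) ^ 5 := by
                have : (δ + ‖z‖) ^ 5 = (δ + ‖z‖) ^ (3 / 2 : ℝ) * (δ + ‖z‖) ^ (7 / 2 : ℝ) := by
                  rw [← Real.rpow_add (by positivity), ← Real.rpow_natCast]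
                  norm_num
                rw [this]
                gcongr
                · linarith
                · linarith
              calc δ ^ 2 / (δ + ‖z‖) ^ 5 * ‖z‖
                  ≤ δ ^ 2 / (δ ^ (3 / 2 : ℝ) * ‖z‖ ^ (7 / 2 : ℝ)) * ‖z‖ := by gcongr
                _ = √δ * ‖z‖ ^ (-(5 / 2) : ℝ) := by
                    rw [Real.sqrt_eq_rpow, Real.rpow_neg hzp.le]
                    have e5 : δ ^ 2 = δ ^ (1 / 2 : ℝ) * δ ^ (3 / 2 : ℝ) := by
                      rw [← Real.rpow_add hδ, ← Real.rpow_natCast]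
                      norm_num
                    have e6 : ‖z‖ ^ (7 / 2 : ℝ) = ‖z‖ * ‖z‖ ^ (5 / 2 : ℝ) := by
                      rw [← Real.rpow_one_add' hzp.le (by norm_num)]
                      norm_num
                    rw [e5, e6]
                    have : 0 < δ ^ (3 / 2 : ℝ) := Real.rpow_pos_of_pos hδ _
                    have : 0 < ‖z‖ ^ (5 / 2 : ℝ) := Real.rpow_pos_of_pos hzp _
                    field_simp
            calc eta δ z * |f (x + z) - f x| ≤ (C * δ ^ 2 / (δ + ‖z‖) ^ 5) * (L * ‖z‖) :=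
                  mul_le_mul h5 h6 (abs_nonneg _) (by positivity)
              _ = C * L * (δ ^ 2 / (δ + ‖z‖) ^ 5 * ‖z‖) := by ring
              _ ≤ C * L * (√δ * ‖z‖ ^ (-(5 / 2) : ℝ)) := by gcongr
              _ = _ := by ring
        _ = ENNReal.ofReal (C * L * √δ) * ∫⁻ z in ball (0 : V) (1 / 2), ‖z‖ₑ ^ (-(5 / 2) : ℝ) :=
            lintegral_const_mul' _ _ ENNReal.ofReal_ne_top
        _ ≤ ENNReal.ofReal (C * L * √δ) * ENNReal.ofReal C1 := by gcongr
        _ = _ := by rw [← ENNReal.ofReal_mul (by positivity)]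
    calc ENNReal.ofReal (3 / 4) * ‖f x‖ₑ ≤ ‖(∫ z, eta δ z) * f x‖ₑ := by
          rw [enorm_mul]
          gcongr
          rw [← ofReal_norm]
          refine ENNReal.ofReal_le_ofReal ?_
          rw [Real.norm_eq_abs]
          exact (eta_mass hδ hδ1).trans (le_abs_self _)
      _ ≤ ‖∫ z, eta δ z * f (x + z)‖ₑ + ‖∫ z, eta δ z * (f (x + z) - f x)‖ₑ := by
          rw [e2]
          exact enorm_sub_le
      _ ≤ _ := by
          gcongr
          rw [← e1]
          exact hB δ hδ hδ1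
  have hlim : ENNReal.ofReal (3 / 4) * ‖f x‖ₑ ≤ B := by
    have ht : Tendsto (fun δ : ℝ => B + ENNReal.ofReal (C * L * √δ * C1)) (𝓝[>] 0)
        (𝓝 (B + ENNReal.ofReal (C * L * √0 * C1))) := by
      apply Tendsto.mono_left _ nhdsWithin_le_nhds
      apply Tendsto.const_add
      apply ENNReal.tendsto_ofReal
      apply Continuous.tendsto
      fun_prop
    simp only [Real.sqrt_zero, mul_zero, zero_mul, ENNReal.ofReal_zero, add_zero] at ht
    refine ge_of_tendsto ht ?_
    have : Ioc (0 : ℝ) (1 / 4) ∈ 𝓝[>] (0 : ℝ) := Ioc_mem_nhdsGT (by norm_num)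
    filter_upwards [this] with δ hδ
    exact key δ hδ.1 hδ.2
  calc ‖f x‖ₑ = ENNReal.ofReal (4 / 3) * (ENNReal.ofReal (3 / 4) * ‖f x‖ₑ) := by
        rw [← mul_assoc, ← ENNReal.ofReal_mul (by norm_num)]
        norm_num
    _ ≤ ENNReal.ofReal 2 * B := by
        gcongr
        norm_num
    _ = 2 * B := by norm_num

end Pool.Agent.Helper30K1
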