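import Pool.Agent.Helper30K1.Rep

/-!
One velocity component (helper30): pointwise bounds of the velocity and of the pressure near a
plane, second part.
-/

set_option autoImplicit false

open MeasureTheory Set Metric Filter Topology
open scoped ContDiff ENNReal

namespace Pool.Agent.Helper30K1

open H459R3.NS W221.NS Pool.Agent.Y8

theorem H1_nn (v : V → V) {R : ℝ} (hR : 0 < R) (y : V) : 0 ≤ H1 v R y := by
  unfold H1
  have := nsq_nn v y
  positivity

theorem H1_a (v : V → V) {R : ℝ} (hR : 0 < R) (y : V) : √(nsq v y) * √(gsq v y) ≤ H1 v R y := by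
  unfold H1
  have := nsq_nn v y
  have : 0 ≤ R⁻¹ * nsq v y := by positivity
  linarith

theorem H1_b (v : V → V) {R : ℝ} (y : V) : R⁻¹ * nsq v y ≤ H1 v R y := by
  unfold H1
  have : 0 ≤ √(nsq v y) * √(gsq v y) := by positivity
  linarith

theorem nr_pull (v : V → V) (j : Fin 3) (c R : ℝ) (x : V) (K : ℝ) :
    ∫⁻ y in ball x (1 / 2) ∩ Sb j c (4 * R), ENNReal.ofReal K *
      (‖y - x‖ₑ ^ (-2 : ℝ) * ENNReal.ofReal (H1 v R y)) = ENNReal.ofReal K * Nr v j c R x :=
  lintegral_const_mul' _ _ ENNReal.ofReal_ne_top

theorem fa_pull (v : V → V) (j : Fin 3) (c R : ℝ) (x : V) (K : ℝ) :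
    ∫⁻ y in ball x (1 / 2) \ Sb j c (2 * R), ENNReal.ofReal K *
      (‖y - x‖ₑ ^ (-3 : ℝ) * ENNReal.ofReal (nsq v y)) = ENNReal.ofReal K * Fa v j c R x :=
  lintegral_const_mul' _ _ ENNReal.ofReal_ne_top

/-- A term with the kernel of order two. -/
theorem near_term {v : V → V} {j : Fin 3} {c R : ℝ} {x : V} {C K : ℝ} (hC : 0 ≤ C)
    (hK : 0 ≤ K) {a b : V → ℝ} (ha0 : ∀ y ∉ ball x (1 / 2), a y = 0)
    (ha : ∀ y, ‖a y‖ₑ ≤ ENNReal.ofReal C * ‖y - x‖ₑ ^ (-2 : ℝ))
    (hb0 : ∀ y, y ∉ Sb j c (4 * R) → b y = 0) (hb : ∀ y, |b y| ≤ K * H1 v R y) :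
    ‖∫ y, a y * b y‖ₑ ≤ ENNReal.ofReal (C * K) * Nr v j c R x := by
  rw [← nr_pull]
  refine int_le (measurableSet_ball.inter (Sb_meas j c (4 * R))) ?_ ?_
  · intro y hy
    rw [mem_inter_iff, not_and_or] at hy
    rcases hy with hy | hy
    · rw [ha0 y hy, zero_mul]
    · rw [hb0 y hy, mul_zero]
  · intro y _
    rw [enorm_mul]
    have h1 : ‖b y‖ₑ ≤ ENNReal.ofReal K * ENNReal.ofReal (H1 v R y) := by
      rw [← ENNReal.ofReal_mul hK, ← ofReal_norm]
      exact ENNReal.ofReal_le_ofReal (hb y)
    calc ‖a y‖ₑ * ‖b y‖ₑ ≤ (ENNReal.ofReal C * ‖y - x‖ₑ ^ (-2 : ℝ))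
          * (ENNReal.ofReal K * ENNReal.ofReal (H1 v R y)) := mul_le_mul' (ha y) h1
      _ = _ := by
          rw [ENNReal.ofReal_mul hC]
          ring

/-- A term with the kernel of order three. -/
theorem far_term {v : V → V} {j : Fin 3} {c R : ℝ} {x : V} {C : ℝ} (hC : 0 ≤ C)
    {a b : V → ℝ} (ha0 : ∀ y ∉ ball x (1 / 2), a y = 0)
    (ha : ∀ y, ‖a y‖ₑ ≤ ENNReal.ofReal C * ‖y - x‖ₑ ^ (-3 : ℝ))
    (hb0 : ∀ y, y ∈ Sb j c (2 * R) → b y = 0) (hb : ∀ y, |b y| ≤ nsq v y) :
    ‖∫ y, a y * b y‖ₑ ≤ ENNReal.ofReal C * Fa v j c R x := by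
  rw [← fa_pull]
  refine int_le (measurableSet_ball.diff (Sb_meas j c (2 * R))) ?_ ?_
  · intro y hy
    by_cases h1 : y ∈ ball x (1 / 2)
    · by_cases h2 : y ∈ Sb j c (2 * R)
      · rw [hb0 y h2, mul_zero]
      · exact absurd ⟨h1, h2⟩ hy
    · rw [ha0 y h1, zero_mul]
  · intro y _
    rw [enorm_mul]
    have h1 : ‖b y‖ₑ ≤ ENNReal.ofReal (nsq v y) := by
      rw [← ofReal_norm]
      exact ENNReal.ofReal_le_ofReal (hb y)
    calc ‖a y‖ₑ * ‖b y‖ₑ ≤ (ENNReal.ofReal C * ‖y - x‖ₑ ^ (-3 : ℝ))
          * (ENNReal.ofReal (nsq v y)) := mul_le_mul' (ha y) h1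
      _ = _ := by ring

theorem ptw : ∃ C : ℝ, 0 < C ∧ ∀ (v : V → V) (q : V → ℝ), SPV v →
    (∀ x, ∑ i, pd i (fun y => v y i) x = 0) → SP q → (∀ x, -lap q x = ddq v x) →
    ∀ (j : Fin 3) (c R : ℝ), 0 < R → ∀ x,
      ‖pz q x‖ₑ ≤ ENNReal.ofReal C * (Nr v j c R x + Fa v j c R x
        + ENNReal.ofReal (energy v)) ∧
      (x ∈ Sb j c (2 * R) → ENNReal.ofReal (nsq v x)
        ≤ ENNReal.ofReal C * (Nr v j c R x + ENNReal.ofReal (energy v))) := by
  obtain ⟨C, hC1, hk⟩ := ker_all
  obtain ⟨Cz, hCz, hzet⟩ := zet_ex
  obtain ⟨C2, hC2, hball⟩ := ball_le 1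
  have hC0 : 0 < C := by linarith
  have hC4 := C4_nonneg
  set K1 : ℝ := 72 * C4 * C with hK1
  have hK1p : 0 ≤ K1 := by positivity
  set M : ℝ := K1 + (9 * C + 9 * (C * Cz)) + 9 * C + (C * C2 + 3 * (C * (6 + Cz))) with hM
  have hMp : 0 ≤ M := by positivity
  refine ⟨2 * M + 1, by positivity, fun v q hv hdiv hq heq j c R hR x => ?_⟩
  have hE : 0 ≤ energy v := by
    rw [energy_eq hv.1]
    exact integral_nonneg fun x => nsq_nn v x
  obtain ⟨ζ, hζs, hζ01, hζ1, hζ0, hζd, hζd0⟩ := hzet j c R hR
  have hcv : ∀ l, ContDiff ℝ ∞ (fun y => v y l) := fun l => contDiff_pi.1 hv.1 l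
  have hsub : ContDiff ℝ ∞ fun y : V => y - x := contDiff_id.sub contDiff_const
  constructor
  · -- the pressure
    have key : ‖pz q x‖ₑ ≤ 2 * (ENNReal.ofReal M * (Nr v j c R x + Fa v j c R x
        + ENNReal.ofReal (energy v))) := by
      refine eta_pt (pz_sp hq).smooth x fun δ hδ hδ4 => ?_
      have hδ1 : δ ≤ 1 := by linarith
      obtain ⟨h1, h2, h3, -, h5⟩ := hk δ hδ hδ1
      rw [repP hv hdiv hq heq hδ hδ1 x]
      set g : V → ℝ := fun y => gg δ (y - x) with hg
      have hgs : ContDiff ℝ ∞ g := h1.comp hsub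
      have hgz : ∀ y ∉ ball x (1 / 2), g y = 0 := by
        intro y hy
        rw [mem_ball, dist_eq_norm, not_lt] at hy
        exact ((h5 (y - x)).1 hy).1
      have hgc : HasCompactSupport g := hcsR hgz
      have hgi : ∀ i, ContDiff ℝ ∞ (pd i g) := fun i => Pool.Agent.W583.MD.sm_pd hgs i
      have hgic : ∀ i, HasCompactSupport (pd i g) := fun i => Pool.Agent.W583.MD.cs_pd hgc i
      have hgiz : ∀ i, ∀ y ∉ ball x (1 / 2), pd i g y = 0 := fun i y hy =>
        pd_zero' hgs (by norm_num) hgz hy i
      have hgilz : ∀ i l, ∀ y ∉ ball x (1 / 2), pd l (pd i g) y = 0 := fun i l y hy =>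
        pd_zero' (hgi i) (by norm_num) (hgiz i) hy l
      have hgb : ∀ i y, ‖pd i g y‖ₑ ≤ ENNReal.ofReal C * ‖y - x‖ₑ ^ (-2 : ℝ) := by
        intro i y
        have h6 := (h5 (y - x)).2.2.1 i
        have h7 : pd i g y = pd i (gg δ) (y - x) := by rw [hg, pd_sh]
        rw [h7]
        have := ker_en (n := 2) hC0 hδ (by norm_num) h6
        simpa using this
      have hgb2 : ∀ i l y, ‖pd l (pd i g) y‖ₑ ≤ ENNReal.ofReal C * ‖y - x‖ₑ ^ (-3 : ℝ) := by
        intro i l y
        have h6 := (h5 (y - x)).2.2.2.1 l i
        have h7 : pd l (pd i g) y = pd l (pd i (gg δ)) (y - x) := by rw [hg, pd_sh, pd_sh]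
        rw [h7]
        have := ker_en (n := 3) hC0 hδ (by norm_num) h6
        simpa using this
      have b0 : ‖∫ y, kap δ (y - x) * pz q y‖ₑ ≤ ENNReal.ofReal K1
          * ENNReal.ofReal (energy v) := by
        have h6 := kapF (κ := kap δ) h3 (K := C) (fun z hz => by
          rw [mem_ball, dist_zero_right, not_lt] at hz
          exact (h5 z).2.1 (by linarith)) (fun z => (h5 z).2.2.2.2.2.2) hv hq heq x
        rw [← ENNReal.ofReal_mul hK1p, ← ofReal_norm, Real.norm_eq_abs]
        exact ENNReal.ofReal_le_ofReal h6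
      have b1 : ∀ i, ‖∫ y, pd i g y * adv v (fun y => v y i) y‖ₑ
          ≤ ENNReal.ofReal (3 * C + 3 * (C * Cz)) * Nr v j c R x
            + ENNReal.ofReal (3 * C) * Fa v j c R x := by
        intro i
        set a : V → ℝ := adv v (fun y => v y i) with ha
        have hadv : ∀ y, a y = ∑ l, pd l (fun y => v y i * v y l) y := by
          intro y
          have e5 : ∀ l, pd l (fun y => v y i * v y l) y = v y i * pd l (fun y => v y l) y
            + pd l (fun y => v y i) y * v y l := fun l =>
              Pool.Agent.W583.MD.pd_mul' (hcv i) (hcv l) l y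
          simp_rw [e5]
          rw [Finset.sum_add_distrib, ← Finset.mul_sum, hdiv y, mul_zero, zero_add, ha]
          unfold adv
          exact Finset.sum_congr rfl fun l _ => mul_comm _ _
        have hac : Continuous a := by
          rw [ha]
          unfold adv
          exact continuous_finsetSum _ fun l _ =>
            (hcv l).continuous.mul (Pool.Agent.W583.MD.sm_pd (hcv i) l).continuous
        have hm : ∀ l, ContDiff ℝ ∞ fun y => v y i * v y l := fun l => (hcv i).mul (hcv l)
        set f : V → ℝ := fun y => (1 - ζ y) * pd i g y with hf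
        have hfs : ContDiff ℝ ∞ f := (contDiff_const.sub hζs).mul (hgi i)
        have hfc : HasCompactSupport f := (hgic i).mul_left
        have i1 : Integrable fun y => pd i g y * (ζ y * a y) :=
          ((hgi i).continuous.mul (hζs.continuous.mul hac)).integrable_of_hasCompactSupport
            (hgic i).mul_right
        have i2 : ∀ l, Integrable fun y => f y * pd l (fun y => v y i * v y l) y := fun l =>
          (hfs.continuous.mul (Pool.Agent.W583.MD.sm_pd (hm l)
            l).continuous).integrable_of_hasCompactSupport hfc.mul_right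
        have e1 : ∫ y, pd i g y * a y = (∫ y, pd i g y * (ζ y * a y))
            + ∑ l, ∫ y, f y * pd l (fun y => v y i * v y l) y := by
          rw [← integral_finsetSum _ fun l _ => i2 l, ← integral_add i1
            (integrable_finsetSum _ fun l _ => i2 l)]
          refine integral_congr_ae (Eventually.of_forall fun y => ?_)
          show pd i g y * a y = pd i g y * (ζ y * a y)
            + ∑ l, f y * pd l (fun y => v y i * v y l) y
          rw [← Finset.mul_sum, ← hadv y, hf]
          ring
        have e2 : ∀ l, ∫ y, f y * pd l (fun y => v y i * v y l) y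
            = -((∫ y, pd l (pd i g) y * ((1 - ζ y) * (v y i * v y l)))
              - ∫ y, pd i g y * (pd l ζ y * (v y i * v y l))) := by
          intro l
          have h8 := Pool.Agent.Y784.NS8.ibp hfs (hm l) hfc l
          have h9 : ∫ y, f y * pd l (fun y => v y i * v y l) y
              = -∫ y, pd l f y * (v y i * v y l) := by rw [h8, neg_neg]
          rw [h9]
          congr 1
          have hpl : ∀ y, pd l f y = (1 - ζ y) * pd l (pd i g) y - pd l ζ y * pd i g y := by
            intro y
            rw [hf, Pool.Agent.W583.MD.pd_mul' (contDiff_const.sub hζs) (hgi i)]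
            have : pd l (fun y => 1 - ζ y) y = -pd l ζ y := by
              unfold pd
              rw [fderiv_const_sub]
              rfl
            rw [this]
            ring
          have j1 : Integrable fun y => pd l (pd i g) y * ((1 - ζ y) * (v y i * v y l)) :=
            ((Pool.Agent.W583.MD.sm_pd (hgi i) l).continuous.mul
              ((contDiff_const.sub hζs).continuous.mul
                (hm l).continuous)).integrable_of_hasCompactSupport
              (Pool.Agent.W583.MD.cs_pd (hgic i) l).mul_right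
          have j2 : Integrable fun y => pd i g y * (pd l ζ y * (v y i * v y l)) :=
            ((hgi i).continuous.mul ((Pool.Agent.W583.MD.sm_pd hζs l).continuous.mul
                (hm l).continuous)).integrable_of_hasCompactSupport (hgic i).mul_right
          rw [← integral_sub j1 j2]
          refine integral_congr_ae (Eventually.of_forall fun y => ?_)
          show pd l f y * (v y i * v y l) = _
          rw [hpl]
          ring
        have c1 : ‖∫ y, pd i g y * (ζ y * a y)‖ₑ ≤ ENNReal.ofReal (C * 3) * Nr v j c R x := by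
          refine near_term hC0.le (by norm_num) (hgiz i) (hgb i) (fun y hy => by
            rw [hζ0 y hy, zero_mul]) fun y => ?_
          rw [abs_mul, abs_of_nonneg (hζ01 y).1]
          have h10 := adv_le v i y
          have h11 := H1_a v hR y
          calc ζ y * |a y| ≤ 1 * (3 * (√(nsq v y) * √(gsq v y))) :=
                mul_le_mul (hζ01 y).2 h10 (abs_nonneg _) zero_le_one
            _ ≤ 3 * H1 v R y := by linarith
        have c2 : ∀ l, ‖∫ y, pd l (pd i g) y * ((1 - ζ y) * (v y i * v y l))‖ₑ
            ≤ ENNReal.ofReal C * Fa v j c R x := by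
          intro l
          refine far_term hC0.le (hgilz i l) (hgb2 i l) (fun y hy => by
            rw [hζ1 y hy, sub_self, zero_mul]) fun y => ?_
          rw [abs_mul, abs_of_nonneg (by linarith [(hζ01 y).2] : 0 ≤ 1 - ζ y)]
          have h10 := prod_le v i l y
          calc (1 - ζ y) * |v y i * v y l| ≤ 1 * nsq v y :=
                mul_le_mul (by linarith [(hζ01 y).1]) h10 (abs_nonneg _) zero_le_one
            _ = nsq v y := one_mul _
        have c3 : ∀ l, ‖∫ y, pd i g y * (pd l ζ y * (v y i * v y l))‖ₑ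
            ≤ ENNReal.ofReal (C * Cz) * Nr v j c R x := by
          intro l
          refine near_term hC0.le hCz.le (hgiz i) (hgb i) (fun y hy => by
            rw [hζd0 y l hy, zero_mul]) fun y => ?_
          rw [abs_mul]
          have h10 := prod_le v i l y
          have h11 := hζd y l
          have h12 := H1_b v (R := R) y
          have h13 := nsq_nn v y
          calc |pd l ζ y| * |v y i * v y l| ≤ (Cz / R) * nsq v y :=
                mul_le_mul h11 h10 (abs_nonneg _) (by positivity)
            _ = Cz * (R⁻¹ * nsq v y) := by ring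
            _ ≤ Cz * H1 v R y := by gcongr
        have c4 : ∀ l, ‖∫ y, f y * pd l (fun y => v y i * v y l) y‖ₑ
            ≤ ENNReal.ofReal C * Fa v j c R x + ENNReal.ofReal (C * Cz) * Nr v j c R x := by
          intro l
          rw [e2 l, enorm_neg]
          exact enorm_sub_le.trans (add_le_add (c2 l) (c3 l))
        rw [e1]
        calc ‖(∫ y, pd i g y * (ζ y * a y)) + ∑ l, ∫ y, f y * pd l (fun y => v y i * v y l) y‖ₑ
            ≤ ‖∫ y, pd i g y * (ζ y * a y)‖ₑ
              + ‖∑ l, ∫ y, f y * pd l (fun y => v y i * v y l) y‖ₑ := enorm_add_le _ _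
          _ ≤ ENNReal.ofReal (C * 3) * Nr v j c R x
              + ∑ _l : Fin 3, (ENNReal.ofReal C * Fa v j c R x
                + ENNReal.ofReal (C * Cz) * Nr v j c R x) := by
              refine add_le_add c1 ((enorm_sum_le _ _).trans (Finset.sum_le_sum fun l _ => c4 l))
          _ = _ := by
              rw [Finset.sum_const, Finset.card_univ, Fintype.card_fin,
                ENNReal.ofReal_add (by positivity) (by positivity),
                ENNReal.ofReal_mul (p := 3) (q := C * Cz) (by norm_num),
                ENNReal.ofReal_mul (p := 3) (q := C) (by norm_num),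
                ENNReal.ofReal_mul (p := C) (q := 3) hC0.le, nsmul_eq_mul]
              have : ENNReal.ofReal 3 = 3 := by norm_num
              rw [this]
              push_cast
              ring
      calc ‖(∫ y, kap δ (y - x) * pz q y)
            - ∑ i, ∫ y, pd i g y * adv v (fun y => v y i) y‖ₑ
          ≤ ‖∫ y, kap δ (y - x) * pz q y‖ₑ
            + ‖∑ i, ∫ y, pd i g y * adv v (fun y => v y i) y‖ₑ := enorm_sub_le
        _ ≤ ENNReal.ofReal K1 * ENNReal.ofReal (energy v)
            + ∑ _i : Fin 3, (ENNReal.ofReal (3 * C + 3 * (C * Cz)) * Nr v j c R x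
            + ENNReal.ofReal (3 * C) * Fa v j c R x) := by
            refine add_le_add b0 ((enorm_sum_le _ _).trans (Finset.sum_le_sum fun l _ => b1 l))
        _ = ENNReal.ofReal K1 * ENNReal.ofReal (energy v)
            + (ENNReal.ofReal (9 * C + 9 * (C * Cz)) * Nr v j c R x
            + ENNReal.ofReal (9 * C) * Fa v j c R x) := by
            rw [Finset.sum_const, Finset.card_univ, Fintype.card_fin, nsmul_eq_mul]
            have e9 : ENNReal.ofReal (9 * C + 9 * (C * Cz))
                = 3 * ENNReal.ofReal (3 * C + 3 * (C * Cz)) := by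
              rw [show (3 : ℝ≥0∞) = ENNReal.ofReal 3 by norm_num,
                ← ENNReal.ofReal_mul (by norm_num)]
              congr 1; ring
            have e10 : ENNReal.ofReal (9 * C) = 3 * ENNReal.ofReal (3 * C) := by
              rw [show (3 : ℝ≥0∞) = ENNReal.ofReal 3 by norm_num,
                ← ENNReal.ofReal_mul (by norm_num)]
              congr 1; ring
            rw [e9, e10]
            push_cast
            ring
        _ ≤ ENNReal.ofReal M * ENNReal.ofReal (energy v)
            + (ENNReal.ofReal M * Nr v j c R x + ENNReal.ofReal M * Fa v j c R x) := by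
            have q1 : K1 ≤ M := by
              rw [hM]
              have : 0 ≤ (9 * C + 9 * (C * Cz)) + 9 * C + (C * C2 + 3 * (C * (6 + Cz))) := by
                positivity
              linarith
            have q2 : 9 * C + 9 * (C * Cz) ≤ M := by
              rw [hM]
              have : 0 ≤ 9 * C + (C * C2 + 3 * (C * (6 + Cz))) := by
                positivity
              linarith
            have q3 : 9 * C ≤ M := by
              rw [hM]
              have : 0 ≤ (9 * C + 9 * (C * Cz)) + (C * C2 + 3 * (C * (6 + Cz))) := by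
                positivity
              linarith
            gcongr
        _ = _ := by ring
    refine key.trans ?_
    rw [← mul_assoc]
    gcongr
    rw [show (2 : ℝ≥0∞) = ENNReal.ofReal 2 by norm_num, ← ENNReal.ofReal_mul (by norm_num)]
    exact ENNReal.ofReal_le_ofReal (by linarith)
  · -- the velocity
    intro hx
    have hns := nsq_sm hv.1
    have key : ‖(fun y => ζ y * nsq v y) x‖ₑ ≤ 2 * (ENNReal.ofReal M * (Nr v j c R x
        + ENNReal.ofReal (energy v))) := by
      refine eta_pt (hζs.mul hns) x fun δ hδ hδ4 => ?_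
      have hδ1 : δ ≤ 1 := by linarith
      obtain ⟨h1, h2, h3, -, h5⟩ := hk δ hδ hδ1
      rw [rep0 hδ hδ1 (hζs.mul hns) x]
      set g : V → ℝ := fun y => gg δ (y - x) with hg
      have hgs : ContDiff ℝ ∞ g := h1.comp hsub
      have hgz : ∀ y ∉ ball x (1 / 2), g y = 0 := by
        intro y hy
        rw [mem_ball, dist_eq_norm, not_lt] at hy
        exact ((h5 (y - x)).1 hy).1
      have hgiz : ∀ i, ∀ y ∉ ball x (1 / 2), pd i g y = 0 := fun i y hy =>
        pd_zero' hgs (by norm_num) hgz hy i
      have hgb : ∀ i y, ‖pd i g y‖ₑ ≤ ENNReal.ofReal C * ‖y - x‖ₑ ^ (-2 : ℝ) := by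
        intro i y
        have h6 := (h5 (y - x)).2.2.1 i
        have h7 : pd i g y = pd i (gg δ) (y - x) := by rw [hg, pd_sh]
        rw [h7]
        have := ker_en (n := 2) hC0 hδ (by norm_num) h6
        simpa using this
      have b0 : ‖∫ y, kap δ (y - x) * (ζ y * nsq v y)‖ₑ
          ≤ ENNReal.ofReal (C * C2) * ENNReal.ofReal (energy v) := by
        refine (int_le (S := ball x 1) (h := fun y => ENNReal.ofReal C * ENNReal.ofReal (nsq v y))
          measurableSet_ball ?_ ?_).trans ?_
        · intro y hy
          rw [mem_ball, dist_eq_norm, not_lt] at hy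
          rw [(h5 (y - x)).2.1 (by linarith), zero_mul]
        · intro y _
          rw [← ENNReal.ofReal_mul hC0.le, ← ofReal_norm]
          refine ENNReal.ofReal_le_ofReal ?_
          rw [Real.norm_eq_abs, abs_mul, abs_mul, abs_of_nonneg (hζ01 y).1,
            abs_of_nonneg (nsq_nn v y)]
          have h6 := (h5 (y - x)).2.2.2.2.2.1
          have h7 := nsq_nn v y
          calc |kap δ (y - x)| * (ζ y * nsq v y) ≤ C * (1 * nsq v y) := by
                have := (hζ01 y).2
                have := (hζ01 y).1
                gcongr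
            _ = _ := by ring
        · rw [lintegral_const_mul' _ _ ENNReal.ofReal_ne_top,
            ← ofReal_integral_eq_lintegral_ofReal (ballint hns.continuous x 1)
              (Eventually.of_forall fun y => nsq_nn v y),
            ENNReal.ofReal_mul hC0.le, mul_assoc, ← ENNReal.ofReal_mul hC2.le, energy_eq hv.1]
          gcongr
          exact hball (nsq v) hns.continuous (nsq_per hv.2) (fun y => nsq_nn v y) x
      have b1 : ∀ i, ‖∫ y, pd i g y * pd i (fun y => ζ y * nsq v y) y‖ₑ
          ≤ ENNReal.ofReal (C * (6 + Cz)) * Nr v j c R x := by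
        intro i
        have hpi : ∀ y, pd i (fun y => ζ y * nsq v y) y = ζ y * pd i (nsq v) y
            + pd i ζ y * nsq v y := fun y => Pool.Agent.W583.MD.pd_mul' hζs hns i y
        refine near_term hC0.le (by positivity) (hgiz i) (hgb i) (fun y hy => by
            rw [hpi, hζ0 y hy, hζd0 y i hy]; ring) fun y => ?_
        rw [hpi]
        refine (abs_add_le _ _).trans ?_
        rw [abs_mul, abs_mul, abs_of_nonneg (hζ01 y).1, abs_of_nonneg (nsq_nn v y)]
        have h10 := pd_nsq hv.1 i y
        have h11 := hζd y i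
        have h12 := H1_a v hR y
        have h13 := H1_b v (R := R) y
        have h14 := nsq_nn v y
        calc ζ y * |pd i (nsq v) y| + |pd i ζ y| * nsq v y
            ≤ 1 * (6 * (√(nsq v y) * √(gsq v y))) + (Cz / R) * nsq v y := by
              refine add_le_add (mul_le_mul (hζ01 y).2 h10 (abs_nonneg _) zero_le_one) ?_
              gcongr
          _ = 6 * (√(nsq v y) * √(gsq v y)) + Cz * (R⁻¹ * nsq v y) := by ring
          _ ≤ 6 * H1 v R y + Cz * H1 v R y := by gcongr
          _ = _ := by ring
      calc ‖(∫ y, kap δ (y - x) * (ζ y * nsq v y))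
            + ∑ i, ∫ y, pd i g y * pd i (fun y => ζ y * nsq v y) y‖ₑ
          ≤ ‖∫ y, kap δ (y - x) * (ζ y * nsq v y)‖ₑ
            + ‖∑ i, ∫ y, pd i g y * pd i (fun y => ζ y * nsq v y) y‖ₑ := enorm_add_le _ _
        _ ≤ ENNReal.ofReal (C * C2) * ENNReal.ofReal (energy v)
            + ∑ _i : Fin 3, ENNReal.ofReal (C * (6 + Cz)) * Nr v j c R x := by
            refine add_le_add b0 ((enorm_sum_le _ _).trans (Finset.sum_le_sum fun l _ => b1 l))
        _ = ENNReal.ofReal (C * C2) * ENNReal.ofReal (energy v)
            + ENNReal.ofReal (3 * (C * (6 + Cz))) * Nr v j c R x := by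
            rw [Finset.sum_const, Finset.card_univ, Fintype.card_fin, nsmul_eq_mul,
              ENNReal.ofReal_mul (p := 3) (by norm_num)]
            have : ENNReal.ofReal 3 = 3 := by norm_num
            rw [this]
            push_cast
            ring
        _ ≤ ENNReal.ofReal M * ENNReal.ofReal (energy v)
            + ENNReal.ofReal M * Nr v j c R x := by
            have q1 : C * C2 ≤ M := by
              rw [hM]
              have : 0 ≤ K1 + (9 * C + 9 * (C * Cz)) + 9 * C + 3 * (C * (6 + Cz)) := by
                positivity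
              linarith
            have q2 : 3 * (C * (6 + Cz)) ≤ M := by
              rw [hM]
              have : 0 ≤ K1 + (9 * C + 9 * (C * Cz)) + 9 * C + C * C2 := by
                positivity
              linarith
            gcongr
        _ = _ := by ring
    have e1 : ENNReal.ofReal (nsq v x) = ‖(fun y => ζ y * nsq v y) x‖ₑ := by
      show _ = ‖ζ x * nsq v x‖ₑ
      rw [hζ1 x hx, one_mul, ← ofReal_norm, Real.norm_eq_abs, abs_of_nonneg (nsq_nn v x)]
    rw [e1]
    refine key.trans ?_
    rw [← mul_assoc]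
    gcongr
    rw [show (2 : ℝ≥0∞) = ENNReal.ofReal 2 by norm_num, ← ENNReal.ofReal_mul (by norm_num)]
    exact ENNReal.ofReal_le_ofReal (by linarith)

end Pool.Agent.Helper30K1
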