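import Pool.Agent.Helper30K1.Rg

/-!
One velocity component (helper30): bounded scale invariant slab energies imply regularity.
-/

set_option autoImplicit false

open MeasureTheory Set Metric Filter Topology
open scoped ContDiff ENNReal

namespace Pool.Agent.Helper30K1

open H459R3.NS W221.NS Pool.Agent.Y8

theorem exists_pow_small {A ε : ℝ} (hε : 0 < ε) {x : ℝ} (hx0 : 0 ≤ x) (hx1 : x < 1) :
    ∃ n : ℕ, A * x ^ n ≤ ε := by
  have h1 : Tendsto (fun n : ℕ => A * x ^ n) atTop (𝓝 (A * 0)) :=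
    (tendsto_pow_atTop_nhds_zero_of_lt_one hx0 hx1).const_mul A
  rw [mul_zero] at h1
  exact ((h1.eventually (Iio_mem_nhds hε)).exists).imp fun n hn => le_of_lt hn

section

variable {T E D : ℝ} {G : Set ℝ} {u : ℝ → V → V} {p : ℝ → V → ℝ}

/-- After the time `t₀` the integral is small for a short time. -/
theorem after_small (h : Turb 1 T E D G u p) {CG : ℝ} (hCG : 0 < CG)
    (hbd : ∀ (v : V → V), SPV v → ∀ (r : ℝ) (y : V), 0 < r →
      √(L4 0 4 (Y7.fr r v y)) ≤ CG * (r * B2 y (8 * r) v)) {r t₀ : ℝ} (hr : 0 < r) (X : ℝ → V)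
    {e : ℝ} (he : 0 < e) : ∃ η > 0, ∀ s, s < t₀ + η →
      ∫⁻ τ in Ioo t₀ s ∩ G, Ph r u X τ ≤ ENNReal.ofReal e := by
  obtain ⟨Cb, hCb, hb⟩ := Pool.Agent.Y458.NS.B2_enst (8 * r)
  set g : ℝ → ℝ≥0∞ := G.indicator fun τ => ENNReal.ofReal (CG * (r * (Cb * enstrophy (u τ))))
    with hg
  have hgi : ∫⁻ τ, g τ ≠ ⊤ := by
    rw [hg, lintegral_indicator h.openG.measurableSet]
    have h1 : IntegrableOn (fun τ => CG * (r * (Cb * enstrophy (u τ)))) G :=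
      ((h.enst_int.const_mul Cb).const_mul r).const_mul CG
    exact h1.lintegral_lt_top.ne
  obtain ⟨δ, hδ, hδ2⟩ := exists_pos_setLIntegral_lt_of_measure_lt hgi
    (ENNReal.ofReal_pos.2 he).ne'
  have hmin : 0 < min δ 1 := lt_min hδ one_pos
  have hmint : min δ 1 ≠ ⊤ := ne_top_of_le_ne_top ENNReal.one_ne_top (min_le_right _ _)
  refine ⟨(min δ 1).toReal, ENNReal.toReal_pos hmin.ne' hmint, fun s hs => ?_⟩
  have hvol : volume (Ioo t₀ s) < δ := by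
    rw [Real.volume_Ioo]
    refine lt_of_lt_of_le ?_ (min_le_left δ 1)
    rw [← ENNReal.ofReal_toReal hmint]
    exact (ENNReal.ofReal_lt_ofReal_iff (ENNReal.toReal_pos hmin.ne' hmint)).2 (by linarith)
  have h2 := hδ2 (Ioo t₀ s) hvol
  refine le_trans ?_ h2.le
  rw [hg, setLIntegral_indicator h.openG.measurableSet, inter_comm G (Ioo t₀ s)]
  refine setLIntegral_mono' (measurableSet_Ioo.inter h.openG.measurableSet) fun τ hτ => ?_
  unfold Ph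
  apply ENNReal.ofReal_le_ofReal
  refine (hbd (u τ) (h.spv hτ.2) r (X τ) hr).trans ?_
  have h3 := hb (u τ) (h.spv hτ.2) (X τ)
  gcongr

/-- Bounded slab energies with small dissipation away from the tip: the points of the plane are
regular. -/
theorem reg (h : Turb 1 T E D G u p) {j : Fin 3} {c t₀ M : ℝ} {k₀ : ℕ} (hM : 0 ≤ M)
    (ht₀ : t₀ ∈ Ioo 0 T) (hA : SlA G u j c t₀ k₀ M) (hB : SlB G u j c t₀ k₀ M)
    (hS : SlS G u j c t₀) {x₀ : V} (hx₀ : x₀ j = c) : ¬SingPt G u t₀ x₀ := by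
  intro hsing
  obtain ⟨ε₀, hε₀, hcr⟩ := Pool.Agent.Y8.B.p_crit3
  obtain ⟨C₁, hC₁, hA1⟩ := Pool.Agent.N976.TL.t_A1 Pool.Agent.N976.TL.t_A1a
  obtain ⟨K, hK, hmo⟩ := mo_A2
  obtain ⟨CG, CI, hCG, hCI, hbd⟩ := Ph_bd
  obtain ⟨Kp, hKp, hpath⟩ := path_ex Pool.Agent.Y8.B.p_tcut Pool.Agent.Y8.B.p_acx
  -- the parameters
  obtain ⟨a, ha5, haM⟩ : ∃ a : ℕ, 5 ≤ a ∧ 4 * (K * M) < 2 ^ a := by
    obtain ⟨a, ha⟩ := pow_unbounded_of_one_lt (4 * (K * M)) (one_lt_two (α := ℝ))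
    refine ⟨max a 5, le_max_right _ _, ha.trans_le ?_⟩
    exact pow_le_pow_right₀ (by norm_num) (le_max_left _ _)
  set b : ℕ := a + 4 with hb
  obtain ⟨ε₁, hε₁, hε₁b⟩ : ∃ ε₁ : ℝ, 0 < ε₁ ∧ C₁ * (ε₁ / 1 + ε₁ ^ 2) < ε₀ * (1 / 2) ^ b := by
    set y := ε₀ * (1 / 2) ^ b with hy
    have hy0 : 0 < y := by positivity
    refine ⟨min 1 (y / (4 * C₁)), lt_min one_pos (by positivity), ?_⟩
    set e := min 1 (y / (4 * C₁)) with he
    have he0 : 0 < e := lt_min one_pos (by positivity)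
    have he1 : e ≤ 1 := min_le_left _ _
    have he2 : e ≤ y / (4 * C₁) := min_le_right _ _
    rw [le_div_iff₀ (by positivity)] at he2
    have he3 : e ^ 2 ≤ e := by nlinarith
    rw [div_one]
    nlinarith
  obtain ⟨k, hk1, hk⟩ : ∃ k : ℕ, 1 ≤ k ∧ CI * √(rr k) * (2 ^ a * M) ≤ ε₁ / 4 := by
    obtain ⟨k, hk⟩ := exists_pow_small (A := CI * (2 ^ a * M)) (ε := ε₁ / 4) (by positivity)
      (x := √(1 / 2)) (Real.sqrt_nonneg _) (by
        rw [Real.sqrt_lt' one_pos]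
        norm_num)
    have h2 : √(1 / 2 : ℝ) ≤ 1 := by
      rw [Real.sqrt_le_one]
      norm_num
    refine ⟨k + 1, by omega, ?_⟩
    have h1 : √(rr (k + 1)) ≤ √(1 / 2) ^ k := by
      unfold rr
      rw [Real.sqrt_eq_rpow, Real.sqrt_eq_rpow, ← Real.rpow_natCast, ← Real.rpow_natCast,
        ← Real.rpow_mul (by norm_num), ← Real.rpow_mul (by norm_num)]
      refine Real.rpow_le_rpow_of_exponent_ge (by norm_num) (by norm_num) ?_
      push_cast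
      linarith
    calc CI * √(rr (k + 1)) * (2 ^ a * M) ≤ CI * √(1 / 2) ^ k * (2 ^ a * M) := by gcongr
      _ = CI * (2 ^ a * M) * √(1 / 2) ^ k := by ring
      _ ≤ _ := hk
  obtain ⟨L, hL⟩ : ∃ L : ℕ, CI * √(rr k) * (4 ^ k * (2 ^ a * M)) * (4 ^ a * (1 / 4) ^ L)
      ≤ ε₁ / 4 := by
    obtain ⟨L, hL⟩ := exists_pow_small (A := CI * √(rr k) * (4 ^ k * (2 ^ a * M)) * 4 ^ a)
      (ε := ε₁ / 4) (by positivity) (x := 1 / 4) (by norm_num) (by norm_num)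
    exact ⟨L, by linarith⟩
  obtain ⟨N₁, hN₁⟩ : ∃ N₁ : ℕ, rr N₁ < t₀ := by
    unfold rr
    exact exists_pow_lt_of_lt_one ht₀.1 (by norm_num)
  set ε₂ : ℝ := ε₁ / (4 * CG * 2 ^ a) with hε₂
  have hε₂0 : 0 < ε₂ := by positivity
  obtain ⟨m, hmN, hmS⟩ := hS L (max k₀ N₁) ε₂ hε₂0
  have hmk : k₀ ≤ m := (le_max_left _ _).trans hmN
  have hmN₁ : N₁ ≤ m := (le_max_right _ _).trans hmN
  have hmt : rr m ^ 2 < t₀ := by
    have h1 := rr_anti hmN₁
    have h2 := rr_le_one m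
    have h3 := rr_pos m
    nlinarith
  obtain ⟨r, hr⟩ : ∃ r, r = rr (m + a) := ⟨_, rfl⟩
  obtain ⟨r', hr'⟩ : ∃ r', r' = rr (m + b + a) := ⟨_, rfl⟩
  have hr0 : 0 < r := by rw [hr]; exact rr_pos _
  have hr'0 : 0 < r' := by rw [hr']; exact rr_pos _
  have hr1 : r ≤ 1 := by rw [hr]; exact rr_le_one _
  have hr'1 : r' ≤ 1 := by rw [hr']; exact rr_le_one _
  have hrr' : r' = r * (1 / 2) ^ b := by
    rw [hr, hr']
    unfold rr
    rw [← pow_add]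
    congr 1
    omega
  have hRr : rr m = 2 ^ a * r := by rw [hr]; exact rr_add m a
  have hR'r : rr (m + b) = 2 ^ a * r' := by rw [hr']; exact rr_add (m + b) a
  have h32 : (32 : ℝ) ≤ 2 ^ a := by
    have : (2 : ℝ) ^ 5 ≤ 2 ^ a := pow_le_pow_right₀ (by norm_num) ha5
    linarith
  have hab : (2 : ℝ) ^ a * (1 / 2) ^ b = 1 / 16 := by
    rw [hb, pow_add, ← mul_assoc, ← mul_pow]
    norm_num
  have hb0 : (0 : ℝ) < (1 / 2) ^ b := by positivity
  have hb1 : (1 / 2 : ℝ) ^ b ≤ 1 / 512 := by nlinarith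
  have hr'r : r' ≤ r / 512 := by
    rw [hrr']
    nlinarith
  have hrt : r ^ 2 < t₀ := by
    have : r ^ 2 ≤ rr m ^ 2 := by
      rw [hr]
      exact pow_le_pow_left₀ (rr_pos _).le (rr_anti (Nat.le_add_right m a)) 2
    linarith
  have hr2r : r' ^ 2 ≤ r ^ 2 / 262144 := by
    have : r' ^ 2 ≤ (r / 512) ^ 2 := pow_le_pow_left₀ hr'0.le hr'r 2
    calc r' ^ 2 ≤ (r / 512) ^ 2 := this
      _ = _ := by ring
  -- the paths
  obtain ⟨CX, hCX, hpX⟩ := hpath E r hr0 hr1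
  obtain ⟨X, Y, hX0, hX⟩ := hpX T D G u p h t₀ ht₀ x₀
  obtain ⟨CX', hCX', hpX'⟩ := hpath E r' hr'0 hr'1
  obtain ⟨X', Y', hX'0, hX'⟩ := hpX' T D G u p h t₀ ht₀ x₀
  have hXr : FPath T (rr (m + a)) (Kp * |E| / √(r ^ 3) + 1) CX G u p X Y := hr ▸ hX
  have hXr' : FPath T (rr (m + b + a)) (Kp * |E| / √(r' ^ 3) + 1) CX' G u p X' Y' := hr' ▸ hX'
  have c1 : ∀ t ∈ Ioo (t₀ - r ^ 2) t₀, ‖X t - x₀‖ ≤ rr m / 2 := by
    have h1 := conf hK hmo h hM ht₀ ha5 haM (hA m hmk) hXr hx₀ hX0 (L := r ^ 2) (by positivity)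
      (by rw [hr]) hrt
    intro t ht
    refine (h1 t ht).trans (le_of_eq ?_)
    rw [← hr, hRr]
    field_simp
  have c2 : ∀ t ∈ Ioo (t₀ - r' ^ 2) t₀, ‖X t - x₀‖ ≤ r / 32 := by
    have h1 := conf hK hmo h hM ht₀ ha5 haM (hA m hmk) hXr hx₀ hX0 (L := r' ^ 2) (by positivity)
      (by rw [← hr]; nlinarith) (by nlinarith)
    intro t ht
    refine (h1 t ht).trans ?_
    rw [← hr, hrr', div_le_iff₀ hr0]
    calc 2 ^ a / 2 * (r * (1 / 2) ^ b) ^ 2 = (2 ^ a * (1 / 2) ^ b) * (1 / 2) ^ b / 2 * r ^ 2 := by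
          ring
      _ ≤ r / 32 * r := by
          rw [hab]
          nlinarith [sq_nonneg r]
  have c3 : ∀ t ∈ Ioo (t₀ - r' ^ 2) t₀, ‖X' t - x₀‖ ≤ r / 32 := by
    have h1 := conf hK hmo h hM ht₀ ha5 haM (hA (m + b) (by omega)) hXr' hx₀ hX'0
      (L := r' ^ 2) (by positivity) (by rw [hr']) (by nlinarith)
    intro t ht
    refine (h1 t ht).trans ?_
    rw [← hr', div_le_iff₀ hr'0]
    calc 2 ^ a / 2 * r' ^ 2 = 2 ^ a * (r * (1 / 2) ^ b) / 2 * r' := by rw [hrr']; ring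
      _ = (2 ^ a * (1 / 2) ^ b) * r / 2 * r' := by ring
      _ ≤ r / 32 * r' := by
          rw [hab]
          apply le_of_eq
          ring
  -- continuity at `t₀`
  have hXc : ContinuousAt X t₀ := (hX.hd t₀ ht₀).continuousAt
  have hX'c : ContinuousAt X' t₀ := (hX'.hd t₀ ht₀).continuousAt
  obtain ⟨η₁, hη₁, hη₁'⟩ := Metric.continuousAt_iff.1 hXc (r / 32) (by positivity)
  obtain ⟨η₂, hη₂, hη₂'⟩ := Metric.continuousAt_iff.1 hX'c (r / 32) (by positivity)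
  obtain ⟨η₃, hη₃, hη₃'⟩ := after_small h hCG (fun v hv r y hr => (hbd v hv r y hr).1) hr0 X
    (t₀ := t₀) (e := r ^ 2 * (ε₁ / 4)) (by positivity)
  obtain ⟨s, hst, hs1, hs2, hs3, hs4, hs5⟩ : ∃ s, t₀ < s ∧ s < t₀ + η₁ ∧ s < t₀ + η₂ ∧
      s < t₀ + η₃ ∧ s < T ∧ s < t₀ + r' ^ 2 / 16 := by
    have hT : 0 < T - t₀ := by linarith [ht₀.2]
    set η := min (min η₁ η₂) (min η₃ (min (T - t₀) (r' ^ 2 / 16))) with hη
    have hη0 : 0 < η := lt_min (lt_min hη₁ hη₂) (lt_min hη₃ (lt_min hT (by positivity)))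
    have g1 : η ≤ η₁ := (min_le_left _ _).trans (min_le_left _ _)
    have g2 : η ≤ η₂ := (min_le_left _ _).trans (min_le_right _ _)
    have g3 : η ≤ η₃ := (min_le_right _ _).trans (min_le_left _ _)
    have g4 : η ≤ T - t₀ :=
      (min_le_right _ _).trans ((min_le_right _ _).trans (min_le_left _ _))
    have g5 : η ≤ r' ^ 2 / 16 :=
      (min_le_right _ _).trans ((min_le_right _ _).trans (min_le_right _ _))
    exact ⟨t₀ + η / 2, by linarith, by linarith, by linarith, by linarith, by linarith,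
      by linarith⟩
  have d1 : ∀ t ∈ Icc t₀ s, ‖X t - x₀‖ ≤ r / 32 := by
    intro t ht
    have h1 : dist (X t) (X t₀) < r / 32 := by
      apply hη₁'
      rw [Real.dist_eq, abs_lt]
      constructor <;> linarith [ht.1, ht.2]
    rw [hX0, dist_eq_norm] at h1
    exact h1.le
  have d2 : ∀ t ∈ Icc t₀ s, ‖X' t - x₀‖ ≤ r / 32 := by
    intro t ht
    have h1 : dist (X' t) (X' t₀) < r / 32 := by
      apply hη₂'
      rw [Real.dist_eq, abs_lt]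
      constructor <;> linarith [ht.1, ht.2]
    rw [hX'0, dist_eq_norm] at h1
    exact h1.le
  -- the frame
  have hrs : r ^ 2 < s := by linarith
  obtain ⟨kf, hW⟩ := Pool.Agent.Y8.B.p_wfr2 T E D G u p h r s hr0 hrs hs4 X Y _ _ hX
  have hXj : ∀ t ∈ Ioo (t₀ - rr (m + a) ^ 2) t₀, |X t j - c| ≤ rr m / 2 := by
    intro t ht
    rw [← hr] at ht
    have h7 := (norm_le_pi_norm (X t - x₀) j).trans (c1 t ht)
    rw [Pi.sub_apply, hx₀, Real.norm_eq_abs] at h7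
    exact h7
  have hbef := Ph_before hCG hCI hbd h hM hA hB ha5 hmk hXj hε₂0.le hmS hk1
  rw [← hr] at hbef
  obtain ⟨i1, i2⟩ := frame_int h hr0 hrs hs4 hst.le hX hW (by positivity) (by positivity) hbef
    (hη₃' s hs3)
  have hsum : CG * (2 ^ a * ε₂) + (CI * √(rr k) * (4 ^ k * (2 ^ a * M)) * (4 ^ a * (1 / 4) ^ L)
        + CI * √(rr k) * (2 ^ a * M)) + ε₁ / 4 ≤ ε₁ := by
    have h1 : CG * (2 ^ a * ε₂) = ε₁ / 4 := by
      rw [hε₂]
      field_simp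
    linarith
  obtain ⟨⟨g1, g2⟩, -⟩ := hA1 _ _ _ _ hW 1 ε₁ one_pos le_rfl hε₁ i1 (i2.trans hsum)
  obtain ⟨w1, w2⟩ := Y7.wmass h hr0 hrs hs4 X (3 / 4) (p₁ := -(9 / 16 * 1)) (q₁ := 0)
    (by norm_num) le_rfl
  have w3 := w1.1 g1
  rw [w2, inv_mul_le_iff₀ hr0] at g2
  have e1 : s + r ^ 2 * (-(9 / 16 * 1)) = s - 9 / 16 * r ^ 2 := by ring
  have e2 : s + r ^ 2 * 0 = s := by ring
  rw [e1, e2] at w3 g2
  -- the criterion
  have hcr' := hcr T E D G u p h r' s hr'0 hr'1 (by nlinarith) hs4 X' Y' _ _ hX' t₀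
    ⟨by linarith, hst⟩ x₀ (by rw [hX'0]; exact mem_ball_self (by positivity)) hsing
  have hB0 : ∀ τ, 0 ≤ B2 (X τ) (r * (3 / 4)) (u τ) := fun τ => integral_nonneg fun x => gsq_nn _ x
  have hss : Ioo (s - r' ^ 2) s ⊆ Ioo (s - 9 / 16 * r ^ 2) s := Ioo_subset_Ioo_left (by nlinarith)
  have hae : ∀ᵐ τ ∂(volume.restrict (Ioo (s - r' ^ 2) s)), τ ∈ G := by
    rw [ae_restrict_iff' measurableSet_Ioo]
    exact Pool.Agent.Y458.NS.sub_ae h fun x hx => ⟨by nlinarith [hx.1], by linarith [hx.2]⟩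
  have hcmp : ∫ t in Ioo (s - r' ^ 2) s, B2 (X' t) (8 * r') (u t)
      ≤ ∫ t in Ioo (s - r' ^ 2) s, B2 (X t) (r * (3 / 4)) (u t) := by
    refine integral_mono_of_nonneg (ae_of_all _ fun t => integral_nonneg fun x => gsq_nn _ x)
      (w3.mono_set hss) ?_
    filter_upwards [hae, ae_restrict_mem measurableSet_Ioo] with τ hτG hτ
    apply Pool.Agent.Y458.NS.B2_mono (h.spv hτG).1
    apply ball_subset_ball'
    have hd : dist (X' τ) (X τ) ≤ r / 16 := by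
      rw [dist_eq_norm, show X' τ - X τ = (X' τ - x₀) - (X τ - x₀) by abel]
      refine (norm_sub_le _ _).trans ?_
      rcases lt_or_ge τ t₀ with hlt | hge
      · have hm1 : τ ∈ Ioo (t₀ - r' ^ 2) t₀ := ⟨by linarith [hτ.1], hlt⟩
        linarith [c2 τ hm1, c3 τ hm1]
      · have hm1 : τ ∈ Icc t₀ s := ⟨hge, hτ.2.le⟩
        linarith [d1 τ hm1, d2 τ hm1]
    linarith
  have hcmp2 : ∫ t in Ioo (s - r' ^ 2) s, B2 (X t) (r * (3 / 4)) (u t)
      ≤ ∫ t in Ioo (s - 9 / 16 * r ^ 2) s, B2 (X t) (r * (3 / 4)) (u t) :=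
    setIntegral_mono_set w3 (Filter.Eventually.of_forall hB0) hss.eventuallyLE
  have hfin : ε₀ * r' ≤ r * (C₁ * (ε₁ / 1 + ε₁ ^ 2)) := by linarith
  rw [hrr'] at hfin
  have : r * (C₁ * (ε₁ / 1 + ε₁ ^ 2)) < r * (ε₀ * (1 / 2) ^ b) := by gcongr
  linarith

end

end Pool.Agent.Helper30K1
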