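import Pool.Agent.Helper30K1.Fou
import Pool.Agent.Helper30K1.Pt
import Pool.Agent.Y784.NS8.KAP

/-!
One velocity component (helper30): pointwise bounds of the velocity and of the pressure near a
plane.
-/

set_option autoImplicit false

open MeasureTheory Set Metric Filter Topology
open scoped ContDiff ENNReal

namespace Pool.Agent.Helper30K1

open H459R3.NS W221.NS Pool.Agent.Y8

theorem pd_sh (f : V → ℝ) (x : V) (i : Fin 3) :
    pd i (fun y => f (y - x)) = fun y => pd i f (y - x) := by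
  funext y
  unfold pd
  have h := fderiv_comp_add_right (𝕜 := ℝ) (f := f) (x := y) (-x)
  simp only [← sub_eq_add_neg] at h
  rw [h]

theorem lap_sh (f : V → ℝ) (x : V) : lap (fun y => f (y - x)) = fun y => lap f (y - x) := by
  funext y
  unfold lap
  refine Finset.sum_congr rfl fun i _ => ?_
  rw [pd_sh, pd_sh]

theorem st_cut : ∃ C : ℝ, 0 < C ∧ ∀ s, |deriv Real.smoothTransition s| ≤ C := by
  have h1 : ContDiff ℝ ∞ Real.smoothTransition := Real.smoothTransition.contDiff
  have h2 : Continuous (deriv Real.smoothTransition) := h1.continuous_deriv (by simp)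
  obtain ⟨C, hC⟩ := (isCompact_Icc (a := (-1 : ℝ)) (b := 2)).exists_bound_of_continuousOn
    h2.continuousOn
  refine ⟨|C| + 1, by positivity, fun s => ?_⟩
  by_cases hs : s ∈ Icc (-1 : ℝ) 2
  · have := hC s hs
    rw [Real.norm_eq_abs] at this
    have := le_abs_self C
    linarith
  · have : deriv Real.smoothTransition s = 0 := by
      rw [mem_Icc, not_and_or, not_le, not_le] at hs
      rcases hs with hs | hs
      · have : Real.smoothTransition =ᶠ[𝓝 s] fun _ => 0 := by
          filter_upwards [Iio_mem_nhds hs] with y hy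
          exact Real.smoothTransition.zero_of_nonpos (by
            have : y < -1 := hy
            linarith)
        rw [this.deriv_eq, deriv_const]
      · have : Real.smoothTransition =ᶠ[𝓝 s] fun _ => 1 := by
          filter_upwards [Ioi_mem_nhds hs] with y hy
          exact Real.smoothTransition.one_of_one_le (by
            have : 2 < y := hy
            linarith)
        rw [this.deriv_eq, deriv_const]
    rw [this, abs_zero]
    positivity

/-- The cut-off near a plane. -/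
theorem zet_ex : ∃ C : ℝ, 0 < C ∧ ∀ (j : Fin 3) (c R : ℝ), 0 < R → ∃ ζ : V → ℝ,
    ContDiff ℝ ∞ ζ ∧ (∀ x, 0 ≤ ζ x ∧ ζ x ≤ 1) ∧ (∀ x ∈ Sb j c (2 * R), ζ x = 1) ∧
    (∀ x, x ∉ Sb j c (4 * R) → ζ x = 0) ∧ (∀ x i, |pd i ζ x| ≤ C / R) ∧
    ∀ x i, x ∉ Sb j c (4 * R) → pd i ζ x = 0 := by
  obtain ⟨C, hC, hd⟩ := st_cut
  refine ⟨C, hC, fun j c R hR => ?_⟩
  set z : ℝ → ℝ := fun s => Real.smoothTransition ((16 - Qf c s / R ^ 2) / 12) with hz
  have hR2 : 0 < R ^ 2 := by positivity
  have hzs : ContDiff ℝ ∞ z := Real.smoothTransition.contDiff.comp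
    ((contDiff_const.sub ((Qf_sm c).div_const _)).div_const _)
  have hzd : ∀ s, HasDerivAt z (deriv Real.smoothTransition ((16 - Qf c s / R ^ 2) / 12)
      * (-(Q1 c s / R ^ 2) / 12)) s := by
    intro s
    have h1 : HasDerivAt (fun s => (16 - Qf c s / R ^ 2) / 12) (-(Q1 c s / R ^ 2) / 12) s := by
      have := (((Qf_hd c s).div_const (R ^ 2)).const_sub 16).div_const 12
      exact this
    have h2 : HasDerivAt Real.smoothTransition
        (deriv Real.smoothTransition ((16 - Qf c s / R ^ 2) / 12)) ((16 - Qf c s / R ^ 2) / 12) :=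
      ((Real.smoothTransition.contDiff (n := ⊤)).differentiable (by simp) _).hasDerivAt
    exact h2.comp s h1
  have hz01 : ∀ s, 0 ≤ z s ∧ z s ≤ 1 := fun s =>
    ⟨Real.smoothTransition.nonneg _, Real.smoothTransition.le_one _⟩
  have hz0 : ∀ s, (4 * R) ^ 2 ≤ Qf c s → z s = 0 := by
    intro s hs
    apply Real.smoothTransition.zero_of_nonpos
    have : 16 ≤ Qf c s / R ^ 2 := by
      rw [le_div_iff₀ hR2]
      nlinarith
    linarith
  have hd0 : ∀ s, (4 * R) ^ 2 ≤ Qf c s →
      deriv Real.smoothTransition ((16 - Qf c s / R ^ 2) / 12) * (-(Q1 c s / R ^ 2) / 12) = 0 := by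
    intro s hs
    have h1 := hz0 s hs
    have h2 : IsLocalMin z s := by
      refine Eventually.of_forall fun y => ?_
      rw [h1]
      exact (hz01 y).1
    exact h2.hasDerivAt_eq_zero (hzd s)
  refine ⟨fun x => z (x j), hzs.comp (contDiff_apply ℝ ℝ j), fun x => hz01 _, ?_, ?_, ?_, ?_⟩
  · intro x hx
    apply Real.smoothTransition.one_of_one_le
    have hx' : Qf c (x j) < (2 * R) ^ 2 := hx
    have : Qf c (x j) / R ^ 2 ≤ 4 := by
      rw [div_le_iff₀ hR2]
      nlinarith
    linarith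
  · intro x hx
    exact hz0 _ (not_lt.1 hx)
  · intro x i
    rw [pd_coord hzd]
    split_ifs with h
    · by_cases hQ : (4 * R) ^ 2 ≤ Qf c (x j)
      · rw [hd0 _ hQ, abs_zero]
        positivity
      · rw [not_le] at hQ
        have h1 := hd ((16 - Qf c (x j) / R ^ 2) / 12)
        have h2 := Q1_le c (x j)
        have h3 : √(Qf c (x j)) ≤ 4 * R := by
          rw [show 4 * R = √((4 * R) ^ 2) by rw [Real.sqrt_sq (by positivity)]]
          exact Real.sqrt_le_sqrt hQ.le
        rw [abs_mul]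
        have h4 : |-(Q1 c (x j) / R ^ 2) / 12| ≤ 1 / R := by
          rw [abs_div, abs_neg, abs_div, abs_of_pos hR2, abs_of_pos (by norm_num : (0 : ℝ) < 12)]
          rw [div_div, div_le_div_iff₀ (by positivity) hR]
          nlinarith
        calc _ ≤ C * (1 / R) := mul_le_mul h1 h4 (abs_nonneg _) hC.le
          _ = C / R := by ring
    · rw [abs_zero]
      positivity
  · intro x i hx
    rw [pd_coord hzd]
    split_ifs with h
    · exact hd0 _ (not_lt.1 hx)
    · rfl

/-- Estimates of integrals. -/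
theorem int_le {F : V → ℝ} {S : Set V} (hS : MeasurableSet S) {h : V → ℝ≥0∞}
    (h0 : ∀ y ∉ S, F y = 0) (h1 : ∀ y ∈ S, ‖F y‖ₑ ≤ h y) : ‖∫ y, F y‖ₑ ≤ ∫⁻ y in S, h y := by
  calc ‖∫ y, F y‖ₑ ≤ ∫⁻ y, ‖F y‖ₑ := enorm_integral_le_lintegral_enorm _
    _ = ∫⁻ y in S, ‖F y‖ₑ := by
        rw [setLIntegral_eq_of_support_subset]
        intro z hz
        by_contra hcon
        apply hz
        show ‖F z‖ₑ = 0
        rw [h0 z hcon, enorm_zero]
    _ ≤ _ := setLIntegral_mono' hS h1

theorem ker_en {a C δ : ℝ} {z : V} {n : ℕ} (hC : 0 < C) (hδ : 0 < δ) (hn : n ≠ 0)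
    (h : |a| ≤ C / (δ + ‖z‖) ^ n) : ‖a‖ₑ ≤ ENNReal.ofReal C * ‖z‖ₑ ^ (-(n : ℝ)) := by
  by_cases hz : z = 0
  · subst hz
    have hn' : (0 : ℝ) < n := by exact_mod_cast Nat.pos_of_ne_zero hn
    rw [enorm_zero, ENNReal.zero_rpow_of_neg (by linarith),
      ENNReal.mul_top (by simpa using hC)]
    exact le_top
  · have hzp : 0 < ‖z‖ := norm_pos_iff.2 hz
    have h7 : ‖z‖ₑ ^ (-(n : ℝ)) = ENNReal.ofReal (‖z‖ ^ (-(n : ℝ))) := by
      rw [← ofReal_norm, ENNReal.ofReal_rpow_of_pos hzp]
    rw [h7, ← ENNReal.ofReal_mul hC.le, ← ofReal_norm, Real.norm_eq_abs]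
    refine ENNReal.ofReal_le_ofReal (h.trans ?_)
    rw [Real.rpow_neg hzp.le, Real.rpow_natCast, ← div_eq_mul_inv]
    have : ‖z‖ ≤ δ + ‖z‖ := by linarith
    gcongr

/-- The density in the near integral. -/
noncomputable def H1 (v : V → V) (R : ℝ) (y : V) : ℝ :=
  √(nsq v y) * √(gsq v y) + R⁻¹ * nsq v y

/-- The near integral. -/
noncomputable def Nr (v : V → V) (j : Fin 3) (c R : ℝ) (x : V) : ℝ≥0∞ :=
  ∫⁻ y in ball x (1 / 2) ∩ Sb j c (4 * R), ‖y - x‖ₑ ^ (-2 : ℝ) * ENNReal.ofReal (H1 v R y)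

/-- The far integral. -/
noncomputable def Fa (v : V → V) (j : Fin 3) (c R : ℝ) (x : V) : ℝ≥0∞ :=
  ∫⁻ y in ball x (1 / 2) \ Sb j c (2 * R), ‖y - x‖ₑ ^ (-3 : ℝ) * ENNReal.ofReal (nsq v y)

section

variable {v : V → V} {q : V → ℝ}

theorem gsq_comp (v : V → V) (x : V) (i l : Fin 3) : |pd l (fun y => v y i) x| ≤ √(gsq v x) := by
  rw [← Real.sqrt_sq_eq_abs]
  refine Real.sqrt_le_sqrt ?_
  unfold gsq
  calc pd l (fun y => v y i) x ^ 2 ≤ ∑ j, pd j (fun y => v y i) x ^ 2 :=
        Finset.single_le_sum (f := fun j => pd j (fun y => v y i) x ^ 2) (fun j _ => sq_nonneg _)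
          (Finset.mem_univ l)
    _ ≤ _ := Finset.single_le_sum (f := fun i => ∑ j, pd j (fun y => v y i) x ^ 2)
        (fun i _ => Finset.sum_nonneg fun j _ => sq_nonneg _) (Finset.mem_univ i)

theorem pd_nsq (hv : ContDiff ℝ ∞ v) (i : Fin 3) (x : V) :
    |pd i (nsq v) x| ≤ 6 * (√(nsq v x) * √(gsq v x)) := by
  have hc : ∀ l, ContDiff ℝ ∞ (fun y => v y l) := fun l => contDiff_pi.1 hv l
  have h1 : pd i (nsq v) x = ∑ l, 2 * (v x l * pd i (fun y => v y l) x) := by
    have : HasFDerivAt (nsq v) (∑ l, (2 • v x l ^ (2 - 1)) • fderiv ℝ (fun y => v y l) x)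
        x := by
      unfold nsq
      refine HasFDerivAt.fun_sum fun l _ => ?_
      exact (((hc l).differentiable (by simp)) x).hasFDerivAt.pow 2
    unfold pd
    rw [this.fderiv, sum_apply]
    refine Finset.sum_congr rfl fun l _ => ?_
    simp only [_root_.smul_apply, smul_eq_mul, nsmul_eq_mul]
    push_cast
    ring
  rw [h1]
  refine (Finset.abs_sum_le_sum_abs _ _).trans ?_
  have h2 : ∀ l ∈ Finset.univ, |2 * (v x l * pd i (fun y => v y l) x)|
      ≤ 2 * (√(nsq v x) * √(gsq v x)) := by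
    intro l _
    rw [abs_mul, abs_mul, abs_of_pos two_pos]
    have := abs_comp_le v x l
    have := gsq_comp v x l i
    gcongr
  refine (Finset.sum_le_sum h2).trans (le_of_eq ?_)
  simp only [Finset.sum_const, Finset.card_univ, Fintype.card_fin, nsmul_eq_mul]
  push_cast
  ring

theorem adv_le (v : V → V) (i : Fin 3) (x : V) :
    |adv v (fun y => v y i) x| ≤ 3 * (√(nsq v x) * √(gsq v x)) := by
  unfold adv
  refine (Finset.abs_sum_le_sum_abs _ _).trans ?_
  have h2 : ∀ l ∈ Finset.univ, |v x l * pd l (fun y => v y i) x|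
      ≤ √(nsq v x) * √(gsq v x) := by
    intro l _
    rw [abs_mul]
    have := abs_comp_le v x l
    have := gsq_comp v x i l
    gcongr
  refine (Finset.sum_le_sum h2).trans (le_of_eq ?_)
  simp only [Finset.sum_const, Finset.card_univ, Fintype.card_fin, nsmul_eq_mul]
  push_cast
  ring

theorem prod_le (v : V → V) (i l : Fin 3) (x : V) : |v x i * v x l| ≤ nsq v x := by
  rw [abs_mul]
  have h1 := abs_comp_le v x i
  have h2 := abs_comp_le v x l
  calc |v x i| * |v x l| ≤ √(nsq v x) * √(nsq v x) :=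
        mul_le_mul h1 h2 (abs_nonneg _) (Real.sqrt_nonneg _)
    _ = nsq v x := Real.mul_self_sqrt (nsq_nn v x)

/-- The representation by the kernels. -/
theorem rep0 {δ : ℝ} (hδ : 0 < δ) (hδ1 : δ ≤ 1) {F : V → ℝ} (hF : ContDiff ℝ ∞ F) (x : V) :
    ∫ y, eta δ (y - x) * F y = (∫ y, kap δ (y - x) * F y)
      + ∑ i, ∫ y, pd i (fun y => gg δ (y - x)) y * pd i F y := by
  obtain ⟨C, hC, hk⟩ := ker_all
  obtain ⟨h1, h2, h3, -, h5⟩ := hk δ hδ hδ1
  set g : V → ℝ := fun y => gg δ (y - x) with hg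
  have hsub : ContDiff ℝ ∞ fun y : V => y - x := contDiff_id.sub contDiff_const
  have hgs : ContDiff ℝ ∞ g := h1.comp hsub
  have hgz : ∀ y ∉ ball x (1 / 2), g y = 0 := by
    intro y hy
    rw [mem_ball, dist_eq_norm, not_lt] at hy
    exact ((h5 (y - x)).1 hy).1
  have hgc : HasCompactSupport g := hcsR hgz
  have hkz : ∀ y ∉ ball x 1, kap δ (y - x) = 0 := by
    intro y hy
    rw [mem_ball, dist_eq_norm, not_lt] at hy
    exact (h5 (y - x)).2.1 (by linarith)
  have e1 : ∀ y, eta δ (y - x) * F y = kap δ (y - x) * F y - lap g y * F y := by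
    intro y
    rw [hg, lap_sh]
    unfold kap
    ring
  have hi1 : Integrable fun y => kap δ (y - x) * F y :=
    int_csR ((h3.comp hsub).continuous.mul hF.continuous) (a := x) (R := 1) fun z hz => by
      show kap δ (z - x) * F z = 0
      rw [hkz z hz, zero_mul]
  have hi2 : ∀ i, Integrable fun y => pd i (pd i g) y * F y := fun i =>
    ((Pool.Agent.W583.MD.sm_pd (Pool.Agent.W583.MD.sm_pd hgs i) i).continuous.mul
      hF.continuous).integrable_of_hasCompactSupport
      (Pool.Agent.W583.MD.cs_pd (Pool.Agent.W583.MD.cs_pd hgc i) i).mul_right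
  have e2 : ∀ y, lap g y * F y = ∑ i, pd i (pd i g) y * F y := fun y => by
    unfold lap
    rw [Finset.sum_mul]
  simp_rw [e1, e2]
  rw [integral_sub hi1 (integrable_finsetSum _ fun i _ => hi2 i),
    integral_finsetSum _ fun i _ => hi2 i, sub_eq_add_neg, ← Finset.sum_neg_distrib]
  congr 1
  refine Finset.sum_congr rfl fun i _ => ?_
  rw [Pool.Agent.Y784.NS8.ibp (Pool.Agent.W583.MD.sm_pd hgs i) hF
    (Pool.Agent.W583.MD.cs_pd hgc i), neg_neg]

/-- The representation of the pressure. -/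
theorem repP (hv : SPV v) (hdiv : ∀ x, ∑ i, pd i (fun y => v y i) x = 0) (hq : SP q)
    (heq : ∀ x, -lap q x = ddq v x) {δ : ℝ} (hδ : 0 < δ) (hδ1 : δ ≤ 1) (x : V) :
    ∫ y, eta δ (y - x) * pz q y = (∫ y, kap δ (y - x) * pz q y)
      - ∑ i, ∫ y, pd i (fun y => gg δ (y - x)) y * adv v (fun y => v y i) y := by
  obtain ⟨C, hC, hk⟩ := ker_all
  obtain ⟨h1, h2, h3, -, h5⟩ := hk δ hδ hδ1
  set g : V → ℝ := fun y => gg δ (y - x) with hg
  have hsub : ContDiff ℝ ∞ fun y : V => y - x := contDiff_id.sub contDiff_const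
  have hgs : ContDiff ℝ ∞ g := h1.comp hsub
  have hgz : ∀ y ∉ ball x (1 / 2), g y = 0 := by
    intro y hy
    rw [mem_ball, dist_eq_norm, not_lt] at hy
    exact ((h5 (y - x)).1 hy).1
  have hgc : HasCompactSupport g := hcsR hgz
  have hc : ∀ l, ContDiff ℝ ∞ (fun y => v y l) := fun l => contDiff_pi.1 hv.1 l
  have hpq : ∀ i, pd i (pz q) = pd i q := by
    intro i
    funext y
    unfold pz pd
    rw [fderiv_sub_const]
  rw [rep0 hδ hδ1 (pz_sp hq).smooth x, sub_eq_add_neg]
  congr 1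
  -- the sum of the gradient terms is the integral of `g * ddq v`
  have hm : ∀ i l, ContDiff ℝ ∞ fun y => v y i * v y l := fun i l => (hc i).mul (hc l)
  have e1 : ∑ i, ∫ y, pd i g y * pd i (pz q) y = ∫ y, g y * ddq v y := by
    have e2 : ∀ i, ∫ y, pd i g y * pd i (pz q) y = -∫ y, g y * pd i (pd i q) y := by
      intro i
      rw [hpq]
      exact Pool.Agent.Y784.NS8.ibp hgs (Pool.Agent.W583.MD.sm_pd hq.smooth i) hgc i
    simp_rw [e2]
    rw [Finset.sum_neg_distrib, ← integral_finsetSum, ← integral_neg]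
    · refine integral_congr_ae (Eventually.of_forall fun y => ?_)
      show -∑ i, g y * pd i (pd i q) y = g y * ddq v y
      rw [← heq y]
      unfold lap
      rw [← Finset.mul_sum]
      ring
    · intro i _
      exact (hgs.continuous.mul (Pool.Agent.W583.MD.sm_pd (Pool.Agent.W583.MD.sm_pd hq.smooth
        i) i).continuous).integrable_of_hasCompactSupport hgc.mul_right
  rw [e1]
  have hi3 : ∀ i l, Integrable fun y => g y * pd i (pd l fun y => v y i * v y l) y := fun i l =>
    (hgs.continuous.mul (Pool.Agent.W583.MD.sm_pd (Pool.Agent.W583.MD.sm_pd (hm i l)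
        l) i).continuous).integrable_of_hasCompactSupport hgc.mul_right
  have hi4 : ∀ i l, Integrable fun y => pd i g y * pd l (fun y => v y i * v y l) y := fun i l =>
    ((Pool.Agent.W583.MD.sm_pd hgs i).continuous.mul (Pool.Agent.W583.MD.sm_pd (hm i l)
        l).continuous).integrable_of_hasCompactSupport (Pool.Agent.W583.MD.cs_pd hgc i).mul_right
  have e3 : ∫ y, g y * ddq v y = ∑ i, ∑ l, ∫ y, g y * pd i (pd l fun y => v y i * v y l) y := by
    unfold ddq
    simp_rw [Finset.mul_sum]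
    rw [integral_finsetSum _ fun i _ => integrable_finsetSum _ fun l _ => hi3 i l]
    refine Finset.sum_congr rfl fun i _ => ?_
    rw [integral_finsetSum _ fun l _ => hi3 i l]
  rw [e3, ← Finset.sum_neg_distrib]
  refine Finset.sum_congr rfl fun i _ => ?_
  have e4 : ∀ l, ∫ y, g y * pd i (pd l fun y => v y i * v y l) y
      = -∫ y, pd i g y * pd l (fun y => v y i * v y l) y := by
    intro l
    rw [Pool.Agent.Y784.NS8.ibp hgs (Pool.Agent.W583.MD.sm_pd (hm i l) l) hgc, neg_neg]
  simp_rw [e4]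
  rw [Finset.sum_neg_distrib, ← integral_finsetSum _ fun l _ => hi4 i l]
  congr 2
  funext y
  rw [← Finset.mul_sum]
  congr 1
  unfold adv
  have e5 : ∀ l, pd l (fun y => v y i * v y l) y = v y i * pd l (fun y => v y l) y
      + pd l (fun y => v y i) y * v y l := fun l => Pool.Agent.W583.MD.pd_mul' (hc i) (hc l) l y
  simp_rw [e5]
  rw [Finset.sum_add_distrib, ← Finset.mul_sum, hdiv y, mul_zero, zero_add]
  exact Finset.sum_congr rfl fun l _ => mul_comm _ _

end

end Pool.Agent.Helper30K1
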