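import Pool.Agent.Helper30K1.Cf

/-!
One velocity component (helper30): smallness in the moving frame.
-/

set_option autoImplicit false

open MeasureTheory Set Metric Filter Topology
open scoped ContDiff ENNReal

namespace Pool.Agent.Helper30K1

open H459R3.NS W221.NS Pool.Agent.Y8

/-- The `L⁴` norm in the frame along a path. -/
noncomputable def Ph (r : ℝ) (u : ℝ → V → V) (X : ℝ → V) (τ : ℝ) : ℝ≥0∞ :=
  ENNReal.ofReal (√(L4 0 4 (Y7.fr r (u τ) (X τ))))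

/-- The bounds of the `L⁴` norm in the frame. -/
theorem Ph_bd : ∃ CG CI : ℝ, 0 < CG ∧ 0 < CI ∧ ∀ (v : V → V), SPV v → ∀ (r : ℝ) (y : V), 0 < r →
    √(L4 0 4 (Y7.fr r v y)) ≤ CG * (r * B2 y (8 * r) v) ∧
    ∀ k : ℕ, 1 ≤ k → √(L4 0 4 (Y7.fr r v y))
      ≤ CI * √(rr k) * (4 ^ k * (r⁻¹ * A2 y (8 * r) v) + r * B2 y (8 * r) v) := by
  obtain ⟨KA, hKA, hAfr⟩ := A2_fr
  obtain ⟨CI, hCI, hL4s⟩ := L4s
  obtain ⟨CG, hCG, hL4g⟩ := L4g
  refine ⟨CG, CI * (KA + 1), hCG, by positivity, fun v hv r y hr => ⟨?_, fun k hk => ?_⟩⟩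
  · have h1 := hL4g (Y7.fr r v y) (Y7.fr_smooth hv.1 r y) (fun i => Y7.fr_mean hv.1 r y i)
    rw [B2_fr hv.1 hr, mul_comm r 8] at h1
    exact h1
  · have h1 := hL4s (Y7.fr r v y) (Y7.fr_smooth hv.1 r y) k hk
    rw [B2_fr hv.1 hr, mul_comm r 8] at h1
    have h2 := hAfr v hv.1 r y hr
    have hA0 : 0 ≤ A2 y (8 * r) v := integral_nonneg fun z => nsq_nn v z
    have hB0 : 0 ≤ B2 y (8 * r) v := integral_nonneg fun z => gsq_nn v z
    calc √(L4 0 4 (Y7.fr r v y)) ≤ CI * √(rr k) * (4 ^ k * A2 0 8 (Y7.fr r v y)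
          + r * B2 y (8 * r) v) := h1
      _ ≤ CI * √(rr k) * (4 ^ k * (KA * (r⁻¹ * A2 y (8 * r) v)) + r * B2 y (8 * r) v) := by
          gcongr
      _ ≤ CI * √(rr k) * ((KA + 1) * (4 ^ k * (r⁻¹ * A2 y (8 * r) v))
          + (KA + 1) * (r * B2 y (8 * r) v)) := by
          have h3 : 0 ≤ 4 ^ k * (r⁻¹ * A2 y (8 * r) v) := by positivity
          have h4 : 0 ≤ r * B2 y (8 * r) v := by positivity
          have h5 : 4 ^ k * (KA * (r⁻¹ * A2 y (8 * r) v))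
              ≤ (KA + 1) * (4 ^ k * (r⁻¹ * A2 y (8 * r) v)) := by nlinarith
          have h6 : r * B2 y (8 * r) v ≤ (KA + 1) * (r * B2 y (8 * r) v) := by nlinarith
          gcongr
      _ = _ := by ring

section

variable {T E D : ℝ} {G : Set ℝ} {u : ℝ → V → V} {p : ℝ → V → ℝ}

/-- The integral before the time `t₀`. -/
theorem Ph_before {CG CI : ℝ} (hCG : 0 < CG) (hCI : 0 < CI)
    (hbd : ∀ (v : V → V), SPV v → ∀ (r : ℝ) (y : V), 0 < r →
      √(L4 0 4 (Y7.fr r v y)) ≤ CG * (r * B2 y (8 * r) v) ∧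
      ∀ k : ℕ, 1 ≤ k → √(L4 0 4 (Y7.fr r v y))
        ≤ CI * √(rr k) * (4 ^ k * (r⁻¹ * A2 y (8 * r) v) + r * B2 y (8 * r) v))
    (h : Turb 1 T E D G u p) {j : Fin 3} {c t₀ M : ℝ} {k₀ : ℕ} (hM : 0 ≤ M)
    (hA : SlA G u j c t₀ k₀ M) (hB : SlB G u j c t₀ k₀ M) {a : ℕ} (ha : 5 ≤ a) {m : ℕ}
    (hm : k₀ ≤ m) {X : ℝ → V}
    (hX : ∀ t ∈ Ioo (t₀ - rr (m + a) ^ 2) t₀, |X t j - c| ≤ rr m / 2) {L : ℕ} {ε : ℝ} (hε : 0 ≤ ε)
    (hS : ∫⁻ t in Ioo (t₀ - rr m ^ 2) (t₀ - rr (m + L) ^ 2) ∩ G, Bb (u t) j c (rr m)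
      ≤ ENNReal.ofReal (ε * rr m)) {k : ℕ} (hk : 1 ≤ k) :
    ∫⁻ τ in Ioo (t₀ - rr (m + a) ^ 2) t₀ ∩ G, Ph (rr (m + a)) u X τ
      ≤ ENNReal.ofReal (rr (m + a) ^ 2 * (CG * (2 ^ a * ε)
        + (CI * √(rr k) * (4 ^ k * (2 ^ a * M)) * (4 ^ a * (1 / 4) ^ L)
        + CI * √(rr k) * (2 ^ a * M)))) := by
  set r := rr (m + a) with hr
  have hr0 : 0 < r := rr_pos _
  have hRr : rr m = 2 ^ a * r := rr_add m a
  have hR0 := rr_pos m
  have h32 : (2 : ℝ) ^ 5 ≤ 2 ^ a := pow_le_pow_right₀ (by norm_num) ha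
  have hr8 : 8 * r ≤ 1 / 2 := by
    have h1 := rr_le_one m
    nlinarith
  have hrm : r ^ 2 ≤ rr m ^ 2 := pow_le_pow_left₀ hr0.le (rr_anti (Nat.le_add_right m a)) 2
  have hball : ∀ t ∈ Ioo (t₀ - r ^ 2) t₀, |X t j - c| + 8 * r ≤ rr m := by
    intro t ht
    have h1 := hX t ht
    have h2 : 8 * r ≤ rr m / 2 := by rw [hRr]; nlinarith
    linarith
  set P := Ioo (t₀ - r ^ 2) t₀ ∩ G with hP
  have hPm : MeasurableSet P := measurableSet_Ioo.inter h.openG.measurableSet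
  set z := t₀ - rr (m + L) ^ 2 with hz
  have hPu : P ⊆ (P ∩ Iio z) ∪ (P ∩ Ici z) := by
    intro t ht
    rcases lt_or_ge t z with h1 | h1
    · exact Or.inl ⟨ht, h1⟩
    · exact Or.inr ⟨ht, h1⟩
  have hBb : ∀ t ∈ P, ENNReal.ofReal (B2 (X t) (8 * r) (u t)) ≤ Bb (u t) j c (rr m) :=
    fun t ht => B2_slab (h.spv ht.2) (hball t ht.1) hr8
  have hAb : ∀ t ∈ P, A2 (X t) (8 * r) (u t) ≤ M * rr m := by
    intro t ht
    have h1 := (A2_slab (h.spv ht.2) (hball t ht.1) hr8).trans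
      (hA m hm t ⟨⟨by linarith [ht.1.1], ht.1.2⟩, ht.2⟩)
    exact (ENNReal.ofReal_le_ofReal_iff (by positivity)).1 h1
  have hB0 : ∀ t, 0 ≤ B2 (X t) (8 * r) (u t) := fun t => integral_nonneg fun z => gsq_nn _ z
  -- away from the tip
  have h1 : ∫⁻ τ in P ∩ Iio z, Ph r u X τ ≤ ENNReal.ofReal (r ^ 2 * (CG * (2 ^ a * ε))) := by
    calc ∫⁻ τ in P ∩ Iio z, Ph r u X τ
        ≤ ∫⁻ τ in P ∩ Iio z, ENNReal.ofReal (CG * r) * Bb (u τ) j c (rr m) := by
          refine setLIntegral_mono' (hPm.inter measurableSet_Iio) fun τ hτ => ?_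
          unfold Ph
          refine (ENNReal.ofReal_le_ofReal (hbd (u τ) (h.spv hτ.1.2) r (X τ) hr0).1).trans ?_
          rw [← mul_assoc, ENNReal.ofReal_mul (by positivity)]
          exact mul_le_mul' le_rfl (hBb τ hτ.1)
      _ ≤ ∫⁻ τ in Ioo (t₀ - rr m ^ 2) (t₀ - rr (m + L) ^ 2) ∩ G,
          ENNReal.ofReal (CG * r) * Bb (u τ) j c (rr m) := by
          refine lintegral_mono_set fun τ hτ => ⟨⟨?_, hτ.2⟩, hτ.1.2⟩
          linarith [hτ.1.1.1]
      _ = ENNReal.ofReal (CG * r) * ∫⁻ τ in Ioo (t₀ - rr m ^ 2) (t₀ - rr (m + L) ^ 2) ∩ G,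
          Bb (u τ) j c (rr m) := lintegral_const_mul' _ _ ENNReal.ofReal_ne_top
      _ ≤ ENNReal.ofReal (CG * r) * ENNReal.ofReal (ε * rr m) := by gcongr
      _ = _ := by
          rw [← ENNReal.ofReal_mul (by positivity), hRr]
          congr 1
          ring
  -- the tip
  have h2 : ∫⁻ τ in P ∩ Ici z, Ph r u X τ ≤ ENNReal.ofReal (r ^ 2 *
      (CI * √(rr k) * (4 ^ k * (2 ^ a * M)) * (4 ^ a * (1 / 4) ^ L)
        + CI * √(rr k) * (2 ^ a * M))) := by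
    set κ := CI * √(rr k) with hκ
    have hκ0 : 0 ≤ κ := by positivity
    calc ∫⁻ τ in P ∩ Ici z, Ph r u X τ
        ≤ ∫⁻ τ in P ∩ Ici z, (ENNReal.ofReal (κ * (4 ^ k * (2 ^ a * M)))
          + ENNReal.ofReal (κ * r) * Bb (u τ) j c (rr m)) := by
          refine setLIntegral_mono' (hPm.inter measurableSet_Ici) fun τ hτ => ?_
          unfold Ph
          refine (ENNReal.ofReal_le_ofReal
            ((hbd (u τ) (h.spv hτ.1.2) r (X τ) hr0).2 k hk)).trans ?_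
          have hA0 : 0 ≤ A2 (X τ) (8 * r) (u τ) := integral_nonneg fun z => nsq_nn _ z
          have h3 : 4 ^ k * (r⁻¹ * A2 (X τ) (8 * r) (u τ)) ≤ 4 ^ k * (2 ^ a * M) := by
            have h4 := hAb τ hτ.1
            rw [hRr] at h4
            have h5 : r⁻¹ * A2 (X τ) (8 * r) (u τ) ≤ 2 ^ a * M := by
              rw [inv_mul_le_iff₀ hr0]
              linarith
            gcongr
          calc ENNReal.ofReal (κ * (4 ^ k * (r⁻¹ * A2 (X τ) (8 * r) (u τ))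
                + r * B2 (X τ) (8 * r) (u τ)))
              ≤ ENNReal.ofReal (κ * (4 ^ k * (2 ^ a * M)) + κ * r * B2 (X τ) (8 * r) (u τ)) := by
                apply ENNReal.ofReal_le_ofReal
                have h6 := mul_le_mul_of_nonneg_left h3 hκ0
                linarith
            _ ≤ _ := by
                rw [ENNReal.ofReal_add (by positivity)
                  (mul_nonneg (by positivity) (hB0 τ)), ENNReal.ofReal_mul (p := κ * r)
                  (by positivity)]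
                exact add_le_add le_rfl (mul_le_mul' le_rfl (hBb τ hτ.1))
      _ = ENNReal.ofReal (κ * (4 ^ k * (2 ^ a * M))) * volume (P ∩ Ici z)
          + ENNReal.ofReal (κ * r) * ∫⁻ τ in P ∩ Ici z, Bb (u τ) j c (rr m) := by
          rw [lintegral_add_left measurable_const, setLIntegral_const,
            lintegral_const_mul' _ _ ENNReal.ofReal_ne_top]
      _ ≤ ENNReal.ofReal (κ * (4 ^ k * (2 ^ a * M))) * ENNReal.ofReal (rr (m + L) ^ 2)
          + ENNReal.ofReal (κ * r) * ENNReal.ofReal (M * rr m) := by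
          refine add_le_add (mul_le_mul' le_rfl ?_) (mul_le_mul' le_rfl ?_)
          · have h7 : P ∩ Ici z ⊆ Icc z t₀ := fun τ hτ => ⟨hτ.2, hτ.1.1.2.le⟩
            refine (measure_mono h7).trans ?_
            rw [Real.volume_Icc]
            exact ENNReal.ofReal_le_ofReal (by rw [hz]; linarith)
          · refine (lintegral_mono_set ?_).trans (hB m hm)
            intro τ hτ
            exact ⟨⟨by linarith [hτ.1.1.1], hτ.1.1.2⟩, hτ.1.2⟩
      _ = _ := by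
          have h8 : rr (m + L) ^ 2 = r ^ 2 * (4 ^ a * (1 / 4) ^ L) := by
            have h9 : rr (m + L) = rr m * (1 / 2) ^ L := by
              unfold rr
              rw [pow_add]
            rw [h9, hRr]
            have h10 : ((1 / 2 : ℝ) ^ L) ^ 2 = (1 / 4) ^ L := by
              rw [← pow_mul, mul_comm, pow_mul]
              norm_num
            have h11 : ((2 : ℝ) ^ a) ^ 2 = 4 ^ a := by
              rw [← pow_mul, mul_comm, pow_mul]
              norm_num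
            calc (2 ^ a * r * (1 / 2) ^ L) ^ 2 = r ^ 2 * (((2 : ℝ) ^ a) ^ 2
                  * ((1 / 2 : ℝ) ^ L) ^ 2) := by ring
              _ = _ := by rw [h10, h11]
          rw [← ENNReal.ofReal_mul (by positivity), ← ENNReal.ofReal_mul (by positivity),
            ← ENNReal.ofReal_add (by positivity) (by positivity), h8, hRr]
          congr 1
          ring
  calc ∫⁻ τ in P, Ph r u X τ ≤ ∫⁻ τ in (P ∩ Iio z) ∪ (P ∩ Ici z), Ph r u X τ :=
        lintegral_mono_set hPu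
    _ ≤ (∫⁻ τ in P ∩ Iio z, Ph r u X τ) + ∫⁻ τ in P ∩ Ici z, Ph r u X τ :=
        lintegral_union_le _ _ _
    _ ≤ _ := by
        refine (add_le_add h1 h2).trans (le_of_eq ?_)
        rw [← ENNReal.ofReal_add (by positivity) (by positivity), ← mul_add]

/-- The integral over the frame. -/
theorem frame_int (h : Turb 1 T E D G u p) {r s t₀ : ℝ} (hr : 0 < r) (hrs : r ^ 2 < s)
    (hsT : s < T) (hs : t₀ ≤ s) {X Y : ℝ → V} {B C : ℝ} (hX : FPath T r B C G u p X Y)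
    {q : ℝ → V → ℝ} {kf : ℝ → ℝ}
    (hL : WL2 {t | t ∈ Ioo (-1 : ℝ) 0 ∧ s + r ^ 2 * t ∈ G} (frv r s X u) q kf) {e₁ e₂ : ℝ}
    (he₁ : 0 ≤ e₁) (he₂ : 0 ≤ e₂)
    (h1 : ∫⁻ τ in Ioo (t₀ - r ^ 2) t₀ ∩ G, Ph r u X τ ≤ ENNReal.ofReal (r ^ 2 * e₁))
    (h2 : ∫⁻ τ in Ioo t₀ s ∩ G, Ph r u X τ ≤ ENNReal.ofReal (r ^ 2 * e₂)) :
    IntegrableOn (fun t => √(L4 0 4 (frv r s X u t))) (Ioo (-1) 0) ∧
      ∫ t in Ioo (-1) 0, √(L4 0 4 (frv r s X u t)) ≤ e₁ + e₂ := by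
  have hr2 : 0 < r ^ 2 := by positivity
  have hlint : ∫⁻ t in Ioo (-1) 0, ENNReal.ofReal (√(L4 0 4 (frv r s X u t)))
      ≤ ENNReal.ofReal (e₁ + e₂) := by
    have hae : ∫⁻ t in Ioo (-1) 0, ENNReal.ofReal (√(L4 0 4 (frv r s X u t)))
        ≤ ∫⁻ t in Ioo (-1) 0, Ph r u X (s + r ^ 2 * t) := by
      apply lintegral_mono_ae
      filter_upwards [Y7.WD.ae_mem hL.fullH subset_rfl measurableSet_Ioo] with t ht
      unfold Ph
      rw [Y7.turb_frv h hX ht.2.2]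
    refine hae.trans ?_
    rw [Y7.aff (fun τ => Ph r u X τ) hr2]
    have e1 : s + r ^ 2 * (-1) = s - r ^ 2 := by ring
    have e2 : s + r ^ 2 * 0 = s := by ring
    rw [e1, e2]
    have h3 : ∫⁻ τ in Ioo (s - r ^ 2) s, Ph r u X τ ≤ ENNReal.ofReal (r ^ 2 * (e₁ + e₂)) := by
      have h4 : (Ioo (s - r ^ 2) s : Set ℝ) ≤ᵐ[volume]
          ((Ioo (t₀ - r ^ 2) t₀ ∩ G) ∪ (Ioo t₀ s ∩ G) : Set ℝ) := by
        have h5 : (Ioo (s - r ^ 2) s : Set ℝ) ≤ᵐ[volume] G :=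
          Pool.Agent.Y458.NS.sub_ae h fun x hx => ⟨by linarith [hx.1], by linarith [hx.2]⟩
        have h6 : ∀ᵐ τ : ℝ, τ ≠ t₀ :=
          (measure_eq_zero_iff_ae_notMem.1 (measure_singleton t₀)).mono fun τ hτ => by
            simpa using hτ
        filter_upwards [h5, h6] with τ h7 h8 h9
        have hG : τ ∈ G := h7 h9
        rcases lt_or_gt_of_ne h8 with h10 | h10
        · exact Or.inl ⟨⟨by linarith [h9.1], h10⟩, hG⟩
        · exact Or.inr ⟨⟨h10, h9.2⟩, hG⟩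
      calc ∫⁻ τ in Ioo (s - r ^ 2) s, Ph r u X τ
          ≤ ∫⁻ τ in (Ioo (t₀ - r ^ 2) t₀ ∩ G) ∪ (Ioo t₀ s ∩ G), Ph r u X τ :=
            lintegral_mono' (Measure.restrict_mono_ae h4) le_rfl
        _ ≤ _ := (lintegral_union_le _ _ _).trans (add_le_add h1 h2)
        _ = _ := by
            rw [← ENNReal.ofReal_add (by positivity) (by positivity), mul_add]
    calc ENNReal.ofReal (1 / r ^ 2) * ∫⁻ τ in Ioo (s - r ^ 2) s, Ph r u X τ
        ≤ ENNReal.ofReal (1 / r ^ 2) * ENNReal.ofReal (r ^ 2 * (e₁ + e₂)) := by gcongr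
      _ = _ := by
          rw [← ENNReal.ofReal_mul (by positivity)]
          congr 1
          field_simp
  have hcont : ContinuousOn (fun t => √(L4 0 4 (frv r s X u t)))
      {t | t ∈ Ioo (-1 : ℝ) 0 ∧ s + r ^ 2 * t ∈ G} := by
    apply Real.continuous_sqrt.comp_continuousOn
    unfold L4
    have h2 := nsq_joint hL.smooth_v
    exact pint_cont (F := fun t z => nsq (frv r s X u t) z ^ 2) hL.openH
      (h2.continuousOn.pow 2) 0 4
  have hint : IntegrableOn (fun t => √(L4 0 4 (frv r s X u t))) (Ioo (-1) 0) := by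
    refine ⟨Y7.WD.aesm hL.openH hL.fullH subset_rfl hcont, ?_⟩
    rw [hasFiniteIntegral_iff_ofReal (Eventually.of_forall fun t => Real.sqrt_nonneg _)]
    exact hlint.trans_lt ENNReal.ofReal_lt_top
  refine ⟨hint, ?_⟩
  rw [← ENNReal.ofReal_le_ofReal_iff (by positivity),
    ofReal_integral_eq_lintegral_ofReal hint (Eventually.of_forall fun t => Real.sqrt_nonneg _)]
  exact hlint

end

end Pool.Agent.Helper30K1
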