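import Pool.Agent.Helper30K1.It
import Pool.Agent.N976.TL.A1
import Pool.Agent.N976.TL.A1a
import Pool.Agent.Y8.Asm2
import Pool.Agent.Y7.WLoc

/-!
One velocity component (helper30): slabs and moving frames, inequalities at one time.
-/

set_option autoImplicit false

open MeasureTheory Set Metric Filter Topology
open scoped ContDiff ENNReal

namespace Pool.Agent.Helper30K1

open H459R3.NS W221.NS Pool.Agent.Y8

theorem Qf_le (c s : ℝ) : Qf c s ≤ (s - c) ^ 2 := by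
  unfold Qf
  rw [div_le_iff₀ (by positivity)]
  have h1 : Real.sin (Real.pi * (s - c)) ^ 2 ≤ (Real.pi * (s - c)) ^ 2 := by
    rw [sq_le_sq]
    exact Real.abs_sin_le_abs
  calc _ ≤ (Real.pi * (s - c)) ^ 2 := h1
    _ = _ := by ring

/-- A ball near the plane is contained in the slab. -/
theorem ball_Sb {j : Fin 3} {c R ρ : ℝ} {x : V} (h : |x j - c| + ρ ≤ R) :
    ball x ρ ⊆ Sb j c R := by
  intro y hy
  rw [mem_Sb]
  have h1 : |y j - x j| < ρ := by
    have h2 : dist (y j) (x j) ≤ dist y x := dist_le_pi_dist y x j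
    rw [Real.dist_eq] at h2
    exact h2.trans_lt (mem_ball.1 hy)
  have h3 : |y j - c| < R := by
    have h4 := abs_add_le (y j - x j) (x j - c)
    rw [show y j - x j + (x j - c) = y j - c by ring] at h4
    linarith
  refine (Qf_le c (y j)).trans_lt ?_
  rw [← sq_abs]
  exact pow_lt_pow_left₀ h3 (abs_nonneg _) (by norm_num)

theorem slab_ball {f : V → ℝ≥0∞} (hf : Per f) {j : Fin 3} {c R ρ : ℝ} {x : V}
    (h : |x j - c| + ρ ≤ R) (hρ : ρ ≤ 1 / 2) :
    ∫⁻ y in ball x ρ, f y ≤ ∫⁻ y in cube ∩ Sb j c R, f y := by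
  rw [← ball_ind hf j c R x]
  exact lintegral_mono_set (subset_inter (ball_subset_ball hρ) (ball_Sb h))

theorem A2_slab {v : V → V} (hv : SPV v) {j : Fin 3} {c R ρ : ℝ} {x : V}
    (h : |x j - c| + ρ ≤ R) (hρ : ρ ≤ 1 / 2) :
    ENNReal.ofReal (A2 x ρ v) ≤ Ab v j c R := by
  unfold A2 Ab
  rw [ofReal_integral_eq_lintegral_ofReal (ballint (nsq_sm hv.1).continuous _ _)
    (Filter.Eventually.of_forall fun z => nsq_nn v z)]
  refine slab_ball ?_ h hρ
  have hp := nsq_per hv.2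
  intro i y
  simp only [hp i y]

theorem B2_slab {v : V → V} (hv : SPV v) {j : Fin 3} {c R ρ : ℝ} {x : V}
    (h : |x j - c| + ρ ≤ R) (hρ : ρ ≤ 1 / 2) :
    ENNReal.ofReal (B2 x ρ v) ≤ Bb v j c R := by
  unfold B2 Bb
  rw [ofReal_integral_eq_lintegral_ofReal (ballint (gsq_ct hv.1) _ _)
    (Filter.Eventually.of_forall fun z => gsq_nn v z)]
  refine slab_ball ?_ h hρ
  have hp := gsq_per hv.2
  intro i y
  simp only [hp i y]

/-- Interpolation, ball of radius four. -/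
theorem L4s : ∃ C : ℝ, 0 < C ∧ ∀ v : V → V, ContDiff ℝ ∞ v → ∀ k : ℕ, 1 ≤ k →
    √(L4 0 4 v) ≤ C * √(rr k) * (4 ^ k * A2 0 8 v + B2 0 8 v) := by
  obtain ⟨C, hC, h⟩ := Pool.Agent.Y8.B.p_l4
  refine ⟨C * √(16 ^ 3) * ((16 ^ 3)⁻¹ * 16 ^ 2), by positivity, fun v hv k hk => ?_⟩
  set w : V → V := fun z i => 1 * (v ((0 : V) + (16 : ℝ) • z) i - (0 : V) i) with hw
  have hwv : ∀ z i, w z i = v ((16 : ℝ) • z) i := by
    intro z i
    rw [hw]
    simp
  have hws : ContDiff ℝ ∞ w := by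
    refine contDiff_pi.2 fun i => ?_
    have h1 : ContDiff ℝ ∞ fun z : V => v ((16 : ℝ) • z) i :=
      (contDiff_pi.1 hv i).comp (by fun_prop)
    have e0 : (fun z => w z i) = fun z : V => v ((16 : ℝ) • z) i := funext fun z => hwv z i
    rw [e0]
    exact h1
  have hn : ∀ z, nsq w z = nsq v ((0 : V) + (16 : ℝ) • z) := by
    intro z
    unfold nsq
    simp only [hwv, zero_add]
  have hg : ∀ z, gsq w z = 16 ^ 2 * gsq v ((0 : V) + (16 : ℝ) • z) := by
    intro z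
    unfold gsq
    rw [Finset.mul_sum]
    refine Finset.sum_congr rfl fun i _ => ?_
    rw [Finset.mul_sum]
    refine Finset.sum_congr rfl fun l _ => ?_
    have e1 : pd l (fun y => w y i) z = 16 * pd l (fun y => v y i) ((16 : ℝ) • z) := by
      have e2 : (fun y => w y i) = fun y => (fun y => v y i) ((16 : ℝ) • y) := by
        funext y
        exact hwv y i
      rw [e2]
      unfold pd
      have hd : Differentiable ℝ (fun y => v y i) :=
        (contDiff_pi.1 hv i).differentiable (by simp)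
      have h2 : HasFDerivAt (fun y : V => (16 : ℝ) • y) ((16 : ℝ) • ContinuousLinearMap.id ℝ V) z :=
        (hasFDerivAt_id z).const_smul (16 : ℝ)
      have h3 := (hd ((16 : ℝ) • z)).hasFDerivAt.comp z h2
      have h4 := h3.fderiv
      have h5 : ((fun y => v y i) ∘ fun y : V => (16 : ℝ) • y)
          = fun y => (fun y => v y i) ((16 : ℝ) • y) := rfl
      rw [h5] at h4
      rw [h4]
      simp
    rw [e1, zero_add]
    ring
  have h1 := h w hws 0 1 k hk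
  have r1 : rr (1 + 1) = 1 / 4 := by unfold rr; norm_num
  have r2 : rr 1 = 1 / 2 := by unfold rr; norm_num
  rw [r1, r2] at h1
  have e4 : L4 0 (1 / 4) w = ((16 : ℝ) ^ 3)⁻¹ * L4 0 4 v := by
    unfold L4
    simp_rw [hn]
    have := Pool.Agent.W135.MD.int_ball_scale (fun y => nsq v y ^ 2) (0 : V)
      (r := 16) (by norm_num) (1 / 4)
    rw [this]
    norm_num
  have eA : A2 0 (1 / 2) w = ((16 : ℝ) ^ 3)⁻¹ * A2 0 8 v := by
    unfold A2
    simp_rw [hn]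
    have := Pool.Agent.W135.MD.int_ball_scale (fun y => nsq v y) (0 : V)
      (r := 16) (by norm_num) (1 / 2)
    rw [this]
    norm_num
  have eB : B2 0 (1 / 2) w = 16 ^ 2 * (((16 : ℝ) ^ 3)⁻¹ * B2 0 8 v) := by
    unfold B2
    simp_rw [hg]
    rw [integral_const_mul]
    have := Pool.Agent.W135.MD.int_ball_scale (fun y => gsq v y) (0 : V)
      (r := 16) (by norm_num) (1 / 2)
    rw [this]
    norm_num
  rw [e4, eA, eB] at h1
  have hL0 : 0 ≤ L4 0 4 v := integral_nonneg fun z => sq_nonneg _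
  have hA0 : 0 ≤ A2 0 8 v := integral_nonneg fun z => nsq_nn v z
  have hB0 : 0 ≤ B2 0 8 v := integral_nonneg fun z => gsq_nn v z
  have e5 : √(L4 0 4 v) = √(16 ^ 3) * √(((16 : ℝ) ^ 3)⁻¹ * L4 0 4 v) := by
    rw [← Real.sqrt_mul (by norm_num), ← mul_assoc, mul_inv_cancel₀ (by norm_num), one_mul]
  rw [e5]
  calc √(16 ^ 3) * √(((16 : ℝ) ^ 3)⁻¹ * L4 0 4 v)
      ≤ √(16 ^ 3) * (C * √(rr k) * (4 ^ k * (((16 : ℝ) ^ 3)⁻¹ * A2 0 8 v)
        + 16 ^ 2 * (((16 : ℝ) ^ 3)⁻¹ * B2 0 8 v))) := by gcongr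
    _ ≤ √(16 ^ 3) * (C * √(rr k) * (4 ^ k * (((16 : ℝ) ^ 3)⁻¹ * 16 ^ 2 * A2 0 8 v)
        + ((16 : ℝ) ^ 3)⁻¹ * 16 ^ 2 * B2 0 8 v)) := by
        have h6 : ((16 : ℝ) ^ 3)⁻¹ * A2 0 8 v ≤ ((16 : ℝ) ^ 3)⁻¹ * 16 ^ 2 * A2 0 8 v := by
          nlinarith
        have h7 : (16 : ℝ) ^ 2 * (((16 : ℝ) ^ 3)⁻¹ * B2 0 8 v)
            = ((16 : ℝ) ^ 3)⁻¹ * 16 ^ 2 * B2 0 8 v := by ring
        rw [h7]
        gcongr
    _ = _ := by ring

/-- The growth estimate in the ball of radius four. -/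
theorem L4g : ∃ C : ℝ, 0 < C ∧ ∀ v : V → V, ContDiff ℝ ∞ v →
    (∀ i, ∫ z, th z * v z i = 0) → √(L4 0 4 v) ≤ C * B2 0 8 v := by
  obtain ⟨C, hC, h⟩ := Pool.Agent.Y8.B.p_grow
  exact ⟨128 * C, by positivity, fun v hv hm => Pool.Agent.W327.ME.grow_bd hC hv (h v hv hm 2)⟩

/-- The dissipation in the frame. -/
theorem B2_fr {w : V → V} (hw : ContDiff ℝ ∞ w) {r : ℝ} (hr : 0 < r) (y : V) (ρ : ℝ) :
    B2 0 ρ (Y7.fr r w y) = r * B2 y (r * ρ) w := by
  unfold B2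
  simp_rw [Y7.fr_gsq hw r y]
  rw [integral_const_mul, Pool.Agent.W135.MD.int_ball_scale _ _ hr]
  field_simp

/-- The mean. -/
theorem mo_A2 : ∃ K : ℝ, 0 < K ∧ ∀ (w : V → V), ContDiff ℝ ∞ w → ∀ (r : ℝ) (y : V), 0 < r →
    ‖mo r w y‖ ^ 2 ≤ K * (r ^ 3)⁻¹ * A2 y r w := by
  obtain ⟨K, hK, h⟩ := mo_sq
  refine ⟨K, hK, fun w hw r y hr => ?_⟩
  have hA0 : 0 ≤ A2 y r w := integral_nonneg fun z => nsq_nn w z
  have h1 : ‖mo r w y‖ ≤ √(K * (r ^ 3)⁻¹ * A2 y r w) := by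
    rw [pi_norm_le_iff_of_nonneg (Real.sqrt_nonneg _)]
    intro i
    rw [Real.norm_eq_abs]
    apply Real.abs_le_sqrt
    refine (h w hw.continuous r y i hr).trans ?_
    refine mul_le_mul_of_nonneg_left ?_ (by positivity)
    exact setIntegral_mono (ballint (((continuous_apply i).comp hw.continuous).pow 2) _ _)
      (ballint (nsq_sm hw).continuous _ _) fun z => comp_sq_le w z i
  calc ‖mo r w y‖ ^ 2 ≤ √(K * (r ^ 3)⁻¹ * A2 y r w) ^ 2 :=
        pow_le_pow_left₀ (norm_nonneg _) h1 2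
    _ = _ := Real.sq_sqrt (by positivity)

/-- The energy in the frame. -/
theorem A2_fr : ∃ K : ℝ, 0 < K ∧ ∀ (w : V → V), ContDiff ℝ ∞ w → ∀ (r : ℝ) (y : V), 0 < r →
    A2 0 8 (Y7.fr r w y) ≤ K * (r⁻¹ * A2 y (8 * r) w) := by
  obtain ⟨K, hK, h⟩ := mo_A2
  set V8 : ℝ := (volume (ball (0 : V) 8)).toReal with hV8
  refine ⟨2 + 6 * K * V8, by positivity, fun w hw r y hr => ?_⟩
  have hm := h w hw r y hr
  have hA8 : A2 y r w ≤ A2 y (8 * r) w := by
    unfold A2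
    exact setIntegral_mono_set (ballint (nsq_sm hw).continuous _ _)
      (ae_of_all _ fun z => nsq_nn w z) (ball_subset_ball (by linarith)).eventuallyLE
  set m : ℝ := ‖mo r w y‖ with hmd
  have hpt : ∀ z, nsq (Y7.fr r w y) z ≤ 2 * r ^ 2 * nsq w (y + r • z) + 6 * r ^ 2 * m ^ 2 := by
    intro z
    unfold nsq Y7.fr
    have hmi : ∀ i, Y7.ml r w y i ^ 2 ≤ m ^ 2 := by
      intro i
      rw [← sq_abs (Y7.ml r w y i)]
      exact pow_le_pow_left₀ (abs_nonneg _) (norm_le_pi_norm (mo r w y) i) 2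
    have e1 : ∀ i, (r * (w (y + r • z) i - Y7.ml r w y i)) ^ 2
        ≤ 2 * r ^ 2 * w (y + r • z) i ^ 2 + 2 * r ^ 2 * m ^ 2 := by
      intro i
      have h1 := hmi i
      have h2 : (w (y + r • z) i - Y7.ml r w y i) ^ 2
          ≤ 2 * w (y + r • z) i ^ 2 + 2 * m ^ 2 := by
        nlinarith [sq_nonneg (w (y + r • z) i + Y7.ml r w y i)]
      calc (r * (w (y + r • z) i - Y7.ml r w y i)) ^ 2
          = r ^ 2 * (w (y + r • z) i - Y7.ml r w y i) ^ 2 := by ring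
        _ ≤ r ^ 2 * (2 * w (y + r • z) i ^ 2 + 2 * m ^ 2) := by gcongr
        _ = _ := by ring
    calc ∑ i, (r * (w (y + r • z) i - Y7.ml r w y i)) ^ 2
        ≤ ∑ i, (2 * r ^ 2 * w (y + r • z) i ^ 2 + 2 * r ^ 2 * m ^ 2) :=
          Finset.sum_le_sum fun i _ => e1 i
      _ = _ := by
          simp only [Fin.sum_univ_three]
          ring
  have hwc : Continuous fun z : V => nsq w (y + r • z) := (nsq_sm hw).continuous.comp (by fun_prop)
  have i1 : IntegrableOn (fun z : V => 2 * r ^ 2 * nsq w (y + r • z)) (ball (0 : V) 8) :=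
    ballint (continuous_const.mul hwc) _ _
  have i2 : IntegrableOn (fun _ : V => 6 * r ^ 2 * m ^ 2) (ball (0 : V) 8) :=
    ballint continuous_const _ _
  have h3 : A2 0 8 (Y7.fr r w y) ≤ 2 * r ^ 2 * ((r ^ 3)⁻¹ * A2 y (r * 8) w)
      + 6 * r ^ 2 * m ^ 2 * V8 := by
    unfold A2
    calc ∫ z in ball (0 : V) 8, nsq (Y7.fr r w y) z
        ≤ ∫ z in ball (0 : V) 8, (2 * r ^ 2 * nsq w (y + r • z) + 6 * r ^ 2 * m ^ 2) :=
          setIntegral_mono (ballint (nsq_sm (Y7.fr_smooth hw r y)).continuous _ _) (i1.add i2) hpt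
      _ = _ := by
          rw [integral_add i1 i2, integral_const_mul,
            Pool.Agent.W135.MD.int_ball_scale (fun z => nsq w z) y hr 8, setIntegral_const]
          simp only [smul_eq_mul, Measure.real]
          ring
  have hA0 : 0 ≤ A2 y (8 * r) w := integral_nonneg fun z => nsq_nn w z
  calc A2 0 8 (Y7.fr r w y) ≤ 2 * r ^ 2 * ((r ^ 3)⁻¹ * A2 y (r * 8) w)
      + 6 * r ^ 2 * m ^ 2 * V8 := h3
    _ ≤ 2 * r ^ 2 * ((r ^ 3)⁻¹ * A2 y (8 * r) w)
      + 6 * r ^ 2 * (K * (r ^ 3)⁻¹ * A2 y (8 * r) w) * V8 := by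
        rw [mul_comm r 8]
        have h5 : m ^ 2 ≤ K * (r ^ 3)⁻¹ * A2 y (8 * r) w := hm.trans (by gcongr)
        gcongr
    _ = _ := by
        field_simp

end Pool.Agent.Helper30K1
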