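import Pool.Agent.Helper30K1.Gr2

/-!
One velocity component (helper30): the sum of the scale invariant norms in the critical class.
-/

set_option autoImplicit false

open MeasureTheory Set Metric Filter Topology
open scoped ContDiff ENNReal

namespace Pool.Agent.Helper30K1

open H459R3.NS W221.NS Pool.Agent.Y8

/-- The recursion for the sums. -/
theorem sum_real {x m : ℝ} (hx0 : 0 < x) (hx1 : x < 1) (hm : 2 ≤ m) (k₁ : ℕ) (A b y : ℕ → ℝ)
    (hA0 : ∀ k, 0 ≤ A k) (hb : ∀ k, 0 ≤ b k) (hy : ∀ k, 0 ≤ y k)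
    (hA : ∀ k, A k ≤ b k + x * A (k + 1)) (hAy : ∀ k, A k ≤ y k ^ (1 / m))
    (hby : ∀ k, b k ^ m + y (k + 1) ≤ y k) (n : ℕ) :
    ∑ k ∈ Finset.Icc k₁ n, A k ≤ 2 / (1 - x) * ((n : ℝ) + 1) ^ (1 - 1 / m) * y k₁ ^ (1 / m) := by
  have hm0 : 0 < m := by linarith
  have hx : 0 < 1 - x := by linarith
  have hy1 : ∀ k, y (k + 1) ≤ y k := by
    intro k
    have h1 := hby k
    have h2 : 0 ≤ b k ^ m := Real.rpow_nonneg (hb k) _
    linarith
  have hyanti : Antitone y := antitone_nat_of_succ_le hy1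
  by_cases hn : n < k₁
  · rw [Finset.Icc_eq_empty (by omega), Finset.sum_empty]
    have := hy k₁
    positivity
  push Not at hn
  -- the sum of the powers
  have h1 : ∀ n, k₁ ≤ n → ∑ k ∈ Finset.Icc k₁ n, b k ^ m + y (n + 1) ≤ y k₁ := by
    intro n hn
    induction n, hn using Nat.le_induction with
    | base =>
      rw [Finset.Icc_self, Finset.sum_singleton]
      exact hby k₁
    | succ n hn ih =>
      rw [Finset.sum_Icc_succ_top (by omega)]
      have := hby (n + 1)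
      linarith
  -- the telescoping sum
  have h2 : ∀ n, k₁ ≤ n → (1 - x) * ∑ k ∈ Finset.Icc k₁ n, A k
      ≤ ∑ k ∈ Finset.Icc k₁ n, b k + x * A (n + 1) - x * A k₁ := by
    intro n hn
    induction n, hn using Nat.le_induction with
    | base =>
      rw [Finset.Icc_self, Finset.sum_singleton, Finset.sum_singleton]
      have := hA k₁
      linarith
    | succ n hn ih =>
      rw [Finset.sum_Icc_succ_top (by omega), Finset.sum_Icc_succ_top (by omega)]
      have := hA (n + 1)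
      linarith
  -- Hölder
  have h3 : ∑ k ∈ Finset.Icc k₁ n, b k ≤ ((n : ℝ) + 1) ^ (1 - 1 / m) * y k₁ ^ (1 / m) := by
    have h4 := Real.rpow_sum_le_const_mul_sum_rpow_of_nonneg (s := Finset.Icc k₁ n) (f := b)
      (p := m) (by linarith) fun k _ => hb k
    have h5 : ∑ k ∈ Finset.Icc k₁ n, b k ^ m ≤ y k₁ := by
      have := h1 n hn
      have := hy (n + 1)
      linarith
    have hcard : ((Finset.Icc k₁ n).card : ℝ) ≤ (n : ℝ) + 1 := by
      rw [Nat.card_Icc]
      have : n + 1 - k₁ ≤ n + 1 := by omega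
      exact_mod_cast this
    have hs0 : 0 ≤ ∑ k ∈ Finset.Icc k₁ n, b k := Finset.sum_nonneg fun k _ => hb k
    have h6 : (∑ k ∈ Finset.Icc k₁ n, b k) ^ m ≤ ((n : ℝ) + 1) ^ (m - 1) * y k₁ := by
      refine h4.trans ?_
      have h7 : ((Finset.Icc k₁ n).card : ℝ) ^ (m - 1) ≤ ((n : ℝ) + 1) ^ (m - 1) :=
        Real.rpow_le_rpow (Nat.cast_nonneg _) hcard (by linarith)
      have h8 : 0 ≤ ∑ k ∈ Finset.Icc k₁ n, b k ^ m :=
        Finset.sum_nonneg fun k _ => Real.rpow_nonneg (hb k) _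
      gcongr
    calc ∑ k ∈ Finset.Icc k₁ n, b k = ((∑ k ∈ Finset.Icc k₁ n, b k) ^ m) ^ (1 / m) := by
          rw [← Real.rpow_mul hs0, mul_one_div_cancel hm0.ne', Real.rpow_one]
      _ ≤ (((n : ℝ) + 1) ^ (m - 1) * y k₁) ^ (1 / m) :=
          Real.rpow_le_rpow (Real.rpow_nonneg hs0 _) h6 (by positivity)
      _ = _ := by
          rw [Real.mul_rpow (by positivity) (hy k₁), ← Real.rpow_mul (by positivity)]
          congr 2
          field_simp
  have h9 := h2 n hn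
  have h10 : A (n + 1) ≤ y k₁ ^ (1 / m) :=
    (hAy (n + 1)).trans (Real.rpow_le_rpow (hy _) (hyanti (by omega)) (by positivity))
  have h11 : (1 : ℝ) ≤ ((n : ℝ) + 1) ^ (1 - 1 / m) := by
    apply Real.one_le_rpow
    · have : (0 : ℝ) ≤ n := Nat.cast_nonneg n
      linarith
    · rw [sub_nonneg, div_le_one hm0]
      linarith
  have h12 : 0 ≤ y k₁ ^ (1 / m) := Real.rpow_nonneg (hy _) _
  have h13 : 0 ≤ x * A k₁ := mul_nonneg hx0.le (hA0 k₁)
  have h14 : x * A (n + 1) ≤ A (n + 1) := mul_le_of_le_one_left (hA0 _) hx1.le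
  have h15 : y k₁ ^ (1 / m) ≤ ((n : ℝ) + 1) ^ (1 - 1 / m) * y k₁ ^ (1 / m) :=
    le_mul_of_one_le_left h12 h11
  rw [div_mul_eq_mul_div, div_mul_eq_mul_div, le_div_iff₀ hx]
  linarith

section

variable {T E D : ℝ} {G : Set ℝ} {u : ℝ → V → V} {p : ℝ → V → ℝ}

/-- Hölder's inequality in a set of times. -/
theorem win_le (h : Turb 1 T E D G u p) {q m : ℝ} (hq : 3 < q) (hm : 2 ≤ m)
    (hqm : 2 / m + 3 / q = 1) (j : Fin 3) (k : ℕ) {A : Set ℝ} (hAG : A ⊆ G)
    (hvol : volume A ≤ ENNReal.ofReal (rr k ^ 2)) :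
    ENNReal.ofReal (rr k ^ (-(3 / q))) * (∫⁻ t in A, Nq q u j t ^ (2 / q)) ^ (1 / 2 : ℝ)
      ≤ (∫⁻ t in A, Nq q u j t ^ (m / q)) ^ (1 / m) := by
  have hq0 : 0 < q := by linarith
  have hm0 : 0 < m := by linarith
  have hr := rr_pos k
  have hNm : AEMeasurable (fun t => Nq q u j t) (volume.restrict A) := int_meas h j cube_meas hAG
  have hH : (∫⁻ t in A, Nq q u j t ^ (2 / q)) ^ (1 / 2 : ℝ)
      ≤ (∫⁻ t in A, Nq q u j t ^ (m / q)) ^ (1 / m) * volume A ^ (1 / 2 - 1 / m) := by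
    rcases eq_or_lt_of_le hm with hm2 | hm2
    · subst hm2
      rw [sub_self, ENNReal.rpow_zero, mul_one]
    · have hconj : (m / 2).HolderConjugate (m / (m - 2)) := by
        rw [Real.holderConjugate_iff]
        refine ⟨by linarith, ?_⟩
        have : m - 2 ≠ 0 := by linarith
        field_simp
        ring
      have h2 := ENNReal.lintegral_mul_le_Lp_mul_Lq (volume.restrict A) hconj
        (f := fun t => Nq q u j t ^ (2 / q)) (g := fun _ => (1 : ℝ≥0∞)) (hNm.pow_const _)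
        aemeasurable_const
      have e1 : ∀ t, (Nq q u j t ^ (2 / q)) ^ (m / 2) = Nq q u j t ^ (m / q) := by
        intro t
        rw [← ENNReal.rpow_mul]
        congr 1
        field_simp
      simp only [Pi.mul_apply, mul_one, e1, ENNReal.one_rpow, lintegral_const,
        MeasurableSet.univ, Measure.restrict_apply, univ_inter, one_mul] at h2
      have h3 := ENNReal.rpow_le_rpow h2 (by norm_num : (0 : ℝ) ≤ 1 / 2)
      refine h3.trans (le_of_eq ?_)
      rw [ENNReal.mul_rpow_of_nonneg _ _ (by norm_num), ← ENNReal.rpow_mul, ← ENNReal.rpow_mul]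
      congr 2
      · field_simp
      · field_simp
  have hexp : 0 ≤ 1 / 2 - 1 / m := by
    have : 1 / m ≤ 1 / 2 := by
      apply one_div_le_one_div_of_le <;> linarith
    linarith
  calc ENNReal.ofReal (rr k ^ (-(3 / q))) * (∫⁻ t in A, Nq q u j t ^ (2 / q)) ^ (1 / 2 : ℝ)
      ≤ ENNReal.ofReal (rr k ^ (-(3 / q))) * ((∫⁻ t in A, Nq q u j t ^ (m / q)) ^ (1 / m)
        * ENNReal.ofReal (rr k ^ 2) ^ (1 / 2 - 1 / m)) := by
        refine mul_le_mul' le_rfl (hH.trans (mul_le_mul' le_rfl ?_))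
        exact ENNReal.rpow_le_rpow hvol hexp
    _ = (ENNReal.ofReal (rr k ^ (-(3 / q))) * ENNReal.ofReal (rr k ^ 2) ^ (1 / 2 - 1 / m))
        * (∫⁻ t in A, Nq q u j t ^ (m / q)) ^ (1 / m) := by ring
    _ = _ := by
        rw [ENNReal.ofReal_rpow_of_nonneg (by positivity) hexp,
          ← ENNReal.ofReal_mul (by positivity), ← Real.rpow_natCast (rr k) 2,
          ← Real.rpow_mul hr.le, ← Real.rpow_add hr]
        have e2 : -(3 / q) + ((2 : ℕ) : ℝ) * (1 / 2 - 1 / m) = 0 := by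
          push_cast
          have : 3 / q = 1 - 2 * (1 / m) := by
            rw [mul_one_div]
            linarith
          rw [this]
          ring
        rw [e2, Real.rpow_zero, ENNReal.ofReal_one, one_mul]

/-- The sum of the norms in the critical class. -/
theorem sum_SN (h : Turb 1 T E D G u p) {q m : ℝ} (hq : 3 < q) (hm : 2 ≤ m)
    (hqm : 2 / m + 3 / q = 1) (j : Fin 3) (hY : ∫⁻ t in G, Nq q u j t ^ (m / q) ≠ ⊤)
    (c t₀ : ℝ) (k₁ n : ℕ) {κ : ℝ} (hκ0 : 0 ≤ κ)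
    (hκ : ∫⁻ t in Ioo (t₀ - rr k₁ ^ 2) t₀ ∩ G, Nq q u j t ^ (m / q) ≤ ENNReal.ofReal (κ ^ m)) :
    ∑ k ∈ Finset.Icc k₁ n, SN 1 q G u j c t₀ (rr k)
      ≤ ENNReal.ofReal (2 / (1 - (1 / 2) ^ (3 / q)) * ((n : ℝ) + 1) ^ (1 - 1 / m) * κ) := by
  have hq0 : 0 < q := by linarith
  have hm0 : 0 < m := by linarith
  set x : ℝ := (1 / 2) ^ (3 / q) with hx
  have hx0 : 0 < x := by positivity
  have hx1 : x < 1 := Real.rpow_lt_one (by norm_num) (by norm_num) (by positivity)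
  set I : ℕ → Set ℝ := fun k => Ioo (t₀ - rr k ^ 2) t₀ ∩ G with hI
  set J : ℕ → Set ℝ := fun k => Ioc (t₀ - rr k ^ 2) (t₀ - rr (k + 1) ^ 2) ∩ G with hJ
  have hIG : ∀ k, I k ⊆ G := fun k => inter_subset_right
  have hJG : ∀ k, J k ⊆ G := fun k => inter_subset_right
  have hrr : ∀ k, rr (k + 1) ^ 2 ≤ rr k ^ 2 := fun k =>
    pow_le_pow_left₀ (rr_pos _).le (rr_anti (Nat.le_succ k)) 2
  have hrp : ∀ k, 0 < rr k ^ 2 := fun k => by have := rr_pos k; positivity
  have hsub : ∀ k, I k ⊆ J k ∪ I (k + 1) := by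
    intro k t ht
    rcases le_or_gt t (t₀ - rr (k + 1) ^ 2) with h1 | h1
    · exact Or.inl ⟨⟨ht.1.1, h1⟩, ht.2⟩
    · exact Or.inr ⟨⟨h1, ht.1.2⟩, ht.2⟩
  have hsub' : ∀ k, J k ∪ I (k + 1) ⊆ I k := by
    intro k t ht
    rcases ht with ht | ht
    · exact ⟨⟨ht.1.1, ht.1.2.trans_lt (by linarith [hrp (k + 1)])⟩, ht.2⟩
    · exact ⟨⟨by linarith [ht.1.1, hrr k], ht.1.2⟩, ht.2⟩
  have hdisj : ∀ k, Disjoint (J k) (I (k + 1)) := by
    intro k
    rw [Set.disjoint_left]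
    intro t ht1 ht2
    exact absurd ht2.1.1 (not_lt.2 ht1.1.2)
  have hIm : ∀ k, MeasurableSet (I k) := fun k => measurableSet_Ioo.inter h.openG.measurableSet
  set Ye : ℕ → ℝ≥0∞ := fun k => ∫⁻ t in I k, Nq q u j t ^ (m / q) with hYe
  set Be : ℕ → ℝ≥0∞ := fun k => ∫⁻ t in J k, Nq q u j t ^ (m / q) with hBe
  have hYt : ∀ k, Ye k ≠ ⊤ := fun k => ne_top_of_le_ne_top hY (lintegral_mono_set (hIG k))
  have hBt : ∀ k, Be k ≠ ⊤ := fun k => ne_top_of_le_ne_top hY (lintegral_mono_set (hJG k))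
  set Ae : ℕ → ℝ≥0∞ := fun k => ENNReal.ofReal (rr k ^ (-(3 / q)))
    * (∫⁻ t in I k, Nq q u j t ^ (2 / q)) ^ (1 / 2 : ℝ) with hAe
  have hAY : ∀ k, Ae k ≤ Ye k ^ (1 / m) := by
    intro k
    refine win_le h hq hm hqm j k (hIG k) ?_
    refine (measure_mono inter_subset_left).trans ?_
    rw [Real.volume_Ioo]
    exact ENNReal.ofReal_le_ofReal (by linarith)
  have hYmt : ∀ k, Ye k ^ (1 / m) ≠ ⊤ := fun k =>
    ENNReal.rpow_ne_top_of_nonneg (by positivity) (hYt k)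
  have hAt : ∀ k, Ae k ≠ ⊤ := fun k => ne_top_of_le_ne_top (hYmt k) (hAY k)
  have hABe : ∀ k, Ae k ≤ Be k ^ (1 / m) + ENNReal.ofReal x * Ae (k + 1) := by
    intro k
    have hr := rr_pos k
    have h1 : (∫⁻ t in I k, Nq q u j t ^ (2 / q)) ^ (1 / 2 : ℝ)
        ≤ (∫⁻ t in J k, Nq q u j t ^ (2 / q)) ^ (1 / 2 : ℝ)
          + (∫⁻ t in I (k + 1), Nq q u j t ^ (2 / q)) ^ (1 / 2 : ℝ) := by
      refine le_trans (ENNReal.rpow_le_rpow ((lintegral_mono_set (hsub k)).trans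
        (lintegral_union_le _ _ _)) (by norm_num)) ?_
      exact ENNReal.rpow_add_le_add_rpow _ _ (by norm_num) (by norm_num)
    have h2 : ENNReal.ofReal (rr k ^ (-(3 / q))) * (∫⁻ t in J k, Nq q u j t ^ (2 / q)) ^ (1 / 2 : ℝ)
        ≤ Be k ^ (1 / m) := by
      refine win_le h hq hm hqm j k (hJG k) ?_
      refine (measure_mono inter_subset_left).trans ?_
      rw [Real.volume_Ioc]
      exact ENNReal.ofReal_le_ofReal (by linarith [hrp (k + 1)])
    have e3 : ENNReal.ofReal (rr k ^ (-(3 / q)))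
        = ENNReal.ofReal x * ENNReal.ofReal (rr (k + 1) ^ (-(3 / q))) := by
      rw [← ENNReal.ofReal_mul hx0.le]
      congr 1
      have e4 : rr (k + 1) = (1 / 2) * rr k := by rw [rr_succ]; ring
      rw [e4, Real.mul_rpow (by norm_num) hr.le, hx, ← mul_assoc, ← Real.rpow_add (by norm_num),
        add_neg_cancel, Real.rpow_zero, one_mul]
    calc Ae k ≤ ENNReal.ofReal (rr k ^ (-(3 / q)))
          * ((∫⁻ t in J k, Nq q u j t ^ (2 / q)) ^ (1 / 2 : ℝ)
          + (∫⁻ t in I (k + 1), Nq q u j t ^ (2 / q)) ^ (1 / 2 : ℝ)) := mul_le_mul' le_rfl h1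
      _ = ENNReal.ofReal (rr k ^ (-(3 / q))) * (∫⁻ t in J k, Nq q u j t ^ (2 / q)) ^ (1 / 2 : ℝ)
          + ENNReal.ofReal (rr k ^ (-(3 / q)))
            * (∫⁻ t in I (k + 1), Nq q u j t ^ (2 / q)) ^ (1 / 2 : ℝ) := mul_add _ _ _
      _ ≤ _ := by
          refine add_le_add h2 (le_of_eq ?_)
          rw [e3, hAe]
          ring
  have hBY : ∀ k, Be k + Ye (k + 1) ≤ Ye k := by
    intro k
    rw [hBe, hYe]
    simp only
    rw [← lintegral_union (hIm (k + 1)) (hdisj k)]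
    exact lintegral_mono_set (hsub' k)
  have hBmt : ∀ k, Be k ^ (1 / m) ≠ ⊤ := fun k =>
    ENNReal.rpow_ne_top_of_nonneg (by positivity) (hBt k)
  have hreal := sum_real hx0 hx1 hm k₁ (fun k => (Ae k).toReal) (fun k => (Be k ^ (1 / m)).toReal)
    (fun k => (Ye k).toReal) (fun k => ENNReal.toReal_nonneg) (fun k => ENNReal.toReal_nonneg)
    (fun k => ENNReal.toReal_nonneg) (by
      intro k
      have h1 := ENNReal.toReal_mono (ENNReal.add_ne_top.2 ⟨hBmt k,
        ENNReal.mul_ne_top ENNReal.ofReal_ne_top (hAt (k + 1))⟩) (hABe k)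
      rw [ENNReal.toReal_add (hBmt k) (ENNReal.mul_ne_top ENNReal.ofReal_ne_top (hAt (k + 1))),
        ENNReal.toReal_mul (a := ENNReal.ofReal x), ENNReal.toReal_ofReal hx0.le] at h1
      exact h1) (by
      intro k
      have h1 := ENNReal.toReal_mono (hYmt k) (hAY k)
      rw [← ENNReal.toReal_rpow] at h1
      exact h1) (by
      intro k
      have h1 := ENNReal.toReal_mono (hYt k) (hBY k)
      rw [ENNReal.toReal_add (hBt k) (hYt (k + 1))] at h1
      rw [ENNReal.toReal_rpow, ← ENNReal.rpow_mul, one_div_mul_cancel hm0.ne', ENNReal.rpow_one]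
      exact h1) n
  have hyκ : (Ye k₁).toReal ^ (1 / m) ≤ κ := by
    have h1 : (Ye k₁).toReal ≤ κ ^ m := ENNReal.toReal_le_of_le_ofReal (by positivity) hκ
    calc (Ye k₁).toReal ^ (1 / m) ≤ (κ ^ m) ^ (1 / m) :=
          Real.rpow_le_rpow ENNReal.toReal_nonneg h1 (by positivity)
      _ = κ := by rw [← Real.rpow_mul hκ0, mul_one_div_cancel hm0.ne', Real.rpow_one]
  calc ∑ k ∈ Finset.Icc k₁ n, SN 1 q G u j c t₀ (rr k)
      ≤ ∑ k ∈ Finset.Icc k₁ n, Ae k := by
        refine Finset.sum_le_sum fun k _ => ?_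
        unfold SN
        refine mul_le_mul' le_rfl (ENNReal.rpow_le_rpow ?_ (by norm_num))
        rw [div_one]
        refine lintegral_mono fun t => ?_
        refine ENNReal.rpow_le_rpow ?_ (by positivity)
        unfold Nq
        exact lintegral_mono_set inter_subset_left
    _ = ENNReal.ofReal (∑ k ∈ Finset.Icc k₁ n, (Ae k).toReal) := by
        rw [ENNReal.ofReal_sum_of_nonneg fun k _ => ENNReal.toReal_nonneg]
        exact Finset.sum_congr rfl fun k _ => (ENNReal.ofReal_toReal (hAt k)).symm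
    _ ≤ _ := by
        apply ENNReal.ofReal_le_ofReal
        refine hreal.trans ?_
        have : 0 < 1 - x := by linarith
        gcongr

end

end Pool.Agent.Helper30K1
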