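import Pool.Agent.Helper30K1.Wdiv

/-!
One velocity component (helper30): the flux integrated in time.
-/

set_option autoImplicit false

open MeasureTheory Set Metric Filter Topology
open scoped ContDiff ENNReal

namespace Pool.Agent.Helper30K1

open H459R3.NS W221.NS Pool.Agent.Y8

/-- Measurability in time. -/
theorem meas_int {G : Set ℝ} (hG : MeasurableSet G) {f : ℝ → V → ℝ}
    (hf : ContinuousOn (fun z : ℝ × V => f z.1 z.2) (G ×ˢ univ)) {Φ : ℝ → ℝ≥0∞}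
    (hΦ : Measurable Φ) {S : Set V} (hS : MeasurableSet S) :
    AEMeasurable (fun t => ∫⁻ x in S, Φ (f t x)) (volume.restrict G) := by
  have h1 : AEMeasurable (fun z : ℝ × V => f z.1 z.2)
      ((volume.restrict G).prod (volume.restrict S)) := by
    rw [Measure.prod_restrict]
    exact (hf.mono (prod_mono subset_rfl (subset_univ S))).aemeasurable (hG.prod hS)
  exact (hΦ.comp_aemeasurable h1).lintegral_prod_right'

/-- The time windows. -/
def Iw (G : Set ℝ) (s₁ t₀ : ℝ) (m : ℕ) : Set ℝ := Ioo (max s₁ (t₀ - rr m ^ 2)) t₀ ∩ G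

theorem Iw_anti {G : Set ℝ} {s₁ t₀ : ℝ} {l m : ℕ} (h : l ≤ m) : Iw G s₁ t₀ m ⊆ Iw G s₁ t₀ l := by
  unfold Iw
  refine inter_subset_inter_left _ (Ioo_subset_Ioo_left ?_)
  have h1 : rr m ^ 2 ≤ rr l ^ 2 := pow_le_pow_left₀ (rr_pos m).le (rr_anti h) 2
  exact max_le_max le_rfl (by linarith)

theorem Iw_meas {G : Set ℝ} (hG : IsOpen G) (s₁ t₀ : ℝ) (m : ℕ) :
    MeasurableSet (Iw G s₁ t₀ m) := measurableSet_Ioo.inter hG.measurableSet

theorem Iw_vol (G : Set ℝ) (s₁ t₀ : ℝ) (m : ℕ) :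
    volume (Iw G s₁ t₀ m) ≤ ENNReal.ofReal (rr m ^ 2) := by
  refine (measure_mono (inter_subset_left.trans (Ioo_subset_Ioo_left (le_max_right _ _)))).trans ?_
  rw [Real.volume_Ioo]
  exact ENNReal.ofReal_le_ofReal (by linarith)

/-- The norm of the component over a window. -/
noncomputable def Nn (q : ℝ) (G : Set ℝ) (u : ℝ → V → V) (j : Fin 3) (c s₁ t₀ : ℝ) (m : ℕ) : ℝ≥0∞ :=
  (∫⁻ t in Iw G s₁ t₀ m, Nb q (u t) j c (rr m) ^ (2 : ℝ)) ^ (1 / 2 : ℝ)

/-- The scale invariant norm. -/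
noncomputable def am (q : ℝ) (G : Set ℝ) (u : ℝ → V → V) (j : Fin 3) (c s₁ t₀ : ℝ) (m : ℕ) : ℝ≥0∞ :=
  ENNReal.ofReal (rr m ^ (-(3 / q))) * Nn q G u j c s₁ t₀ m

/-- The scale invariant energy. -/
noncomputable def em (G : Set ℝ) (u : ℝ → V → V) (j : Fin 3) (c s₁ t₀ : ℝ) (m : ℕ) : ℝ≥0∞ :=
  ENNReal.ofReal (rr m)⁻¹ * ((⨆ t ∈ Iw G s₁ t₀ m, Ab (u t) j c (rr m))
    + ∫⁻ t in Iw G s₁ t₀ m, Bb (u t) j c (rr m))

theorem cancel_r {r : ℝ} (hr : 0 < r) (x : ℝ≥0∞) :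
    ENNReal.ofReal r * (ENNReal.ofReal r⁻¹ * x) = x := by
  rw [← mul_assoc, ← ENNReal.ofReal_mul hr.le, mul_inv_cancel₀ hr.ne', ENNReal.ofReal_one, one_mul]

theorem em_A {G : Set ℝ} {u : ℝ → V → V} {j : Fin 3} {c s₁ t₀ : ℝ} {m : ℕ} {t : ℝ}
    (ht : t ∈ Iw G s₁ t₀ m) :
    Ab (u t) j c (rr m) ≤ ENNReal.ofReal (rr m) * em G u j c s₁ t₀ m := by
  unfold em
  rw [cancel_r (rr_pos m)]
  exact (le_iSup₂ (f := fun t (_ : t ∈ Iw G s₁ t₀ m) => Ab (u t) j c (rr m)) t ht).trans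
    le_self_add

theorem em_B {G : Set ℝ} {u : ℝ → V → V} {j : Fin 3} {c s₁ t₀ : ℝ} {m : ℕ} :
    ∫⁻ t in Iw G s₁ t₀ m, Bb (u t) j c (rr m) ≤ ENNReal.ofReal (rr m) * em G u j c s₁ t₀ m := by
  unfold em
  rw [cancel_r (rr_pos m)]
  exact le_add_self

section

variable {T E D : ℝ} {G : Set ℝ} {u : ℝ → V → V} {p : ℝ → V → ℝ}

theorem Nb_meas (h : Turb 1 T E D G u p) {q : ℝ} (_hq : 3 < q) (j : Fin 3) (c R : ℝ) {I : Set ℝ}
    (hI : I ⊆ G) : AEMeasurable (fun t => Nb q (u t) j c R) (volume.restrict I) := by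
  have h1 : AEMeasurable (fun t => ∫⁻ x in cube ∩ Sb j c R, (fun s : ℝ => ‖s‖ₑ ^ q) (u t x j))
      (volume.restrict G) :=
    meas_int h.openG.measurableSet (f := fun t x => u t x j) (Φ := fun s : ℝ => ‖s‖ₑ ^ q)
      (comp_joint h.smooth_u j).continuousOn (by fun_prop) (cube_meas.inter (Sb_meas j c R))
  exact (h1.mono_measure (Measure.restrict_mono hI le_rfl)).pow_const _

theorem Ab_meas (h : Turb 1 T E D G u p) (j : Fin 3) (c R : ℝ) {I : Set ℝ}
    (hI : I ⊆ G) : AEMeasurable (fun t => Ab (u t) j c R) (volume.restrict I) := by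
  have h1 : AEMeasurable (fun t => ∫⁻ x in cube ∩ Sb j c R, ENNReal.ofReal (nsq (u t) x))
      (volume.restrict G) :=
    meas_int h.openG.measurableSet (f := fun t x => nsq (u t) x)
      (nsq_joint h.smooth_u).continuousOn ENNReal.measurable_ofReal
      (cube_meas.inter (Sb_meas j c R))
  exact h1.mono_measure (Measure.restrict_mono hI le_rfl)

theorem Bb_meas (h : Turb 1 T E D G u p) (j : Fin 3) (c R : ℝ) {I : Set ℝ}
    (hI : I ⊆ G) : AEMeasurable (fun t => Bb (u t) j c R) (volume.restrict I) := by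
  have h1 : AEMeasurable (fun t => ∫⁻ x in cube ∩ Sb j c R, ENNReal.ofReal (gsq (u t) x))
      (volume.restrict G) :=
    meas_int h.openG.measurableSet (f := fun t x => gsq (u t) x)
      (gsq_joint h.openG h.smooth_u).continuousOn ENNReal.measurable_ofReal
      (cube_meas.inter (Sb_meas j c R))
  exact h1.mono_measure (Measure.restrict_mono hI le_rfl)

/-- The integral of `H1`. -/
theorem H1_le {v : V → V} (hv : ContDiff ℝ ∞ v) (j : Fin 3) (c : ℝ) {R R' : ℝ} (hR : 0 < R) :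
    ∫⁻ y in cube ∩ Sb j c R', ENNReal.ofReal (H1 v R y)
      ≤ Ab v j c R' ^ (1 / 2 : ℝ) * Bb v j c R' ^ (1 / 2 : ℝ) + ENNReal.ofReal R⁻¹ * Ab v j c R' := by
  have hn := (nsq_sm hv).continuous
  have hg := gsq_ct hv
  have e1 : ∀ y, ENNReal.ofReal (H1 v R y) = ENNReal.ofReal (√(nsq v y)) * ENNReal.ofReal (√(gsq v y))
      + ENNReal.ofReal R⁻¹ * ENNReal.ofReal (nsq v y) := by
    intro y
    unfold H1
    have := nsq_nn v y
    rw [ENNReal.ofReal_add (by positivity) (by positivity), ENNReal.ofReal_mul (by positivity),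
      ENNReal.ofReal_mul (by positivity)]
  simp_rw [e1]
  have hm1 : Measurable fun y => ENNReal.ofReal (√(nsq v y)) := hn.sqrt.measurable.ennreal_ofReal
  have hm2 : Measurable fun y => ENNReal.ofReal (√(gsq v y)) := hg.sqrt.measurable.ennreal_ofReal
  rw [lintegral_add_left (f := fun y => ENNReal.ofReal (√(nsq v y)) * ENNReal.ofReal (√(gsq v y)))
    (hm1.mul hm2), lintegral_const_mul' _ _ ENNReal.ofReal_ne_top]
  refine add_le_add ?_ le_rfl
  have h2 := ENNReal.lintegral_mul_le_Lp_mul_Lq (volume.restrict (cube ∩ Sb j c R'))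
    Real.HolderConjugate.two_two hm1.aemeasurable hm2.aemeasurable
  refine h2.trans (le_of_eq ?_)
  have e2 : ∀ a : ℝ, 0 ≤ a → ENNReal.ofReal (√a) ^ (2 : ℝ) = ENNReal.ofReal a := by
    intro a ha
    rw [ENNReal.ofReal_rpow_of_nonneg (Real.sqrt_nonneg a) (by norm_num), Real.rpow_two,
      Real.sq_sqrt ha]
  unfold Ab Bb
  simp_rw [e2 _ (nsq_nn v _), e2 _ (gsq_nn v _)]

theorem energy_Ab (h : Turb 1 T E D G u p) {t : ℝ} (ht : t ∈ G) (j : Fin 3) (c R : ℝ) :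
    Ab (u t) j c R ≤ ENNReal.ofReal (E ^ 2) := by
  have hu := h.spv ht
  calc Ab (u t) j c R ≤ ∫⁻ x in cube, ENNReal.ofReal (nsq (u t) x) :=
        lintegral_mono_set inter_subset_left
    _ = ENNReal.ofReal (energy (u t)) := by
        rw [← cube_ofReal (nsq_sm hu.1).continuous (nsq_nn _), energy_eq hu.1]
    _ ≤ _ := ENNReal.ofReal_le_ofReal (h.energy_le t ht)

/-- The flux over a window. -/
noncomputable def Fw (G : Set ℝ) (u : ℝ → V → V) (p : ℝ → V → ℝ) (j : Fin 3) (c s₁ t₀ : ℝ)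
    (m : ℕ) : ℝ≥0∞ :=
  ∫⁻ t in Iw G s₁ t₀ m, ∫⁻ x in cube ∩ Sb j c (rr m),
    ‖u t x j‖ₑ * (ENNReal.ofReal (nsq (u t) x) + 2 * ‖pz (p t) x‖ₑ)

theorem Nb_int (h : Turb 1 T E D G u p) {q : ℝ} (hq : 3 < q) (j : Fin 3) (c s₁ t₀ : ℝ) (m : ℕ) :
    ∫⁻ t in Iw G s₁ t₀ m, Nb q (u t) j c (rr m)
      ≤ ENNReal.ofReal (rr m) * Nn q G u j c s₁ t₀ m := by
  have h2 := ENNReal.lintegral_mul_le_Lp_mul_Lq (volume.restrict (Iw G s₁ t₀ m))
    Real.HolderConjugate.two_two (f := fun _ => (1 : ℝ≥0∞)) (g := fun t => Nb q (u t) j c (rr m))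
    aemeasurable_const (Nb_meas h hq j c (rr m) inter_subset_right)
  have e1 : ∫⁻ t in Iw G s₁ t₀ m, Nb q (u t) j c (rr m)
      = ∫⁻ t in Iw G s₁ t₀ m, ((fun _ : ℝ => (1 : ℝ≥0∞)) * fun t => Nb q (u t) j c (rr m)) t := by
    refine lintegral_congr fun t => ?_
    simp
  rw [e1]
  refine h2.trans ?_
  unfold Nn
  simp only [ENNReal.one_rpow, lintegral_const, one_mul, MeasurableSet.univ,
    Measure.restrict_apply, univ_inter]
  gcongr
  calc volume (Iw G s₁ t₀ m) ^ (1 / 2 : ℝ) ≤ (ENNReal.ofReal (rr m ^ 2)) ^ (1 / 2 : ℝ) :=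
        ENNReal.rpow_le_rpow (Iw_vol G s₁ t₀ m) (by norm_num)
    _ = ENNReal.ofReal (rr m) := by
        rw [ENNReal.ofReal_rpow_of_nonneg (by positivity) (by norm_num), ← Real.sqrt_eq_rpow,
          Real.sqrt_sq (rr_pos m).le]

theorem Nb_B_int (h : Turb 1 T E D G u p) {q : ℝ} (hq : 3 < q) (j : Fin 3) (c s₁ t₀ : ℝ)
    (l m : ℕ) : ∫⁻ t in Iw G s₁ t₀ m, Nb q (u t) j c (rr m) * Bb (u t) j c (rr l) ^ (1 / 2 : ℝ)
      ≤ Nn q G u j c s₁ t₀ m * (∫⁻ t in Iw G s₁ t₀ m, Bb (u t) j c (rr l)) ^ (1 / 2 : ℝ) := by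
  have h2 := ENNReal.lintegral_mul_le_Lp_mul_Lq (volume.restrict (Iw G s₁ t₀ m))
    Real.HolderConjugate.two_two (f := fun t => Nb q (u t) j c (rr m))
    (g := fun t => Bb (u t) j c (rr l) ^ (1 / 2 : ℝ))
    (Nb_meas h hq j c (rr m) inter_subset_right)
    ((Bb_meas h j c (rr l) inter_subset_right).pow_const _)
  refine h2.trans (le_of_eq ?_)
  unfold Nn
  congr 2
  refine lintegral_congr fun t => ?_
  rw [← ENNReal.rpow_mul]
  norm_num

theorem geo_sum {x : ℝ} (hx : 1 < x) (l : ℕ) :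
    ∑ i ∈ Finset.range (l + 1), x ^ i ≤ (x - 1)⁻¹ * x ^ (l + 2) := by
  rw [geom_sum_eq hx.ne', div_eq_inv_mul]
  have h1 : 0 < x - 1 := by linarith
  gcongr
  have h2 : x ^ (l + 1) ≤ x ^ (l + 2) := pow_le_pow_right₀ hx.le (by omega)
  linarith

theorem rr_rpow {q : ℝ} (_hq : 3 < q) (i : ℕ) : rr i ^ (-(2 / q)) = ((2 : ℝ) ^ (2 / q)) ^ i := by
  unfold rr
  rw [← Real.rpow_natCast, ← Real.rpow_mul (by norm_num), ← Real.rpow_natCast,
    ← Real.rpow_mul (by norm_num), one_div, Real.inv_rpow (by norm_num),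
    ← Real.rpow_neg (by norm_num)]
  congr 1
  ring

/-- The flux over a window is controlled by the scale invariant quantities. -/
theorem flux_w {q : ℝ} (hq : 3 < q) : ∃ C : ℝ, 0 < C ∧ ∀ (T E D : ℝ) (G : Set ℝ) (u : ℝ → V → V)
    (p : ℝ → V → ℝ), Turb 1 T E D G u p → ∀ (j : Fin 3) (c s₁ t₀ : ℝ) (l : ℕ) (P : ℝ≥0∞),
      (∀ i ≤ l, em G u j c s₁ t₀ i ≤ P) →
      Fw G u p j c s₁ t₀ (l + 2) ≤ ENNReal.ofReal C * (ENNReal.ofReal (rr (l + 2) ^ 2)
        * (am q G u j c s₁ t₀ (l + 2) * (P + ENNReal.ofReal (E ^ 2)))) := by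
  obtain ⟨C0, hC0, hf⟩ := flux0 hq
  set x : ℝ := (2 : ℝ) ^ (2 / q) with hx
  have hx1 : 1 < x := Real.one_lt_rpow (by norm_num) (by positivity)
  have hx0 : 0 < x - 1 := by linarith
  refine ⟨C0 * (8 + (x - 1)⁻¹ + 1), by positivity,
    fun T E D G u p h j c s₁ t₀ l P hP => ?_⟩
  set m := l + 2 with hm
  set R := rr m with hR
  have hR0 : 0 < R := rr_pos m
  have hR1 : R ≤ 1 := by
    rw [hR, ← rr_zero]
    exact rr_anti (Nat.zero_le _)
  have hRl : 4 * R = rr l := by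
    rw [hR, hm, show l + 2 = l + 1 + 1 by ring, rr_succ, rr_succ]
    ring
  set N := Nn q G u j c s₁ t₀ m with hN
  set I := Iw G s₁ t₀ m with hI
  have hIG : I ⊆ G := inter_subset_right
  have hIm : MeasurableSet I := Iw_meas h.openG s₁ t₀ m
  have hNm := Nb_meas h hq j c R hIG
  have hNint := Nb_int h hq j c s₁ t₀ m
  -- pointwise in time
  have hpt : ∀ t ∈ I, ∫⁻ x in cube ∩ Sb j c R,
      ‖u t x j‖ₑ * (ENNReal.ofReal (nsq (u t) x) + 2 * ‖pz (p t) x‖ₑ)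
      ≤ ENNReal.ofReal C0 * (
        ENNReal.ofReal (R ^ (1 - 3 / q)) * ((ENNReal.ofReal (rr l) * P) ^ (1 / 2 : ℝ)
          * (Nb q (u t) j c R * Bb (u t) j c (rr l) ^ (1 / 2 : ℝ)))
        + ENNReal.ofReal (R ^ (1 - 3 / q)) * (ENNReal.ofReal R⁻¹ * (ENNReal.ofReal (rr l) * P))
          * Nb q (u t) j c R
        + (∑ i ∈ Finset.range (l + 1), ENNReal.ofReal (R ^ (1 - 1 / q) * rr i ^ (-1 - 2 / q))
          * (ENNReal.ofReal (rr i) * P)) * Nb q (u t) j c R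
        + ENNReal.ofReal (R ^ (1 - 1 / q)) * ENNReal.ofReal (E ^ 2) * Nb q (u t) j c R) := by
    intro t ht
    have htG := hIG ht
    have hu := h.spv htG
    have hA : ∀ i ≤ l, Ab (u t) j c (rr i) ≤ ENNReal.ofReal (rr i) * P := by
      intro i hi
      refine (em_A (Iw_anti (by omega) ht)).trans ?_
      gcongr
      exact hP i hi
    have h1 := hf (u t) (p t) hu (h.divfree t htG) (h.sp htG) (wdiv T E D G u p h t htG) j c (l + 1)
    rw [show l + 1 + 1 = m from rfl, ← hR, hRl] at h1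
    refine h1.trans ?_
    have h2 := H1_le hu.1 j c (R' := rr l) hR0
    calc ENNReal.ofReal C0 * (Nb q (u t) j c R
          * (ENNReal.ofReal (R ^ (1 - 3 / q))
            * (∫⁻ y in cube ∩ Sb j c (rr l), ENNReal.ofReal (H1 (u t) R y))
          + (∑ i ∈ Finset.range (l + 1),
            ENNReal.ofReal (R ^ (1 - 1 / q) * rr i ^ (-1 - 2 / q)) * Ab (u t) j c (rr i))
          + ENNReal.ofReal (R ^ (1 - 1 / q)) * ENNReal.ofReal (energy (u t))))
        ≤ ENNReal.ofReal C0 * (Nb q (u t) j c R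
          * (ENNReal.ofReal (R ^ (1 - 3 / q))
            * ((ENNReal.ofReal (rr l) * P) ^ (1 / 2 : ℝ) * Bb (u t) j c (rr l) ^ (1 / 2 : ℝ)
              + ENNReal.ofReal R⁻¹ * (ENNReal.ofReal (rr l) * P))
          + (∑ i ∈ Finset.range (l + 1),
            ENNReal.ofReal (R ^ (1 - 1 / q) * rr i ^ (-1 - 2 / q)) * (ENNReal.ofReal (rr i) * P))
          + ENNReal.ofReal (R ^ (1 - 1 / q)) * ENNReal.ofReal (E ^ 2))) := by
          have h3 := hA l le_rfl
          refine mul_le_mul' le_rfl (mul_le_mul' le_rfl (add_le_add (add_le_add (mul_le_mul' le_rfl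
            (h2.trans (add_le_add (mul_le_mul' (ENNReal.rpow_le_rpow h3 (by norm_num)) le_rfl)
              (mul_le_mul' le_rfl h3)))) (Finset.sum_le_sum fun i hi => mul_le_mul' le_rfl
                (hA i (by have := Finset.mem_range.1 hi; omega)))) (mul_le_mul' le_rfl
                  (ENNReal.ofReal_le_ofReal (h.energy_le t htG)))))
      _ = _ := by ring
  have hB : ∫⁻ t in I, Bb (u t) j c (rr l) ≤ ENNReal.ofReal (rr l) * P := by
    refine (lintegral_mono_set (Iw_anti (by omega))).trans (em_B.trans ?_)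
    gcongr
    exact hP l le_rfl
  unfold Fw
  rw [← hR, ← hI]
  refine (setLIntegral_mono' hIm hpt).trans ?_
  have hNBm : AEMeasurable (fun t => Nb q (u t) j c R * Bb (u t) j c (rr l) ^ (1 / 2 : ℝ))
      (volume.restrict I) := hNm.mul ((Bb_meas h j c (rr l) hIG).pow_const _)
  rw [lintegral_const_mul' _ _ ENNReal.ofReal_ne_top,
    lintegral_add_left' (by fun_prop), lintegral_add_left' (by fun_prop),
    lintegral_add_left' (by fun_prop), lintegral_const_mul'' _ (by fun_prop),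
    lintegral_const_mul'' _ hNBm, lintegral_const_mul'' _ hNm, lintegral_const_mul'' _ hNm,
    lintegral_const_mul'' _ hNm]
  set a := ENNReal.ofReal (rr l) * P with ha
  -- the first term
  have c1 : a ^ (1 / 2 : ℝ) * ∫⁻ t in I, Nb q (u t) j c R * Bb (u t) j c (rr l) ^ (1 / 2 : ℝ)
      ≤ a * N := by
    calc a ^ (1 / 2 : ℝ) * ∫⁻ t in I, Nb q (u t) j c R * Bb (u t) j c (rr l) ^ (1 / 2 : ℝ)
        ≤ a ^ (1 / 2 : ℝ) * (N * a ^ (1 / 2 : ℝ)) := by
          refine mul_le_mul' le_rfl ((Nb_B_int h hq j c s₁ t₀ l m).trans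
            (mul_le_mul' le_rfl (ENNReal.rpow_le_rpow hB (by norm_num))))
      _ = (a ^ (1 / 2 : ℝ) * a ^ (1 / 2 : ℝ)) * N := by ring
      _ = a * N := by
          rw [← ENNReal.rpow_add_of_nonneg _ _ (by norm_num) (by norm_num)]
          norm_num
  have hint : ∫⁻ t in I, Nb q (u t) j c R ≤ ENNReal.ofReal R * N := hNint
  have hpR : ∀ y : ℝ, ENNReal.ofReal (R ^ y) * ENNReal.ofReal R = ENNReal.ofReal (R ^ (y + 1)) := by
    intro y
    rw [← ENNReal.ofReal_mul (by positivity), Real.rpow_add hR0, Real.rpow_one]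
  have hR23 : ENNReal.ofReal (R ^ (2 - 3 / q)) * N
      = ENNReal.ofReal (R ^ 2) * am q G u j c s₁ t₀ m := by
    unfold am
    rw [← mul_assoc, ← ENNReal.ofReal_mul (by positivity), ← hR, ← hN]
    congr 2
    rw [← Real.rpow_natCast, ← Real.rpow_add hR0]
    congr 1
  -- the four terms
  have d1 : ENNReal.ofReal (R ^ (1 - 3 / q)) * (a * N)
      = ENNReal.ofReal 4 * (ENNReal.ofReal (R ^ (2 - 3 / q)) * N) * P := by
    rw [ha, ← hRl, ENNReal.ofReal_mul (p := 4) (by norm_num)]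
    have := hpR (1 - 3 / q)
    rw [show 1 - 3 / q + 1 = 2 - 3 / q by ring] at this
    rw [← this]
    ring
  have d2 : ENNReal.ofReal (R ^ (1 - 3 / q)) * (ENNReal.ofReal R⁻¹ * a) * (ENNReal.ofReal R * N)
      = ENNReal.ofReal 4 * (ENNReal.ofReal (R ^ (2 - 3 / q)) * N) * P := by
    rw [ha, ← hRl, ENNReal.ofReal_mul (p := 4) (by norm_num)]
    have e9 := hpR (1 - 3 / q)
    rw [show 1 - 3 / q + 1 = 2 - 3 / q by ring] at e9
    rw [← e9]
    have e10 : ENNReal.ofReal R⁻¹ * ENNReal.ofReal R = 1 := by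
      rw [← ENNReal.ofReal_mul (by positivity), inv_mul_cancel₀ hR0.ne', ENNReal.ofReal_one]
    calc ENNReal.ofReal (R ^ (1 - 3 / q)) * (ENNReal.ofReal R⁻¹
          * (ENNReal.ofReal 4 * ENNReal.ofReal R * P)) * (ENNReal.ofReal R * N)
        = (ENNReal.ofReal R⁻¹ * ENNReal.ofReal R) * (ENNReal.ofReal 4
          * (ENNReal.ofReal (R ^ (1 - 3 / q)) * ENNReal.ofReal R * N) * P) := by ring
      _ = _ := by rw [e10, one_mul]
  have d3 : (∑ i ∈ Finset.range (l + 1), ENNReal.ofReal (R ^ (1 - 1 / q) * rr i ^ (-1 - 2 / q))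
        * (ENNReal.ofReal (rr i) * P)) * (ENNReal.ofReal R * N)
      ≤ ENNReal.ofReal (x - 1)⁻¹ * (ENNReal.ofReal (R ^ (2 - 3 / q)) * N) * P := by
    have e1 : ∀ i, ENNReal.ofReal (R ^ (1 - 1 / q) * rr i ^ (-1 - 2 / q))
        * (ENNReal.ofReal (rr i) * P) = ENNReal.ofReal (R ^ (1 - 1 / q)) * P
          * ENNReal.ofReal (x ^ i) := by
      intro i
      have hri := rr_pos i
      rw [← mul_assoc, ← ENNReal.ofReal_mul (by positivity)]
      have e2 : R ^ (1 - 1 / q) * rr i ^ (-1 - 2 / q) * rr i = R ^ (1 - 1 / q) * x ^ i := by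
        rw [hx, ← rr_rpow hq i, mul_assoc, ← Real.rpow_add_one hri.ne']
        congr 2
        ring
      rw [e2, ENNReal.ofReal_mul (by positivity)]
      ring
    simp_rw [e1]
    rw [← Finset.mul_sum, ← ENNReal.ofReal_sum_of_nonneg fun i _ => by positivity]
    have e3 : ENNReal.ofReal (∑ i ∈ Finset.range (l + 1), x ^ i)
        ≤ ENNReal.ofReal (x - 1)⁻¹ * ENNReal.ofReal (R ^ (-(2 / q))) := by
      rw [← ENNReal.ofReal_mul (by positivity), hR, rr_rpow hq m]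
      exact ENNReal.ofReal_le_ofReal (geo_sum hx1 l)
    calc ENNReal.ofReal (R ^ (1 - 1 / q)) * P * ENNReal.ofReal (∑ i ∈ Finset.range (l + 1), x ^ i)
          * (ENNReal.ofReal R * N)
        ≤ ENNReal.ofReal (R ^ (1 - 1 / q)) * P * (ENNReal.ofReal (x - 1)⁻¹
          * ENNReal.ofReal (R ^ (-(2 / q)))) * (ENNReal.ofReal R * N) := by gcongr
      _ = ENNReal.ofReal (x - 1)⁻¹ * ((ENNReal.ofReal (R ^ (1 - 1 / q)) * ENNReal.ofReal R
          * ENNReal.ofReal (R ^ (-(2 / q)))) * N) * P := by ring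
      _ = _ := by
          rw [hpR, ← ENNReal.ofReal_mul (by positivity), ← Real.rpow_add hR0]
          congr 5
          ring
  have d4 : ENNReal.ofReal (R ^ (1 - 1 / q)) * ENNReal.ofReal (E ^ 2) * (ENNReal.ofReal R * N)
      ≤ (ENNReal.ofReal (R ^ (2 - 3 / q)) * N) * ENNReal.ofReal (E ^ 2) := by
    calc ENNReal.ofReal (R ^ (1 - 1 / q)) * ENNReal.ofReal (E ^ 2) * (ENNReal.ofReal R * N)
        = (ENNReal.ofReal (R ^ (1 - 1 / q)) * ENNReal.ofReal R) * N * ENNReal.ofReal (E ^ 2) := by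
          ring
      _ ≤ _ := by
          rw [hpR]
          gcongr ENNReal.ofReal ?_ * _ * _
          refine Real.rpow_le_rpow_of_exponent_ge hR0 hR1 ?_
          have : 1 / q ≤ 3 / q := by gcongr; norm_num
          linarith
  calc ENNReal.ofReal C0 * (ENNReal.ofReal (R ^ (1 - 3 / q)) * (a ^ (1 / 2 : ℝ)
          * ∫⁻ t in I, Nb q (u t) j c R * Bb (u t) j c (rr l) ^ (1 / 2 : ℝ))
        + ENNReal.ofReal (R ^ (1 - 3 / q)) * (ENNReal.ofReal R⁻¹ * a)
          * (∫⁻ t in I, Nb q (u t) j c R)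
        + (∑ i ∈ Finset.range (l + 1), ENNReal.ofReal (R ^ (1 - 1 / q) * rr i ^ (-1 - 2 / q))
          * (ENNReal.ofReal (rr i) * P)) * (∫⁻ t in I, Nb q (u t) j c R)
        + ENNReal.ofReal (R ^ (1 - 1 / q)) * ENNReal.ofReal (E ^ 2)
          * (∫⁻ t in I, Nb q (u t) j c R))
      ≤ ENNReal.ofReal C0 * (ENNReal.ofReal (R ^ (1 - 3 / q)) * (a * N)
        + ENNReal.ofReal (R ^ (1 - 3 / q)) * (ENNReal.ofReal R⁻¹ * a) * (ENNReal.ofReal R * N)
        + (∑ i ∈ Finset.range (l + 1), ENNReal.ofReal (R ^ (1 - 1 / q) * rr i ^ (-1 - 2 / q))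
          * (ENNReal.ofReal (rr i) * P)) * (ENNReal.ofReal R * N)
        + ENNReal.ofReal (R ^ (1 - 1 / q)) * ENNReal.ofReal (E ^ 2)
          * (ENNReal.ofReal R * N)) := by
        gcongr
    _ ≤ ENNReal.ofReal C0 * (ENNReal.ofReal 4 * (ENNReal.ofReal (R ^ (2 - 3 / q)) * N) * P
        + ENNReal.ofReal 4 * (ENNReal.ofReal (R ^ (2 - 3 / q)) * N) * P
        + ENNReal.ofReal (x - 1)⁻¹ * (ENNReal.ofReal (R ^ (2 - 3 / q)) * N) * P
        + (ENNReal.ofReal (R ^ (2 - 3 / q)) * N) * ENNReal.ofReal (E ^ 2)) := by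
        rw [d1, d2]
        gcongr
    _ = ENNReal.ofReal C0 * ((ENNReal.ofReal (R ^ (2 - 3 / q)) * N)
        * (ENNReal.ofReal (8 + (x - 1)⁻¹) * P + ENNReal.ofReal 1 * ENNReal.ofReal (E ^ 2))) := by
        rw [show (8 : ℝ) + (x - 1)⁻¹ = 4 + 4 + (x - 1)⁻¹ by ring,
          ENNReal.ofReal_add (by norm_num) (by positivity),
          ENNReal.ofReal_add (by norm_num) (by positivity), ENNReal.ofReal_one]
        ring
    _ ≤ ENNReal.ofReal C0 * ((ENNReal.ofReal (R ^ (2 - 3 / q)) * N)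
        * (ENNReal.ofReal (8 + (x - 1)⁻¹ + 1) * P
          + ENNReal.ofReal (8 + (x - 1)⁻¹ + 1) * ENNReal.ofReal (E ^ 2))) := by
        have h5 : 0 ≤ (x - 1)⁻¹ := by positivity
        have h6 : ENNReal.ofReal (8 + (x - 1)⁻¹) ≤ ENNReal.ofReal (8 + (x - 1)⁻¹ + 1) :=
          ENNReal.ofReal_le_ofReal (by linarith)
        have h7 : ENNReal.ofReal 1 ≤ ENNReal.ofReal (8 + (x - 1)⁻¹ + 1) :=
          ENNReal.ofReal_le_ofReal (by linarith)
        exact mul_le_mul' le_rfl (mul_le_mul' le_rfl (add_le_add (mul_le_mul' h6 le_rfl)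
          (mul_le_mul' h7 le_rfl)))
    _ = _ := by
        rw [hR23, ENNReal.ofReal_mul (p := C0) hC0.le]
        ring

end

end Pool.Agent.Helper30K1
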