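import Pool.Agent.Helper30K1.Cnt

/-!
One velocity component (helper30): uniform bounds of the slab energies; counting of slabs.
-/

set_option autoImplicit false

open MeasureTheory Set Metric Filter Topology
open scoped ContDiff ENNReal

namespace Pool.Agent.Helper30K1

open H459R3.NS W221.NS Pool.Agent.Y8

/-- Uniform bounds of the slab energies if the component is uniformly small at small scales. -/
theorem slU {q : ℝ} (hq : 3 < q) {B : ℝ} (hB : 1 < B) : ∃ κ : ℝ, 0 < κ ∧ ∀ (T E D : ℝ)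
    (G : Set ℝ) (u : ℝ → V → V) (p : ℝ → V → ℝ), Turb 1 T E D G u p → ∀ (j : Fin 3) (τ₁ : ℝ),
    0 < τ₁ → ∀ k₁ : ℕ, (∀ t₀ ∈ Icc τ₁ T, ∀ c : ℝ, ∀ k ≥ k₁,
      SN 1 q G u j c t₀ (rr k) ≤ ENNReal.ofReal κ) →
    ∃ (Z : ℝ) (n₀ : ℕ), 0 < Z ∧ SlU T G u j τ₁ Z B n₀ := by
  obtain ⟨κ, hκ, hgr⟩ := growth hq hB
  refine ⟨κ / 2, by positivity, ?_⟩
  intro T E D G u p h j τ₁ hτ₁ k₁ hsm
  obtain ⟨μ, hμ⟩ : ∃ μ, μ = min τ₁ 1 := ⟨_, rfl⟩
  have hμ0 : 0 < μ := by rw [hμ]; exact lt_min hτ₁ one_pos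
  have hμ1 : μ ≤ 1 := by rw [hμ]; exact min_le_right _ _
  have hμ2 : μ ≤ τ₁ := by rw [hμ]; exact min_le_left _ _
  obtain ⟨Z, hZ, hem⟩ := hgr T E D G u p h j (μ / 2) (by positivity) (k₁ + 2) (by omega)
  obtain ⟨n₀, hn₀⟩ : ∃ n₀ : ℕ, rr n₀ < μ / 2 := by
    unfold rr
    exact exists_pow_lt_of_lt_one (by positivity) (by norm_num)
  refine ⟨Z, n₀, hZ, ?_⟩
  intro t₀ ht₀ c n hn
  have hT : 0 < T := by linarith [ht₀.1, ht₀.2]
  -- the starting time
  obtain ⟨s₁, hs₁G, hs₁, hs₁1⟩ : ∃ s₁ ∈ G, μ / 2 ≤ t₀ - s₁ ∧ t₀ - s₁ ≤ 1 := by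
    have hyT : t₀ - 3 / 4 * μ ∈ Icc 0 T := ⟨by linarith [ht₀.1], by linarith [ht₀.2]⟩
    have h2 := dense_G hT h.fullG hyT
    rw [_root_.mem_closure_iff] at h2
    obtain ⟨s, hs, hs'⟩ := h2 (Ioo (t₀ - μ) (t₀ - μ / 2)) isOpen_Ioo
      ⟨by linarith, by linarith⟩
    exact ⟨s, hs'.2, by linarith [hs.2], by linarith [hs.1]⟩
  have hem' := hem c s₁ t₀ hs₁G hs₁ ht₀.2 hs₁1 (by
    intro m hm
    obtain ⟨k, rfl⟩ : ∃ k, m = k + 1 := ⟨m - 1, by omega⟩
    refine (am_le hq G h.openG u j c s₁ t₀ k).trans ?_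
    refine (mul_le_mul' le_rfl (hsm t₀ ht₀ c k (by omega))).trans (le_of_eq ?_)
    rw [show (2 : ℝ≥0∞) = ENNReal.ofReal 2 by norm_num, ← ENNReal.ofReal_mul (by norm_num)]
    congr 1
    ring) n
  have hrn := rr_pos n
  have hwin : rr n ^ 2 ≤ t₀ - s₁ := by
    have h1 := rr_anti hn
    have h2 := rr_le_one n
    nlinarith
  have hIw : Iw G s₁ t₀ n = Ioo (t₀ - rr n ^ 2) t₀ ∩ G := by
    unfold Iw
    rw [max_eq_right (by linarith)]
  constructor
  · intro t ht
    rw [← hIw] at ht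
    refine (em_A ht).trans ?_
    rw [mul_comm (Z * B ^ n), ENNReal.ofReal_mul hrn.le]
    exact mul_le_mul' le_rfl hem'
  · rw [← hIw]
    refine em_B.trans ?_
    rw [mul_comm (Z * B ^ n), ENNReal.ofReal_mul hrn.le]
    exact mul_le_mul' le_rfl hem'

/-- Minkowski's integral inequality for finite sums. -/
theorem mink {α ι : Type*} [MeasurableSpace α] (μ : Measure α) (F : Finset ι) (p : ℝ) (hp : 1 ≤ p)
    (f : ι → α → ℝ≥0∞) (hf : ∀ i ∈ F, AEMeasurable (f i) μ) :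
    ∑ i ∈ F, (∫⁻ a, f i a ∂μ) ^ p ≤ (∫⁻ a, (∑ i ∈ F, f i a ^ p) ^ (1 / p) ∂μ) ^ p := by
  classical
  have hp0 : 0 < p := by linarith
  rcases eq_or_lt_of_le hp with hp1 | hp1
  · subst hp1
    simp only [ENNReal.rpow_one, one_div, inv_one]
    rw [lintegral_finsetSum' _ hf]
  set I : ℝ≥0∞ := ∫⁻ a, (∑ i ∈ F, f i a ^ p) ^ (1 / p) ∂μ with hI
  by_cases hIt : I = ⊤
  · rw [hIt, ENNReal.top_rpow_of_pos hp0]
    exact le_top
  set c : ι → ℝ≥0∞ := fun i => ∫⁻ a, f i a ∂μ with hc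
  have hci : ∀ i ∈ F, c i ≠ ⊤ := by
    intro i hi
    refine ne_top_of_le_ne_top hIt ?_
    refine lintegral_mono fun a => ?_
    calc f i a = (f i a ^ p) ^ (1 / p) := by
          rw [← ENNReal.rpow_mul, mul_one_div_cancel hp0.ne', ENNReal.rpow_one]
      _ ≤ _ := by
          refine ENNReal.rpow_le_rpow ?_ (by positivity)
          exact Finset.single_le_sum (f := fun i => f i a ^ p) (fun _ _ => zero_le) hi
  set S : ℝ≥0∞ := ∑ i ∈ F, c i ^ p with hS
  have hSt : S ≠ ⊤ := ENNReal.sum_ne_top.2 fun i hi => ENNReal.rpow_ne_top_of_nonneg hp0.le (hci i hi)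
  by_cases hS0 : S = 0
  · rw [hS0]
    exact zero_le
  have hconj : (p / (p - 1)).HolderConjugate p := by
    have h1 : 0 < p - 1 := by linarith
    rw [Real.holderConjugate_comm, Real.holderConjugate_iff]
    refine ⟨hp1, ?_⟩
    field_simp
    ring
  have hp' : 0 < p - 1 := by linarith
  have key : S ≤ S ^ (1 - 1 / p) * I := by
    calc S = ∑ i ∈ F, c i ^ (p - 1) * c i := by
          refine Finset.sum_congr rfl fun i hi => ?_
          have h1 : c i ^ (p - 1) * c i = c i ^ (p - 1) * c i ^ (1 : ℝ) := by rw [ENNReal.rpow_one]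
          rw [h1, ← ENNReal.rpow_add_of_nonneg _ _ hp'.le zero_le_one]
          congr 1
          ring
      _ = ∑ i ∈ F, ∫⁻ a, c i ^ (p - 1) * f i a ∂μ := by
          refine Finset.sum_congr rfl fun i hi => ?_
          rw [lintegral_const_mul' _ _ (ENNReal.rpow_ne_top_of_nonneg hp'.le (hci i hi))]
      _ = ∫⁻ a, ∑ i ∈ F, c i ^ (p - 1) * f i a ∂μ := by
          rw [lintegral_finsetSum' _ fun i hi => (hf i hi).const_mul _]
      _ ≤ ∫⁻ a, S ^ (1 - 1 / p) * (∑ i ∈ F, f i a ^ p) ^ (1 / p) ∂μ := by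
          refine lintegral_mono fun a => ?_
          have h1 := ENNReal.inner_le_Lp_mul_Lq F (fun i => c i ^ (p - 1)) (fun i => f i a) hconj
          refine h1.trans (le_of_eq ?_)
          congr 1
          have h2 : ∀ i ∈ F, (c i ^ (p - 1)) ^ (p / (p - 1)) = c i ^ p := by
            intro i _
            rw [← ENNReal.rpow_mul]
            congr 1
            field_simp
          rw [Finset.sum_congr rfl h2]
          congr 1
          field_simp
      _ = S ^ (1 - 1 / p) * I :=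
          lintegral_const_mul' _ _ (ENNReal.rpow_ne_top_of_nonneg (by
            rw [sub_nonneg, div_le_one hp0]
            exact hp) hSt)
  have h3 : S ^ (1 / p) ≤ I := by
    have hA0 : S ^ (1 - 1 / p) ≠ 0 := by
      rw [Ne, ENNReal.rpow_eq_zero_iff, not_or]
      exact ⟨fun h => hS0 h.1, fun h => hSt h.1⟩
    have hAt : S ^ (1 - 1 / p) ≠ ⊤ := ENNReal.rpow_ne_top_of_nonneg (by
      rw [sub_nonneg, div_le_one hp0]
      exact hp) hSt
    have h4 : S ^ (1 - 1 / p) * S ^ (1 / p) ≤ S ^ (1 - 1 / p) * I := by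
      rw [← ENNReal.rpow_add _ _ hS0 hSt]
      simpa using key
    exact (ENNReal.mul_le_mul_iff_right hA0 hAt).1 h4
  calc S = (S ^ (1 / p)) ^ p := by
        rw [← ENNReal.rpow_mul, one_div_mul_cancel hp0.ne', ENNReal.rpow_one]
    _ ≤ I ^ p := ENNReal.rpow_le_rpow h3 hp0.le

open scoped Classical in
/-- Few slabs of the grid meet at a point. -/
theorem slab_overlap (j : Fin 3) (n : ℕ) (x : V) :
    ((Finset.range (2 ^ n)).filter
      fun l : ℕ => x ∈ Slab j ((l : ℝ) * rr n) (2 * rr n)).card ≤ 5 := by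
  have hr := rr_pos n
  have hrn : rr n * 2 ^ n = 1 := by
    unfold rr
    rw [← mul_pow]
    norm_num
  set y : ℝ := x j * 2 ^ n with hy
  have hex : ∀ l : ℕ, ∃ k : ℤ, x ∈ Slab j (l * rr n) (2 * rr n) →
      |y - l - k * 2 ^ n| < 2 := by
    intro l
    by_cases h : x ∈ Slab j (l * rr n) (2 * rr n)
    · obtain ⟨k, hk⟩ := h
      refine ⟨k, fun _ => ?_⟩
      have e1 : y - l - k * 2 ^ n = (x j - l * rr n - k) * 2 ^ n := by
        rw [hy]
        linear_combination (l : ℝ) * hrn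
      rw [e1, abs_mul, abs_of_pos (by positivity : (0 : ℝ) < 2 ^ n)]
      calc |x j - l * rr n - k| * 2 ^ n < 2 * rr n * 2 ^ n := by gcongr
        _ = 2 := by rw [mul_assoc, hrn, mul_one]
    · exact ⟨0, fun h' => absurd h' h⟩
  choose k hk using hex
  set L : ℕ → ℤ := fun l => l + k l * 2 ^ n with hL
  have hcard : ((Finset.range (2 ^ n)).filter
      fun l : ℕ => x ∈ Slab j ((l : ℝ) * rr n) (2 * rr n)).card
      ≤ (Finset.Icc (⌊y⌋ - 2) (⌊y⌋ + 2)).card := by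
    refine Finset.card_le_card_of_injOn L ?_ ?_
    · intro l hl
      have hl' := hk l (Finset.mem_filter.1 hl).2
      have e1 : y - l - k l * 2 ^ n = y - ((L l : ℤ) : ℝ) := by
        rw [hL]
        push_cast
        ring
      rw [e1, abs_lt] at hl'
      have h1 := Int.floor_le y
      have h2 := Int.lt_floor_add_one y
      have h3 : ((L l : ℤ) : ℝ) < ⌊y⌋ + 3 := by linarith
      have h4 : (⌊y⌋ : ℝ) - 2 - 1 < ((L l : ℤ) : ℝ) + 0 := by linarith
      have h5 : L l < ⌊y⌋ + 3 := by exact_mod_cast h3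
      have h6 : ⌊y⌋ - 2 ≤ L l := by
        have : ((⌊y⌋ : ℤ) : ℝ) - 2 < ((L l : ℤ) : ℝ) + 1 := by linarith
        have h7 : ⌊y⌋ - 2 < L l + 1 := by exact_mod_cast this
        omega
      exact Finset.mem_coe.2 (Finset.mem_Icc.2 ⟨h6, by omega⟩)
    · intro l hl l' hl' hll
      have h1 := Finset.mem_range.1 (Finset.mem_filter.1 hl).1
      have h2 := Finset.mem_range.1 (Finset.mem_filter.1 hl').1
      have h3 : (l : ℤ) + k l * 2 ^ n = l' + k l' * 2 ^ n := hll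
      have h4 : (l : ℤ) % 2 ^ n = (l' : ℤ) % 2 ^ n := by
        have := congrArg (· % (2 : ℤ) ^ n) h3
        simpa [Int.add_mul_emod_self_right] using this
      rw [Int.emod_eq_of_lt (by positivity) (by exact_mod_cast h1),
        Int.emod_eq_of_lt (by positivity) (by exact_mod_cast h2)] at h4
      exact_mod_cast h4
  refine hcard.trans ?_
  rw [Int.card_Icc]
  omega

end Pool.Agent.Helper30K1
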