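import Pool.Agent.Helper30K1.Fl2

/-!
One velocity component (helper30): the equation for the pressure at regular times.
-/

set_option autoImplicit false

open MeasureTheory Set Metric Filter Topology
open scoped ContDiff ENNReal

namespace Pool.Agent.Helper30K1

open H459R3.NS W221.NS Pool.Agent.Y8

/-- Mixed derivatives. -/
theorem dt_pd' {H : Set ℝ} (hH : IsOpen H) {f : ℝ → V → ℝ}
    (hf : ContDiffOn ℝ ∞ (fun z : ℝ × V => f z.1 z.2) (H ×ˢ univ)) {t : ℝ}
    (ht : t ∈ H) (j : Fin 3) (x : V) :
    deriv (fun s => pd j (f s) x) t = pd j (fun y => deriv (fun s => f s y) t) x := by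
  set F : ℝ × V → ℝ := fun z => f z.1 z.2 with hF
  have hmem : H ×ˢ (univ : Set V) ∈ 𝓝 (t, x) := (opH hH).mem_nhds ⟨ht, mem_univ _⟩
  have h2 : ContDiffAt ℝ 2 F (t, x) := (hf.contDiffAt hmem).of_le (by norm_cast)
  have hs : IsSymmSndFDerivAt ℝ F (t, x) := h2.isSymmSndFDerivAt (by simp)
  have hd : DifferentiableAt ℝ (fderiv ℝ F) (t, x) :=
    (h2.fderiv_right (m := 1) (by norm_num)).differentiableAt one_ne_zero
  -- left side
  have l1 : HasDerivAt (fun s => fderiv ℝ F (s, x) (0, Pi.single j 1))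
      (fderiv ℝ (fderiv ℝ F) (t, x) (1, 0) (0, Pi.single j 1)) t := by
    have a1 : HasFDerivAt (fun z => fderiv ℝ F z (0, Pi.single j 1)) _ (t, x) :=
      hd.hasFDerivAt.clm_apply (hasFDerivAt_const ((0, Pi.single j (1 : ℝ)) : ℝ × V) (t, x))
    have a2 : HasDerivAt (fun s : ℝ => ((s, x) : ℝ × V)) (1, 0) t :=
      (hasDerivAt_id t).prodMk (hasDerivAt_const t x)
    have a3 := a1.comp_hasDerivAt t a2
    refine a3.congr_deriv ?_
    simp
  have l2 : deriv (fun s => pd j (f s) x) t
      = fderiv ℝ (fderiv ℝ F) (t, x) (1, 0) (0, Pi.single j 1) := by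
    rw [← l1.deriv]
    apply Filter.EventuallyEq.deriv_eq
    filter_upwards [hH.mem_nhds ht] with s hs'
    exact pd_eq hH hf hs' x j
  -- right side
  have r1 : HasFDerivAt (fun y => fderiv ℝ F (t, y) (1, 0))
      (((ContinuousLinearMap.apply ℝ ℝ ((1, 0) : ℝ × V)).comp
        (fderiv ℝ (fderiv ℝ F) (t, x))).comp (ContinuousLinearMap.inr ℝ ℝ V)) x := by
    have a1 : HasFDerivAt (fun z => fderiv ℝ F z (1, 0))
        ((ContinuousLinearMap.apply ℝ ℝ ((1, 0) : ℝ × V)).comp
        (fderiv ℝ (fderiv ℝ F) (t, x))) (t, x) :=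
      (ContinuousLinearMap.apply ℝ ℝ ((1, 0) : ℝ × V)).hasFDerivAt.comp (t, x) hd.hasFDerivAt
    have a2 : HasFDerivAt (fun y : V => ((t, y) : ℝ × V)) (ContinuousLinearMap.inr ℝ ℝ V) x :=
      hasFDerivAt_prodMk_right t x
    exact a1.comp x a2
  have r2 : (fun y => deriv (fun s => f s y) t) = fun y => fderiv ℝ F (t, y) (1, 0) :=
    funext fun y => (dt_hd hH hf ht y).deriv
  rw [l2, r2]
  unfold pd
  rw [r1.fderiv]
  simp only [ContinuousLinearMap.comp_apply, ContinuousLinearMap.inr_apply,
    ContinuousLinearMap.apply_apply]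
  exact hs _ _

theorem pd_fsum {ι : Type*} {s : Finset ι} {f : ι → V → ℝ} (hf : ∀ i ∈ s, ContDiff ℝ ∞ (f i))
    (j : Fin 3) (x : V) : pd j (fun y => ∑ i ∈ s, f i y) x = ∑ i ∈ s, pd j (f i) x := by
  unfold pd
  rw [fderiv_fun_sum (fun i hi => (hf i hi).differentiable (by simp) x)]
  simp [sum_apply]

theorem wdiv : S_WDIV := by
  intro T E D G u p h t ht x
  have hu := h.spv ht
  have hp := h.sp ht
  have hsp : ∀ i, SP fun y => u t y i := fun i => ⟨contDiff_pi.1 hu.1 i, comp_per hu.2 i⟩
  have hcs : ∀ i, ContDiff ℝ ∞ fun y => u t y i := fun i => (hsp i).smooth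
  have hdiv := h.divfree t ht
  have hds : ∀ i, ContDiff ℝ ∞ fun y => deriv (fun s => u s y i) t := fun i =>
    sl_sm (F := fun t y => deriv (fun s => u s y i) t)
      (dt_joint (F := fun t y => u t y i) h.openG (comp_joint h.smooth_u i)) ht
  set a : Fin 3 → V → ℝ := fun i y => ∑ l, pd l (fun y => u t y i * u t y l) y with ha
  have hm : ∀ i l, ContDiff ℝ ∞ fun y => u t y i * u t y l := fun i l => (hcs i).mul (hcs l)
  have has : ∀ i, ContDiff ℝ ∞ (a i) := fun i =>
    ContDiff.sum fun l _ => Pool.Agent.W583.MD.sm_pd (hm i l) l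
  have hae : ∀ i y, ∑ j, u t y j * pd j (fun y => u t y i) y = a i y := by
    intro i y
    have e5 : ∀ l, pd l (fun y => u t y i * u t y l) y = u t y i * pd l (fun y => u t y l) y
      + pd l (fun y => u t y i) y * u t y l := fun l =>
        Pool.Agent.W583.MD.pd_mul' (hcs i) (hcs l) l y
    rw [ha]
    simp only
    simp_rw [e5]
    rw [Finset.sum_add_distrib, ← Finset.mul_sum, hdiv y, mul_zero, zero_add]
    exact Finset.sum_congr rfl fun l _ => mul_comm _ _
  have hpi : ∀ i, pd i (p t) = fun y => lap (fun y => u t y i) y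
      - (deriv (fun s => u s y i) t + a i y) := by
    intro i
    funext y
    have h1 := h.momentum t ht y i
    rw [hae, one_mul] at h1
    unfold lap
    linarith
  have hls : ∀ i, ContDiff ℝ ∞ (lap fun y => u t y i) := fun i => lap_sm (hcs i)
  have hpp : ∀ i, pd i (pd i (p t)) x = pd i (lap fun y => u t y i) x
      - (pd i (fun y => deriv (fun s => u s y i) t) x + pd i (a i) x) := by
    intro i
    rw [hpi]
    unfold pd
    rw [fderiv_fun_sub, fderiv_fun_add]
    · rfl
    · exact (hds i).differentiable (by simp) x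
    · exact (has i).differentiable (by simp) x
    · exact (hls i).differentiable (by simp) x
    · exact ((hds i).add (has i)).differentiable (by simp) x
  have h1 : ∑ i, pd i (lap fun y => u t y i) x = 0 :=
    div_lap (v := fun i y => u t y i) hsp hdiv x
  have h2 : ∑ i, pd i (fun y => deriv (fun s => u s y i) t) x = 0 := by
    have e1 : ∀ i, pd i (fun y => deriv (fun s => u s y i) t) x
        = deriv (fun s => pd i (fun y => u s y i) x) t := fun i =>
      (dt_pd' (f := fun t y => u t y i) h.openG (comp_joint h.smooth_u i) ht i x).symm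
    simp_rw [e1]
    have hdd : ∀ i, DifferentiableAt ℝ (fun s => pd i (fun y => u s y i) x) t := fun i =>
      (dt_hd' (F := fun s y => pd i (fun y => u s y i) y) h.openG
        (pd_joint (F := fun t y => u t y i) h.openG (comp_joint h.smooth_u i) i) ht
        x).differentiableAt
    rw [← deriv_fun_sum fun i _ => hdd i]
    have : (fun s => ∑ i, pd i (fun y => u s y i) x) =ᶠ[𝓝 t] fun _ => 0 := by
      filter_upwards [h.openG.mem_nhds ht] with s hs
      exact h.divfree s hs x
    rw [this.deriv_eq, deriv_const]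
  have h3 : ∑ i, pd i (a i) x = ddq (u t) x := by
    unfold ddq
    refine Finset.sum_congr rfl fun i _ => ?_
    rw [ha]
    simp only
    rw [pd_fsum fun l _ => Pool.Agent.W583.MD.sm_pd (hm i l) l]
  unfold lap
  rw [Finset.sum_congr rfl fun i _ => hpp i, Finset.sum_sub_distrib, Finset.sum_add_distrib, h1, h2,
    h3]
  ring

end Pool.Agent.Helper30K1
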