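import Pool.Agent.Helper30K1.Per
import Pool.Agent.Helper30K1.Lin

/-!
One velocity component (helper30): the weight concentrating on a plane.
-/

set_option autoImplicit false

open MeasureTheory Set Metric Filter Topology
open scoped ContDiff ENNReal

namespace Pool.Agent.Helper30K1

open H459R3.NS W221.NS Pool.Agent.Y8

theorem pd_coord {g g' : ℝ → ℝ} (hg : ∀ s, HasDerivAt g (g' s) s) (i j : Fin 3) (x : V) :
    pd i (fun y : V => g (y j)) x = if i = j then g' (x j) else 0 := by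
  have h1 : HasFDerivAt (fun y : V => y j) (ContinuousLinearMap.proj (R := ℝ)
      (φ := fun _ : Fin 3 => ℝ) j) x :=
    (ContinuousLinearMap.proj (R := ℝ) (φ := fun _ : Fin 3 => ℝ) j).hasFDerivAt
  have h2 := (hg (x j)).comp_hasFDerivAt x h1
  have h3 : HasFDerivAt (fun y : V => g (y j)) (g' (x j) • ContinuousLinearMap.proj (R := ℝ)
      (φ := fun _ : Fin 3 => ℝ) j) x := h2
  unfold pd
  rw [h3.fderiv]
  simp only [_root_.smul_apply, ContinuousLinearMap.proj_apply, smul_eq_mul]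
  split_ifs with h
  · subst h
    rw [Pi.single_eq_same, mul_one]
  · rw [Pi.single_eq_of_ne (fun h' => h h'.symm), mul_zero]

theorem lap_coord {g g' g'' : ℝ → ℝ} (hg : ∀ s, HasDerivAt g (g' s) s)
    (hg' : ∀ s, HasDerivAt g' (g'' s) s) (j : Fin 3) (x : V) :
    lap (fun y : V => g (y j)) x = g'' (x j) := by
  unfold lap
  rw [Finset.sum_eq_single j]
  · have : pd j (fun y : V => g (y j)) = fun y => g' (y j) := by
      funext y
      rw [pd_coord hg, if_pos rfl]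
    rw [this, pd_coord hg', if_pos rfl]
  · intro i _ hij
    have : pd i (fun y : V => g (y j)) = fun _ => 0 := by
      funext y
      rw [pd_coord hg, if_neg hij]
    rw [this]
    exact Pool.Agent.W135.MD.pd_const' 0 i x
  · intro h
    exact absurd (Finset.mem_univ j) h

/-- The derivative of `Qf`. -/
noncomputable def Q1 (c s : ℝ) : ℝ :=
  2 * Real.sin (Real.pi * (s - c)) * Real.cos (Real.pi * (s - c)) / Real.pi

theorem Qf_hd (c s : ℝ) : HasDerivAt (Qf c) (Q1 c s) s := by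
  have h0 : HasDerivAt (fun s : ℝ => Real.pi * (s - c)) Real.pi s := by
    simpa using ((hasDerivAt_id s).sub_const c).const_mul Real.pi
  have h1 := (h0.sin.pow 2).div_const (Real.pi ^ 2)
  unfold Qf
  refine h1.congr_deriv ?_
  unfold Q1
  have := Real.pi_ne_zero
  field_simp
  ring

theorem Q1_hd (c s : ℝ) : HasDerivAt (Q1 c) (2 - 4 * Real.pi ^ 2 * Qf c s) s := by
  have h0 : HasDerivAt (fun s : ℝ => Real.pi * (s - c)) Real.pi s := by
    simpa using ((hasDerivAt_id s).sub_const c).const_mul Real.pi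
  have h1 := (((h0.sin.const_mul 2).mul h0.cos)).div_const Real.pi
  unfold Q1
  refine h1.congr_deriv ?_
  unfold Qf
  have := Real.pi_ne_zero
  have h3 := Real.sin_sq_add_cos_sq (Real.pi * (s - c))
  field_simp
  nlinarith

theorem Q1_sq (c s : ℝ) : Q1 c s ^ 2 = 4 * Qf c s * (1 - Real.pi ^ 2 * Qf c s) := by
  unfold Q1 Qf
  have := Real.pi_ne_zero
  have h3 := Real.sin_sq_add_cos_sq (Real.pi * (s - c))
  have h4 : Real.cos (Real.pi * (s - c)) ^ 2 = 1 - Real.sin (Real.pi * (s - c)) ^ 2 := by linarith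
  field_simp
  rw [h4]
  ring

theorem Qf_per (c s : ℝ) : Qf c (s + 1) = Qf c s := by
  unfold Qf
  have : Real.pi * (s + 1 - c) = Real.pi * (s - c) + Real.pi := by ring
  rw [this, Real.sin_add_pi, neg_sq]

/-- The weight in the variable `s = xⱼ`, at the distance `τ` from the final time. -/
noncomputable def w1 (c τ s : ℝ) : ℝ :=
  Real.exp (Real.pi ^ 2 * τ) * (√τ)⁻¹ * Real.exp (-(Qf c s / (4 * τ)))

/-- The weight. -/
noncomputable def wt (j : Fin 3) (c a t : ℝ) (x : V) : ℝ := w1 c (a - t) (x j)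

theorem w1_hs {c τ : ℝ} (s : ℝ) :
    HasDerivAt (w1 c τ) (-(Q1 c s / (4 * τ)) * w1 c τ s) s := by
  have h1 := (((Qf_hd c s).div_const (4 * τ)).neg.exp).const_mul
    (Real.exp (Real.pi ^ 2 * τ) * (√τ)⁻¹)
  refine h1.congr_deriv ?_
  unfold w1
  show Real.exp (Real.pi ^ 2 * τ) * (√τ)⁻¹ * (Real.exp (-(Qf c s / (4 * τ)))
    * -(Q1 c s / (4 * τ))) = _
  ring

theorem w1_hss {c τ : ℝ} (hτ : 0 < τ) (s : ℝ) :
    HasDerivAt (fun s => -(Q1 c s / (4 * τ)) * w1 c τ s)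
      ((-(1 / (2 * τ)) + Real.pi ^ 2 * Qf c s / τ + Qf c s / (4 * τ ^ 2)
        - Real.pi ^ 2 * Qf c s ^ 2 / (4 * τ ^ 2)) * w1 c τ s) s := by
  have h1 := (((Q1_hd c s).div_const (4 * τ)).neg).mul (w1_hs (c := c) (τ := τ) s)
  refine h1.congr_deriv ?_
  have h2 := Q1_sq c s
  have e : -((2 - 4 * Real.pi ^ 2 * Qf c s) / (4 * τ)) * w1 c τ s
      + -(Q1 c s / (4 * τ)) * (-(Q1 c s / (4 * τ)) * w1 c τ s)
      = (-((2 - 4 * Real.pi ^ 2 * Qf c s) / (4 * τ)) + Q1 c s ^ 2 / (16 * τ ^ 2)) * w1 c τ s := by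
    field_simp
    ring
  show -((2 - 4 * Real.pi ^ 2 * Qf c s) / (4 * τ)) * w1 c τ s
      + -(Q1 c s / (4 * τ)) * (-(Q1 c s / (4 * τ)) * w1 c τ s) = _
  rw [e, h2]
  field_simp
  ring

theorem w1_ht {c τ : ℝ} (hτ : 0 < τ) (s : ℝ) :
    HasDerivAt (fun τ => w1 c τ s)
      ((Real.pi ^ 2 - 1 / (2 * τ) + Qf c s / (4 * τ ^ 2)) * w1 c τ s) τ := by
  have h1 : HasDerivAt (fun τ : ℝ => Real.exp (Real.pi ^ 2 * τ))
      (Real.exp (Real.pi ^ 2 * τ) * Real.pi ^ 2) τ := by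
    have := (((hasDerivAt_id τ).const_mul (Real.pi ^ 2))).exp
    simpa using this
  have hs : 0 < √τ := Real.sqrt_pos.2 hτ
  have h2 : HasDerivAt (fun τ : ℝ => (√τ)⁻¹) (-(1 / (2 * √τ)) / (√τ) ^ 2) τ :=
    (Real.hasDerivAt_sqrt hτ.ne').fun_inv hs.ne'
  have h3 : HasDerivAt (fun τ : ℝ => -(Qf c s / (4 * τ))) (Qf c s / (4 * τ ^ 2)) τ := by
    have h4 : HasDerivAt (fun τ : ℝ => (4 * τ)⁻¹) (-(4 : ℝ) / (4 * τ) ^ 2) τ := by
      have h5 : HasDerivAt (fun τ : ℝ => 4 * τ) 4 τ := by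
        simpa using (hasDerivAt_id τ).const_mul 4
      exact h5.fun_inv (by positivity)
    have h6 := (h4.const_mul (Qf c s)).neg
    refine h6.congr_deriv ?_
    field_simp
  have h7 := (h1.mul h2).mul h3.exp
  refine h7.congr_deriv ?_
  unfold w1
  have h8 : (√τ) ^ 2 = τ := Real.sq_sqrt hτ.le
  have h9 : -(1 / (2 * √τ)) / (√τ) ^ 2 = -(1 / (2 * τ)) * (√τ)⁻¹ := by
    rw [h8]
    field_simp
  show (Real.exp (Real.pi ^ 2 * τ) * Real.pi ^ 2 * (√τ)⁻¹
    + Real.exp (Real.pi ^ 2 * τ) * (-(1 / (2 * √τ)) / (√τ) ^ 2)) * Real.exp (-(Qf c s / (4 * τ)))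
    + Real.exp (Real.pi ^ 2 * τ) * (√τ)⁻¹ * (Real.exp (-(Qf c s / (4 * τ)))
      * (Qf c s / (4 * τ ^ 2))) = _
  rw [h9]
  ring

theorem w1_nn (c τ s : ℝ) : 0 ≤ w1 c τ s := by unfold w1; positivity

theorem wt_nn (j : Fin 3) (c a t : ℝ) (x : V) : 0 ≤ wt j c a t x := w1_nn _ _ _

theorem wt_per (j : Fin 3) (c a t : ℝ) : Per (wt j c a t) := by
  intro i x
  unfold wt w1
  by_cases h : j = i
  · subst h
    simp only [Pi.add_apply, Pi.single_eq_same, Qf_per]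
  · simp only [Pi.add_apply, Pi.single_eq_of_ne h, add_zero]

theorem Qf_sm (c : ℝ) : ContDiff ℝ ∞ (Qf c) := by
  unfold Qf
  exact ((Real.contDiff_sin.comp (contDiff_const.mul (contDiff_id.sub contDiff_const))).pow
    2).div_const _

theorem wt_sm (j : Fin 3) (c a α : ℝ) :
    ContDiffOn ℝ ∞ (fun z : ℝ × V => wt j c a z.1 z.2) (Ioo α a ×ˢ univ) := by
  intro z hz
  have h0 : a - z.1 ≠ 0 := (sub_pos.2 hz.1.2).ne'
  refine ContDiffAt.contDiffWithinAt ?_
  unfold wt w1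
  have h1 : ContDiffAt ℝ ∞ (fun z : ℝ × V => a - z.1) z := contDiffAt_const.sub contDiffAt_fst
  have h2 : ContDiffAt ℝ ∞ (fun z : ℝ × V => √(a - z.1)) z := h1.sqrt h0
  have h3 : ContDiffAt ℝ ∞ (fun z : ℝ × V => Qf c (z.2 j)) z := by
    have : ContDiff ℝ ∞ (fun z : ℝ × V => z.2 j) :=
      (contDiff_apply ℝ ℝ j).comp contDiff_snd
    exact ((Qf_sm c).comp this).contDiffAt
  exact ((Real.contDiff_exp.contDiffAt.comp z (contDiffAt_const.mul h1)).mul
    (h2.inv (Real.sqrt_ne_zero'.2 (sub_pos.2 hz.1.2)))).mul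
    (Real.contDiff_exp.contDiffAt.comp z (h3.div (contDiffAt_const.mul h1)
      (by simpa using h0)).neg)

theorem wt_heat {j : Fin 3} {c a t : ℝ} (ht : t < a) (x : V) :
    deriv (fun s => wt j c a s x) t + lap (wt j c a t) x ≤ 0 := by
  have hτ : 0 < a - t := sub_pos.2 ht
  have h1 : HasDerivAt (fun s => wt j c a s x) (-((Real.pi ^ 2 - 1 / (2 * (a - t))
      + Qf c (x j) / (4 * (a - t) ^ 2)) * w1 c (a - t) (x j))) t := by
    have h2 : HasDerivAt (fun s : ℝ => a - s) (-1) t := by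
      simpa using (hasDerivAt_id t).const_sub a
    have h3 := (w1_ht (c := c) hτ (x j)).comp t h2
    refine h3.congr_deriv ?_
    ring
  have h2 : lap (wt j c a t) x = _ := lap_coord (w1_hs (c := c) (τ := a - t)) (w1_hss hτ) j x
  rw [h1.deriv, h2]
  set τ := a - t
  set Q := Qf c (x j)
  have h5 := w1_nn c τ (x j)
  set W := w1 c τ (x j)
  have : -((Real.pi ^ 2 - 1 / (2 * τ) + Q / (4 * τ ^ 2)) * W)
      + (-(1 / (2 * τ)) + Real.pi ^ 2 * Q / τ + Q / (4 * τ ^ 2)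
        - Real.pi ^ 2 * Q ^ 2 / (4 * τ ^ 2)) * W
      = -(Real.pi ^ 2 * (1 - Q / (2 * τ)) ^ 2 * W) := by
    field_simp
    ring
  rw [this]
  have : 0 ≤ Real.pi ^ 2 * (1 - Q / (2 * τ)) ^ 2 * W := by positivity
  linarith

theorem wt_pd {j : Fin 3} {c a t : ℝ} (i : Fin 3) (x : V) :
    pd i (wt j c a t) x = if i = j then -(Q1 c (x j) / (4 * (a - t))) * w1 c (a - t) (x j)
      else 0 :=
  pd_coord (w1_hs (c := c) (τ := a - t)) i j x

theorem Q1_le (c s : ℝ) : |Q1 c s| ≤ 2 * √(Qf c s) := by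
  have h0 := Qf_nonneg c s
  rw [show (2 : ℝ) * √(Qf c s) = √(4 * Qf c s) by
    rw [Real.sqrt_mul (by norm_num), show (4 : ℝ) = 2 ^ 2 by norm_num,
      Real.sqrt_sq (by norm_num)]]
  refine Real.abs_le_sqrt ?_
  rw [Q1_sq]
  have : 0 ≤ 4 * Qf c s * (Real.pi ^ 2 * Qf c s) := by positivity
  nlinarith

/-- The bound of the flux weight. -/
theorem wt_pdj {j : Fin 3} {c a t : ℝ} (ht : t < a) (ht2 : a - t ≤ 2) (x : V) :
    |pd j (wt j c a t) x| ≤ 8 * Real.exp (2 * Real.pi ^ 2) / ((a - t) + Qf c (x j)) := by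
  have hτ : 0 < a - t := sub_pos.2 ht
  rw [wt_pd, if_pos rfl]
  set τ := a - t
  have hQ := Qf_nonneg c (x j)
  have h1 := Q1_le c (x j)
  set Q := Qf c (x j) with hQdef
  rw [abs_mul, abs_neg, abs_div, abs_of_pos (by positivity : 0 < 4 * τ),
    abs_of_nonneg (w1_nn c τ (x j))]
  rw [le_div_iff₀ (by positivity)]
  set y := Q / τ with hy
  have hy0 : 0 ≤ y := by positivity
  have hQy : Q = τ * y := by rw [hy]; field_simp
  have hsτ : 0 < √τ := Real.sqrt_pos.2 hτ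
  have e1 : w1 c τ (x j) ≤ Real.exp (2 * Real.pi ^ 2) * (√τ)⁻¹ * Real.exp (-(y / 4)) := by
    unfold w1
    have h3 : Real.exp (Real.pi ^ 2 * τ) ≤ Real.exp (2 * Real.pi ^ 2) := by
      apply Real.exp_le_exp.2
      have := sq_nonneg Real.pi
      nlinarith
    have h4 : -(Qf c (x j) / (4 * τ)) = -(y / 4) := by
      rw [hy, ← hQdef]
      field_simp
    rw [h4]
    gcongr
  have e2 : (1 + y) * √y * Real.exp (-(y / 4)) ≤ 16 := by
    have h5 := Real.quadratic_le_exp_of_nonneg (x := y / 4) (by positivity)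
    have h6 : √y ≤ (1 + y) / 2 := by
      have := Real.sq_sqrt hy0
      nlinarith [sq_nonneg (√y - 1)]
    rw [Real.exp_neg, ← div_eq_mul_inv, div_le_iff₀ (Real.exp_pos _)]
    have h7 : (1 + y) * √y ≤ (1 + y) * ((1 + y) / 2) := by
      apply mul_le_mul_of_nonneg_left h6 (by positivity)
    nlinarith
  have e3 : |Q1 c (x j)| ≤ 2 * (√τ * √y) := by
    rw [← Real.sqrt_mul hτ.le, ← hQy]
    exact h1
  calc |Q1 c (x j)| / (4 * τ) * w1 c τ (x j) * (τ + Q)
      ≤ (2 * (√τ * √y)) / (4 * τ) * (Real.exp (2 * Real.pi ^ 2) * (√τ)⁻¹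
          * Real.exp (-(y / 4))) * (τ + Q) := by
        have := w1_nn c τ (x j)
        gcongr
    _ = (1 / 2) * Real.exp (2 * Real.pi ^ 2) * ((1 + y) * √y * Real.exp (-(y / 4))) := by
        rw [hQy]
        field_simp
        ring
    _ ≤ (1 / 2) * Real.exp (2 * Real.pi ^ 2) * 16 := by gcongr
    _ = 8 * Real.exp (2 * Real.pi ^ 2) := by ring

/-- The lower bound of the weight. -/
theorem wt_low {j : Fin 3} {c a t R : ℝ} (hR : 0 < R) (h1 : R ^ 2 ≤ a - t)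
    (h2 : a - t ≤ 2 * R ^ 2) {x : V} (hx : x ∈ Sb j c R) : 1 ≤ 2 * R * wt j c a t x := by
  unfold wt w1
  have hx' : Qf c (x j) < R ^ 2 := hx
  set τ := a - t
  have hR2 : 0 < R ^ 2 := by positivity
  have hτ : 0 < τ := hR2.trans_le h1
  have e1 : 1 ≤ Real.exp (Real.pi ^ 2 * τ) := Real.one_le_exp (by positivity)
  have e2 : Real.exp (-(1 / 4)) ≤ Real.exp (-(Qf c (x j) / (4 * τ))) := by
    apply Real.exp_le_exp.2
    rw [neg_le_neg_iff, div_le_div_iff₀ (by positivity) (by norm_num)]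
    linarith
  have e3 : (3 : ℝ) / 4 ≤ Real.exp (-(1 / 4)) := by
    have := Real.add_one_le_exp (-(1 / 4) : ℝ)
    linarith
  have e4 : 1 ≤ 3 / 2 * (R * (√τ)⁻¹) := by
    have h5 : √τ ≤ √(2 * R ^ 2) := Real.sqrt_le_sqrt h2
    have h6 : √(2 * R ^ 2) ≤ 3 / 2 * R := by
      rw [show (3 : ℝ) / 2 * R = √((3 / 2 * R) ^ 2) by rw [Real.sqrt_sq (by positivity)]]
      apply Real.sqrt_le_sqrt
      nlinarith
    have h7 : 0 < √τ := Real.sqrt_pos.2 hτ
    rw [← mul_assoc, ← div_eq_mul_inv, le_div_iff₀ h7, one_mul]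
    exact h5.trans h6
  have h8 : 0 ≤ R * (√τ)⁻¹ := by positivity
  calc (1 : ℝ) ≤ 3 / 2 * (R * (√τ)⁻¹) := e4
    _ = 2 * R * (1 * (√τ)⁻¹ * (3 / 4)) := by ring
    _ ≤ 2 * R * (Real.exp (Real.pi ^ 2 * τ) * (√τ)⁻¹ * Real.exp (-(Qf c (x j) / (4 * τ)))) := by
        gcongr
        exact e3.trans e2

end Pool.Agent.Helper30K1
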